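import Mathlib

/-! Melchior's inequality for finite sets of points of the real plane, by a rotation argument. -/

namespace Pool.Agent.Helper543.Melchior

open Finset

noncomputable section

open scoped Classical

/-- points of the plane -/
abbrev Pt := ℝ × ℝ

/-- twice the signed area of the triangle `a b c` -/
def cr (a b c : Pt) : ℝ := (b.1 - a.1) * (c.2 - a.2) - (b.2 - a.2) * (c.1 - a.1)

/-- cross product of vectors -/
def cross (u v : Pt) : ℝ := u.1 * v.2 - u.2 * v.1

/-- points of `S` on the line through `a` and `b` -/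
def lineOf (S : Finset Pt) (a b : Pt) : Finset Pt := S.filter (fun x => cr a b x = 0)

/-- the lines (as subsets of `S`) determined by `S` -/
def lines (S : Finset Pt) : Finset (Finset Pt) :=
  S.offDiag.image (fun ab => lineOf S ab.1 ab.2)

/-- a linear functional -/
def fn (t : ℝ) (x : Pt) : ℝ := x.1 + t * x.2

def sg (s : Bool) : ℝ := if s then 1 else -1

lemma cr_self_left (a b : Pt) : cr a b a = 0 := by simp [cr]

lemma cr_self_right (a b : Pt) : cr a b b = 0 := by simp [cr]; ring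

lemma cr_swap (a b c : Pt) : cr b a c = - cr a b c := by simp [cr]; ring

lemma exists_param {a b x : Pt} (hab : a ≠ b) (h : cr a b x = 0) :
    ∃ s : ℝ, x.1 - a.1 = s * (b.1 - a.1) ∧ x.2 - a.2 = s * (b.2 - a.2) := by
  have hd : 0 < (b.1 - a.1) ^ 2 + (b.2 - a.2) ^ 2 := by
    by_contra hcon
    have h1 : (b.1 - a.1) ^ 2 = 0 := by nlinarith [sq_nonneg (b.1 - a.1), sq_nonneg (b.2 - a.2)]
    have h2 : (b.2 - a.2) ^ 2 = 0 := by nlinarith [sq_nonneg (b.1 - a.1), sq_nonneg (b.2 - a.2)]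
    apply hab
    ext
    · have := pow_eq_zero_iff (n := 2) (by norm_num) |>.1 h1; linarith
    · have := pow_eq_zero_iff (n := 2) (by norm_num) |>.1 h2; linarith
  simp only [cr] at h
  refine ⟨((x.1 - a.1) * (b.1 - a.1) + (x.2 - a.2) * (b.2 - a.2)) /
    ((b.1 - a.1) ^ 2 + (b.2 - a.2) ^ 2), ?_, ?_⟩
  · rw [div_mul_eq_mul_div, eq_div_iff hd.ne']
    linear_combination (-(b.2 - a.2)) * h
  · rw [div_mul_eq_mul_div, eq_div_iff hd.ne']
    linear_combination (b.1 - a.1) * h

/-- on a line, replacing the pair of base points scales `cr` -/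
lemma cr_param {a b x y : Pt} {s t : ℝ} (hx1 : x.1 - a.1 = s * (b.1 - a.1))
    (hx2 : x.2 - a.2 = s * (b.2 - a.2)) (hy1 : y.1 - a.1 = t * (b.1 - a.1))
    (hy2 : y.2 - a.2 = t * (b.2 - a.2)) (z : Pt) : cr x y z = (t - s) * cr a b z := by
  have e1 : x.1 = a.1 + s * (b.1 - a.1) := by linarith
  have e2 : x.2 = a.2 + s * (b.2 - a.2) := by linarith
  have e3 : y.1 = a.1 + t * (b.1 - a.1) := by linarith
  have e4 : y.2 = a.2 + t * (b.2 - a.2) := by linarith
  simp only [cr, e1, e2, e3, e4]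
  ring

lemma mem_lineOf {S : Finset Pt} {a b x : Pt} : x ∈ lineOf S a b ↔ x ∈ S ∧ cr a b x = 0 := by
  simp [lineOf]

lemma lineOf_eq {S : Finset Pt} {a b x y : Pt} (hab : a ≠ b) (hx : cr a b x = 0)
    (hy : cr a b y = 0) (hxy : x ≠ y) : lineOf S x y = lineOf S a b := by
  obtain ⟨s, hs1, hs2⟩ := exists_param hab hx
  obtain ⟨t, ht1, ht2⟩ := exists_param hab hy
  have hst : t - s ≠ 0 := by
    intro h
    have : t = s := by linarith
    subst this
    apply hxy
    ext <;> linarith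
  ext z
  rw [mem_lineOf, mem_lineOf, cr_param hs1 hs2 ht1 ht2 z]
  simp [hst]

lemma lineOf_mem_lines {S : Finset Pt} {a b : Pt} (ha : a ∈ S) (hb : b ∈ S) (hab : a ≠ b) :
    lineOf S a b ∈ lines S := by
  simp only [lines, mem_image]
  exact ⟨(a, b), by simp [ha, hb, hab], rfl⟩

lemma eq_lineOf {S M : Finset Pt} (hM : M ∈ lines S) {x y : Pt} (hx : x ∈ M) (hy : y ∈ M)
    (hxy : x ≠ y) : M = lineOf S x y := by
  simp only [lines, mem_image, mem_offDiag] at hM
  obtain ⟨⟨a, b⟩, ⟨_, _, hab⟩, rfl⟩ := hM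
  simp only at hx hy hab ⊢
  rw [mem_lineOf] at hx hy
  exact (lineOf_eq hab hx.2 hy.2 hxy).symm

lemma line_subset {S M : Finset Pt} (hM : M ∈ lines S) : M ⊆ S := by
  simp only [lines, mem_image] at hM
  obtain ⟨⟨a, b⟩, _, rfl⟩ := hM
  exact filter_subset _ _

lemma exists_two {S M : Finset Pt} (hM : M ∈ lines S) : ∃ a ∈ M, ∃ b ∈ M, a ≠ b := by
  simp only [lines, mem_image, mem_offDiag] at hM
  obtain ⟨⟨a, b⟩, ⟨ha, hb, hab⟩, rfl⟩ := hM
  exact ⟨a, mem_lineOf.2 ⟨ha, cr_self_left _ _⟩, b, mem_lineOf.2 ⟨hb, cr_self_right _ _⟩, hab⟩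

/-- `w` is the first direction met when the line `a b` is rotated -/
def Good (S : Finset Pt) (a b w : Pt) : Prop :=
  0 < cross (b - a) w ∧ ∀ d ∈ S,
    (0 < cr a b d → 0 ≤ cross w (d - a) ∧ 0 ≤ cross w (d - b)) ∧
    (cr a b d < 0 → cross w (d - a) ≤ 0 ∧ cross w (d - b) ≤ 0)

lemma Good.symm {S : Finset Pt} {a b w : Pt} (h : Good S a b w) : Good S b a (-w) := by
  obtain ⟨h1, h2⟩ := h
  have hneg : ∀ v : Pt, cross (-w) v = - cross w v := by
    intro v; simp [cross]; ring
  refine ⟨?_, ?_⟩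
  · have : cross (a - b) (-w) = cross (b - a) w := by simp [cross]; ring
    rw [this]; exact h1
  · intro d hd
    obtain ⟨h3, h4⟩ := h2 d hd
    rw [cr_swap, hneg, hneg]
    refine ⟨fun h => ?_, fun h => ?_⟩
    · obtain ⟨h5, h6⟩ := h4 (by linarith)
      exact ⟨by linarith, by linarith⟩
    · obtain ⟨h5, h6⟩ := h3 (by linarith)
      exact ⟨by linarith, by linarith⟩

lemma lagrange (u v w : Pt) : cross w v * (u.1 ^ 2 + u.2 ^ 2) =
    (u.1 * w.1 + u.2 * w.2) * cross u v - (u.1 * v.1 + u.2 * v.2) * cross u w := by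
  simp only [cross]; ring

lemma cross_nonneg_of {u v w : Pt} (hu : 0 < u.1 ^ 2 + u.2 ^ 2) (hv : 0 < cross u v)
    (hw : 0 < cross u w) (h : (u.1 * v.1 + u.2 * v.2) / cross u v ≤
      (u.1 * w.1 + u.2 * w.2) / cross u w) : 0 ≤ cross w v := by
  rw [div_le_div_iff₀ hv hw] at h
  have := lagrange u v w
  by_contra hcon
  have h2 : cross w v * (u.1 ^ 2 + u.2 ^ 2) < 0 := mul_neg_of_neg_of_pos (not_le.1 hcon) hu
  linarith

/-- the vectors compared in the rotation -/
def vec (a b e c : Pt) : Pt := if 0 < cr a b c then c - e else e - c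

lemma exists_good {S : Finset Pt} {a b : Pt} (hab : a ≠ b)
    (hS : ∃ c ∈ S, cr a b c ≠ 0) : ∃ w c, Good S a b w ∧ c ∈ S ∧ cr a b c ≠ 0 ∧
      (cross w (c - a) = 0 ∨ cross w (c - b) = 0) := by
  have hu : 0 < (b - a).1 ^ 2 + (b - a).2 ^ 2 := by
    by_contra hcon
    have h1 : (b - a).1 ^ 2 = 0 := by nlinarith [sq_nonneg (b - a).1, sq_nonneg (b - a).2]
    have h2 : (b - a).2 ^ 2 = 0 := by nlinarith [sq_nonneg (b - a).1, sq_nonneg (b - a).2]
    apply hab
    have h1' := pow_eq_zero_iff (n := 2) (by norm_num) |>.1 h1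
    have h2' := pow_eq_zero_iff (n := 2) (by norm_num) |>.1 h2
    simp only [Prod.fst_sub, Prod.snd_sub] at h1' h2'
    ext <;> linarith
  set u : Pt := b - a with hudef
  set T := S.filter (fun c => cr a b c ≠ 0) with hT
  have hTne : T.Nonempty := by
    obtain ⟨c, hc, hc'⟩ := hS
    exact ⟨c, by simp [hT, hc, hc']⟩
  have hcra : ∀ c : Pt, cross u (c - a) = cr a b c := by
    intro c; simp [cross, cr, hudef]
  have hcrb : ∀ c : Pt, cross u (c - b) = cr a b c := by
    intro c; simp [cross, cr, hudef]; ring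
  have hneg : ∀ x y : Pt, cross u (x - y) = - cross u (y - x) := by
    intro x y; simp [cross]; ring
  have hneg' : ∀ w x y : Pt, cross w (x - y) = - cross w (y - x) := by
    intro w x y; simp [cross]; ring
  have hpa : ∀ c ∈ T, 0 < cross u (vec a b a c) := by
    intro c hc
    simp only [hT, mem_filter] at hc
    unfold vec
    split_ifs with h
    · rw [hcra]; exact h
    · rw [hneg, hcra]
      have : cr a b c < 0 := lt_of_le_of_ne (not_lt.1 h) hc.2
      linarith
  have hpb : ∀ c ∈ T, 0 < cross u (vec a b b c) := by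
    intro c hc
    simp only [hT, mem_filter] at hc
    unfold vec
    split_ifs with h
    · rw [hcrb]; exact h
    · rw [hneg, hcrb]
      have : cr a b c < 0 := lt_of_le_of_ne (not_lt.1 h) hc.2
      linarith
  let κ : Pt → ℝ := fun v => (u.1 * v.1 + u.2 * v.2) / cross u v
  obtain ⟨c1, hc1, hm1⟩ := T.exists_max_image (fun c => κ (vec a b a c)) hTne
  obtain ⟨c2, hc2, hm2⟩ := T.exists_max_image (fun c => κ (vec a b b c)) hTne
  -- final assembly for a chosen w
  have key : ∀ w : Pt, 0 < cross u w → (∀ c ∈ T, κ (vec a b a c) ≤ κ w) →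
      (∀ c ∈ T, κ (vec a b b c) ≤ κ w) → Good S a b w := by
    intro w hw ha hb
    refine ⟨hw, fun d hd => ⟨fun h => ?_, fun h => ?_⟩⟩
    · have hdT : d ∈ T := by simp [hT, hd, h.ne']
      have e1 := cross_nonneg_of hu (hpa d hdT) hw (ha d hdT)
      have e2 := cross_nonneg_of hu (hpb d hdT) hw (hb d hdT)
      simp only [vec, if_pos h] at e1 e2
      exact ⟨e1, e2⟩
    · have hdT : d ∈ T := by simp [hT, hd, h.ne]
      have e1 := cross_nonneg_of hu (hpa d hdT) hw (ha d hdT)
      have e2 := cross_nonneg_of hu (hpb d hdT) hw (hb d hdT)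
      simp only [vec, if_neg (not_lt.2 h.le)] at e1 e2
      rw [hneg'] at e1 e2
      exact ⟨by linarith, by linarith⟩
  rcases le_total (κ (vec a b b c2)) (κ (vec a b a c1)) with h | h
  · refine ⟨vec a b a c1, c1, key _ (hpa c1 hc1) hm1 (fun c hc => (hm2 c hc).trans h), ?_, ?_, ?_⟩
    · exact (mem_filter.1 hc1).1
    · exact (mem_filter.1 hc1).2
    · left
      unfold vec
      split_ifs
      · simp [cross]; ring
      · simp [cross]; ring
  · refine ⟨vec a b b c2, c2, key _ (hpb c2 hc2) (fun c hc => (hm1 c hc).trans h) hm2, ?_, ?_, ?_⟩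
    · exact (mem_filter.1 hc2).1
    · exact (mem_filter.1 hc2).2
    · right
      unfold vec
      split_ifs
      · simp [cross]; ring
      · simp [cross]; ring

/-- relation between a visible pair and an oriented line -/
def Rel (S : Finset Pt) (t : ℝ) (a b : Pt) (M : Finset Pt) (s : Bool) : Prop :=
  ∃ p q x : Pt, ((p = a ∧ q = b) ∨ (p = b ∧ q = a)) ∧ p ∈ M ∧ x ∈ M ∧ q ∈ S ∧
    0 < sg s * (fn t x - fn t p) ∧
    (∀ y ∈ M, y ≠ p → 0 < sg s * (fn t y - fn t p)) ∧ cr p x q < 0 ∧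
    ∀ d ∈ S, cr p x d < 0 → cr p x d ≤ cr p x q ∧
      (cr p x d = cr p x q → sg s * (fn t d - fn t q) ≤ 0)

lemma param_of_cross {w v : Pt} (hw : w ≠ 0) (h : cross w v = 0) :
    ∃ l : ℝ, v.1 = l * w.1 ∧ v.2 = l * w.2 := by
  have hw' : (0 : Pt) ≠ w := hw.symm
  have : cr 0 w v = 0 := by simp [cr]; simpa [cross] using h
  obtain ⟨s, hs1, hs2⟩ := exists_param hw' this
  exact ⟨s, by simpa using hs1, by simpa using hs2⟩

lemma main_rel {S : Finset Pt} {t : ℝ}
    (hinj : ∀ x ∈ S, ∀ y ∈ S, fn t x = fn t y → x = y)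
    {p q w c : Pt} (hp : p ∈ S) (hpq : p ≠ q) (hg : Good S p q w)
    (hvis : ∀ d ∈ S, ∀ α : ℝ, 0 < α → α < 1 →
      ¬ (d.1 - p.1 = α * (q.1 - p.1) ∧ d.2 - p.2 = α * (q.2 - p.2)))
    (hc : c ∈ S) (hc0 : cr p q c ≠ 0) (hcw : cross w (c - p) = 0) :
    ∃ s : Bool, ∃ x ∈ lineOf S p c, 0 < sg s * (fn t x - fn t p) ∧
    (∀ y ∈ lineOf S p c, y ≠ p → 0 < sg s * (fn t y - fn t p)) ∧ cr p x q < 0 ∧
    ∀ d ∈ S, cr p x d < 0 → cr p x d ≤ cr p x q ∧
      (cr p x d = cr p x q → sg s * (fn t d - fn t q) ≤ 0) := by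
  obtain ⟨hk, hg⟩ := hg
  have hw0 : w ≠ 0 := by
    rintro rfl
    simp [cross] at hk
  have hcp : c ≠ p := by
    rintro rfl
    exact hc0 (cr_self_left _ _)
  have hκ : cross w (q - p) = - cross (q - p) w := by simp [cross]; ring
  -- all points of the line are in positive direction
  have claimA : ∀ y ∈ S, y ≠ p → cross w (y - p) = 0 →
      ∃ l : ℝ, 0 < l ∧ y.1 - p.1 = l * w.1 ∧ y.2 - p.2 = l * w.2 := by
    intro y hy hyp hyw
    obtain ⟨l, hl1, hl2⟩ := param_of_cross hw0 hyw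
    simp only [Prod.fst_sub, Prod.snd_sub] at hl1 hl2
    refine ⟨l, ?_, hl1, hl2⟩
    by_contra hl
    have hl0 : l ≠ 0 := by
      rintro rfl
      apply hyp
      ext <;> linarith
    have hlneg : l < 0 := lt_of_le_of_ne (not_lt.1 hl) hl0
    have hcr : cr p q y = l * cross (q - p) w := by
      simp only [cr, cross, Prod.fst_sub, Prod.snd_sub, hl1, hl2]; ring
    have h1 : cr p q y < 0 := by rw [hcr]; exact mul_neg_of_neg_of_pos hlneg hk
    have h2 := ((hg y hy).2 h1).2
    have h3 : cross w (y - q) = cross w (y - p) - cross w (q - p) := by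
      simp [cross]; ring
    rw [h3, hyw, hκ] at h2
    linarith
  obtain ⟨l0, hl0, hc1, hc2⟩ := claimA c hc hcp hcw
  have hfw : fn t w ≠ 0 := by
    intro h0
    apply hcp
    apply hinj c hc p hp
    have : fn t c - fn t p = l0 * fn t w := by
      simp only [fn]; linear_combination hc1 + t * hc2
    rw [h0] at this
    linarith
  -- sign
  set s : Bool := decide (0 < fn t w) with hs
  have hsg : 0 < sg s * fn t w := by
    by_cases h : 0 < fn t w
    · simp [hs, sg, h]
    · have : fn t w < 0 := lt_of_le_of_ne (not_lt.1 h) hfw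
      simp [hs, sg, h]
      exact this
  have hfl : ∀ y : Pt, ∀ z : Pt, ∀ l : ℝ, y.1 - z.1 = l * w.1 → y.2 - z.2 = l * w.2 →
      sg s * (fn t y - fn t z) = l * (sg s * fn t w) := by
    intro y z l h1 h2
    have : fn t y - fn t z = l * fn t w := by
      simp only [fn]; linear_combination h1 + t * h2
    rw [this]; ring
  have hcrc : ∀ d : Pt, cr p c d = l0 * cross w (d - p) := by
    intro d
    simp only [cr, cross, Prod.fst_sub, Prod.snd_sub, hc1, hc2]; ring
  refine ⟨s, c, mem_lineOf.2 ⟨hc, cr_self_right _ _⟩, ?_, ?_, ?_, ?_⟩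
  · rw [hfl c p l0 hc1 hc2]; positivity
  · intro y hy hyp
    rw [mem_lineOf] at hy
    have hyw : cross w (y - p) = 0 := by
      have := hcrc y
      rw [hy.2] at this
      rcases mul_eq_zero.1 this.symm with h | h
      · exact absurd h hl0.ne'
      · exact h
    obtain ⟨l, hl, hy1, hy2⟩ := claimA y hy.1 hyp hyw
    rw [hfl y p l hy1 hy2]; positivity
  · rw [hcrc, hκ]
    have : 0 < l0 * cross (q - p) w := by positivity
    linarith
  · intro d hd hdneg
    rw [hcrc] at hdneg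
    have hdneg' : cross w (d - p) < 0 := by
      by_contra hcon
      have : 0 ≤ l0 * cross w (d - p) := mul_nonneg hl0.le (not_lt.1 hcon)
      linarith
    rw [hcrc, hcrc, hκ]
    have hmain : cross w (d - p) ≤ - cross (q - p) w ∧
        (cross w (d - p) = - cross (q - p) w → sg s * (fn t d - fn t q) ≤ 0) := by
      rcases lt_trichotomy (cr p q d) 0 with h | h | h
      · -- d on the negative side
        have h2 := ((hg d hd).2 h).2
        have h3 : cross w (d - q) = cross w (d - p) - cross w (q - p) := by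
          simp [cross]; ring
        rw [h3, hκ] at h2
        refine ⟨by linarith, fun heq => ?_⟩
        have h4 : cross w (q - d) = 0 := by
          have : cross w (q - d) = - (cross w (d - p) - cross w (q - p)) := by
            simp [cross]; ring
          rw [this, hκ, heq]; ring
        obtain ⟨l, hl1, hl2⟩ := param_of_cross hw0 h4
        simp only [Prod.fst_sub, Prod.snd_sub] at hl1 hl2
        have hl : 0 < l := by
          have h5 : cr p q d = - (l * cross (q - p) w) := by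
            have e1 : d.1 = q.1 - l * w.1 := by linarith
            have e2 : d.2 = q.2 - l * w.2 := by linarith
            simp only [cr, cross, Prod.fst_sub, Prod.snd_sub, e1, e2]; ring
          rw [h5] at h
          by_contra hcon
          have : l * cross (q - p) w ≤ 0 := mul_nonpos_of_nonpos_of_nonneg (not_lt.1 hcon) hk.le
          linarith
        have h6 := hfl q d l hl1 hl2
        have h7 : 0 < l * (sg s * fn t w) := by positivity
        have h8 : sg s * (fn t d - fn t q) = - (sg s * (fn t q - fn t d)) := by ring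
        rw [h8, h6]; linarith
      · -- d on the line p q
        obtain ⟨α, hα1, hα2⟩ := exists_param hpq h
        have h3 : cross w (d - p) = - (α * cross (q - p) w) := by
          simp only [cross, Prod.fst_sub, Prod.snd_sub, hα1, hα2]; ring
        rw [h3] at hdneg'
        have hα : 0 < α := by
          by_contra hcon
          have : α * cross (q - p) w ≤ 0 := mul_nonpos_of_nonpos_of_nonneg (not_lt.1 hcon) hk.le
          linarith
        have hα' : 1 ≤ α := by
          by_contra hcon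
          exact hvis d hd α hα (not_le.1 hcon) ⟨hα1, hα2⟩
        rw [h3]
        refine ⟨by nlinarith, fun heq => ?_⟩
        have hα'' : α = 1 := by
          have : (α - 1) * cross (q - p) w = 0 := by linarith
          rcases mul_eq_zero.1 this with h | h
          · linarith
          · exact absurd h hk.ne'
        have hdq : d = q := by
          subst hα''
          ext <;> linarith
        rw [hdq]; simp
      · -- impossible
        have h2 := ((hg d hd).1 h).1
        linarith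
    refine ⟨?_, fun heq => hmain.2 ?_⟩
    · exact mul_le_mul_of_nonneg_left hmain.1 hl0.le
    · exact mul_left_cancel₀ hl0.ne' heq

lemma exists_rel {S : Finset Pt} {t : ℝ}
    (hinj : ∀ x ∈ S, ∀ y ∈ S, fn t x = fn t y → x = y)
    {a b : Pt} (ha : a ∈ S) (hb : b ∈ S) (hab : fn t a < fn t b)
    (hvis : ∀ x ∈ S, cr a b x = 0 → ¬ (fn t a < fn t x ∧ fn t x < fn t b))
    (hS : ∃ c ∈ S, cr a b c ≠ 0) : ∃ M ∈ lines S, ∃ s : Bool, Rel S t a b M s := by
  have hne : a ≠ b := by rintro rfl; exact lt_irrefl _ hab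
  have hv1 : ∀ d ∈ S, ∀ α : ℝ, 0 < α → α < 1 →
      ¬ (d.1 - a.1 = α * (b.1 - a.1) ∧ d.2 - a.2 = α * (b.2 - a.2)) := by
    rintro d hd α h0 h1 ⟨e1, e2⟩
    apply hvis d hd
    · simp only [cr, e1, e2]; ring
    · have : fn t d - fn t a = α * (fn t b - fn t a) := by
        simp only [fn]; linear_combination e1 + t * e2
      constructor <;> nlinarith
  have hv2 : ∀ d ∈ S, ∀ α : ℝ, 0 < α → α < 1 →
      ¬ (d.1 - b.1 = α * (a.1 - b.1) ∧ d.2 - b.2 = α * (a.2 - b.2)) := by
    rintro d hd α h0 h1 ⟨e1, e2⟩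
    apply hv1 d hd (1 - α) (by linarith) (by linarith)
    constructor <;> linarith
  obtain ⟨w, c, hg, hc, hc0, h⟩ := exists_good hne hS
  rcases h with h | h
  · obtain ⟨s, x, hx, h1, h2, h3, h4⟩ := main_rel hinj ha hne hg hv1 hc hc0 h
    have hac : a ≠ c := by rintro rfl; exact hc0 (cr_self_left _ _)
    exact ⟨lineOf S a c, lineOf_mem_lines ha hc hac, s, a, b, x, Or.inl ⟨rfl, rfl⟩,
      mem_lineOf.2 ⟨ha, cr_self_left _ _⟩, hx, hb, h1, h2, h3, h4⟩
  · have hc0' : cr b a c ≠ 0 := by rw [cr_swap]; simpa using hc0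
    have h' : cross (-w) (c - b) = 0 := by
      have : cross (-w) (c - b) = - cross w (c - b) := by simp [cross]; ring
      rw [this, h]; simp
    obtain ⟨s, x, hx, h1, h2, h3, h4⟩ := main_rel hinj hb hne.symm hg.symm hv2 hc hc0' h'
    have hbc : b ≠ c := by rintro rfl; exact hc0 (cr_self_right _ _)
    exact ⟨lineOf S b c, lineOf_mem_lines hb hc hbc, s, b, a, x, Or.inr ⟨rfl, rfl⟩,
      mem_lineOf.2 ⟨hb, cr_self_left _ _⟩, hx, ha, h1, h2, h3, h4⟩

/-- two positively oriented pairs on one line give proportional `cr` -/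
lemma pos_scale {S M : Finset Pt} {t : ℝ} {s : Bool} (hM : M ∈ lines S) {p x p' x' : Pt}
    (hp : p ∈ M) (hx : x ∈ M) (hp' : p' ∈ M) (hx' : x' ∈ M)
    (h : 0 < sg s * (fn t x - fn t p)) (h' : 0 < sg s * (fn t x' - fn t p')) :
    ∃ μ : ℝ, 0 < μ ∧ ∀ d, cr p' x' d = μ * cr p x d := by
  have hpx : p ≠ x := by rintro rfl; simp at h
  have hMe := eq_lineOf hM hp hx hpx
  rw [hMe, mem_lineOf] at hp' hx'
  obtain ⟨a, ha1, ha2⟩ := exists_param hpx hp'.2
  obtain ⟨b, hb1, hb2⟩ := exists_param hpx hx'.2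
  refine ⟨b - a, ?_, fun d => cr_param ha1 ha2 hb1 hb2 d⟩
  have e : fn t x' - fn t p' = (b - a) * (fn t x - fn t p) := by
    simp only [fn]; linear_combination hb1 - ha1 + t * (hb2 - ha2)
  rw [e] at h'
  by_contra hcon
  have h3 : (b - a) * (sg s * (fn t x - fn t p)) ≤ 0 :=
    mul_nonpos_of_nonpos_of_nonneg (not_lt.1 hcon) h.le
  have h4 : sg s * ((b - a) * (fn t x - fn t p)) = (b - a) * (sg s * (fn t x - fn t p)) := by ring
  rw [h4] at h'
  linarith

lemma sg_ne (s : Bool) : sg s ≠ 0 := by cases s <;> simp [sg]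

lemma rel_unique {S M : Finset Pt} {t : ℝ} {s : Bool} (hM : M ∈ lines S)
    (hinj : ∀ x ∈ S, ∀ y ∈ S, fn t x = fn t y → x = y)
    {a b a' b' : Pt} (hab : fn t a < fn t b) (hab' : fn t a' < fn t b')
    (h : Rel S t a b M s) (h' : Rel S t a' b' M s) : a = a' ∧ b = b' := by
  obtain ⟨p, q, x, h1, hp, hx, hq, h2, h3, h4, h5⟩ := h
  obtain ⟨p', q', x', h1', hp', hx', hq', h2', h3', h4', h5'⟩ := h'
  have hpp : p = p' := by
    by_contra hne
    have e1 := h3 p' hp' (Ne.symm hne)
    have e2 := h3' p hp hne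
    nlinarith
  subst hpp
  obtain ⟨μ, hμ, hcr⟩ := pos_scale hM hp hx hp' hx' h2 h2'
  have g1 : cr p x q' < 0 := by
    have := hcr q'
    rw [this] at h4'
    by_contra hcon
    have : 0 ≤ μ * cr p x q' := mul_nonneg hμ.le (not_lt.1 hcon)
    linarith
  have g2 := h5 q' hq' g1
  have g3 : cr p x' q < 0 := by rw [hcr]; exact mul_neg_of_pos_of_neg hμ h4
  have g4 := h5' q hq g3
  rw [hcr, hcr] at g4
  have g5 : cr p x q ≤ cr p x q' := le_of_mul_le_mul_left g4.1 hμ
  have g6 : cr p x q' = cr p x q := le_antisymm g2.1 g5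
  have g7 := g2.2 g6
  have g8 := g4.2 (by rw [g6])
  have hqq : q = q' := by
    apply hinj q hq q' hq'
    have : sg s * (fn t q' - fn t q) = 0 := by linarith
    rcases mul_eq_zero.1 this with h | h
    · exact absurd h (sg_ne s)
    · linarith
  subst hqq
  rcases h1 with ⟨e1, e2⟩ | ⟨e1, e2⟩ <;> rcases h1' with ⟨e3, e4⟩ | ⟨e3, e4⟩
  · exact ⟨e1.symm.trans e3, e2.symm.trans e4⟩
  · subst e1 e2 e3 e4; exact absurd hab (not_lt.2 hab'.le)
  · subst e1 e2 e3 e4; exact absurd hab (not_lt.2 hab'.le)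
  · exact ⟨e2.symm.trans e4, e1.symm.trans e3⟩

/-- the right hand side of the oriented line is empty -/
def Empt (S : Finset Pt) (t : ℝ) (M : Finset Pt) (s : Bool) : Prop :=
  ∀ p ∈ M, ∀ x ∈ M, 0 < sg s * (fn t x - fn t p) → ∀ d ∈ S, 0 ≤ cr p x d

lemma Rel.not_empt {S M : Finset Pt} {t : ℝ} {s : Bool} {a b : Pt}
    (h : Rel S t a b M s) : ¬ Empt S t M s := by
  obtain ⟨p, q, x, _, hp, hx, hq, h2, _, h4, _⟩ := h
  intro he
  exact absurd (he p hp x hx h2 q hq) (not_le.2 h4)

lemma hull_step {S : Finset Pt} {t ε : ℝ} {p : Pt} 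
    (hext : ∀ x ∈ S, x ≠ p → 0 < ε * (fn t x - fn t p)) (hne : ∃ x ∈ S, x ≠ p) :
    (∃ c ∈ S, c ≠ p ∧ ∀ x ∈ S, 0 ≤ cr p c x) ∧ (∃ c ∈ S, c ≠ p ∧ ∀ x ∈ S, cr p c x ≤ 0) := by
  set T := S.erase p with hT
  have hTne : T.Nonempty := by
    obtain ⟨x, hx, hxp⟩ := hne
    exact ⟨x, by simp [hT, hx, hxp]⟩
  let sl : Pt → ℝ := fun x => (x.2 - p.2) / (fn t x - fn t p)
  have hf : ∀ x ∈ T, fn t x - fn t p ≠ 0 := by
    intro x hx h0
    have := hext x (mem_of_mem_erase hx) (ne_of_mem_erase hx)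
    rw [h0] at this
    simp at this
  have hprod : ∀ x ∈ T, ∀ y ∈ T, 0 < (fn t x - fn t p) * (fn t y - fn t p) := by
    intro x hx y hy
    have h1 := hext x (mem_of_mem_erase hx) (ne_of_mem_erase hx)
    have h2 := hext y (mem_of_mem_erase hy) (ne_of_mem_erase hy)
    have h3 : 0 < (ε * (fn t x - fn t p)) * (ε * (fn t y - fn t p)) := mul_pos h1 h2
    have h4 : (ε * (fn t x - fn t p)) * (ε * (fn t y - fn t p)) =
      ε ^ 2 * ((fn t x - fn t p) * (fn t y - fn t p)) := by ring
    rw [h4] at h3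
    by_contra hcon
    have := mul_nonpos_of_nonneg_of_nonpos (sq_nonneg ε) (not_lt.1 hcon)
    linarith
  have hcr : ∀ c ∈ T, ∀ x ∈ T, cr p c x =
      ((fn t c - fn t p) * (fn t x - fn t p)) * (sl x - sl c) := by
    intro c hc x hx
    have h1 := hf c hc
    have h2 := hf x hx
    simp only [sl]
    field_simp
    simp only [cr, fn]
    ring
  constructor
  · obtain ⟨c, hc, hmin⟩ := T.exists_min_image sl hTne
    refine ⟨c, mem_of_mem_erase hc, ne_of_mem_erase hc, fun x hx => ?_⟩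
    by_cases hxp : x = p
    · rw [hxp, cr_self_left]
    · have hxT : x ∈ T := by simp [hT, hx, hxp]
      rw [hcr c hc x hxT]
      exact mul_nonneg (hprod c hc x hxT).le (sub_nonneg.2 (hmin x hxT))
  · obtain ⟨c, hc, hmax⟩ := T.exists_max_image sl hTne
    refine ⟨c, mem_of_mem_erase hc, ne_of_mem_erase hc, fun x hx => ?_⟩
    by_cases hxp : x = p
    · rw [hxp, cr_self_left]
    · have hxT : x ∈ T := by simp [hT, hx, hxp]
      rw [hcr c hc x hxT]
      exact mul_nonpos_of_nonneg_of_nonpos (hprod c hc x hxT).le (sub_nonpos.2 (hmax x hxT))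

lemma empt_of {S : Finset Pt} {t : ℝ} {s : Bool} {p c : Pt} (hp : p ∈ S) (hc : c ∈ S)
    (h : 0 < sg s * (fn t c - fn t p)) (hall : ∀ x ∈ S, 0 ≤ cr p c x) :
    lineOf S p c ∈ lines S ∧ Empt S t (lineOf S p c) s := by
  have hpc : p ≠ c := by rintro rfl; simp at h
  have hM := lineOf_mem_lines hp hc hpc
  refine ⟨hM, fun p' hp' x' hx' h' d hd => ?_⟩
  obtain ⟨μ, hμ, hcr⟩ := pos_scale hM (mem_lineOf.2 ⟨hp, cr_self_left _ _⟩)
    (mem_lineOf.2 ⟨hc, cr_self_right _ _⟩) hp' hx' h h'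
  rw [hcr]
  exact mul_nonneg hμ.le (hall d hd)

lemma three_empt {S : Finset Pt} {t : ℝ}
    (hinj : ∀ x ∈ S, ∀ y ∈ S, fn t x = fn t y → x = y)
    (hS : ∃ a ∈ S, ∃ b ∈ S, ∃ c ∈ S, cr a b c ≠ 0) :
    3 ≤ ((lines S ×ˢ (univ : Finset Bool)).filter (fun Ms => Empt S t Ms.1 Ms.2)).card := by
  obtain ⟨a, ha, b, hb, c, hc, habc⟩ := hS
  have hab : a ≠ b := by
    rintro rfl
    apply habc; simp [cr]
  have hSne : S.Nonempty := ⟨a, ha⟩
  obtain ⟨p0, hp0, hmin⟩ := S.exists_min_image (fn t) hSne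
  obtain ⟨p1, hp1, hmax⟩ := S.exists_max_image (fn t) hSne
  have hp01 : p0 ≠ p1 := by
    rintro rfl
    apply hab
    apply hinj a ha b hb
    have h1 := hmin a ha
    have h2 := hmax a ha
    have h3 := hmin b hb
    have h4 := hmax b hb
    linarith
  have hext0 : ∀ x ∈ S, x ≠ p0 → 0 < (1 : ℝ) * (fn t x - fn t p0) := by
    intro x hx hne
    have h1 := hmin x hx
    have h2 : fn t x ≠ fn t p0 := fun h => hne (hinj x hx p0 hp0 h)
    have : fn t p0 < fn t x := lt_of_le_of_ne h1 (Ne.symm h2)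
    linarith
  have hext1 : ∀ x ∈ S, x ≠ p1 → 0 < (-1 : ℝ) * (fn t x - fn t p1) := by
    intro x hx hne
    have h1 := hmax x hx
    have h2 : fn t x ≠ fn t p1 := fun h => hne (hinj x hx p1 hp1 h)
    have : fn t x < fn t p1 := lt_of_le_of_ne h1 h2
    linarith
  obtain ⟨⟨c1, hc1, hc1p, hc1a⟩, ⟨c2, hc2, hc2p, hc2a⟩⟩ := hull_step hext0 ⟨p1, hp1, hp01.symm⟩
  obtain ⟨⟨d1, hd1, hd1p, hd1a⟩, ⟨d2, hd2, hd2p, hd2a⟩⟩ := hull_step hext1 ⟨p0, hp0, hp01⟩
  -- oriented hull edges
  have E1 := empt_of (t := t) (s := true) hp0 hc1 (by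
    have := hext0 c1 hc1 hc1p; simpa [sg] using this) hc1a
  have E2 := empt_of (t := t) (s := false) hc2 hp0 (by
    have := hext0 c2 hc2 hc2p; simp only [sg]; simp; linarith) (fun x hx => by
      rw [cr_swap]; have := hc2a x hx; linarith)
  have E3 := empt_of (t := t) (s := false) hp1 hd1 (by
    have := hext1 d1 hd1 hd1p; simp only [sg]; simp; linarith) hd1a
  have E4 := empt_of (t := t) (s := true) hd2 hp1 (by
    have := hext1 d2 hd2 hd2p; simp only [sg]; simp; linarith) (fun x hx => by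
      rw [cr_swap]; have := hd2a x hx; linarith)
  set M1 := lineOf S p0 c1
  set M2 := lineOf S c2 p0
  set M3 := lineOf S p1 d1
  set M4 := lineOf S d2 p1
  set W := (lines S ×ˢ (univ : Finset Bool)).filter (fun Ms => Empt S t Ms.1 Ms.2) with hW
  have m1 : (M1, true) ∈ W := by simp [hW, E1]
  have m2 : (M2, false) ∈ W := by simp [hW, E2]
  have m3 : (M3, false) ∈ W := by simp [hW, E3]
  have m4 : (M4, true) ∈ W := by simp [hW, E4]
  have hdist : M1 ≠ M4 ∨ M2 ≠ M3 := by
    by_contra hcon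
    push Not at hcon
    obtain ⟨h14, h23⟩ := hcon
    have hp0M1 : p0 ∈ M1 := mem_lineOf.2 ⟨hp0, cr_self_left _ _⟩
    have hp1M1 : p1 ∈ M1 := by rw [h14]; exact mem_lineOf.2 ⟨hp1, cr_self_right _ _⟩
    have hp0M2 : p0 ∈ M2 := mem_lineOf.2 ⟨hp0, cr_self_right _ _⟩
    have hp1M2 : p1 ∈ M2 := by rw [h23]; exact mem_lineOf.2 ⟨hp1, cr_self_left _ _⟩
    have hf := hext0 p1 hp1 hp01.symm
    have hall : ∀ x ∈ S, cr p0 p1 x = 0 := by
      intro x hx
      apply le_antisymm
      · have := E2.2 p1 hp1M2 p0 hp0M2 (by simp only [sg]; simp; linarith) x hx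
        rw [cr_swap] at this; linarith
      · exact E1.2 p0 hp0M1 p1 hp1M1 (by simpa [sg] using hf) x hx
    apply habc
    obtain ⟨sa, ha1, ha2⟩ := exists_param hp01 (hall a ha)
    obtain ⟨sb, hb1, hb2⟩ := exists_param hp01 (hall b hb)
    rw [cr_param ha1 ha2 hb1 hb2, hall c hc, mul_zero]
  rcases hdist with h | h
  · have hsub : ({(M1, true), (M4, true), (M2, false)} : Finset (Finset Pt × Bool)) ⊆ W := by
      intro z hz
      simp only [mem_insert, mem_singleton] at hz
      rcases hz with rfl | rfl | rfl <;> assumption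
    calc 3 = ({(M1, true), (M4, true), (M2, false)} : Finset (Finset Pt × Bool)).card := by
          rw [card_insert_of_notMem, card_insert_of_notMem, card_singleton]
          · simp
          · simp [h]
      _ ≤ _ := card_le_card hsub
  · have hsub : ({(M1, true), (M2, false), (M3, false)} : Finset (Finset Pt × Bool)) ⊆ W := by
      intro z hz
      simp only [mem_insert, mem_singleton] at hz
      rcases hz with rfl | rfl | rfl <;> assumption
    calc 3 = ({(M1, true), (M2, false), (M3, false)} : Finset (Finset Pt × Bool)).card := by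
          rw [card_insert_of_notMem, card_insert_of_notMem, card_singleton]
          · simp [h]
          · simp
      _ ≤ _ := card_le_card hsub

lemma exists_fn_inj (S : Finset Pt) : ∃ t : ℝ, ∀ x ∈ S, ∀ y ∈ S, fn t x = fn t y → x = y := by
  obtain ⟨t, ht⟩ := Infinite.exists_notMem_finset
    (S.offDiag.image (fun xy : Pt × Pt => -(xy.1.1 - xy.2.1) / (xy.1.2 - xy.2.2)))
  refine ⟨t, fun x hx y hy h => ?_⟩
  by_contra hne
  apply ht
  rw [mem_image]
  refine ⟨(x, y), by simp [hx, hy, hne], ?_⟩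
  simp only
  simp only [fn] at h
  have h2 : x.2 - y.2 ≠ 0 := by
    intro h0
    apply hne
    have e2 : x.2 = y.2 := by linarith
    ext
    · rw [e2] at h; linarith
    · exact e2
  rw [div_eq_iff h2]
  linarith

/-- the visible pairs -/
def vis (S : Finset Pt) (t : ℝ) : Finset (Pt × Pt) :=
  (S ×ˢ S).filter (fun ab => fn t ab.1 < fn t ab.2 ∧
    ∀ x ∈ S, cr ab.1 ab.2 x = 0 → ¬ (fn t ab.1 < fn t x ∧ fn t x < fn t ab.2))

lemma vis_le {S : Finset Pt} {t : ℝ}
    (hinj : ∀ x ∈ S, ∀ y ∈ S, fn t x = fn t y → x = y)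
    (hS : ∃ a ∈ S, ∃ b ∈ S, ∃ c ∈ S, cr a b c ≠ 0) :
    (vis S t).card + 3 ≤ 2 * (lines S).card := by
  set T := lines S ×ˢ (univ : Finset Bool) with hT
  have h1 : (vis S t).card ≤ (T.filter (fun Ms => ¬ Empt S t Ms.1 Ms.2)).card := by
    apply Finset.card_le_card_of_forall_subsingleton
      (fun (ab : Pt × Pt) (Ms : Finset Pt × Bool) => Rel S t ab.1 ab.2 Ms.1 Ms.2)
    · rintro ⟨a, b⟩ hab
      simp only [vis, mem_filter, mem_product] at hab
      obtain ⟨⟨ha, hb⟩, hlt, hv⟩ := hab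
      have hne : a ≠ b := by rintro rfl; exact lt_irrefl _ hlt
      have hex : ∃ c ∈ S, cr a b c ≠ 0 := by
        by_contra hcon
        push Not at hcon
        obtain ⟨x, hx, y, hy, z, hz, hxyz⟩ := hS
        obtain ⟨sa, ha1, ha2⟩ := exists_param hne (hcon x hx)
        obtain ⟨sb, hb1, hb2⟩ := exists_param hne (hcon y hy)
        apply hxyz
        rw [cr_param ha1 ha2 hb1 hb2, hcon z hz, mul_zero]
      obtain ⟨M, hM, s, hR⟩ := exists_rel hinj ha hb hlt hv hex
      exact ⟨(M, s), by simp [hT, hM, hR.not_empt], hR⟩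
    · rintro ⟨M, s⟩ hMs
      simp only [hT, mem_filter, mem_product, mem_univ, and_true] at hMs
      rintro ⟨a, b⟩ ⟨hab, hR⟩ ⟨a', b'⟩ ⟨hab', hR'⟩
      simp only [vis, mem_filter, mem_product] at hab hab'
      obtain ⟨e1, e2⟩ := rel_unique hMs.1 hinj hab.2.1 hab'.2.1 hR hR'
      rw [e1, e2]
  have h2 : 3 ≤ (T.filter (fun Ms => Empt S t Ms.1 Ms.2)).card := three_empt hinj hS
  have h3 : (T.filter (fun Ms => Empt S t Ms.1 Ms.2)).card +
      (T.filter (fun Ms => ¬ Empt S t Ms.1 Ms.2)).card = T.card :=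
    Finset.card_filter_add_card_filter_not _
  have h4 : T.card = 2 * (lines S).card := by
    rw [hT, card_product]; simp; ring
  omega

lemma sum_card_le {S : Finset Pt} {t : ℝ}
    (hinj : ∀ x ∈ S, ∀ y ∈ S, fn t x = fn t y → x = y) :
    ∑ L ∈ lines S, L.card ≤ (vis S t).card + (lines S).card := by
  have hmap : ∀ ab ∈ vis S t, lineOf S ab.1 ab.2 ∈ lines S := by
    rintro ⟨a, b⟩ hab
    simp only [vis, mem_filter, mem_product] at hab
    have hne : a ≠ b := by rintro rfl; exact lt_irrefl _ hab.2.1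
    exact lineOf_mem_lines hab.1.1 hab.1.2 hne
  rw [Finset.card_eq_sum_card_fiberwise hmap, Finset.card_eq_sum_ones, ← Finset.sum_add_distrib]
  apply Finset.sum_le_sum
  intro L hL
  obtain ⟨a0, ha0, b0, hb0, hab0⟩ := exists_two hL
  obtain ⟨m, hm, hmmax⟩ := L.exists_max_image (fn t) ⟨a0, ha0⟩
  have hLS := line_subset hL
  have hsucc : ∀ a ∈ L.erase m, ∃ b ∈ L, fn t a < fn t b ∧
      ∀ x ∈ L, ¬ (fn t a < fn t x ∧ fn t x < fn t b) := by
    intro a ha
    have haL := mem_of_mem_erase ha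
    have ham : a ≠ m := ne_of_mem_erase ha
    have hlt : fn t a < fn t m :=
      lt_of_le_of_ne (hmmax a haL) (fun h => ham (hinj a (hLS haL) m (hLS hm) h))
    obtain ⟨b, hb, hbmin⟩ := (L.filter (fun x => fn t a < fn t x)).exists_min_image (fn t)
      ⟨m, by simp [hm, hlt]⟩
    simp only [mem_filter] at hb hbmin
    exact ⟨b, hb.1, hb.2, fun x hx hcon => absurd (hbmin x ⟨hx, hcon.1⟩) (not_le.2 hcon.2)⟩
  choose! g hg1 hg2 hg3 using hsucc
  have : (L.erase m).card ≤ ((vis S t).filter (fun ab => lineOf S ab.1 ab.2 = L)).card := by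
    apply Finset.card_le_card_of_injOn (fun a => (a, g a))
    · intro a ha
      have ha' : a ∈ L.erase m := ha
      have haL := mem_of_mem_erase ha'
      have hgL := hg1 a ha'
      have hne : a ≠ g a := by
        intro h
        have := hg2 a ha'
        rw [← h] at this
        exact lt_irrefl _ this
      have hLe := eq_lineOf hL haL hgL hne
      simp only [coe_filter, Set.mem_ofPred_eq, vis, mem_filter, mem_product]
      refine ⟨⟨⟨hLS haL, hLS hgL⟩, hg2 a ha', fun x hx hcr => ?_⟩, hLe.symm⟩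
      apply hg3 a ha' x
      rw [hLe]
      exact mem_lineOf.2 ⟨hx, hcr⟩
    · intro a _ b _ h
      exact (Prod.ext_iff.1 h).1
  rw [card_erase_of_mem hm] at this
  omega

/-- **Melchior's inequality.** -/
theorem melchior {S : Finset Pt} (hS : ∃ a ∈ S, ∃ b ∈ S, ∃ c ∈ S, cr a b c ≠ 0) :
    ∑ L ∈ lines S, L.card + 3 ≤ 3 * (lines S).card := by
  obtain ⟨t, ht⟩ := exists_fn_inj S
  have h1 := vis_le ht hS
  have h2 := sum_card_le ht
  omega

end

end Pool.Agent.Helper543.Melchior
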