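import Mathlib
import Pool.Agent.Helper543.Melchior

/-! Generalised circles of a finite planar point set and the local Melchior inequalities. -/

namespace Pool.Agent.Helper543.Blocks

open Finset Pool.Agent.Helper543.Melchior

noncomputable section

open scoped Classical

/-- squared distance -/
def nrm (p a : Pt) : ℝ := (a.1 - p.1) ^ 2 + (a.2 - p.2) ^ 2

/-- the determinant whose vanishing says that four points lie on a circle or a line -/
def G (p a b c : Pt) : ℝ :=
  (a.1 - p.1) * ((b.2 - p.2) * nrm p c - (c.2 - p.2) * nrm p b)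
  - (a.2 - p.2) * ((b.1 - p.1) * nrm p c - (c.1 - p.1) * nrm p b)
  + nrm p a * ((b.1 - p.1) * (c.2 - p.2) - (b.2 - p.2) * (c.1 - p.1))

/-- inversion -/
def iv (p a : Pt) : Pt := ((a.1 - p.1) / nrm p a, (a.2 - p.2) / nrm p a)

lemma nrm_pos {p a : Pt} (h : a ≠ p) : 0 < nrm p a := by
  by_contra hcon
  unfold nrm at hcon
  have h1 : (a.1 - p.1) ^ 2 = 0 := by nlinarith [sq_nonneg (a.1 - p.1), sq_nonneg (a.2 - p.2)]
  have h2 : (a.2 - p.2) ^ 2 = 0 := by nlinarith [sq_nonneg (a.1 - p.1), sq_nonneg (a.2 - p.2)]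
  apply h
  ext
  · have := pow_eq_zero_iff (n := 2) (by norm_num) |>.1 h1; linarith
  · have := pow_eq_zero_iff (n := 2) (by norm_num) |>.1 h2; linarith

lemma G_swap12 (p a b c : Pt) : G a p b c = - G p a b c := by
  simp only [G, nrm]; ring

lemma G_swap23 (p a b c : Pt) : G p b a c = - G p a b c := by
  simp only [G, nrm]; ring

lemma G_swap34 (p a b c : Pt) : G p a c b = - G p a b c := by
  simp only [G, nrm]; ring

lemma G_self1 (p a b : Pt) : G p a b p = 0 := by simp only [G, nrm]; ring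
lemma G_self2 (p a b : Pt) : G p a b a = 0 := by simp only [G, nrm]; ring
lemma G_self3 (p a b : Pt) : G p a b b = 0 := by simp only [G, nrm]; ring

lemma cr_iv {p a b c : Pt} (ha : a ≠ p) (hb : b ≠ p) (hc : c ≠ p) :
    cr (iv p a) (iv p b) (iv p c) * (nrm p a * nrm p b * nrm p c) = G p a b c := by
  have h1 := (nrm_pos ha).ne'
  have h2 := (nrm_pos hb).ne'
  have h3 := (nrm_pos hc).ne'
  simp only [cr, iv, G]
  field_simp
  ring

lemma cr_iv_eq_zero {p a b c : Pt} (ha : a ≠ p) (hb : b ≠ p) (hc : c ≠ p) :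
    cr (iv p a) (iv p b) (iv p c) = 0 ↔ G p a b c = 0 := by
  have h := cr_iv ha hb hc
  have h1 := (nrm_pos ha).ne'
  have h2 := (nrm_pos hb).ne'
  have h3 := (nrm_pos hc).ne'
  rw [← h]
  simp [h1, h2, h3]

lemma iv_inj {p a b : Pt} (ha : a ≠ p) (hb : b ≠ p) (h : iv p a = iv p b) : a = b := by
  have h1 := (nrm_pos ha)
  have h2 := (nrm_pos hb)
  simp only [iv, Prod.mk.injEq] at h
  obtain ⟨e1, e2⟩ := h
  rw [div_eq_div_iff h1.ne' h2.ne'] at e1 e2
  have key : nrm p a = nrm p b := by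
    have e3 : ((a.1 - p.1) * nrm p b) ^ 2 + ((a.2 - p.2) * nrm p b) ^ 2 =
      ((b.1 - p.1) * nrm p a) ^ 2 + ((b.2 - p.2) * nrm p a) ^ 2 := by rw [e1, e2]
    have e4 : nrm p a * nrm p b ^ 2 = nrm p b * nrm p a ^ 2 := by
      have e5 : ((a.1 - p.1) * nrm p b) ^ 2 + ((a.2 - p.2) * nrm p b) ^ 2 =
        nrm p a * nrm p b ^ 2 := by simp only [nrm]; ring
      have e6 : ((b.1 - p.1) * nrm p a) ^ 2 + ((b.2 - p.2) * nrm p a) ^ 2 =
        nrm p b * nrm p a ^ 2 := by simp only [nrm]; ring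
      rw [← e5, ← e6]; exact e3
    have e7 : nrm p a * nrm p b * (nrm p b - nrm p a) = 0 := by
      linear_combination e4
    rcases mul_eq_zero.1 e7 with h | h
    · exact absurd h (mul_pos h1 h2).ne'
    · linarith
  rw [key] at e1 e2
  have := mul_right_cancel₀ h2.ne' e1
  have := mul_right_cancel₀ h2.ne' e2
  ext <;> linarith

lemma exchange {a b c x : Pt} (hba : b ≠ a) (hca : c ≠ a) (hcb : c ≠ b) (hxa : x ≠ a)
    (hxb : x ≠ b) (h : G a b c x = 0) (y : Pt) : G a b c y = 0 ↔ G a b x y = 0 := by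
  by_cases hya : y = a
  · subst hya; simp [G_self1]
  · rw [← cr_iv_eq_zero hba hca hya, ← cr_iv_eq_zero hba hxa hya]
    rw [← cr_iv_eq_zero hba hca hxa] at h
    have hne : iv a b ≠ iv a c := fun e => hcb (iv_inj hba hca e).symm
    have hne' : iv a b ≠ iv a x := fun e => hxb (iv_inj hba hxa e).symm
    obtain ⟨s, hs1, hs2⟩ := exists_param hne h
    have h0 : (iv a b).1 - (iv a b).1 = 0 * ((iv a c).1 - (iv a b).1) := by ring
    have h0' : (iv a b).2 - (iv a b).2 = 0 * ((iv a c).2 - (iv a b).2) := by ring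
    rw [cr_param h0 h0' hs1 hs2 (iv a y)]
    have hs : s ≠ 0 := by
      rintro rfl
      apply hne'
      ext <;> linarith
    rw [sub_zero]
    simp [hs]

/-- points of `P` on the generalised circle through `a`, `b`, `c` -/
def blk (P : Finset Pt) (a b c : Pt) : Finset Pt := P.filter (fun x => G a b c x = 0)

lemma mem_blk {P : Finset Pt} {a b c x : Pt} : x ∈ blk P a b c ↔ x ∈ P ∧ G a b c x = 0 := by
  simp [blk]

lemma blk_swap12 (P : Finset Pt) (a b c : Pt) : blk P b a c = blk P a b c := by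
  ext x; rw [mem_blk, mem_blk, G_swap12]; simp

lemma blk_swap23 (P : Finset Pt) (a b c : Pt) : blk P a c b = blk P a b c := by
  ext x; rw [mem_blk, mem_blk, G_swap23]; simp

lemma blk_exchange {P : Finset Pt} {a b c x : Pt} (hba : b ≠ a) (hca : c ≠ a) (hcb : c ≠ b)
    (hxa : x ≠ a) (hxb : x ≠ b) (h : x ∈ blk P a b c) : blk P a b x = blk P a b c := by
  rw [mem_blk] at h
  ext y
  rw [mem_blk, mem_blk, exchange hba hca hcb hxa hxb h.2 y]

/-- the generalised circles determined by `P`, as subsets of `P` -/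
def blocks (P : Finset Pt) : Finset (Finset Pt) :=
  ((P ×ˢ P ×ˢ P).filter (fun t => t.1 ≠ t.2.1 ∧ t.1 ≠ t.2.2 ∧ t.2.1 ≠ t.2.2)).image
    (fun t => blk P t.1 t.2.1 t.2.2)

lemma mem_blocks {P : Finset Pt} {B : Finset Pt} : B ∈ blocks P ↔
    ∃ a ∈ P, ∃ b ∈ P, ∃ c ∈ P, a ≠ b ∧ a ≠ c ∧ b ≠ c ∧ B = blk P a b c := by
  simp only [blocks, mem_image, mem_filter, mem_product]
  constructor
  · rintro ⟨⟨a, b, c⟩, ⟨⟨ha, hb, hc⟩, h1, h2, h3⟩, rfl⟩
    exact ⟨a, ha, b, hb, c, hc, h1, h2, h3, rfl⟩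
  · rintro ⟨a, ha, b, hb, c, hc, h1, h2, h3, rfl⟩
    exact ⟨(a, b, c), ⟨⟨ha, hb, hc⟩, h1, h2, h3⟩, rfl⟩

lemma blk_mem1 {P : Finset Pt} {a b c : Pt} (ha : a ∈ P) : a ∈ blk P a b c :=
  mem_blk.2 ⟨ha, G_self1 _ _ _⟩
lemma blk_mem2 {P : Finset Pt} {a b c : Pt} (hb : b ∈ P) : b ∈ blk P a b c :=
  mem_blk.2 ⟨hb, G_self2 _ _ _⟩
lemma blk_mem3 {P : Finset Pt} {a b c : Pt} (hc : c ∈ P) : c ∈ blk P a b c :=
  mem_blk.2 ⟨hc, G_self3 _ _ _⟩

lemma block_subset {P B : Finset Pt} (hB : B ∈ blocks P) : B ⊆ P := by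
  obtain ⟨a, _, b, _, c, _, _, _, _, rfl⟩ := mem_blocks.1 hB
  exact filter_subset _ _

/-- any point of a block may be taken as its first base point -/
lemma block_first {P B : Finset Pt} (hB : B ∈ blocks P) {x : Pt} (hx : x ∈ B) :
    ∃ b ∈ P, ∃ c ∈ P, b ≠ x ∧ c ≠ x ∧ c ≠ b ∧ B = blk P x b c := by
  obtain ⟨a, ha, b, hb, c, hc, hab, hac, hbc, rfl⟩ := mem_blocks.1 hB
  by_cases h1 : x = a
  · subst h1; exact ⟨b, hb, c, hc, hab.symm, hac.symm, hbc.symm, rfl⟩
  · by_cases h2 : x = b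
    · subst h2; exact ⟨a, ha, c, hc, hab, hbc.symm, hac.symm, (blk_swap12 _ _ _ _).symm⟩
    · have h := blk_exchange hab.symm hac.symm hbc.symm h1 h2 hx
      refine ⟨a, ha, b, hb, fun e => h1 e.symm, fun e => h2 e.symm, hab.symm, ?_⟩
      rw [← h]
      exact (blk_swap23 P a x b).trans (blk_swap12 P x a b)

lemma block_second {P B : Finset Pt} (hB : B ∈ blocks P) {x y : Pt} (hx : x ∈ B) (hy : y ∈ B)
    (hxy : y ≠ x) : ∃ c ∈ P, c ≠ x ∧ c ≠ y ∧ B = blk P x y c := by
  obtain ⟨b, hb, c, hc, hbx, hcx, hcb, rfl⟩ := block_first hB hx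
  by_cases h1 : y = b
  · subst h1; exact ⟨c, hc, hcx, hcb, rfl⟩
  · have h := blk_exchange hbx hcx hcb hxy h1 hy
    refine ⟨b, hb, hbx, fun e => h1 e.symm, ?_⟩
    rw [← h, blk_swap23]

lemma block_third {P B : Finset Pt} (hB : B ∈ blocks P) {x y z : Pt} (hx : x ∈ B) (hy : y ∈ B)
    (hz : z ∈ B) (hxy : y ≠ x) (hzx : z ≠ x) (hzy : z ≠ y) : B = blk P x y z := by
  obtain ⟨c, _, hcx, hcy, rfl⟩ := block_second hB hx hy hxy
  exact (blk_exchange hxy hcx hcy hzx hzy hz).symm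

lemma blk_mem_blocks {P : Finset Pt} {a b c : Pt} (ha : a ∈ P) (hb : b ∈ P) (hc : c ∈ P)
    (hab : a ≠ b) (hac : a ≠ c) (hbc : b ≠ c) : blk P a b c ∈ blocks P :=
  mem_blocks.2 ⟨a, ha, b, hb, c, hc, hab, hac, hbc, rfl⟩

lemma block_card {P B : Finset Pt} (hB : B ∈ blocks P) : 3 ≤ B.card := by
  obtain ⟨a, ha, b, hb, c, hc, hab, hac, hbc, rfl⟩ := mem_blocks.1 hB
  have hsub : ({a, b, c} : Finset Pt) ⊆ blk P a b c := by
    intro x hx
    simp only [mem_insert, mem_singleton] at hx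
    rcases hx with rfl | rfl | rfl
    · exact blk_mem1 ha
    · exact blk_mem2 hb
    · exact blk_mem3 hc
  calc 3 = ({a, b, c} : Finset Pt).card := by
        rw [card_insert_of_notMem, card_insert_of_notMem, card_singleton]
        · simp [hbc]
        · simp [hab, hac]
    _ ≤ _ := card_le_card hsub

/-- the points seen from `p` after inversion -/
def invSet (P : Finset Pt) (p : Pt) : Finset Pt := (P.erase p).image (iv p)

lemma image_blk {P : Finset Pt} {p a b : Pt} (ha : a ≠ p) (hb : b ≠ p) :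
    ((blk P p a b).erase p).image (iv p) = lineOf (invSet P p) (iv p a) (iv p b) := by
  ext z
  simp only [mem_image, mem_erase, mem_blk, mem_lineOf, invSet]
  constructor
  · rintro ⟨x, ⟨hxp, hxP, hG⟩, rfl⟩
    exact ⟨⟨x, ⟨hxp, hxP⟩, rfl⟩, (cr_iv_eq_zero ha hb hxp).2 hG⟩
  · rintro ⟨⟨x, ⟨hxp, hxP⟩, rfl⟩, hcr⟩
    exact ⟨x, ⟨hxp, hxP, (cr_iv_eq_zero ha hb hxp).1 hcr⟩, rfl⟩

lemma iv_injOn (P : Finset Pt) (p : Pt) : Set.InjOn (iv p) (P.erase p : Set Pt) := by
  intro x hx y hy h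
  simp only [coe_erase, Set.mem_sdiff, Set.mem_singleton_iff] at hx hy
  exact iv_inj hx.2 hy.2 h

lemma card_image_iv {P B : Finset Pt} {p : Pt} (hB : B ⊆ P) (hp : p ∈ B) :
    (((B.erase p).image (iv p)).card : ℤ) = (B.card : ℤ) - 1 := by
  rw [card_image_of_injOn, card_erase_of_mem hp]
  · have := card_pos.2 ⟨p, hp⟩
    omega
  · intro x hx y hy h
    apply iv_injOn P p _ _ h
    · simp only [coe_erase, Set.mem_sdiff, Set.mem_singleton_iff] at hx ⊢
      exact ⟨hB hx.1, hx.2⟩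
    · simp only [coe_erase, Set.mem_sdiff, Set.mem_singleton_iff] at hy ⊢
      exact ⟨hB hy.1, hy.2⟩

lemma image_iv_inj {P B B' : Finset Pt} {p : Pt} (hB : B ⊆ P) (hB' : B' ⊆ P) (hp : p ∈ B)
    (hp' : p ∈ B') (h : (B.erase p).image (iv p) = (B'.erase p).image (iv p)) : B = B' := by
  have key : ∀ C C' : Finset Pt, C ⊆ P → C' ⊆ P → p ∈ C → p ∈ C' →
      (C.erase p).image (iv p) = (C'.erase p).image (iv p) → C ⊆ C' := by
    intro C C' hC hC' hpC hpC' h x hx
    by_cases hxp : x = p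
    · rw [hxp]; exact hpC'
    · have : iv p x ∈ (C.erase p).image (iv p) := mem_image_of_mem _ (mem_erase.2 ⟨hxp, hx⟩)
      rw [h, mem_image] at this
      obtain ⟨y, hy, hyx⟩ := this
      rw [mem_erase] at hy
      have := iv_inj hy.1 hxp hyx
      rw [← this]; exact hy.2
  exact subset_antisymm (key B B' hB hB' hp hp' h) (key B' B hB' hB hp' hp h.symm)

lemma sum_sub_three (T : Finset (Finset Pt)) (h : ∑ L ∈ T, L.card + 3 ≤ 3 * T.card) :
    ∑ L ∈ T, ((L.card : ℤ) - 3) ≤ -3 := by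
  rw [Finset.sum_sub_distrib]
  simp only [sum_const, nsmul_eq_mul]
  have : (∑ L ∈ T, (L.card : ℤ)) = ((∑ L ∈ T, L.card : ℕ) : ℤ) := by push_cast; rfl
  rw [this]
  omega

/-- Melchior at `p`, for the other points of `P` -/
theorem mel1 {P : Finset Pt} (hP : ∀ B ∈ blocks P, ∃ x ∈ P, x ∉ B) {p : Pt} (hp : p ∈ P)
    (h3 : ∃ a ∈ P, ∃ b ∈ P, a ≠ p ∧ b ≠ p ∧ a ≠ b) :
    ∑ B ∈ (blocks P).filter (fun B => p ∈ B), ((B.card : ℤ) - 4) ≤ -3 := by
  have hS : ∃ a ∈ invSet P p, ∃ b ∈ invSet P p, ∃ c ∈ invSet P p, cr a b c ≠ 0 := by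
    obtain ⟨a, ha, b, hb, hap, hbp, hab⟩ := h3
    obtain ⟨x, hx, hxB⟩ := hP _ (blk_mem_blocks hp ha hb hap.symm hbp.symm hab)
    have hxp : x ≠ p := by rintro rfl; exact hxB (blk_mem1 hp)
    refine ⟨iv p a, mem_image_of_mem _ (mem_erase.2 ⟨hap, ha⟩),
      iv p b, mem_image_of_mem _ (mem_erase.2 ⟨hbp, hb⟩),
      iv p x, mem_image_of_mem _ (mem_erase.2 ⟨hxp, hx⟩), ?_⟩
    intro h0
    exact hxB (mem_blk.2 ⟨hx, (cr_iv_eq_zero hap hbp hxp).1 h0⟩)
  have hm := sum_sub_three _ (melchior hS)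
  have : ∑ B ∈ (blocks P).filter (fun B => p ∈ B), ((B.card : ℤ) - 4) =
      ∑ L ∈ lines (invSet P p), ((L.card : ℤ) - 3) := by
    apply Finset.sum_bij (fun B _ => (B.erase p).image (iv p))
    · intro B hB
      rw [mem_filter] at hB
      obtain ⟨b, hb, c, hc, hbp, hcp, hcb, rfl⟩ := block_first hB.1 hB.2
      rw [image_blk hbp hcp]
      apply lineOf_mem_lines
      · exact mem_image_of_mem _ (mem_erase.2 ⟨hbp, hb⟩)
      · exact mem_image_of_mem _ (mem_erase.2 ⟨hcp, hc⟩)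
      · exact fun e => hcb (iv_inj hbp hcp e).symm
    · intro B hB B' hB' h
      rw [mem_filter] at hB hB'
      exact image_iv_inj (block_subset hB.1) (block_subset hB'.1) hB.2 hB'.2 h
    · intro M hM
      simp only [lines, mem_image, mem_offDiag, invSet, mem_erase] at hM
      obtain ⟨⟨a', b'⟩, ⟨⟨a, ⟨hap, ha⟩, rfl⟩, ⟨b, ⟨hbp, hb⟩, rfl⟩, hne⟩, rfl⟩ := hM
      simp only at hne ⊢
      have hab : a ≠ b := by rintro rfl; exact hne rfl
      refine ⟨blk P p a b, ?_, ?_⟩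
      · rw [mem_filter]
        exact ⟨blk_mem_blocks hp ha hb hap.symm hbp.symm hab, blk_mem1 hp⟩
      · exact image_blk hap hbp
    · intro B hB
      rw [mem_filter] at hB
      rw [card_image_iv (block_subset hB.1) hB.2]
      ring
  rw [this]
  exact hm

/-- collinear triples -/
lemma G_of_collinear {a b c : Pt} (hab : a ≠ b) (h : cr a b c = 0) (hca : c ≠ a) (hcb : c ≠ b)
    (x : Pt) : G a b c x = 0 ↔ cr a b x = 0 := by
  obtain ⟨s, hs1, hs2⟩ := exists_param hab h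
  have hs0 : s ≠ 0 := by
    rintro rfl; apply hca; ext <;> linarith
  have hs1' : s ≠ 1 := by
    rintro rfl; apply hcb; ext <;> linarith
  have key : G a b c x = (s - s ^ 2) * nrm a b * cr a b x := by
    simp only [G, nrm, cr, hs1, hs2]; ring
  rw [key]
  have h1 : s - s ^ 2 ≠ 0 := by
    intro h0
    have : s * (1 - s) = 0 := by linarith
    rcases mul_eq_zero.1 this with h | h
    · exact hs0 h
    · exact hs1' (by linarith)
  have h2 := (nrm_pos hab.symm).ne'
  simp [h1, h2]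

/-- a line with three points is a block -/
lemma line_mem_blocks {P L : Finset Pt} (hL : L ∈ lines P) (h3 : 3 ≤ L.card) :
    L ∈ blocks P := by
  obtain ⟨a, ha, b, hb, hab⟩ := exists_two hL
  have hLP := line_subset hL
  have hex : ∃ c ∈ L, c ≠ a ∧ c ≠ b := by
    by_contra hcon
    push Not at hcon
    have hsub : L ⊆ {a, b} := by
      intro x hx
      simp only [mem_insert, mem_singleton]
      by_cases h : x = a
      · exact Or.inl h
      · exact Or.inr (hcon x hx h)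
    have := card_le_card hsub
    have h2 : ({a, b} : Finset Pt).card ≤ 2 := card_le_two
    omega
  obtain ⟨c, hc, hca, hcb⟩ := hex
  have hLe := eq_lineOf hL ha hb hab
  have hcr : cr a b c = 0 := by
    rw [hLe, mem_lineOf] at hc; exact hc.2
  have : L = blk P a b c := by
    rw [hLe]
    ext x
    rw [mem_lineOf, mem_blk, G_of_collinear hab hcr hca hcb]
  rw [this]
  exact blk_mem_blocks (hLP ha) (hLP hb) (hLP hc) hab hca.symm hcb.symm

/-- a block which contains three collinear points is a line -/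
lemma block_mem_lines {P B : Finset Pt} (hB : B ∈ blocks P) {a b c : Pt} (ha : a ∈ B)
    (hb : b ∈ B) (hc : c ∈ B) (hab : a ≠ b) (hca : c ≠ a) (hcb : c ≠ b) (h : cr a b c = 0) :
    B ∈ lines P := by
  have hBP := block_subset hB
  have : B = lineOf P a b := by
    rw [block_third hB ha hb hc hab.symm hca hcb]
    ext x
    rw [mem_lineOf, mem_blk, G_of_collinear hab h hca hcb]
  rw [this]
  exact lineOf_mem_lines (hBP ha) (hBP hb) hab

lemma iv_ne_zero {p a : Pt} (ha : a ≠ p) : iv p a ≠ 0 := by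
  intro h
  have h1 := (nrm_pos ha).ne'
  simp only [iv, Prod.ext_iff, Prod.fst_zero, Prod.snd_zero, div_eq_zero_iff, h1, or_false] at h
  apply ha
  ext <;> linarith [h.1, h.2]

lemma cr_zero_iv {p a b : Pt} (ha : a ≠ p) (hb : b ≠ p) :
    cr 0 (iv p a) (iv p b) = 0 ↔ cr p a b = 0 := by
  have h1 := (nrm_pos ha).ne'
  have h2 := (nrm_pos hb).ne'
  have : cr 0 (iv p a) (iv p b) * (nrm p a * nrm p b) = cr p a b := by
    simp only [cr, iv, Prod.fst_zero, Prod.snd_zero]
    field_simp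
    ring
  rw [← this]
  simp [h1, h2]

/-- the inverted set together with the image of the point at infinity -/
def invSet0 (P : Finset Pt) (p : Pt) : Finset Pt := insert 0 (invSet P p)

lemma zero_notMem_invSet (P : Finset Pt) (p : Pt) : (0 : Pt) ∉ invSet P p := by
  intro h
  simp only [invSet, mem_image, mem_erase] at h
  obtain ⟨a, ⟨hap, _⟩, ha⟩ := h
  exact iv_ne_zero hap ha

/-- Melchior at `p`, for the other points of `P` and the point at infinity -/
theorem mel2 {P : Finset Pt} (hP : ∀ B ∈ blocks P, ∃ x ∈ P, x ∉ B) {p : Pt} (hp : p ∈ P)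
    (h3 : ∃ a ∈ P, ∃ b ∈ P, a ≠ p ∧ b ≠ p ∧ a ≠ b) :
    ∑ B ∈ (blocks P \ lines P).filter (fun B => p ∈ B), ((B.card : ℤ) - 4) +
    ∑ L ∈ (lines P).filter (fun L => p ∈ L), ((L.card : ℤ) - 3) ≤ -3 := by
  have hS : ∃ a ∈ invSet0 P p, ∃ b ∈ invSet0 P p, ∃ c ∈ invSet0 P p, cr a b c ≠ 0 := by
    obtain ⟨a, ha, b, hb, hap, hbp, hab⟩ := h3
    obtain ⟨x, hx, hxB⟩ := hP _ (blk_mem_blocks hp ha hb hap.symm hbp.symm hab)
    have hxp : x ≠ p := by rintro rfl; exact hxB (blk_mem1 hp)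
    refine ⟨iv p a, mem_insert_of_mem (mem_image_of_mem _ (mem_erase.2 ⟨hap, ha⟩)),
      iv p b, mem_insert_of_mem (mem_image_of_mem _ (mem_erase.2 ⟨hbp, hb⟩)),
      iv p x, mem_insert_of_mem (mem_image_of_mem _ (mem_erase.2 ⟨hxp, hx⟩)), ?_⟩
    intro h0
    exact hxB (mem_blk.2 ⟨hx, (cr_iv_eq_zero hap hbp hxp).1 h0⟩)
  have hm := sum_sub_three _ (melchior hS)
  rw [← Finset.sum_filter_add_sum_filter_not (lines (invSet0 P p)) (fun L => (0 : Pt) ∈ L)] at hm
  have hmemiv : ∀ a ∈ P, a ≠ p → iv p a ∈ invSet0 P p := fun a ha hap =>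
    mem_insert_of_mem (mem_image_of_mem _ (mem_erase.2 ⟨hap, ha⟩))
  have e1 : ∑ B ∈ (blocks P \ lines P).filter (fun B => p ∈ B), ((B.card : ℤ) - 4) =
      ∑ L ∈ (lines (invSet0 P p)).filter (fun L => ¬ (0 : Pt) ∈ L), ((L.card : ℤ) - 3) := by
    apply Finset.sum_bij (fun B _ => (B.erase p).image (iv p))
    · intro B hB
      rw [mem_filter, mem_sdiff] at hB
      obtain ⟨b, hb, c, hc, hbp, hcp, hcb, hBe⟩ := block_first hB.1.1 hB.2
      have hcr : cr p b c ≠ 0 := by
        intro h0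
        apply hB.1.2
        apply block_mem_lines hB.1.1 hB.2 (b := b) (c := c) _ _ hbp.symm hcp hcb h0
        · rw [hBe]; exact blk_mem2 hb
        · rw [hBe]; exact blk_mem3 hc
      have hcr' : cr 0 (iv p b) (iv p c) ≠ 0 := fun h => hcr ((cr_zero_iv hbp hcp).1 h)
      have himg : (B.erase p).image (iv p) = lineOf (invSet0 P p) (iv p b) (iv p c) := by
        rw [hBe, image_blk hbp hcp]
        ext z
        rw [mem_lineOf, mem_lineOf, invSet0, mem_insert]
        constructor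
        · rintro ⟨h1, h2⟩; exact ⟨Or.inr h1, h2⟩
        · rintro ⟨h1 | h1, h2⟩
          · exfalso
            subst h1
            apply hcr'
            rw [← h2]
            simp only [cr]; ring
          · exact ⟨h1, h2⟩
      rw [mem_filter, himg]
      refine ⟨lineOf_mem_lines (hmemiv b hb hbp) (hmemiv c hc hcp)
        (fun e => hcb (iv_inj hbp hcp e).symm), ?_⟩
      intro h0
      rw [mem_lineOf] at h0
      apply hcr'
      rw [← h0.2]
      simp only [cr]; ring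
    · intro B hB B' hB' h
      rw [mem_filter, mem_sdiff] at hB hB'
      exact image_iv_inj (block_subset hB.1.1) (block_subset hB'.1.1) hB.2 hB'.2 h
    · intro M hM
      rw [mem_filter] at hM
      obtain ⟨hM1, hM0⟩ := hM
      obtain ⟨a', ha', b', hb', hne⟩ := exists_two hM1
      have hMe := eq_lineOf hM1 ha' hb' hne
      have ha0 : a' ≠ 0 := by rintro rfl; exact hM0 ha'
      have hb0 : b' ≠ 0 := by rintro rfl; exact hM0 hb'
      have ha1 := line_subset hM1 ha'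
      have hb1 := line_subset hM1 hb'
      simp only [invSet0, mem_insert, ha0, hb0, false_or, invSet, mem_image, mem_erase] at ha1 hb1
      obtain ⟨a, ⟨hap, ha⟩, rfl⟩ := ha1
      obtain ⟨b, ⟨hbp, hb⟩, rfl⟩ := hb1
      have hab : a ≠ b := by rintro rfl; exact hne rfl
      have hcr : cr p a b ≠ 0 := by
        intro h0
        apply hM0
        rw [hMe, mem_lineOf]
        refine ⟨mem_insert_self _ _, ?_⟩
        have := (cr_zero_iv hap hbp).2 h0
        rw [← this]; simp only [cr]; ring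
      refine ⟨blk P p a b, ?_, ?_⟩
      · rw [mem_filter, mem_sdiff]
        refine ⟨⟨blk_mem_blocks hp ha hb hap.symm hbp.symm hab, ?_⟩, blk_mem1 hp⟩
        intro hl
        have h1 := eq_lineOf hl (blk_mem1 (b := a) (c := b) hp) (blk_mem2 (a := p) (c := b) ha) hap.symm
        have h2 : b ∈ blk P p a b := blk_mem3 hb
        rw [h1, mem_lineOf] at h2
        exact hcr h2.2
      · rw [image_blk hap hbp, hMe]
        ext z
        rw [mem_lineOf, mem_lineOf, invSet0, mem_insert]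
        constructor
        · rintro ⟨h1, h2⟩; exact ⟨Or.inr h1, h2⟩
        · rintro ⟨h1 | h1, h2⟩
          · exfalso
            subst h1
            apply hM0
            rw [hMe, mem_lineOf]
            exact ⟨mem_insert_self _ _, h2⟩
          · exact ⟨h1, h2⟩
    · intro B hB
      rw [mem_filter, mem_sdiff] at hB
      rw [card_image_iv (block_subset hB.1.1) hB.2]
      ring
  have e2 : ∑ L ∈ (lines P).filter (fun L => p ∈ L), ((L.card : ℤ) - 3) =
      ∑ L ∈ (lines (invSet0 P p)).filter (fun L => (0 : Pt) ∈ L), ((L.card : ℤ) - 3) := by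
    have hins : ∀ L : Finset Pt, (0 : Pt) ∉ (L.erase p).image (iv p) := by
      intro L h
      simp only [mem_image, mem_erase] at h
      obtain ⟨a, ⟨hap, _⟩, ha⟩ := h
      exact iv_ne_zero hap ha
    have himg : ∀ a : Pt, a ≠ p → insert 0 (((lineOf P p a).erase p).image (iv p)) =
        lineOf (invSet0 P p) 0 (iv p a) := by
      intro a hap
      ext z
      simp only [mem_insert, mem_image, mem_erase, mem_lineOf, invSet0, invSet]
      constructor
      · rintro (rfl | ⟨x, ⟨hxp, hxP, hcr⟩, rfl⟩)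
        · exact ⟨Or.inl rfl, cr_self_left _ _⟩
        · exact ⟨Or.inr ⟨x, ⟨hxp, hxP⟩, rfl⟩, (cr_zero_iv hap hxp).2 hcr⟩
      · rintro ⟨rfl | ⟨x, ⟨hxp, hxP⟩, rfl⟩, hcr⟩
        · exact Or.inl rfl
        · exact Or.inr ⟨x, ⟨hxp, hxP, (cr_zero_iv hap hxp).1 hcr⟩, rfl⟩
    apply Finset.sum_bij (fun L _ => insert 0 ((L.erase p).image (iv p)))
    · intro L hL
      rw [mem_filter] at hL
      obtain ⟨a, b, ha, hb, hab⟩ : ∃ a b, a ∈ L ∧ b ∈ L ∧ a ≠ b := by
        obtain ⟨a, ha, b, hb, hab⟩ := exists_two hL.1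
        exact ⟨a, b, ha, hb, hab⟩
      obtain ⟨c, hc, hcp⟩ : ∃ c ∈ L, c ≠ p := by
        by_cases h : a = p
        · exact ⟨b, hb, fun e => hab (h.trans e.symm)⟩
        · exact ⟨a, ha, h⟩
      have hLe := eq_lineOf hL.1 hL.2 hc hcp.symm
      rw [mem_filter, hLe, himg c hcp]
      exact ⟨lineOf_mem_lines (mem_insert_self _ _) (hmemiv c (line_subset hL.1 hc) hcp)
        (iv_ne_zero hcp).symm, mem_lineOf.2 ⟨mem_insert_self _ _, cr_self_left _ _⟩⟩
    · intro L hL L' hL' h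
      rw [mem_filter] at hL hL'
      apply image_iv_inj (line_subset hL.1) (line_subset hL'.1) hL.2 hL'.2
      have h1 := congrArg (fun s => Finset.erase s (0 : Pt)) h
      simpa only [erase_insert (hins L), erase_insert (hins L')] using h1
    · intro M hM
      rw [mem_filter] at hM
      obtain ⟨hM1, hM0⟩ := hM
      obtain ⟨c', hc', hc0⟩ : ∃ c ∈ M, c ≠ 0 := by
        obtain ⟨a, ha, b, hb, hab⟩ := exists_two hM1
        by_cases h : a = 0
        · exact ⟨b, hb, fun e => hab (h.trans e.symm)⟩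
        · exact ⟨a, ha, h⟩
      have hMe := eq_lineOf hM1 hM0 hc' hc0.symm
      have hc1 := line_subset hM1 hc'
      simp only [invSet0, mem_insert, hc0, false_or, invSet, mem_image, mem_erase] at hc1
      obtain ⟨c, ⟨hcp, hc⟩, rfl⟩ := hc1
      refine ⟨lineOf P p c, ?_, ?_⟩
      · rw [mem_filter]
        exact ⟨lineOf_mem_lines hp hc hcp.symm, mem_lineOf.2 ⟨hp, cr_self_left _ _⟩⟩
      · rw [hMe, himg c hcp]
    · intro L hL
      rw [mem_filter] at hL
      rw [card_insert_of_notMem (hins L)]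
      have := card_image_iv (line_subset hL.1) hL.2
      push_cast
      rw [this]; ring
  rw [e1, e2]
  linarith

/-- Melchior for `P` itself -/
theorem mel3 {P : Finset Pt} (hP : ∃ a ∈ P, ∃ b ∈ P, ∃ c ∈ P, cr a b c ≠ 0) :
    ∑ L ∈ lines P, ((L.card : ℤ) - 3) ≤ -3 :=
  sum_sub_three _ (melchior hP)

end

end Pool.Agent.Helper543.Blocks
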