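import Mathlib

/-! Abstract counting for systems of circles and lines. -/

namespace Pool.Agent.Helper543.Count

open Finset

/-- a finite point set with its generalised circles `B` (at least three points each)
and its lines `L` (at least two points each) -/
structure Cfg (α : Type) [DecidableEq α] where
  P : Finset α
  B : Finset (Finset α)
  L : Finset (Finset α)
  hBP : ∀ b ∈ B, b ⊆ P
  hB3 : ∀ b ∈ B, 3 ≤ b.card
  hLP : ∀ l ∈ L, l ⊆ P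
  hL2 : ∀ l ∈ L, 2 ≤ l.card
  ex3 : ∀ x ∈ P, ∀ y ∈ P, ∀ z ∈ P, x ≠ y → x ≠ z → y ≠ z → ∃ b ∈ B, x ∈ b ∧ y ∈ b ∧ z ∈ b
  un3 : ∀ b ∈ B, ∀ b' ∈ B, ∀ x y z, x ≠ y → x ≠ z → y ≠ z → x ∈ b → y ∈ b → z ∈ b →
    x ∈ b' → y ∈ b' → z ∈ b' → b = b'
  ex2 : ∀ x ∈ P, ∀ y ∈ P, x ≠ y → ∃ l ∈ L, x ∈ l ∧ y ∈ l
  un2 : ∀ l ∈ L, ∀ l' ∈ L, ∀ x y, x ≠ y → x ∈ l → y ∈ l → x ∈ l' → y ∈ l' → l = l'
  hLB : ∀ l ∈ L, 3 ≤ l.card → l ∈ B
  m1 : ∀ p ∈ P, ∑ b ∈ B with p ∈ b, ((b.card : ℤ) - 4) ≤ -3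
  m2 : ∀ p ∈ P, ∑ b ∈ B \ L with p ∈ b, ((b.card : ℤ) - 4) +
    ∑ l ∈ L with p ∈ l, ((l.card : ℤ) - 3) ≤ -3
  m3 : ∑ l ∈ L, ((l.card : ℤ) - 3) ≤ -3

variable {α : Type} [DecidableEq α]

/-- the proper circles -/
def Cfg.circ (S : Cfg α) : Finset (Finset α) := S.B \ S.L

lemma sum_point (B : Finset (Finset α)) (C : Finset α) (f : Finset α → ℤ) :
    ∑ p ∈ C, ∑ b ∈ B with p ∈ b, f b = ∑ b ∈ B, ((b ∩ C).card : ℤ) * f b := by
  simp_rw [sum_filter]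
  rw [sum_comm]
  refine sum_congr rfl fun b _ => ?_
  rw [← sum_filter, sum_const, nsmul_eq_mul, filter_mem_eq_inter, inter_comm]

/-- every admissible triple lies in exactly one block -/
lemma count3 (S : Cfg α) (R : α × α × α → Prop) [DecidablePred R]
    (hR : ∀ t, R t → t.1 ≠ t.2.1 ∧ t.1 ≠ t.2.2 ∧ t.2.1 ≠ t.2.2) :
    ∑ b ∈ S.B, ((b ×ˢ b ×ˢ b).filter R).card = ((S.P ×ˢ S.P ×ˢ S.P).filter R).card := by
  have h1 : ∀ b ∈ S.B, (b ×ˢ b ×ˢ b).filter R =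
      ((S.P ×ˢ S.P ×ˢ S.P).filter R).filter (fun t => t.1 ∈ b ∧ t.2.1 ∈ b ∧ t.2.2 ∈ b) := by
    intro b hb
    have hs := S.hBP b hb
    ext ⟨x, y, z⟩
    simp only [mem_filter, mem_product]
    constructor
    · rintro ⟨⟨hx, hy, hz⟩, hr⟩
      exact ⟨⟨⟨hs hx, hs hy, hs hz⟩, hr⟩, hx, hy, hz⟩
    · rintro ⟨⟨_, hr⟩, hx, hy, hz⟩
      exact ⟨⟨hx, hy, hz⟩, hr⟩
  rw [sum_congr rfl (fun b hb => by rw [h1 b hb])]
  simp_rw [card_filter _ ((S.P ×ˢ S.P ×ˢ S.P).filter R)]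
  rw [sum_comm, card_eq_sum_ones]
  refine sum_congr rfl fun t ht => ?_
  obtain ⟨x, y, z⟩ := t
  simp only [mem_filter, mem_product] at ht
  obtain ⟨⟨hx, hy, hz⟩, hr⟩ := ht
  obtain ⟨hxy, hxz, hyz⟩ := hR _ hr
  obtain ⟨b, hb, hxb, hyb, hzb⟩ := S.ex3 x hx y hy z hz hxy hxz hyz
  rw [sum_eq_single b]
  · simp [hxb, hyb, hzb]
  · intro b' hb' hne
    rw [if_neg]
    rintro ⟨h1, h2, h3⟩
    exact hne (S.un3 b' hb' b hb x y z hxy hxz hyz h1 h2 h3 hxb hyb hzb)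
  · intro h; exact absurd hb h

lemma count2 (S : Cfg α) (R : α × α → Prop) [DecidablePred R]
    (hR : ∀ t, R t → t.1 ≠ t.2) :
    ∑ b ∈ S.L, ((b ×ˢ b).filter R).card = ((S.P ×ˢ S.P).filter R).card := by
  have h1 : ∀ b ∈ S.L, (b ×ˢ b).filter R =
      ((S.P ×ˢ S.P).filter R).filter (fun t => t.1 ∈ b ∧ t.2 ∈ b) := by
    intro b hb
    have hs := S.hLP b hb
    ext ⟨x, y⟩
    simp only [mem_filter, mem_product]
    constructor
    · rintro ⟨⟨hx, hy⟩, hr⟩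
      exact ⟨⟨⟨hs hx, hs hy⟩, hr⟩, hx, hy⟩
    · rintro ⟨⟨_, hr⟩, hx, hy⟩
      exact ⟨⟨hx, hy⟩, hr⟩
  rw [sum_congr rfl (fun b hb => by rw [h1 b hb])]
  simp_rw [card_filter _ ((S.P ×ˢ S.P).filter R)]
  rw [sum_comm, card_eq_sum_ones]
  refine sum_congr rfl fun t ht => ?_
  obtain ⟨x, y⟩ := t
  simp only [mem_filter, mem_product] at ht
  obtain ⟨⟨hx, hy⟩, hr⟩ := ht
  have hxy := hR _ hr
  obtain ⟨b, hb, hxb, hyb⟩ := S.ex2 x hx y hy hxy
  rw [sum_eq_single b]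
  · simp [hxb, hyb]
  · intro b' hb' hne
    rw [if_neg]
    rintro ⟨h1, h2⟩
    exact hne (S.un2 b' hb' b hb x y hxy h1 h2 hxb hyb)
  · intro h; exact absurd hb h

omit [DecidableEq α] in
lemma offDiag_int (s : Finset α) : (s.offDiag.card : ℤ) = (s.card : ℤ) * (s.card - 1) := by
  rw [offDiag_card]
  have : s.card ≤ s.card * s.card := Nat.le_mul_self _
  push_cast [Nat.cast_sub this]
  ring

lemma card_sdiff_int (b C : Finset α) : ((b \ C).card : ℤ) = (b.card : ℤ) - (b ∩ C).card := by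
  have := card_sdiff_add_card_inter b C
  omega

/-- two points in `C`, one outside -/
lemma card_R2 (b C : Finset α) :
    (((b ×ˢ b ×ˢ b).filter (fun t => t.1 ∈ C ∧ t.2.1 ∈ C ∧ t.1 ≠ t.2.1 ∧ t.2.2 ∉ C)).card : ℤ) =
      ((b ∩ C).card : ℤ) * ((b ∩ C).card - 1) * ((b.card : ℤ) - (b ∩ C).card) := by
  rw [← offDiag_int, ← card_sdiff_int, ← Nat.cast_mul, ← card_product]
  norm_cast
  apply card_nbij' (fun t => ((t.1, t.2.1), t.2.2)) (fun t => (t.1.1, t.1.2, t.2))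
  · rintro ⟨x, y, z⟩ h
    simp only [coe_filter, mem_product, Set.mem_ofPred_eq, coe_product, coe_offDiag, Set.mem_prod,
      Set.mem_offDiag, mem_coe, mem_inter, mem_sdiff] at h ⊢
    tauto
  · rintro ⟨⟨x, y⟩, z⟩ h
    simp only [coe_filter, mem_product, Set.mem_ofPred_eq, coe_product, coe_offDiag, Set.mem_prod,
      Set.mem_offDiag, mem_coe, mem_inter, mem_sdiff] at h ⊢
    tauto
  · rintro ⟨x, y, z⟩ _; rfl
  · rintro ⟨⟨x, y⟩, z⟩ _; rfl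

/-- one point in `C`, two outside -/
lemma card_R1 (b C : Finset α) :
    (((b ×ˢ b ×ˢ b).filter (fun t => t.1 ∈ C ∧ t.2.1 ∉ C ∧ t.2.2 ∉ C ∧ t.2.1 ≠ t.2.2)).card : ℤ) =
      ((b ∩ C).card : ℤ) * (((b.card : ℤ) - (b ∩ C).card) * ((b.card : ℤ) - (b ∩ C).card - 1)) := by
  rw [← card_sdiff_int, ← offDiag_int, ← Nat.cast_mul, ← card_product]
  norm_cast
  apply card_nbij' (fun t => (t.1, (t.2.1, t.2.2))) (fun t => (t.1, t.2.1, t.2.2))
  · rintro ⟨x, y, z⟩ h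
    simp only [coe_filter, mem_product, Set.mem_ofPred_eq, coe_product, coe_offDiag, Set.mem_prod,
      Set.mem_offDiag, mem_coe, mem_inter, mem_sdiff] at h ⊢
    tauto
  · rintro ⟨x, y, z⟩ h
    simp only [coe_filter, mem_product, Set.mem_ofPred_eq, coe_product, coe_offDiag, Set.mem_prod,
      Set.mem_offDiag, mem_coe, mem_inter, mem_sdiff] at h ⊢
    tauto
  · rintro ⟨x, y, z⟩ _; rfl
  · rintro ⟨x, y, z⟩ _; rfl

/-- distinct ordered triples -/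
lemma card_dist (s : Finset α) :
    (((s ×ˢ s ×ˢ s).filter (fun t => t.1 ≠ t.2.1 ∧ t.1 ≠ t.2.2 ∧ t.2.1 ≠ t.2.2)).card : ℤ) =
      (s.card : ℤ) * (s.card - 1) * (s.card - 2) := by
  have h1 : ((s ×ˢ s ×ˢ s).filter (fun t => t.1 ≠ t.2.1 ∧ t.1 ≠ t.2.2 ∧ t.2.1 ≠ t.2.2)).card =
      ∑ xy ∈ s.offDiag, ((s.erase xy.1).erase xy.2).card := by
    rw [← card_sigma]
    apply card_nbij' (fun t => (⟨(t.1, t.2.1), t.2.2⟩ : Σ _ : α × α, α))
      (fun t => (t.1.1, t.1.2, t.2))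
    · rintro ⟨x, y, z⟩ h
      simp only [coe_filter, mem_product, Set.mem_ofPred_eq, mem_coe, mem_sigma, mem_offDiag,
        mem_erase] at h ⊢
      obtain ⟨⟨h1, h2, h3⟩, h4, h5, h6⟩ := h
      exact ⟨⟨h1, h2, h4⟩, h6.symm, h5.symm, h3⟩
    · rintro ⟨⟨x, y⟩, z⟩ h
      simp only [coe_filter, mem_product, Set.mem_ofPred_eq, mem_coe, mem_sigma, mem_offDiag,
        mem_erase] at h ⊢
      obtain ⟨⟨h1, h2, h4⟩, h6, h5, h3⟩ := h
      exact ⟨⟨h1, h2, h3⟩, h4, h5.symm, h6.symm⟩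
    · rintro ⟨x, y, z⟩ _; rfl
    · rintro ⟨⟨x, y⟩, z⟩ _; rfl
  have h2 : ∀ xy ∈ s.offDiag, (((s.erase xy.1).erase xy.2).card : ℤ) = (s.card : ℤ) - 2 := by
    rintro ⟨x, y⟩ h
    rw [mem_offDiag] at h
    rw [card_erase_of_mem (mem_erase.2 ⟨h.2.2.symm, h.2.1⟩), card_erase_of_mem h.1]
    have : ({x, y} : Finset α).card ≤ s.card := card_le_card (by
      intro z hz
      simp only [mem_insert, mem_singleton] at hz
      rcases hz with rfl | rfl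
      · exact h.1
      · exact h.2.1)
    rw [card_pair h.2.2] at this
    omega
  rw [h1]
  push_cast
  rw [sum_congr rfl h2, sum_const, nsmul_eq_mul, offDiag_int]

/-- all three outside -/
lemma card_R0 (b C : Finset α) :
    (((b ×ˢ b ×ˢ b).filter (fun t => (t.1 ∉ C ∧ t.2.1 ∉ C ∧ t.2.2 ∉ C) ∧
      (t.1 ≠ t.2.1 ∧ t.1 ≠ t.2.2 ∧ t.2.1 ≠ t.2.2))).card : ℤ) =
      ((b.card : ℤ) - (b ∩ C).card) * ((b.card : ℤ) - (b ∩ C).card - 1) *
        ((b.card : ℤ) - (b ∩ C).card - 2) := by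
  rw [← card_sdiff_int, ← card_dist (b \ C)]
  congr 2
  ext ⟨x, y, z⟩
  simp only [mem_filter, mem_product, mem_sdiff]
  tauto

lemma card_S2 (b C : Finset α) :
    (((b ×ˢ b).filter (fun t => t.1 ∈ C ∧ t.2 ∈ C ∧ t.1 ≠ t.2)).card : ℤ) =
      ((b ∩ C).card : ℤ) * ((b ∩ C).card - 1) := by
  rw [← offDiag_int]
  congr 2
  ext ⟨x, y⟩
  simp only [mem_filter, mem_product, mem_offDiag, mem_inter]
  tauto

lemma card_S1 (b C : Finset α) :
    (((b ×ˢ b).filter (fun t => t.1 ∈ C ∧ t.2 ∉ C)).card : ℤ) =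
      ((b ∩ C).card : ℤ) * ((b.card : ℤ) - (b ∩ C).card) := by
  rw [← card_sdiff_int, ← Nat.cast_mul, ← card_product]
  congr 2
  ext ⟨x, y⟩
  simp only [mem_filter, mem_product, mem_inter, mem_sdiff]
  tauto

lemma card_S0 (b C : Finset α) :
    (((b ×ˢ b).filter (fun t => t.1 ∉ C ∧ t.2 ∉ C ∧ t.1 ≠ t.2)).card : ℤ) =
      ((b.card : ℤ) - (b ∩ C).card) * ((b.card : ℤ) - (b ∩ C).card - 1) := by
  rw [← card_sdiff_int, ← offDiag_int]
  congr 2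
  ext ⟨x, y⟩
  simp only [mem_filter, mem_product, mem_offDiag, mem_sdiff]
  tauto

section
variable (S : Cfg α) {C : Finset α}

/-- weight of two points in `C` and one outside -/
theorem E1 (hC : C ⊆ S.P) : ∑ b ∈ S.B, ((b ∩ C).card : ℤ) * ((b ∩ C).card - 1) *
    ((b.card : ℤ) - (b ∩ C).card) = (C.card : ℤ) * (C.card - 1) * (S.P.card - C.card) := by
  have h := count3 S (fun t => t.1 ∈ C ∧ t.2.1 ∈ C ∧ t.1 ≠ t.2.1 ∧ t.2.2 ∉ C) (by
    rintro ⟨x, y, z⟩ ⟨h1, h2, h3, h4⟩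
    simp only at h1 h2 h3 h4 ⊢
    exact ⟨h3, fun e => h4 (e ▸ h1), fun e => h4 (e ▸ h2)⟩)
  have h' := congrArg (fun n : ℕ => (n : ℤ)) h
  push_cast at h'
  simp_rw [card_R2] at h'
  rw [inter_eq_right.2 hC] at h'
  exact h'

theorem E2 (hC : C ⊆ S.P) : ∑ b ∈ S.B, ((b ∩ C).card : ℤ) * (((b.card : ℤ) - (b ∩ C).card) *
    ((b.card : ℤ) - (b ∩ C).card - 1)) =
    (C.card : ℤ) * ((S.P.card - C.card) * (S.P.card - C.card - 1)) := by
  have h := count3 S (fun t => t.1 ∈ C ∧ t.2.1 ∉ C ∧ t.2.2 ∉ C ∧ t.2.1 ≠ t.2.2) (by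
    rintro ⟨x, y, z⟩ ⟨h1, h2, h3, h4⟩
    simp only at h1 h2 h3 h4 ⊢
    exact ⟨fun e => h2 (e ▸ h1), fun e => h3 (e ▸ h1), h4⟩)
  have h' := congrArg (fun n : ℕ => (n : ℤ)) h
  push_cast at h'
  simp_rw [card_R1] at h'
  rw [inter_eq_right.2 hC] at h'
  exact h'

theorem E3 (hC : C ⊆ S.P) : ∑ b ∈ S.B, ((b.card : ℤ) - (b ∩ C).card) *
    ((b.card : ℤ) - (b ∩ C).card - 1) * ((b.card : ℤ) - (b ∩ C).card - 2) =
    ((S.P.card : ℤ) - C.card) * (S.P.card - C.card - 1) * (S.P.card - C.card - 2) := by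
  have h := count3 S (fun t => (t.1 ∉ C ∧ t.2.1 ∉ C ∧ t.2.2 ∉ C) ∧
      (t.1 ≠ t.2.1 ∧ t.1 ≠ t.2.2 ∧ t.2.1 ≠ t.2.2)) (by
    rintro ⟨x, y, z⟩ ⟨_, h⟩
    exact h)
  have h' := congrArg (fun n : ℕ => (n : ℤ)) h
  push_cast at h'
  simp_rw [card_R0] at h'
  rw [inter_eq_right.2 hC] at h'
  exact h'

theorem Etot : ∑ b ∈ S.B, (b.card : ℤ) * (b.card - 1) * (b.card - 2) =
    (S.P.card : ℤ) * (S.P.card - 1) * (S.P.card - 2) := by
  have h := count3 S (fun t => t.1 ≠ t.2.1 ∧ t.1 ≠ t.2.2 ∧ t.2.1 ≠ t.2.2) (fun t h => h)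
  have h' := congrArg (fun n : ℕ => (n : ℤ)) h
  push_cast at h'
  simp_rw [card_dist] at h'
  exact h'

theorem E4 (hC : C ⊆ S.P) : ∑ b ∈ S.L, ((b ∩ C).card : ℤ) * ((b ∩ C).card - 1) =
    (C.card : ℤ) * (C.card - 1) := by
  have h := count2 S (fun t => t.1 ∈ C ∧ t.2 ∈ C ∧ t.1 ≠ t.2) (fun t h => h.2.2)
  have h' := congrArg (fun n : ℕ => (n : ℤ)) h
  push_cast at h'
  simp_rw [card_S2] at h'
  rw [inter_eq_right.2 hC] at h'
  exact h'

theorem E5 (hC : C ⊆ S.P) : ∑ b ∈ S.L, ((b ∩ C).card : ℤ) * ((b.card : ℤ) - (b ∩ C).card) =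
    (C.card : ℤ) * (S.P.card - C.card) := by
  have h := count2 S (fun t => t.1 ∈ C ∧ t.2 ∉ C) (fun t h e => h.2 (e ▸ h.1))
  have h' := congrArg (fun n : ℕ => (n : ℤ)) h
  push_cast at h'
  simp_rw [card_S1] at h'
  rw [inter_eq_right.2 hC] at h'
  exact h'

theorem E6 (hC : C ⊆ S.P) : ∑ b ∈ S.L, ((b.card : ℤ) - (b ∩ C).card) *
    ((b.card : ℤ) - (b ∩ C).card - 1) =
    ((S.P.card : ℤ) - C.card) * (S.P.card - C.card - 1) := by
  have h := count2 S (fun t => t.1 ∉ C ∧ t.2 ∉ C ∧ t.1 ≠ t.2) (fun t h => h.2.2)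
  have h' := congrArg (fun n : ℕ => (n : ℤ)) h
  push_cast at h'
  simp_rw [card_S0] at h'
  rw [inter_eq_right.2 hC] at h'
  exact h'

theorem Epair : ∑ b ∈ S.L, (b.card : ℤ) * (b.card - 1) = (S.P.card : ℤ) * (S.P.card - 1) := by
  have h := E4 S (Subset.refl S.P)
  have h2 : ∀ b ∈ S.L, (b ∩ S.P) = b := fun b hb => inter_eq_left.2 (S.hLP b hb)
  rw [← h]
  exact sum_congr rfl fun b hb => by rw [h2 b hb]

theorem U3 (hC : C ⊆ S.P) : ∑ b ∈ S.B, ((b ∩ C).card : ℤ) * ((b.card : ℤ) - 4) ≤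
    -3 * (C.card : ℤ) := by
  rw [← sum_point]
  calc _ ≤ ∑ p ∈ C, (-3 : ℤ) := sum_le_sum fun p hp => S.m1 p (hC hp)
    _ = _ := by rw [sum_const, nsmul_eq_mul]; ring

theorem U3tot : ∑ b ∈ S.B, (b.card : ℤ) * ((b.card : ℤ) - 4) ≤ -3 * (S.P.card : ℤ) := by
  have h := U3 S (Subset.refl S.P)
  have h2 : ∀ b ∈ S.B, (b ∩ S.P) = b := fun b hb => inter_eq_left.2 (S.hBP b hb)
  rw [← sum_congr rfl fun b hb => by rw [h2 b hb]] at h
  exact h

theorem U4 : ∑ b ∈ S.B, ((b.card : ℤ) - (b ∩ C).card) * ((b.card : ℤ) - 4) ≤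
    -3 * ((S.P \ C).card : ℤ) := by
  have h := U3 S (C := S.P \ C) sdiff_subset
  have h2 : ∀ b ∈ S.B, ((b ∩ (S.P \ C)).card : ℤ) = (b.card : ℤ) - (b ∩ C).card := by
    intro b hb
    rw [← card_sdiff_int]
    congr 2
    ext x
    have := S.hBP b hb
    simp only [mem_inter, mem_sdiff]
    constructor
    · rintro ⟨h1, _, h3⟩; exact ⟨h1, h3⟩
    · rintro ⟨h1, h3⟩; exact ⟨h1, this h1, h3⟩
  rw [sum_congr rfl fun b hb => by rw [h2 b hb]] at h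
  exact h

theorem U5 (hC : C ⊆ S.P) : ∑ b ∈ S.circ, ((b ∩ C).card : ℤ) * ((b.card : ℤ) - 4) +
    ∑ b ∈ S.L, ((b ∩ C).card : ℤ) * ((b.card : ℤ) - 3) ≤ -3 * (C.card : ℤ) := by
  rw [← sum_point, ← sum_point, ← sum_add_distrib]
  calc _ ≤ ∑ p ∈ C, (-3 : ℤ) := sum_le_sum fun p hp => S.m2 p (hC hp)
    _ = _ := by rw [sum_const, nsmul_eq_mul]; ring

theorem U6 : ∑ b ∈ S.circ, ((b.card : ℤ) - (b ∩ C).card) * ((b.card : ℤ) - 4) +
    ∑ b ∈ S.L, ((b.card : ℤ) - (b ∩ C).card) * ((b.card : ℤ) - 3) ≤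
    -3 * ((S.P \ C).card : ℤ) := by
  have h := U5 S (C := S.P \ C) sdiff_subset
  have h2 : ∀ b, b ⊆ S.P → ((b ∩ (S.P \ C)).card : ℤ) = (b.card : ℤ) - (b ∩ C).card := by
    intro b this
    rw [← card_sdiff_int]
    congr 2
    ext x
    simp only [mem_inter, mem_sdiff]
    constructor
    · rintro ⟨h1, _, h3⟩; exact ⟨h1, h3⟩
    · rintro ⟨h1, h3⟩; exact ⟨h1, this h1, h3⟩
  rw [sum_congr rfl fun b hb => by rw [h2 b (S.hBP b (mem_sdiff.1 hb).1)],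
    sum_congr (s₁ := S.L) rfl fun b hb => by rw [h2 b (S.hLP b hb)]] at h
  exact h

lemma inter_le_two {b b' : Finset α} (hb : b ∈ S.B) (hb' : b' ∈ S.B) (hne : b ≠ b') :
    (b ∩ b').card ≤ 2 := by
  by_contra hcon
  push Not at hcon
  obtain ⟨x, hx, y, hy, z, hz, hxy, hxz, hyz⟩ := two_lt_card.1 hcon
  simp only [mem_inter] at hx hy hz
  exact hne (S.un3 b hb b' hb' x y z hxy hxz hyz hx.1 hy.1 hz.1 hx.2 hy.2 hz.2)

lemma inter_le_one {b b' : Finset α} (hb : b ∈ S.L) (hb' : b' ∈ S.L) (hne : b ≠ b') :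
    (b ∩ b').card ≤ 1 := by
  by_contra hcon
  push Not at hcon
  obtain ⟨x, hx, y, hy, hxy⟩ := one_lt_card.1 hcon
  simp only [mem_inter] at hx hy
  exact hne (S.un2 b hb b' hb' x y hxy hx.1 hy.1 hx.2 hy.2)

/-- pairwise disjoint traces of size two -/
lemma disjoint_pairs (T : Finset (Finset α)) (C : Finset α) (h2 : ∀ b ∈ T, (b ∩ C).card = 2)
    (hd : ∀ b ∈ T, ∀ b' ∈ T, b ≠ b' → Disjoint (b ∩ C) (b' ∩ C)) : T.card ≤ C.card / 2 := by
  have h1 : (T.biUnion (fun b => b ∩ C)).card = ∑ b ∈ T, (b ∩ C).card :=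
    card_biUnion hd
  have h3 : T.biUnion (fun b => b ∩ C) ⊆ C := by
    intro x hx
    rw [mem_biUnion] at hx
    obtain ⟨b, _, hb⟩ := hx
    exact (mem_inter.1 hb).2
  have h4 := card_le_card h3
  rw [h1, sum_congr rfl h2, sum_const, smul_eq_mul] at h4
  omega

/-- blocks through two fixed outer points and two points of `C` -/
theorem U1 (hC : C ⊆ S.P) : ∑ b ∈ S.B with (b ∩ C).card = 2,
    ((b.card : ℤ) - 2) * ((b.card : ℤ) - 3) ≤
    ((S.P.card : ℤ) - C.card) * (S.P.card - C.card - 1) * ((C.card / 2 : ℕ) : ℤ) := by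
  have hcount : ∑ b ∈ S.B with (b ∩ C).card = 2, ((b \ C).offDiag.card) =
      ∑ t ∈ (S.P \ C).offDiag, ((S.B.filter (fun b => (b ∩ C).card = 2)).filter
        (fun b => t.1 ∈ b ∧ t.2 ∈ b)).card := by
    have h1 : ∀ b ∈ S.B.filter (fun b => (b ∩ C).card = 2), (b \ C).offDiag =
        (S.P \ C).offDiag.filter (fun t => t.1 ∈ b ∧ t.2 ∈ b) := by
      intro b hb
      have hs := S.hBP b (mem_filter.1 hb).1
      ext ⟨x, y⟩
      simp only [mem_filter, mem_offDiag, mem_sdiff]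
      constructor
      · rintro ⟨⟨h1, h2⟩, ⟨h3, h4⟩, h5⟩
        exact ⟨⟨⟨hs h1, h2⟩, ⟨hs h3, h4⟩, h5⟩, h1, h3⟩
      · rintro ⟨⟨⟨_, h2⟩, ⟨_, h4⟩, h5⟩, h6, h7⟩
        exact ⟨⟨h6, h2⟩, ⟨h7, h4⟩, h5⟩
    rw [sum_congr rfl (fun b hb => by rw [h1 b hb])]
    simp_rw [card_filter _ ((S.P \ C).offDiag)]
    rw [sum_comm]
    refine sum_congr rfl fun t _ => ?_
    rw [card_filter]
  have hbound : ∀ t ∈ (S.P \ C).offDiag, ((S.B.filter (fun b => (b ∩ C).card = 2)).filter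
        (fun b => t.1 ∈ b ∧ t.2 ∈ b)).card ≤ C.card / 2 := by
    rintro ⟨p, q⟩ ht
    simp only [mem_offDiag, mem_sdiff] at ht
    apply disjoint_pairs
    · intro b hb
      exact (mem_filter.1 (mem_filter.1 hb).1).2
    · intro b hb b' hb' hne
      rw [mem_filter, mem_filter] at hb hb'
      rw [disjoint_left]
      intro x hx hx'
      rw [mem_inter] at hx hx'
      apply hne
      apply S.un3 b hb.1.1 b' hb'.1.1 p q x ht.2.2 _ _ hb.2.1 hb.2.2 hx.1 hb'.2.1 hb'.2.2 hx'.1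
      · rintro rfl; exact ht.1.2 hx.2
      · rintro rfl; exact ht.2.1.2 hx.2
  have hfin : ∑ b ∈ S.B with (b ∩ C).card = 2, ((b \ C).offDiag.card) ≤
      (S.P \ C).offDiag.card * (C.card / 2) := by
    rw [hcount, ← smul_eq_mul, ← sum_const]
    exact sum_le_sum hbound
  have hfin' : ((∑ b ∈ S.B with (b ∩ C).card = 2, ((b \ C).offDiag.card) : ℕ) : ℤ) ≤
      (((S.P \ C).offDiag.card * (C.card / 2) : ℕ) : ℤ) := by exact_mod_cast hfin
  rw [Nat.cast_sum, Nat.cast_mul, offDiag_int, card_sdiff_int, inter_eq_right.2 hC] at hfin'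
  refine le_trans (le_of_eq ?_) hfin'
  refine sum_congr rfl fun b hb => ?_
  rw [offDiag_int, card_sdiff_int, (mem_filter.1 hb).2]
  push_cast
  ring

/-- lines through an outer point and two points of `C` -/
theorem U2 (hC : C ⊆ S.P) : ∑ b ∈ S.L with (b ∩ C).card = 2, ((b.card : ℤ) - 2) ≤
    ((S.P.card : ℤ) - C.card) * ((C.card / 2 : ℕ) : ℤ) := by
  have hcount : ∑ b ∈ S.L with (b ∩ C).card = 2, ((b \ C).card) =
      ∑ t ∈ (S.P \ C), ((S.L.filter (fun b => (b ∩ C).card = 2)).filter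
        (fun b => t ∈ b)).card := by
    have h1 : ∀ b ∈ S.L.filter (fun b => (b ∩ C).card = 2), (b \ C) =
        (S.P \ C).filter (fun t => t ∈ b) := by
      intro b hb
      have hs := S.hLP b (mem_filter.1 hb).1
      ext x
      simp only [mem_filter, mem_sdiff]
      constructor
      · rintro ⟨h1, h2⟩
        exact ⟨⟨hs h1, h2⟩, h1⟩
      · rintro ⟨⟨_, h2⟩, h6⟩
        exact ⟨h6, h2⟩
    rw [sum_congr rfl (fun b hb => by rw [h1 b hb])]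
    simp_rw [card_filter _ (S.P \ C)]
    rw [sum_comm]
    refine sum_congr rfl fun t _ => ?_
    rw [card_filter]
  have hbound : ∀ t ∈ (S.P \ C), ((S.L.filter (fun b => (b ∩ C).card = 2)).filter
        (fun b => t ∈ b)).card ≤ C.card / 2 := by
    intro p ht
    simp only [mem_sdiff] at ht
    apply disjoint_pairs
    · intro b hb
      exact (mem_filter.1 (mem_filter.1 hb).1).2
    · intro b hb b' hb' hne
      rw [mem_filter, mem_filter] at hb hb'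
      rw [disjoint_left]
      intro x hx hx'
      rw [mem_inter] at hx hx'
      apply hne
      apply S.un2 b hb.1.1 b' hb'.1.1 p x _ hb.2 hx.1 hb'.2 hx'.1
      rintro rfl; exact ht.2 hx.2
  have hfin : ∑ b ∈ S.L with (b ∩ C).card = 2, ((b \ C).card) ≤
      (S.P \ C).card * (C.card / 2) := by
    rw [hcount, ← smul_eq_mul, ← sum_const]
    exact sum_le_sum hbound
  have hfin' : ((∑ b ∈ S.L with (b ∩ C).card = 2, ((b \ C).card) : ℕ) : ℤ) ≤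
      (((S.P \ C).card * (C.card / 2) : ℕ) : ℤ) := by exact_mod_cast hfin
  rw [Nat.cast_sum, Nat.cast_mul, card_sdiff_int, inter_eq_right.2 hC] at hfin'
  refine le_trans (le_of_eq ?_) hfin'
  refine sum_congr rfl fun b hb => ?_
  rw [card_sdiff_int, (mem_filter.1 hb).2]
  push_cast
  ring

end

end Pool.Agent.Helper543.Count
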