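import Mathlib
import Pool.Agent.Helper543.Count

/-! Lower bounds for the number of circles. -/

namespace Pool.Agent.Helper543.Bounds

open Finset Pool.Agent.Helper543.Count

variable {α : Type} [DecidableEq α]

/-- multipliers -/
structure Wt where
  D : ℤ
  y1 : ℤ
  y2 : ℤ
  y3 : ℤ
  y4 : ℤ
  y5 : ℤ
  y6 : ℤ
  u1 : ℤ
  u2 : ℤ
  u3 : ℤ
  u4 : ℤ
  u5 : ℤ
  v1 : ℤ
  v2 : ℤ

/-- contribution of a generalised circle with `k` points, `j` of them in `C` -/
def Wc (w : Wt) (k j : ℤ) : ℤ :=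
  w.y1 * (j * (j - 1) * (k - j)) + w.y2 * (j * ((k - j) * (k - j - 1))) +
  w.y3 * ((k - j) * (k - j - 1) * (k - j - 2)) - w.u1 * (j * (k - 4)) -
  w.u2 * ((k - j) * (k - 4)) - w.u3 * (j * (k - 4)) - w.u4 * ((k - j) * (k - 4)) -
  w.v1 * (if j = 2 then (k - 2) * (k - 3) else 0)

/-- contribution of a line with `k` points, `j` of them in `C` -/
def Wl (w : Wt) (k j : ℤ) : ℤ :=
  w.y1 * (if 3 ≤ k then j * (j - 1) * (k - j) else 0) +
  w.y2 * (if 3 ≤ k then j * ((k - j) * (k - j - 1)) else 0) +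
  w.y3 * (if 3 ≤ k then (k - j) * (k - j - 1) * (k - j - 2) else 0) -
  w.u1 * (if 3 ≤ k then j * (k - 4) else 0) -
  w.u2 * (if 3 ≤ k then (k - j) * (k - 4) else 0) +
  w.y4 * (j * (j - 1)) + w.y5 * (j * (k - j)) + w.y6 * ((k - j) * (k - j - 1)) -
  w.u3 * (j * (k - 3)) - w.u4 * ((k - j) * (k - 3)) - w.u5 * (k - 3) -
  w.v1 * (if 3 ≤ k then (if j = 2 then (k - 2) * (k - 3) else 0) else 0) -
  w.v2 * (if j = 2 then k - 2 else 0)

/-- the total -/
def R (w : Wt) (n m h : ℤ) : ℤ :=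
  w.y1 * (m * (m - 1) * (n - m)) + w.y2 * (m * ((n - m) * (n - m - 1))) +
  w.y3 * ((n - m) * (n - m - 1) * (n - m - 2)) + w.y4 * (m * (m - 1)) +
  w.y5 * (m * (n - m)) + w.y6 * ((n - m) * (n - m - 1)) + w.u1 * (3 * m) +
  w.u2 * (3 * (n - m)) + w.u3 * (3 * m) + w.u4 * (3 * (n - m)) + w.u5 * 3 -
  w.v1 * ((n - m) * (n - m - 1) * h) - w.v2 * ((n - m) * h)

lemma split_B (S : Cfg α) (f : Finset α → ℤ) :
    ∑ b ∈ S.B, f b = ∑ b ∈ S.circ, f b + ∑ l ∈ S.L, (if (3 : ℤ) ≤ l.card then f l else 0) := by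
  have h1 : S.B ∩ S.L = S.L.filter (fun l => (3 : ℤ) ≤ l.card) := by
    ext l
    simp only [mem_inter, mem_filter]
    constructor
    · rintro ⟨h, h'⟩; exact ⟨h', by exact_mod_cast S.hB3 l h⟩
    · rintro ⟨h, h'⟩; exact ⟨S.hLB l h (by exact_mod_cast h'), h⟩
  rw [← sum_filter, ← h1, Cfg.circ]
  have h2 : S.B \ S.L = S.B \ (S.B ∩ S.L) := by ext x; simp
  rw [h2]
  exact (sum_sdiff inter_subset_left).symm

theorem cert (S : Cfg α) {C : Finset α} (hC : C ⊆ S.P) (w : Wt) (h1 : 0 ≤ w.u1) (h2 : 0 ≤ w.u2)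
    (h3 : 0 ≤ w.u3) (h4 : 0 ≤ w.u4) (h5 : 0 ≤ w.u5) (h6 : 0 ≤ w.v1) (h7 : 0 ≤ w.v2) :
    R w S.P.card C.card ((C.card / 2 : ℕ) : ℤ) ≤
      ∑ b ∈ S.circ, Wc w b.card (b ∩ C).card + ∑ l ∈ S.L, Wl w l.card (l ∩ C).card := by
  have e1 := E1 S hC
  have e2 := E2 S hC
  have e3 := E3 S hC
  have e4 := E4 S hC
  have e5 := E5 S hC
  have e6 := E6 S hC
  have g1 := U3 S hC
  have g2 := U4 S (C := C)
  have g3 := U5 S hC
  have g4 := U6 S (C := C)
  have g5 := S.m3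
  have g6 := U1 S hC
  have g7 := U2 S hC
  have hK : ((S.P \ C).card : ℤ) = (S.P.card : ℤ) - C.card := by
    rw [card_sdiff_int, inter_eq_right.2 hC]
  rw [hK] at g2 g4
  rw [sum_filter] at g6 g7
  rw [split_B] at e1 e2 e3 g1 g2 g6
  have key : ∑ b ∈ S.circ, Wc w b.card (b ∩ C).card + ∑ l ∈ S.L, Wl w l.card (l ∩ C).card =
      w.y1 * (∑ b ∈ S.circ, ((b ∩ C).card : ℤ) * ((b ∩ C).card - 1) * ((b.card : ℤ) - (b ∩ C).card) +
        ∑ l ∈ S.L, (if (3 : ℤ) ≤ l.card then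
          ((l ∩ C).card : ℤ) * ((l ∩ C).card - 1) * ((l.card : ℤ) - (l ∩ C).card) else 0)) +
      w.y2 * (∑ b ∈ S.circ, ((b ∩ C).card : ℤ) * (((b.card : ℤ) - (b ∩ C).card) *
          ((b.card : ℤ) - (b ∩ C).card - 1)) +
        ∑ l ∈ S.L, (if (3 : ℤ) ≤ l.card then ((l ∩ C).card : ℤ) * (((l.card : ℤ) - (l ∩ C).card) *
          ((l.card : ℤ) - (l ∩ C).card - 1)) else 0)) +
      w.y3 * (∑ b ∈ S.circ, ((b.card : ℤ) - (b ∩ C).card) * ((b.card : ℤ) - (b ∩ C).card - 1) *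
          ((b.card : ℤ) - (b ∩ C).card - 2) +
        ∑ l ∈ S.L, (if (3 : ℤ) ≤ l.card then ((l.card : ℤ) - (l ∩ C).card) *
          ((l.card : ℤ) - (l ∩ C).card - 1) * ((l.card : ℤ) - (l ∩ C).card - 2) else 0)) -
      w.u1 * (∑ b ∈ S.circ, ((b ∩ C).card : ℤ) * ((b.card : ℤ) - 4) +
        ∑ l ∈ S.L, (if (3 : ℤ) ≤ l.card then ((l ∩ C).card : ℤ) * ((l.card : ℤ) - 4) else 0)) -
      w.u2 * (∑ b ∈ S.circ, ((b.card : ℤ) - (b ∩ C).card) * ((b.card : ℤ) - 4) +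
        ∑ l ∈ S.L, (if (3 : ℤ) ≤ l.card then
          ((l.card : ℤ) - (l ∩ C).card) * ((l.card : ℤ) - 4) else 0)) +
      w.y4 * (∑ l ∈ S.L, ((l ∩ C).card : ℤ) * ((l ∩ C).card - 1)) +
      w.y5 * (∑ l ∈ S.L, ((l ∩ C).card : ℤ) * ((l.card : ℤ) - (l ∩ C).card)) +
      w.y6 * (∑ l ∈ S.L, ((l.card : ℤ) - (l ∩ C).card) * ((l.card : ℤ) - (l ∩ C).card - 1)) -
      w.u3 * (∑ b ∈ S.circ, ((b ∩ C).card : ℤ) * ((b.card : ℤ) - 4) +
        ∑ b ∈ S.L, ((b ∩ C).card : ℤ) * ((b.card : ℤ) - 3)) -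
      w.u4 * (∑ b ∈ S.circ, ((b.card : ℤ) - (b ∩ C).card) * ((b.card : ℤ) - 4) +
        ∑ b ∈ S.L, ((b.card : ℤ) - (b ∩ C).card) * ((b.card : ℤ) - 3)) -
      w.u5 * (∑ l ∈ S.L, ((l.card : ℤ) - 3)) -
      w.v1 * (∑ b ∈ S.circ, (if ((b ∩ C).card : ℤ) = 2 then
          ((b.card : ℤ) - 2) * ((b.card : ℤ) - 3) else 0) +
        ∑ l ∈ S.L, (if (3 : ℤ) ≤ l.card then (if ((l ∩ C).card : ℤ) = 2 then
          ((l.card : ℤ) - 2) * ((l.card : ℤ) - 3) else 0) else 0)) -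
      w.v2 * (∑ l ∈ S.L, (if ((l ∩ C).card : ℤ) = 2 then ((l.card : ℤ) - 2) else 0)) := by
    simp only [Wc, Wl, sum_add_distrib, sum_sub_distrib, ← mul_sum]
    ring
  rw [key]
  have c2 : ∀ b : Finset α, (((b ∩ C).card : ℤ) = 2) = ((b ∩ C).card = 2) := by
    intro b
    apply propext
    constructor
    · intro h; exact_mod_cast h
    · intro h; exact_mod_cast h
  simp only [c2]
  rw [e1, e2, e3, e4, e5, e6]
  have k1 := mul_le_mul_of_nonneg_left g1 h1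
  have k2 := mul_le_mul_of_nonneg_left g2 h2
  have k3 := mul_le_mul_of_nonneg_left g3 h3
  have k4 := mul_le_mul_of_nonneg_left g4 h4
  have k5 := mul_le_mul_of_nonneg_left g5 h5
  have k6 := mul_le_mul_of_nonneg_left g6 h6
  have k7 := mul_le_mul_of_nonneg_left g7 h7
  unfold R
  linarith

/-- the number of circles -/
def cc (S : Cfg α) : ℤ := S.circ.card

theorem caseA (S : Cfg α) {C : Finset α} (hC : C ∈ S.circ) (w : Wt) (h1 : 0 ≤ w.u1)
    (h2 : 0 ≤ w.u2) (h3 : 0 ≤ w.u3) (h4 : 0 ≤ w.u4) (h5 : 0 ≤ w.u5) (h6 : 0 ≤ w.v1)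
    (h7 : 0 ≤ w.v2) (hm : ∀ b ∈ S.B, b.card ≤ C.card) (hm' : ∀ b ∈ S.L, b.card ≤ C.card)
    (hc : ∀ k j : ℕ, 3 ≤ k → k ≤ C.card → j ≤ 2 → j ≤ k → k ≤ S.P.card - C.card + j →
      Wc w k j ≤ w.D)
    (hl : ∀ k j : ℕ, 2 ≤ k → k ≤ C.card → j ≤ 2 → j ≤ k → k ≤ S.P.card - C.card + j →
      Wl w k j ≤ 0) :
    R w S.P.card C.card ((C.card / 2 : ℕ) : ℤ) - Wc w C.card C.card ≤ w.D * (cc S - 1) := by
  have hCB := (mem_sdiff.1 hC).1
  have hCL := (mem_sdiff.1 hC).2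
  have hCP := S.hBP C hCB
  have h := cert S hCP w h1 h2 h3 h4 h5 h6 h7
  have hj : ∀ b ⊆ S.P, b.card ≤ S.P.card - C.card + (b ∩ C).card := by
    intro b hb
    have e1 := card_sdiff_add_card_inter b C
    have e2 : (b \ C).card ≤ (S.P \ C).card := card_le_card (sdiff_subset_sdiff hb (Subset.refl C))
    rw [card_sdiff_of_subset hCP] at e2
    omega
  have hcirc : ∑ b ∈ S.circ, Wc w b.card (b ∩ C).card ≤
      Wc w C.card C.card + w.D * (cc S - 1) := by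
    rw [← add_sum_erase S.circ _ hC, inter_self]
    have : ∑ b ∈ S.circ.erase C, Wc w b.card (b ∩ C).card ≤ ∑ b ∈ S.circ.erase C, w.D := by
      apply sum_le_sum
      intro b hb
      have hbne := ne_of_mem_erase hb
      have hbc := mem_of_mem_erase hb
      have hbB := (mem_sdiff.1 hbc).1
      exact hc b.card (b ∩ C).card (S.hB3 b hbB) (hm b hbB) (inter_le_two S hbB hCB hbne)
        (card_le_card inter_subset_left) (hj b (S.hBP b hbB))
    rw [sum_const, card_erase_of_mem hC, nsmul_eq_mul] at this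
    have hpos : 1 ≤ S.circ.card := card_pos.2 ⟨C, hC⟩
    have hcast : ((S.circ.card - 1 : ℕ) : ℤ) = cc S - 1 := by
      unfold cc; push_cast [Nat.cast_sub hpos]; ring
    rw [hcast] at this
    linarith
  have hlin : ∑ l ∈ S.L, Wl w l.card (l ∩ C).card ≤ 0 := by
    apply sum_nonpos
    intro l hlL
    have hj2 : (l ∩ C).card ≤ 2 := by
      by_cases h3 : 3 ≤ l.card
      · have hlB := S.hLB l hlL h3
        exact inter_le_two S hlB hCB (fun e => hCL (e ▸ hlL))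
      · have := card_le_card (inter_subset_left : l ∩ C ⊆ l)
        omega
    exact hl l.card (l ∩ C).card (S.hL2 l hlL) (hm' l hlL) hj2
      (card_le_card inter_subset_left) (hj l (S.hLP l hlL))
  linarith

theorem caseB (S : Cfg α) {C : Finset α} (hC : C ∈ S.L) (hC3 : 3 ≤ C.card) (w : Wt)
    (h1 : 0 ≤ w.u1)
    (h2 : 0 ≤ w.u2) (h3 : 0 ≤ w.u3) (h4 : 0 ≤ w.u4) (h5 : 0 ≤ w.u5) (h6 : 0 ≤ w.v1)
    (h7 : 0 ≤ w.v2) (hm : ∀ b ∈ S.B, b.card ≤ C.card) (hm' : ∀ b ∈ S.L, b.card ≤ C.card)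
    (hc : ∀ k j : ℕ, 3 ≤ k → k ≤ C.card → j ≤ 2 → j ≤ k → k ≤ S.P.card - C.card + j →
      Wc w k j ≤ w.D)
    (hl : ∀ k j : ℕ, 2 ≤ k → k ≤ C.card → j ≤ 1 → j ≤ k → k ≤ S.P.card - C.card + j →
      Wl w k j ≤ 0) :
    R w S.P.card C.card ((C.card / 2 : ℕ) : ℤ) - Wl w C.card C.card ≤ w.D * cc S := by
  have hCB := S.hLB C hC hC3
  have hCP := S.hBP C hCB
  have h := cert S hCP w h1 h2 h3 h4 h5 h6 h7
  have hj : ∀ b ⊆ S.P, b.card ≤ S.P.card - C.card + (b ∩ C).card := by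
    intro b hb
    have e1 := card_sdiff_add_card_inter b C
    have e2 : (b \ C).card ≤ (S.P \ C).card := card_le_card (sdiff_subset_sdiff hb (Subset.refl C))
    rw [card_sdiff_of_subset hCP] at e2
    omega
  have hcirc : ∑ b ∈ S.circ, Wc w b.card (b ∩ C).card ≤ w.D * cc S := by
    have : ∑ b ∈ S.circ, Wc w b.card (b ∩ C).card ≤ ∑ b ∈ S.circ, w.D := by
      apply sum_le_sum
      intro b hb
      have hbB := (mem_sdiff.1 hb).1
      have hbne : b ≠ C := fun e => (mem_sdiff.1 hb).2 (e ▸ hC)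
      exact hc b.card (b ∩ C).card (S.hB3 b hbB) (hm b hbB) (inter_le_two S hbB hCB hbne)
        (card_le_card inter_subset_left) (hj b (S.hBP b hbB))
    rw [sum_const, nsmul_eq_mul] at this
    unfold cc
    linarith
  have hlin : ∑ l ∈ S.L, Wl w l.card (l ∩ C).card ≤ Wl w C.card C.card := by
    rw [← add_sum_erase S.L _ hC, inter_self]
    have : ∑ l ∈ S.L.erase C, Wl w l.card (l ∩ C).card ≤ 0 := by
      apply sum_nonpos
      intro l hlL
      have hlne := ne_of_mem_erase hlL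
      have hlL' := mem_of_mem_erase hlL
      exact hl l.card (l ∩ C).card (S.hL2 l hlL') (hm' l hlL') (inter_le_one S hlL' hC hlne)
        (card_le_card inter_subset_left) (hj l (S.hLP l hlL'))
    linarith
  linarith

/-- bound around a large circle -/
theorem LB1A (S : Cfg α) {C : Finset α} (hC : C ∈ S.circ)
    (hm : ∀ b ∈ S.B, b.card ≤ C.card) (hm' : ∀ b ∈ S.L, b.card ≤ C.card)
    (hn : C.card ≤ S.P.card) :
    (C.card : ℤ) * (C.card - 1) * (C.card - 2) * (S.P.card - C.card) ≤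
      2 * (S.P.card - 1) * (cc S - 1) := by
  have hC3 := S.hB3 C (mem_sdiff.1 hC).1
  set n : ℤ := (S.P.card : ℤ) with hndef
  set m : ℤ := (C.card : ℤ) with hmdef
  have hm3 : (3 : ℤ) ≤ m := by rw [hmdef]; exact_mod_cast hC3
  have hmn : m ≤ n := by rw [hmdef, hndef]; exact_mod_cast hn
  let w : Wt := ⟨2 * (n - 1) ^ 2, 2 * (n - 1) * (m - 1) - (m - 1) ^ 2, 0,
    0, -(n - m) ^ 2, 0, 0, 0, 0, 0, 0, 0, 2 * (m - 1) ^ 2, 4 * (m - 1) ^ 2⟩
  have h := caseA S hC w le_rfl le_rfl le_rfl le_rfl le_rfl (by positivity) (by positivity) hm hm'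
    (by
      intro k j hk hkm hj hjk hK
      have hk' : (3 : ℤ) ≤ k := by exact_mod_cast hk
      interval_cases j
      · simp only [Wc, w]; norm_num; positivity
      · simp only [Wc, w]; norm_num; positivity
      · simp only [Wc, w]; norm_num
        nlinarith [sq_nonneg (((k : ℤ) - 2) * (m - 1) - (n - 1))])
    (by
      intro k j hk hkm hj hjk hK
      have hk' : (2 : ℤ) ≤ k := by exact_mod_cast hk
      interval_cases j
      · simp only [Wl, w]; norm_num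
      · simp only [Wl, w]; norm_num
      · simp only [Wl, w]
        by_cases h3 : (3 : ℤ) ≤ k
        · simp only [if_pos h3]; norm_num
          nlinarith [sq_nonneg (((k : ℤ) - 1) * (m - 1) - (n - 1))]
        · have : (k : ℤ) = 2 := by omega
          rw [this]; norm_num
          nlinarith [sq_nonneg (n - m)])
  have hWm : Wc w m m = 0 := by
    simp only [Wc, w]
    rw [if_neg (by omega)]
    ring
  have hh : (2 : ℤ) * ((C.card / 2 : ℕ) : ℤ) ≤ m := by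
    rw [hmdef]
    have : 2 * (C.card / 2) ≤ C.card := by omega
    exact_mod_cast this
  rw [← hndef, ← hmdef, hWm] at h
  have hR : m * (m - 1) * (m - 2) * (n - m) * (n - 1) ≤ R w n m ((C.card / 2 : ℕ) : ℤ) := by
    set t : ℤ := ((C.card / 2 : ℕ) : ℤ)
    simp only [R, w]
    have h1 : 0 ≤ (n - m) * (n - m + 1) * (m - 1) ^ 2 := by
      have : 0 ≤ n - m := by linarith
      positivity
    nlinarith [mul_le_mul_of_nonneg_left hh h1]
  have hfin : m * (m - 1) * (m - 2) * (n - m) * (n - 1) ≤ (2 * (n - 1) * (cc S - 1)) * (n - 1) := by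
    calc _ ≤ _ := hR
      _ ≤ w.D * (cc S - 1) := by linarith
      _ = _ := by simp only [w]; ring
  exact le_of_mul_le_mul_right hfin (by linarith)

/-- bound around a large line -/
theorem LB1B (S : Cfg α) {C : Finset α} (hC : C ∈ S.L) (hC3 : 3 ≤ C.card)
    (hm : ∀ b ∈ S.B, b.card ≤ C.card) (hm' : ∀ b ∈ S.L, b.card ≤ C.card)
    (hn : C.card ≤ S.P.card) :
    (C.card : ℤ) * (C.card - 1) ^ 2 * (S.P.card - C.card) ≤ 2 * (S.P.card - 2) * cc S := by
  set n : ℤ := (S.P.card : ℤ) with hndef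
  set m : ℤ := (C.card : ℤ) with hmdef
  have hm3 : (3 : ℤ) ≤ m := by rw [hmdef]; exact_mod_cast hC3
  have hmn : m ≤ n := by rw [hmdef, hndef]; exact_mod_cast hn
  let w : Wt := ⟨2 * (n - 2) ^ 2, 2 * (n - 2) * (m - 1) - (m - 1) ^ 2, 0,
    0, 0, 0, 0, 0, 0, 0, 0, 0, 2 * (m - 1) ^ 2, 0⟩
  have h := caseB S hC hC3 w le_rfl le_rfl le_rfl le_rfl le_rfl (by positivity) le_rfl hm hm'
    (by
      intro k j hk hkm hj hjk hK
      have hk' : (3 : ℤ) ≤ k := by exact_mod_cast hk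
      interval_cases j
      · simp only [Wc, w]; norm_num; positivity
      · simp only [Wc, w]; norm_num; positivity
      · simp only [Wc, w]; norm_num
        nlinarith [sq_nonneg (((k : ℤ) - 2) * (m - 1) - (n - 2))])
    (by
      intro k j hk hkm hj hjk hK
      interval_cases j
      · simp only [Wl, w]; norm_num
      · simp only [Wl, w]; norm_num)
  have hWm : Wl w m m = 0 := by
    simp only [Wl, w]
    rw [if_neg (show ¬ m = 2 by omega)]
    simp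
  have hh : (2 : ℤ) * ((C.card / 2 : ℕ) : ℤ) ≤ m := by
    rw [hmdef]
    have : 2 * (C.card / 2) ≤ C.card := by omega
    exact_mod_cast this
  rw [← hndef, ← hmdef, hWm] at h
  have hR : m * (m - 1) ^ 2 * (n - m) * (n - 2) ≤ R w n m ((C.card / 2 : ℕ) : ℤ) := by
    set t : ℤ := ((C.card / 2 : ℕ) : ℤ)
    simp only [R, w]
    have h1 : 0 ≤ (n - m) * (n - m - 1) * (m - 1) ^ 2 := by
      have h2 : 0 ≤ n - m := by linarith
      rcases eq_or_lt_of_le h2 with h3 | h3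
      · rw [← h3]; simp
      · have : 0 ≤ n - m - 1 := by omega
        positivity
    nlinarith [mul_le_mul_of_nonneg_left hh h1]
  have hfin : m * (m - 1) ^ 2 * (n - m) * (n - 2) ≤ (2 * (n - 2) * cc S) * (n - 2) := by
    calc _ ≤ _ := hR
      _ ≤ w.D * cc S := by linarith
      _ = _ := by simp only [w]; ring
  exact le_of_mul_le_mul_right hfin (by linarith)

/-- bound when all blocks are small -/
theorem LB2 (S : Cfg α) (m : ℕ) (hm3 : 3 ≤ m) (hm : ∀ b ∈ S.B, b.card ≤ m) :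
    ((m : ℤ) - 1) * (S.P.card * (S.P.card - 1) * (S.P.card - 2)) + 3 * S.P.card * (m ^ 2 + 2) ≤
      3 * m * (m + 2) * (cc S) + m * (m + 2) * ((S.P.card : ℤ) * (S.P.card - 1)) / 2 := by
  have e1 := Etot S
  have e2 := U3tot S
  have e3 := Epair S
  set n : ℤ := (S.P.card : ℤ) with hn
  have h1 : ∑ b ∈ S.B, (((m : ℤ) - 1) * ((b.card : ℤ) * (b.card - 1) * (b.card - 2)) -
      ((m : ℤ) ^ 2 + 2) * ((b.card : ℤ) * ((b.card : ℤ) - 4))) ≤
      ∑ b ∈ S.B, (3 * m * ((m : ℤ) + 2)) := by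
    apply sum_le_sum
    intro b hb
    have hk3 : (3 : ℤ) ≤ b.card := by exact_mod_cast S.hB3 b hb
    have hkm : (b.card : ℤ) ≤ m := by exact_mod_cast hm b hb
    have hm3' : (3 : ℤ) ≤ m := by exact_mod_cast hm3
    have key : 3 * m * ((m : ℤ) + 2) - (((m : ℤ) - 1) * ((b.card : ℤ) * (b.card - 1) * (b.card - 2)) -
      ((m : ℤ) ^ 2 + 2) * ((b.card : ℤ) * ((b.card : ℤ) - 4))) =
      ((b.card : ℤ) - 3) * (m - b.card) * ((m - 1) * b.card - (m + 2)) := by ring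
    have h2 : 0 ≤ ((m : ℤ) - 1) * b.card - (m + 2) := by nlinarith
    have h3 : 0 ≤ ((b.card : ℤ) - 3) * (m - b.card) * ((m - 1) * b.card - (m + 2)) := by
      have a1 : 0 ≤ (b.card : ℤ) - 3 := by linarith
      have a2 : 0 ≤ (m : ℤ) - b.card := by linarith
      positivity
    linarith
  rw [sum_sub_distrib, ← mul_sum, ← mul_sum, e1, sum_const, nsmul_eq_mul] at h1
  have h4 : ((m : ℤ) ^ 2 + 2) * ∑ b ∈ S.B, (b.card : ℤ) * ((b.card : ℤ) - 4) ≤
      ((m : ℤ) ^ 2 + 2) * (-3 * n) := mul_le_mul_of_nonneg_left e2 (by positivity)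
  -- number of blocks
  have h5 : (S.B.card : ℤ) = cc S + ((S.L.filter (fun l => (3 : ℤ) ≤ l.card)).card : ℤ) := by
    have := split_B S (fun _ => (1 : ℤ))
    simp only [sum_const, nsmul_eq_mul, mul_one] at this
    rw [this, cc, ← sum_filter]
    simp
  have h6 : 6 * ((S.L.filter (fun l => (3 : ℤ) ≤ l.card)).card : ℤ) ≤ n * (n - 1) := by
    rw [← e3]
    calc 6 * ((S.L.filter (fun l => (3 : ℤ) ≤ l.card)).card : ℤ)
        = ∑ l ∈ S.L.filter (fun l => (3 : ℤ) ≤ l.card), (6 : ℤ) := by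
          rw [sum_const, nsmul_eq_mul]; ring
      _ ≤ ∑ l ∈ S.L.filter (fun l => (3 : ℤ) ≤ l.card), (l.card : ℤ) * (l.card - 1) := by
          apply sum_le_sum
          intro l hl
          have := (mem_filter.1 hl).2
          nlinarith
      _ ≤ ∑ l ∈ S.L, (l.card : ℤ) * (l.card - 1) := by
          apply sum_le_sum_of_subset_of_nonneg (filter_subset _ _)
          intro l hl _
          have : (2 : ℤ) ≤ l.card := by exact_mod_cast S.hL2 l hl
          nlinarith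
  set r : ℤ := ((S.L.filter (fun l => (3 : ℤ) ≤ l.card)).card : ℤ)
  rw [h5] at h1
  have h7 : (3 * m * ((m : ℤ) + 2)) * r ≤ m * (m + 2) * (n * (n - 1)) / 2 := by
    rw [Int.le_ediv_iff_mul_le (by norm_num)]
    nlinarith [mul_le_mul_of_nonneg_left h6 (show (0 : ℤ) ≤ m * (m + 2) by positivity)]
  have h8 : (m : ℤ) * (m + 2) * (n * (n - 1)) / 2 = m * (m + 2) * (n * (n - 1)) / 2 := rfl
  linarith

end Pool.Agent.Helper543.Bounds
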