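import Mathlib
import Pool.Agent.Helper543.Bounds

/-! Numerical part of the lower bound. -/

namespace Pool.Agent.Helper543.Small

open Finset Pool.Agent.Helper543.Count Pool.Agent.Helper543.Bounds

variable {α : Type} [DecidableEq α]

/-- one less than the claimed minimum -/
def T (n : ℕ) : ℤ := (((n - 2) ^ 2 / 2 : ℕ) : ℤ)

/-- multipliers -/
def tabA (n m : ℕ) : Wt :=
  match n, m with
  | 15, 5 => ⟨315, 36, 36, 12, -35, -70, -35, 46, 46, 35, 35, 0, 0, 0⟩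
  | 15, 6 => ⟨144, 21, 15, 3, -16, -32, -16, 14, 26, 16, 16, 0, 0, 0⟩
  | 15, 7 => ⟨108, 16, 11, 2, -12, -24, -12, 10, 20, 12, 12, 0, 0, 0⟩
  | 16, 6 => ⟨144, 21, 15, 3, -16, -32, -16, 14, 26, 16, 16, 0, 0, 0⟩
  | 16, 7 => ⟨108, 16, 11, 2, -12, -24, -12, 10, 20, 12, 12, 0, 0, 0⟩
  | 16, 8 => ⟨480, 96, 24, 14, -125, -115, -80, 78, 132, 0, 0, 0, 0, 0⟩
  | 17, 6 => ⟨144, 15, 15, 5, -16, -32, -16, 22, 22, 16, 16, 0, 0, 0⟩
  | 17, 7 => ⟨504, 98, 28, 16, -129, -123, -84, 86, 136, 0, 0, 0, 0, 0⟩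
  | 17, 8 => ⟨480, 96, 24, 14, -125, -115, -80, 78, 132, 0, 0, 0, 0, 0⟩
  | 18, 7 => ⟨108, 16, 11, 2, -18, -36, -18, 22, 32, 0, 0, 0, 0, 0⟩
  | 18, 8 => ⟨480, 96, 24, 14, -125, -115, -80, 78, 132, 0, 0, 0, 0, 0⟩
  | 19, 7 => ⟨108, 16, 11, 2, -18, -36, -18, 22, 32, 0, 0, 0, 0, 0⟩
  | 19, 8 => ⟨60, 9, 6, 1, -10, -20, -10, 12, 18, 0, 0, 0, 0, 0⟩
  | 19, 9 => ⟨2376, 486, 108, 64, -627, -561, -396, 370, 664, 0, 0, 0, 0, 0⟩
  | 20, 8 => ⟨60, 9, 6, 1, -10, -20, -10, 12, 18, 0, 0, 0, 0, 0⟩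
  | 20, 9 => ⟨2376, 486, 108, 64, -627, -561, -396, 370, 664, 0, 0, 0, 0, 0⟩
  | 21, 9 => ⟨132, 20, 13, 2, -22, -44, -22, 26, 40, 0, 0, 0, 0, 0⟩
  | 22, 9 => ⟨132, 20, 13, 2, -22, -44, -22, 26, 40, 0, 0, 0, 0, 0⟩
  | 23, 10 => ⟨72, 11, 7, 1, -12, -24, -12, 14, 22, 0, 0, 0, 0, 0⟩
  | 24, 10 => ⟨72, 11, 7, 1, -12, -24, -12, 14, 22, 0, 0, 0, 0, 0⟩
  | _, _ => ⟨0, 0, 0, 0, 0, 0, 0, 0, 0, 0, 0, 0, 0, 0⟩

/-- multipliers -/
def tabB (n m : ℕ) : Wt :=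
  match n, m with
  | 15, 5 => ⟨315, 36, 36, 12, 0, -70, -35, 46, 46, 35, 35, 0, 0, 0⟩
  | 15, 6 => ⟨144, 27, 9, 5, 0, -24, -16, 18, 22, 8, 16, 0, 0, 0⟩
  | 15, 7 => ⟨420, 110, -5, 2, 0, -35, -10, 100, 0, 0, 0, 0, 0, 0⟩
  | 16, 6 => ⟨144, 27, 9, 5, 0, -36, -24, 26, 38, 0, 0, 0, 0, 0⟩
  | 16, 7 => ⟨504, 98, 28, 16, 0, -123, -84, 86, 136, 0, 0, 0, 0, 0⟩
  | 17, 6 => ⟨144, 27, 9, 5, 0, -36, -24, 26, 38, 0, 0, 0, 0, 0⟩
  | 17, 7 => ⟨504, 98, 28, 16, 0, -123, -84, 86, 136, 0, 0, 0, 0, 0⟩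
  | 18, 7 => ⟨504, 98, 28, 16, 0, -123, -84, 86, 136, 0, 0, 0, 0, 0⟩
  | 18, 8 => ⟨480, 96, 24, 14, 0, -115, -80, 78, 132, 0, 0, 0, 0, 0⟩
  | 19, 7 => ⟨504, 98, 28, 16, 0, -123, -84, 86, 136, 0, 0, 0, 0, 0⟩
  | 19, 8 => ⟨480, 96, 24, 14, 0, -115, -80, 78, 132, 0, 0, 0, 0, 0⟩
  | 20, 8 => ⟨480, 96, 24, 14, 0, -115, -80, 78, 132, 0, 0, 0, 0, 0⟩
  | 22, 9 => ⟨2376, 486, 108, 64, 0, -561, -396, 370, 664, 0, 0, 0, 0, 0⟩
  | _, _ => ⟨0, 0, 0, 0, 0, 0, 0, 0, 0, 0, 0, 0, 0, 0⟩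

/-- validity of multipliers around a circle -/
def goodA (n m : ℕ) (w : Wt) : Prop :=
  (0 ≤ w.D ∧ 0 ≤ w.u1 ∧ 0 ≤ w.u2 ∧ 0 ≤ w.u3 ∧ 0 ≤ w.u4 ∧ 0 ≤ w.u5 ∧ 0 ≤ w.v1 ∧ 0 ≤ w.v2) ∧
  (∀ k < m + 1, ∀ j < 3, 3 ≤ k → j ≤ k → k ≤ n - m + j → Wc w k j ≤ w.D) ∧
  (∀ k < m + 1, ∀ j < 3, 2 ≤ k → j ≤ k → k ≤ n - m + j → Wl w k j ≤ 0) ∧
  w.D * (T n - 1) < R w n m ((m / 2 : ℕ) : ℤ) - Wc w m m

/-- validity of multipliers around a line -/
def goodB (n m : ℕ) (w : Wt) : Prop :=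
  (0 ≤ w.D ∧ 0 ≤ w.u1 ∧ 0 ≤ w.u2 ∧ 0 ≤ w.u3 ∧ 0 ≤ w.u4 ∧ 0 ≤ w.u5 ∧ 0 ≤ w.v1 ∧ 0 ≤ w.v2) ∧
  (∀ k < m + 1, ∀ j < 3, 3 ≤ k → j ≤ k → k ≤ n - m + j → Wc w k j ≤ w.D) ∧
  (∀ k < m + 1, ∀ j < 2, 2 ≤ k → j ≤ k → k ≤ n - m + j → Wl w k j ≤ 0) ∧
  w.D * T n < R w n m ((m / 2 : ℕ) : ℤ) - Wl w m m

instance (n m : ℕ) (w : Wt) : Decidable (goodA n m w) := by
  unfold goodA
  refine @instDecidableAnd _ _ ?_ (@instDecidableAnd _ _ ?_ (@instDecidableAnd _ _ ?_ ?_)) <;>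
    infer_instance
instance (n m : ℕ) (w : Wt) : Decidable (goodB n m w) := by
  unfold goodB
  refine @instDecidableAnd _ _ ?_ (@instDecidableAnd _ _ ?_ (@instDecidableAnd _ _ ?_ ?_)) <;>
    infer_instance

/-- numerical condition, large circle -/
def chkA (n m : ℕ) : Prop :=
  2 * ((n : ℤ) - 1) * (T n - 1) < (m : ℤ) * (m - 1) * (m - 2) * (n - m)

/-- numerical condition, large line -/
def chkB (n m : ℕ) : Prop :=
  2 * ((n : ℤ) - 2) * T n < (m : ℤ) * (m - 1) ^ 2 * (n - m)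

/-- numerical condition, small blocks -/
def chk2 (n m : ℕ) : Prop :=
  6 * (m : ℤ) * (m + 2) * T n + (m : ℤ) * (m + 2) * (n * (n - 1)) <
    2 * (((m : ℤ) - 1) * (n * (n - 1) * (n - 2)) + 3 * n * (m ^ 2 + 2))

instance (n m : ℕ) : Decidable (chkA n m) := by unfold chkA; infer_instance
instance (n m : ℕ) : Decidable (chkB n m) := by unfold chkB; infer_instance
instance (n m : ℕ) : Decidable (chk2 n m) := by unfold chk2; infer_instance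

/-- combined numerical condition -/
def okk (n m : ℕ) : Prop := (chk2 n m ∨ chkA n m ∨ goodA n m (tabA n m)) ∧
    (chk2 n m ∨ chkB n m ∨ goodB n m (tabB n m))

instance (n m : ℕ) : Decidable (okk n m) := by unfold okk; infer_instance

theorem table : ∀ n < 29, ∀ m < n - 1, 15 ≤ n → 3 ≤ m → okk n m := by
  decide +kernel

lemma two_T_le (n : ℕ) (hn : 2 ≤ n) : 2 * T n ≤ ((n : ℤ) - 2) ^ 2 := by
  unfold T
  have h : 2 * ((n - 2) ^ 2 / 2) ≤ (n - 2) ^ 2 := Nat.mul_div_le _ _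
  have h2 : ((n : ℤ) - 2) = ((n - 2 : ℕ) : ℤ) := by omega
  rw [h2]
  exact_mod_cast h

theorem useA (S : Cfg α) {C : Finset α} (hC : C ∈ S.circ)
    (hm : ∀ b ∈ S.B, b.card ≤ C.card) (hm' : ∀ b ∈ S.L, b.card ≤ C.card) (w : Wt)
    (hg : goodA S.P.card C.card w) : T S.P.card < cc S := by
  obtain ⟨⟨h0, h1, h2, h3, h4, h5, h6, h7⟩, hc, hl, hfin⟩ := hg
  have h := caseA S hC w h1 h2 h3 h4 h5 h6 h7 hm hm'
    (fun k j hk hkm hj hjk hK => hc k (by omega) j (by omega) hk hjk hK)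
    (fun k j hk hkm hj hjk hK => hl k (by omega) j (by omega) hk hjk hK)
  by_contra hcon
  push Not at hcon
  nlinarith [mul_le_mul_of_nonneg_left hcon h0]

theorem useB (S : Cfg α) {C : Finset α} (hC : C ∈ S.L) (hC3 : 3 ≤ C.card)
    (hm : ∀ b ∈ S.B, b.card ≤ C.card) (hm' : ∀ b ∈ S.L, b.card ≤ C.card) (w : Wt)
    (hg : goodB S.P.card C.card w) : T S.P.card < cc S := by
  obtain ⟨⟨h0, h1, h2, h3, h4, h5, h6, h7⟩, hc, hl, hfin⟩ := hg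
  have h := caseB S hC hC3 w h1 h2 h3 h4 h5 h6 h7 hm hm'
    (fun k j hk hkm hj hjk hK => hc k (by omega) j (by omega) hk hjk hK)
    (fun k j hk hkm hj hjk hK => hl k (by omega) j (by omega) hk hjk hK)
  by_contra hcon
  push Not at hcon
  nlinarith [mul_le_mul_of_nonneg_left hcon h0]

theorem useChkA (S : Cfg α) {C : Finset α} (hC : C ∈ S.circ)
    (hm : ∀ b ∈ S.B, b.card ≤ C.card) (hm' : ∀ b ∈ S.L, b.card ≤ C.card)
    (hn : C.card ≤ S.P.card) (hg : chkA S.P.card C.card) : T S.P.card < cc S := by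
  have h := LB1A S hC hm hm' hn
  unfold chkA at hg
  have hC3 : (3 : ℤ) ≤ C.card := by exact_mod_cast S.hB3 C (mem_sdiff.1 hC).1
  have hn' : (C.card : ℤ) ≤ S.P.card := by exact_mod_cast hn
  by_contra hcon
  push Not at hcon
  have : 2 * ((S.P.card : ℤ) - 1) * (cc S - 1) ≤ 2 * ((S.P.card : ℤ) - 1) * (T S.P.card - 1) :=
    mul_le_mul_of_nonneg_left (by linarith) (by linarith)
  linarith

theorem useChkB (S : Cfg α) {C : Finset α} (hC : C ∈ S.L) (hC3 : 3 ≤ C.card)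
    (hm : ∀ b ∈ S.B, b.card ≤ C.card) (hm' : ∀ b ∈ S.L, b.card ≤ C.card)
    (hn : C.card ≤ S.P.card) (hg : chkB S.P.card C.card) : T S.P.card < cc S := by
  have h := LB1B S hC hC3 hm hm' hn
  unfold chkB at hg
  have hC3' : (3 : ℤ) ≤ C.card := by exact_mod_cast hC3
  have hn' : (C.card : ℤ) ≤ S.P.card := by exact_mod_cast hn
  by_contra hcon
  push Not at hcon
  have : 2 * ((S.P.card : ℤ) - 2) * cc S ≤ 2 * ((S.P.card : ℤ) - 2) * T S.P.card :=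
    mul_le_mul_of_nonneg_left hcon (by linarith)
  linarith

theorem useChk2 (S : Cfg α) (m : ℕ) (hm3 : 3 ≤ m) (hm : ∀ b ∈ S.B, b.card ≤ m)
    (hg : chk2 S.P.card m) : T S.P.card < cc S := by
  have h := LB2 S m hm3 hm
  unfold chk2 at hg
  have hm3' : (3 : ℤ) ≤ m := by exact_mod_cast hm3
  have h2 : 2 * ((m : ℤ) * (m + 2) * ((S.P.card : ℤ) * (S.P.card - 1)) / 2) ≤
      (m : ℤ) * (m + 2) * ((S.P.card : ℤ) * (S.P.card - 1)) := by
    exact Int.mul_ediv_self_le (by norm_num)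
  by_contra hcon
  push Not at hcon
  have : 3 * (m : ℤ) * (m + 2) * cc S ≤ 3 * (m : ℤ) * (m + 2) * T S.P.card :=
    mul_le_mul_of_nonneg_left hcon (by positivity)
  linarith

lemma chk2_of (n m : ℕ) (hn2 : 2 ≤ n)
    (h : (m : ℤ) * (m + 2) * (4 * n ^ 2 - 13 * n + 12) <
      2 * (((m : ℤ) - 1) * (n * (n - 1) * (n - 2)) + 3 * n * (m ^ 2 + 2))) : chk2 n m := by
  unfold chk2
  have h1 := two_T_le n hn2
  have h2 := mul_le_mul_of_nonneg_left h1 (show (0 : ℤ) ≤ 3 * (m * (m + 2)) by positivity)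
  nlinarith

lemma chk2_large (n m : ℕ) (hm : 12 ≤ m) (hn : 2 * m + 6 ≤ n) : chk2 n m := by
  apply chk2_of n m (by omega)
  obtain ⟨s, rfl⟩ : ∃ s, m = 12 + s := ⟨m - 12, by omega⟩
  obtain ⟨t, rfl⟩ : ∃ t, n = 2 * (12 + s) + 6 + t := ⟨n - (2 * (12 + s) + 6), by omega⟩
  push_cast
  have hs : (0 : ℤ) ≤ s := by positivity
  have ht : (0 : ℤ) ≤ t := by positivity
  generalize (s : ℤ) = s at *
  generalize (t : ℤ) = t at *
  rw [← sub_pos]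
  ring_nf
  positivity

lemma chk2_small (n m : ℕ) (hn : 29 ≤ n) (hm : 3 ≤ m) (hm' : m ≤ 11) : chk2 n m := by
  apply chk2_of n m (by omega)
  obtain ⟨t, rfl⟩ : ∃ t, n = 29 + t := ⟨n - 29, by omega⟩
  push_cast
  have ht : (0 : ℤ) ≤ t := by positivity
  generalize (t : ℤ) = t at *
  rw [← sub_pos]
  interval_cases m <;> · push_cast; ring_nf; positivity

lemma big_ineq (n m : ℤ) (hm : 12 ≤ m) (hn : m + 2 ≤ n) (hn' : n ≤ 2 * m + 5) :
    (n - 1) * ((n - 2) ^ 2 - 2) < m * (m - 1) * (m - 2) * (n - m) := by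
  obtain ⟨r, rfl⟩ : ∃ r, n = m + r + 2 := ⟨n - m - 2, by ring⟩
  have hr : 0 ≤ r := by linarith
  have hr' : 0 ≤ m + 3 - r := by linarith
  have key : m * (m - 1) * (m - 2) * (m + r + 2 - m) - (m + r + 2 - 1) * ((m + r + 2 - 2) ^ 2 - 2) =
      (m ^ 3 - 7 * m ^ 2 + 6 * m + 2) + (m ^ 3 - 10 * m ^ 2 - 16 * m - 10) * r +
        r * (m + 3 - r) * (4 * m + 4 + r) := by ring
  rw [← sub_pos, key]
  have h1 : 0 < m ^ 3 - 7 * m ^ 2 + 6 * m + 2 := by nlinarith [sq_nonneg m]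
  have h2 : 0 ≤ m ^ 3 - 10 * m ^ 2 - 16 * m - 10 := by nlinarith [sq_nonneg m]
  positivity

lemma chkA_large (n m : ℕ) (hm : 12 ≤ m) (hn : m + 2 ≤ n) (hn' : n ≤ 2 * m + 5) : chkA n m := by
  unfold chkA
  have h := big_ineq n m (by exact_mod_cast hm) (by exact_mod_cast hn) (by exact_mod_cast hn')
  have h1 := two_T_le n (by omega)
  have h0 : (14 : ℤ) ≤ n := by exact_mod_cast (show 14 ≤ n by omega)
  have h2 := mul_le_mul_of_nonneg_left h1 (show (0 : ℤ) ≤ (n : ℤ) - 1 by linarith)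
  nlinarith

lemma chkB_large (n m : ℕ) (hm : 12 ≤ m) (hn : m + 2 ≤ n) (hn' : n ≤ 2 * m + 5) : chkB n m := by
  unfold chkB
  have h := big_ineq n m (by exact_mod_cast hm) (by exact_mod_cast hn) (by exact_mod_cast hn')
  have h1 := two_T_le n (by omega)
  have h0 : (14 : ℤ) ≤ n := by exact_mod_cast (show 14 ≤ n by omega)
  have hm0 : (12 : ℤ) ≤ m := by exact_mod_cast hm
  have hmn : (m : ℤ) + 2 ≤ n := by exact_mod_cast hn
  have h2 := mul_le_mul_of_nonneg_left h1 (show (0 : ℤ) ≤ (n : ℤ) - 2 by linarith)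
  have h3 : ((n : ℤ) - 2) ^ 3 ≤ (n - 1) * ((n - 2) ^ 2 - 2) := by nlinarith
  have h4 : (m : ℤ) * (m - 1) * (m - 2) * (n - m) ≤ (m : ℤ) * (m - 1) ^ 2 * (n - m) := by
    have : (m : ℤ) * (m - 1) ^ 2 * (n - m) - (m : ℤ) * (m - 1) * (m - 2) * (n - m) =
        m * (m - 1) * (n - m) := by ring
    have h5 : (0 : ℤ) ≤ m * (m - 1) * (n - m) :=
      mul_nonneg (mul_nonneg (by linarith) (by linarith)) (by linarith)
    linarith
  nlinarith

theorem nearA (S : Cfg α) {C : Finset α} (hC : C ∈ S.circ)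
    (hm : ∀ b ∈ S.B, b.card ≤ C.card) (hm' : ∀ b ∈ S.L, b.card ≤ C.card)
    (hn : S.P.card = C.card + 1) : T S.P.card < cc S := by
  have hC3 := S.hB3 C (mem_sdiff.1 hC).1
  let w : Wt := ⟨2, 1, 0, 0, 0, 0, 0, 0, 0, 0, 0, 0, 0, 2⟩
  have h := caseA S hC w le_rfl le_rfl le_rfl le_rfl le_rfl le_rfl (by simp [w]) hm hm'
    (by
      intro k j hk hkm hj hjk hK
      have hkj : k = 3 ∧ j = 2 := by omega
      obtain ⟨rfl, rfl⟩ := hkj
      simp [Wc, w])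
    (by
      intro k j hk hkm hj hjk hK
      have hkj : (k = 3 ∧ j = 2) ∨ (k = 2 ∧ j = 2) ∨ (k = 2 ∧ j = 1) := by omega
      rcases hkj with ⟨rfl, rfl⟩ | ⟨rfl, rfl⟩ | ⟨rfl, rfl⟩ <;> simp [Wl, w])
  have hcast : (S.P.card : ℤ) = C.card + 1 := by exact_mod_cast hn
  have hWm : Wc w C.card C.card = 0 := by
    simp only [Wc, w]
    ring
  rw [hWm, hcast] at h
  have hR : R w ((C.card : ℤ) + 1) C.card ((C.card / 2 : ℕ) : ℤ) =
      (C.card : ℤ) * (C.card - 1) - 2 * ((C.card / 2 : ℕ) : ℤ) := by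
    simp only [R, w]; ring
  rw [hR] at h
  have hwD : w.D = 2 := rfl
  rw [hwD] at h
  rw [hn]
  unfold T
  have e1 : C.card + 1 - 2 = C.card - 1 := by omega
  rw [e1]
  generalize C.card = m at *
  obtain ⟨a, ha | ha⟩ : ∃ a, m = 2 * a ∨ m = 2 * a + 1 := ⟨m / 2, by omega⟩
  · subst ha
    obtain ⟨b, rfl⟩ : ∃ b, a = b + 1 := ⟨a - 1, by omega⟩
    have e2 : (2 * (b + 1) - 1) ^ 2 / 2 = 2 * b * b + 2 * b := by
      have : (2 * (b + 1) - 1) ^ 2 = 2 * (2 * b * b + 2 * b) + 1 := by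
        have : 2 * (b + 1) - 1 = 2 * b + 1 := by omega
        rw [this]; ring
      omega
    have e3 : 2 * (b + 1) / 2 = b + 1 := by omega
    rw [e2]
    rw [e3] at h
    push_cast at h ⊢
    nlinarith
  · subst ha
    have e2 : (2 * a + 1 - 1) ^ 2 / 2 = 2 * a * a := by
      have : (2 * a + 1 - 1) ^ 2 = 2 * (2 * a * a) := by
        have : 2 * a + 1 - 1 = 2 * a := by omega
        rw [this]; ring
      omega
    have e3 : (2 * a + 1) / 2 = a := by omega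
    rw [e2]
    rw [e3] at h
    push_cast at h ⊢
    nlinarith

theorem nearB (S : Cfg α) {C : Finset α} (hC : C ∈ S.L) (hC3 : 3 ≤ C.card)
    (hm : ∀ b ∈ S.B, b.card ≤ C.card) (hm' : ∀ b ∈ S.L, b.card ≤ C.card)
    (hn : S.P.card = C.card + 1) : T S.P.card < cc S := by
  let w : Wt := ⟨2, 1, 0, 0, 0, 0, 0, 0, 0, 0, 0, 0, 0, 0⟩
  have h := caseB S hC hC3 w le_rfl le_rfl le_rfl le_rfl le_rfl le_rfl le_rfl hm hm'
    (by
      intro k j hk hkm hj hjk hK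
      have hkj : k = 3 ∧ j = 2 := by omega
      obtain ⟨rfl, rfl⟩ := hkj
      simp [Wc, w])
    (by
      intro k j hk hkm hj hjk hK
      have hkj : (k = 2 ∧ j = 1) := by omega
      rcases hkj with ⟨rfl, rfl⟩
      simp [Wl, w])
  have hcast : (S.P.card : ℤ) = C.card + 1 := by exact_mod_cast hn
  have hC3' : (3 : ℤ) ≤ C.card := by exact_mod_cast hC3
  have hWm : Wl w C.card C.card = 0 := by
    simp [Wl, w]
  rw [hWm, hcast] at h
  have hR : R w ((C.card : ℤ) + 1) C.card ((C.card / 2 : ℕ) : ℤ) =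
      (C.card : ℤ) * (C.card - 1) := by
    simp only [R, w]; ring
  rw [hR] at h
  have hwD : w.D = 2 := rfl
  rw [hwD] at h
  have h1 := two_T_le S.P.card (by omega)
  rw [hcast] at h1
  nlinarith

/-- lower bound for at least fifteen points -/
theorem lower15 (S : Cfg α) (hn : 15 ≤ S.P.card) (hPB : S.P ∉ S.B) : T S.P.card < cc S := by
  -- a largest block
  have hBne : S.B.Nonempty := by
    have h2 : 2 < S.P.card := by omega
    obtain ⟨x, y, z, hx, hy, hz, hxy, hxz, hyz⟩ := two_lt_card_iff.1 h2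
    obtain ⟨b, hb, _⟩ := S.ex3 x hx y hy z hz hxy hxz hyz
    exact ⟨b, hb⟩
  obtain ⟨C, hCB, hCmax⟩ := exists_max_image S.B card hBne
  have hC3 := S.hB3 C hCB
  have hL : ∀ l ∈ S.L, l.card ≤ C.card := by
    intro l hl
    by_cases h3 : 3 ≤ l.card
    · exact hCmax l (S.hLB l hl h3)
    · omega
  have hCP := S.hBP C hCB
  have hlt : C.card < S.P.card := by
    apply card_lt_card
    refine (Finset.ssubset_iff_subset_ne).2 ⟨hCP, fun e => hPB (e ▸ hCB)⟩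
  by_cases hnear : S.P.card = C.card + 1
  · by_cases hCL : C ∈ S.L
    · exact nearB S hCL hC3 hCmax hL hnear
    · exact nearA S (mem_sdiff.2 ⟨hCB, hCL⟩) hCmax hL hnear
  have hle : C.card + 2 ≤ S.P.card := by omega
  by_cases h29 : S.P.card < 29
  · have ht := table S.P.card h29 C.card (by omega) hn hC3
    by_cases hCL : C ∈ S.L
    · rcases ht.2 with h | h | h
      · exact useChk2 S C.card hC3 hCmax h
      · exact useChkB S hCL hC3 hCmax hL hlt.le h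
      · exact useB S hCL hC3 hCmax hL _ h
    · have hCc : C ∈ S.circ := mem_sdiff.2 ⟨hCB, hCL⟩
      rcases ht.1 with h | h | h
      · exact useChk2 S C.card hC3 hCmax h
      · exact useChkA S hCc hCmax hL hlt.le h
      · exact useA S hCc hCmax hL _ h
  · push Not at h29
    by_cases hm12 : C.card < 12
    · exact useChk2 S C.card hC3 hCmax (chk2_small _ _ h29 hC3 (by omega))
    · push Not at hm12
      by_cases hbig : 2 * C.card + 6 ≤ S.P.card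
      · exact useChk2 S C.card hC3 hCmax (chk2_large _ _ hm12 hbig)
      · have hb : S.P.card ≤ 2 * C.card + 5 := by omega
        by_cases hCL : C ∈ S.L
        · exact useChkB S hCL hC3 hCmax hL hlt.le (chkB_large _ _ hm12 hle hb)
        · exact useChkA S (mem_sdiff.2 ⟨hCB, hCL⟩) hCmax hL hlt.le (chkA_large _ _ hm12 hle hb)

end Pool.Agent.Helper543.Small
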