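import Mathlib
import Pool.Agent.Helper543.Blocks
import Pool.Agent.Helper543.Small

/-! Circles determined by a finite set of points of the plane. -/

namespace Pool.Agent.Helper543.PlaneC

open Finset Pool.Agent.Helper543.Melchior
open Pool.Agent.Helper543.Blocks Pool.Agent.Helper543.Count
open Pool.Agent.Helper543.Bounds Pool.Agent.Helper543.Small

noncomputable section

open Classical in
/-- the system of generalised circles and lines of a planar set -/
def cfg (P : Finset Pt) (h3 : 3 ≤ P.card) (hP : ∀ B ∈ blocks P, ∃ x ∈ P, x ∉ B) : Cfg Pt where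
  P := P
  B := blocks P
  L := lines P
  hBP := fun b hb => block_subset hb
  hB3 := fun b hb => block_card hb
  hLP := fun l hl => line_subset hl
  hL2 := fun l hl => by
    obtain ⟨a, ha, b, hb, hab⟩ := exists_two hl
    exact one_lt_card.2 ⟨a, ha, b, hb, hab⟩
  ex3 := fun x hx y hy z hz hxy hxz hyz =>
    ⟨blk P x y z, blk_mem_blocks hx hy hz hxy hxz hyz, blk_mem1 hx, blk_mem2 hy, blk_mem3 hz⟩
  un3 := fun b hb b' hb' x y z hxy hxz hyz hx hy hz hx' hy' hz' => by
    rw [block_third hb hx hy hz hxy.symm hxz.symm hyz.symm,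
      block_third hb' hx' hy' hz' hxy.symm hxz.symm hyz.symm]
  ex2 := fun x hx y hy hxy => ⟨lineOf P x y, lineOf_mem_lines hx hy hxy,
    mem_lineOf.2 ⟨hx, cr_self_left _ _⟩, mem_lineOf.2 ⟨hy, cr_self_right _ _⟩⟩
  un2 := fun l hl l' hl' x y hxy hx hy hx' hy' => by
    rw [eq_lineOf hl hx hy hxy, eq_lineOf hl' hx' hy' hxy]
  hLB := fun l hl h => line_mem_blocks hl h
  m1 := fun p hp => by
    apply mel1 hP hp
    obtain ⟨a, ha, hap⟩ := exists_mem_ne (s := P) (by omega) p
    obtain ⟨b, hb, hba⟩ := exists_mem_ne (s := P.erase p)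
      (by rw [card_erase_of_mem hp]; omega) a
    exact ⟨a, ha, b, mem_of_mem_erase hb, hap, ne_of_mem_erase hb, hba.symm⟩
  m2 := fun p hp => by
    apply mel2 hP hp
    obtain ⟨a, ha, hap⟩ := exists_mem_ne (s := P) (by omega) p
    obtain ⟨b, hb, hba⟩ := exists_mem_ne (s := P.erase p)
      (by rw [card_erase_of_mem hp]; omega) a
    exact ⟨a, ha, b, mem_of_mem_erase hb, hap, ne_of_mem_erase hb, hba.symm⟩
  m3 := by
    apply mel3
    obtain ⟨a, b, c, ha, hb, hc, hab, hac, hbc⟩ := two_lt_card_iff.1 (show 2 < P.card by omega)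
    by_contra hcon
    push Not at hcon
    obtain ⟨x, hx, hxB⟩ := hP _ (blk_mem_blocks ha hb hc hab hac hbc)
    apply hxB
    rw [mem_blk]
    refine ⟨hx, ?_⟩
    rw [G_of_collinear hab (hcon a ha b hb c hc) hac.symm hbc.symm]
    exact hcon a ha b hb x hx

/-- the circle with centre `(p, q)` in polynomial form -/
def On (p q k : ℝ) (x : Pt) : Prop := x.1 ^ 2 + x.2 ^ 2 - 2 * p * x.1 - 2 * q * x.2 = k

lemma G_key (p q k : ℝ) (a b c x : Pt) : G a b c x =
    cr a c x * (b.1 ^ 2 + b.2 ^ 2 - 2 * p * b.1 - 2 * q * b.2 - k) -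
    cr a b x * (c.1 ^ 2 + c.2 ^ 2 - 2 * p * c.1 - 2 * q * c.2 - k) +
    cr a b c * (x.1 ^ 2 + x.2 ^ 2 - 2 * p * x.1 - 2 * q * x.2 - k) -
    cr b c x * (a.1 ^ 2 + a.2 ^ 2 - 2 * p * a.1 - 2 * q * a.2 - k) := by
  simp only [G, nrm, cr]
  ring

lemma G_of_On {p q k : ℝ} {a b c x : Pt} (ha : On p q k a) (hb : On p q k b) (hc : On p q k c)
    (hx : On p q k x) : G a b c x = 0 := by
  simp only [On] at ha hb hc hx
  rw [G_key p q k, ha, hb, hc, hx]
  ring

lemma On_of_G {p q k : ℝ} {a b c x : Pt} (hcr : cr a b c ≠ 0) (ha : On p q k a)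
    (hb : On p q k b) (hc : On p q k c) (hG : G a b c x = 0) : On p q k x := by
  simp only [On] at ha hb hc ⊢
  rw [G_key p q k, ha, hb, hc] at hG
  have h : cr a b c * (x.1 ^ 2 + x.2 ^ 2 - 2 * p * x.1 - 2 * q * x.2 - k) = 0 := by
    linear_combination hG
  rcases mul_eq_zero.1 h with h | h
  · exact absurd h hcr
  · linarith

lemma exists_On {a b c : Pt} (hcr : cr a b c ≠ 0) :
    ∃ p q k : ℝ, On p q k a ∧ On p q k b ∧ On p q k c := by
  refine ⟨((b.1 ^ 2 + b.2 ^ 2 - a.1 ^ 2 - a.2 ^ 2) * (c.2 - a.2) -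
      (c.1 ^ 2 + c.2 ^ 2 - a.1 ^ 2 - a.2 ^ 2) * (b.2 - a.2)) / (2 * cr a b c),
    ((b.1 - a.1) * (c.1 ^ 2 + c.2 ^ 2 - a.1 ^ 2 - a.2 ^ 2) -
      (c.1 - a.1) * (b.1 ^ 2 + b.2 ^ 2 - a.1 ^ 2 - a.2 ^ 2)) / (2 * cr a b c), _, rfl, ?_, ?_⟩
  · simp only [On]
    field_simp
    simp only [cr]
    ring
  · simp only [On]
    field_simp
    simp only [cr]
    ring

lemma cr_ne_of_On {p q k : ℝ} {a b c : Pt} (ha : On p q k a) (hb : On p q k b)
    (hc : On p q k c) (hab : a ≠ b) (hac : a ≠ c) (hbc : b ≠ c) : cr a b c ≠ 0 := by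
  intro h
  obtain ⟨s, h1, h2⟩ := exists_param hab h
  have e1 : c.1 = a.1 + s * (b.1 - a.1) := by linarith
  have e2 : c.2 = a.2 + s * (b.2 - a.2) := by linarith
  simp only [On] at ha hb hc
  rw [e1, e2] at hc
  have key : s * (s - 1) * nrm a b = 0 := by
    simp only [nrm]
    linear_combination hc - (1 - s) * ha - s * hb
  have hn := (nrm_pos hab.symm).ne'
  rcases mul_eq_zero.1 key with h3 | h3
  · rcases mul_eq_zero.1 h3 with h4 | h4
    · apply hac
      ext
      · rw [e1, h4]; ring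
      · rw [e2, h4]; ring
    · apply hbc
      have : s = 1 := by linarith
      ext
      · rw [e1, this]; ring
      · rw [e2, this]; ring
  · exact hn h3

lemma On_unique {p q k p' q' k' : ℝ} {a b c : Pt} (hcr : cr a b c ≠ 0) (ha : On p q k a)
    (hb : On p q k b) (hc : On p q k c) (ha' : On p' q' k' a) (hb' : On p' q' k' b)
    (hc' : On p' q' k' c) : p = p' ∧ q = q' ∧ k = k' := by
  simp only [On] at *
  have h1 : (p - p') * cr a b c = 0 := by
    simp only [cr]
    linear_combination (1 / 2 * (c.2 - a.2)) * (ha - ha' - hb + hb') -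
      (1 / 2 * (b.2 - a.2)) * (ha - ha' - hc + hc')
  have h2 : (q - q') * cr a b c = 0 := by
    simp only [cr]
    linear_combination (1 / 2 * (b.1 - a.1)) * (ha - ha' - hc + hc') -
      (1 / 2 * (c.1 - a.1)) * (ha - ha' - hb + hb')
  have hp : p = p' := by
    rcases mul_eq_zero.1 h1 with h | h
    · linarith
    · exact absurd h hcr
  have hq : q = q' := by
    rcases mul_eq_zero.1 h2 with h | h
    · linarith
    · exact absurd h hcr
  subst hp hq
  exact ⟨rfl, rfl, by linarith⟩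

/-- the Euclidean plane -/
abbrev Plane := EuclideanSpace ℝ (Fin 2)

/-- coordinates -/
def phi (x : Plane) : Pt := (x 0, x 1)

/-- point with given coordinates -/
def psi (x : Pt) : Plane := !₂[x.1, x.2]

lemma phi_psi (x : Pt) : phi (psi x) = x := by
  ext <;> simp [phi, psi]

lemma phi_inj : Function.Injective phi := by
  intro x y h
  simp only [phi, Prod.mk.injEq] at h
  ext i
  fin_cases i
  · exact h.1
  · exact h.2

lemma psi_phi (x : Plane) : psi (phi x) = x := phi_inj (phi_psi _)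

lemma mem_sphere_iff (c : Plane) {r : ℝ} (hr : 0 < r) (x : Plane) : x ∈ Metric.sphere c r ↔
    On (c 0) (c 1) (r ^ 2 - (c 0) ^ 2 - (c 1) ^ 2) (phi x) := by
  rw [Metric.mem_sphere, EuclideanSpace.dist_eq, Fin.sum_univ_two, Real.dist_eq, Real.dist_eq,
    sq_abs, sq_abs, Real.sqrt_eq_iff_mul_self_eq (by positivity) hr.le]
  simp only [On, phi]
  constructor
  · intro h; nlinarith
  · intro h; nlinarith

lemma exists_sphere {p q k : ℝ} {a b : Pt} (ha : On p q k a) (hb : On p q k b) (hab : a ≠ b) :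
    ∃ (c : Plane) (r : ℝ), 0 < r ∧ ∀ x, x ∈ Metric.sphere c r ↔ On p q k (phi x) := by
  have h0 : 0 < k + p ^ 2 + q ^ 2 := by
    by_contra hcon
    push Not at hcon
    simp only [On] at ha hb
    have h1 : (a.1 - p) ^ 2 + (a.2 - q) ^ 2 = k + p ^ 2 + q ^ 2 := by linarith
    have h2 : (b.1 - p) ^ 2 + (b.2 - q) ^ 2 = k + p ^ 2 + q ^ 2 := by linarith
    have a1 : (a.1 - p) ^ 2 = 0 := by nlinarith [sq_nonneg (a.1 - p), sq_nonneg (a.2 - q)]
    have a2 : (a.2 - q) ^ 2 = 0 := by nlinarith [sq_nonneg (a.1 - p), sq_nonneg (a.2 - q)]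
    have b1 : (b.1 - p) ^ 2 = 0 := by nlinarith [sq_nonneg (b.1 - p), sq_nonneg (b.2 - q)]
    have b2 : (b.2 - q) ^ 2 = 0 := by nlinarith [sq_nonneg (b.1 - p), sq_nonneg (b.2 - q)]
    have a1' := pow_eq_zero_iff (n := 2) (by norm_num) |>.1 a1
    have a2' := pow_eq_zero_iff (n := 2) (by norm_num) |>.1 a2
    have b1' := pow_eq_zero_iff (n := 2) (by norm_num) |>.1 b1
    have b2' := pow_eq_zero_iff (n := 2) (by norm_num) |>.1 b2
    apply hab
    ext <;> linarith
  refine ⟨!₂[p, q], Real.sqrt (k + p ^ 2 + q ^ 2), Real.sqrt_pos.2 h0, fun x => ?_⟩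
  rw [mem_sphere_iff _ (Real.sqrt_pos.2 h0), Real.sq_sqrt h0.le]
  have e1 : (!₂[p, q] : Plane) 0 = p := by simp
  have e2 : (!₂[p, q] : Plane) 1 = q := by simp
  rw [e1, e2]
  have e3 : k + p ^ 2 + q ^ 2 - p ^ 2 - q ^ 2 = k := by ring
  rw [e3]

lemma collinear_iff_cr (P : Set Plane) : Collinear ℝ P ↔
    ∀ a ∈ P, ∀ b ∈ P, ∀ c ∈ P, cr (phi a) (phi b) (phi c) = 0 := by
  constructor
  · intro h a ha b hb c hc
    rw [collinear_iff_exists_forall_eq_smul_vadd] at h
    obtain ⟨p₀, v, hv⟩ := h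
    obtain ⟨r, hr⟩ := hv a ha
    obtain ⟨s, hs⟩ := hv b hb
    obtain ⟨t, ht⟩ := hv c hc
    rw [hr, hs, ht]
    simp only [cr, phi, vadd_eq_add, PiLp.add_apply, PiLp.smul_apply, smul_eq_mul]
    ring
  · intro h
    by_cases hne : ∃ a ∈ P, ∃ b ∈ P, a ≠ b
    · obtain ⟨a, ha, b, hb, hab⟩ := hne
      rw [collinear_iff_of_mem ha]
      refine ⟨b - a, fun c hc => ?_⟩
      have hne' : phi a ≠ phi b := fun e => hab (phi_inj e)
      obtain ⟨s, h1, h2⟩ := exists_param hne' (h a ha b hb c hc)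
      refine ⟨s, ?_⟩
      simp only [phi] at h1 h2
      ext i
      simp only [vadd_eq_add, PiLp.add_apply, PiLp.smul_apply, smul_eq_mul, PiLp.sub_apply]
      fin_cases i
      · simp only [Fin.zero_eta]; linarith
      · simp only [Fin.mk_one]; linarith
    · push Not at hne
      have hss : P.Subsingleton := fun a ha b hb => hne a ha b hb
      rcases hss.eq_empty_or_singleton with h0 | ⟨x, h0⟩
      · rw [h0]; exact collinear_empty ℝ Plane
      · rw [h0]; exact collinear_singleton ℝ x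

/-- the circles determined by a set -/
def Circles (P : Set Plane) : Set (Set Plane) :=
  {C | (∃ (c : Plane) (r : ℝ), 0 < r ∧ C = Metric.sphere c r) ∧ 3 ≤ (P ∩ C).ncard}

/-- not contained in a line nor in a circle -/
def Admissible (P : Set Plane) : Prop :=
  ¬ Collinear ℝ P ∧ ¬ ∃ (c : Plane) (r : ℝ), 0 < r ∧ P ⊆ Metric.sphere c r

open Classical in
/-- coordinates of the points of `P` on `C` -/
def trace (P : Finset Plane) (C : Set Plane) : Finset Pt := (P.filter (fun x => x ∈ C)).image phi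

lemma mem_trace {P : Finset Plane} {C : Set Plane} {x : Pt} :
    x ∈ trace P C ↔ x ∈ P.image phi ∧ psi x ∈ C := by
  classical
  simp only [trace, mem_image, mem_filter]
  constructor
  · rintro ⟨a, ⟨h1, h2⟩, rfl⟩
    exact ⟨⟨a, h1, rfl⟩, by rwa [psi_phi]⟩
  · rintro ⟨⟨a, h1, rfl⟩, h2⟩
    rw [psi_phi] at h2
    exact ⟨a, ⟨h1, h2⟩, rfl⟩

lemma exists_three {P : Finset Plane} {C : Set Plane} (hC : C ∈ Circles P) :
    ∃ p q k : ℝ, (∀ x, x ∈ C ↔ On p q k (phi x)) ∧ ∃ a ∈ P, ∃ b ∈ P, ∃ c ∈ P, a ∈ C ∧ b ∈ C ∧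
      c ∈ C ∧ a ≠ b ∧ a ≠ c ∧ b ≠ c := by
  classical
  obtain ⟨⟨c₀, r, hr, rfl⟩, h3⟩ := hC
  refine ⟨_, _, _, fun x => mem_sphere_iff c₀ hr x, ?_⟩
  have e : (↑P ∩ Metric.sphere c₀ r : Set Plane) = ↑(P.filter (fun x => x ∈ Metric.sphere c₀ r)) := by
    ext x; simp
  rw [e, Set.ncard_coe_finset] at h3
  obtain ⟨a, b, c, ha, hb, hc, hab, hac, hbc⟩ := two_lt_card_iff.1 h3
  rw [mem_filter] at ha hb hc
  exact ⟨a, ha.1, b, hb.1, c, hc.1, ha.2, hb.2, hc.2, hab, hac, hbc⟩

lemma trace_eq_blk {P : Finset Plane} {C : Set Plane} {p q k : ℝ}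
    (h : ∀ x, x ∈ C ↔ On p q k (phi x)) {a b c : Pt} (ha : On p q k a)
    (hb : On p q k b) (hc : On p q k c) (hcr : cr a b c ≠ 0) :
    trace P C = blk (P.image phi) a b c := by
  ext x
  rw [mem_trace, mem_blk, h, phi_psi]
  constructor
  · rintro ⟨h1, h2⟩; exact ⟨h1, G_of_On ha hb hc h2⟩
  · rintro ⟨h1, h2⟩; exact ⟨h1, On_of_G hcr ha hb hc h2⟩

lemma blk_notMem_lines {P : Finset Pt} {a b c : Pt} (ha : a ∈ P) (hb : b ∈ P) (hc : c ∈ P)
    (hab : a ≠ b) (hcr : cr a b c ≠ 0) : blk P a b c ∉ lines P := by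
  intro h
  have := eq_lineOf h (blk_mem1 ha) (blk_mem2 hb) hab
  have h2 : c ∈ blk P a b c := blk_mem3 hc
  rw [this, mem_lineOf] at h2
  exact hcr h2.2

lemma trace_mem {P : Finset Plane} {C : Set Plane} (hC : C ∈ Circles P) :
    trace P C ∈ blocks (P.image phi) \ lines (P.image phi) := by
  obtain ⟨p, q, k, h, a, ha, b, hb, c, hc, haC, hbC, hcC, hab, hac, hbc⟩ := exists_three hC
  rw [h] at haC hbC hcC
  have hab' : phi a ≠ phi b := fun e => hab (phi_inj e)
  have hac' : phi a ≠ phi c := fun e => hac (phi_inj e)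
  have hbc' : phi b ≠ phi c := fun e => hbc (phi_inj e)
  have hcr := cr_ne_of_On haC hbC hcC hab' hac' hbc'
  rw [trace_eq_blk h haC hbC hcC hcr, mem_sdiff]
  have ha' := mem_image_of_mem phi ha
  have hb' := mem_image_of_mem phi hb
  have hc' := mem_image_of_mem phi hc
  exact ⟨blk_mem_blocks ha' hb' hc' hab' hac' hbc', blk_notMem_lines ha' hb' hc' hab' hcr⟩

lemma trace_inj {P : Finset Plane} : Set.InjOn (trace P) (Circles P) := by
  intro C hC C' hC' e
  obtain ⟨p, q, k, h, a, ha, b, hb, c, hc, haC, hbC, hcC, hab, hac, hbc⟩ := exists_three hC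
  obtain ⟨p', q', k', h', -⟩ := exists_three hC'
  have hab' : phi a ≠ phi b := fun e => hab (phi_inj e)
  have hac' : phi a ≠ phi c := fun e => hac (phi_inj e)
  have hbc' : phi b ≠ phi c := fun e => hbc (phi_inj e)
  have key : ∀ x ∈ P, x ∈ C → x ∈ C' := by
    intro x hx hxC
    have : phi x ∈ trace P C := mem_trace.2 ⟨mem_image_of_mem _ hx, by rwa [psi_phi]⟩
    rw [e, mem_trace, psi_phi] at this
    exact this.2
  have haC' := key a ha haC
  have hbC' := key b hb hbC
  have hcC' := key c hc hcC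
  rw [h] at haC hbC hcC
  rw [h'] at haC' hbC' hcC'
  have hcr := cr_ne_of_On haC hbC hcC hab' hac' hbc'
  obtain ⟨rfl, rfl, rfl⟩ := On_unique hcr haC hbC hcC haC' hbC' hcC'
  ext x
  rw [h, h']

lemma trace_surj {P : Finset Plane} {B : Finset Pt}
    (hB : B ∈ blocks (P.image phi) \ lines (P.image phi)) : ∃ C ∈ Circles P, trace P C = B := by
  classical
  rw [mem_sdiff] at hB
  obtain ⟨hB, hBl⟩ := hB
  obtain ⟨a, ha, b, hb, c, hc, hab, hac, hbc, rfl⟩ := mem_blocks.1 hB
  have hcr : cr a b c ≠ 0 := by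
    intro h0
    exact hBl (block_mem_lines hB (blk_mem1 ha) (blk_mem2 hb) (blk_mem3 hc) hab hac.symm
      hbc.symm h0)
  obtain ⟨p, q, k, h1, h2, h3⟩ := exists_On hcr
  obtain ⟨c₀, r, hr, hx⟩ := exists_sphere h1 h2 hab
  refine ⟨Metric.sphere c₀ r, ⟨⟨c₀, r, hr, rfl⟩, ?_⟩, trace_eq_blk hx h1 h2 h3 hcr⟩
  have e : (↑P ∩ Metric.sphere c₀ r : Set Plane) =
      ↑(P.filter (fun x => x ∈ Metric.sphere c₀ r)) := by
    ext x; simp
  rw [e, Set.ncard_coe_finset]
  have : 2 < (P.filter (fun x => x ∈ Metric.sphere c₀ r)).card := by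
    rw [two_lt_card_iff]
    have hmem : ∀ y ∈ P.image phi, On p q k y →
        psi y ∈ P.filter (fun x => x ∈ Metric.sphere c₀ r) := by
      intro y hy hOn
      obtain ⟨z, hz, rfl⟩ := mem_image.1 hy
      rw [mem_filter, hx, phi_psi, psi_phi]
      exact ⟨hz, hOn⟩
    have hinj : Function.Injective psi := fun u v e => by rw [← phi_psi u, e, phi_psi]
    exact ⟨psi a, psi b, psi c, hmem a ha h1, hmem b hb h2, hmem c hc h3, hinj.ne hab,
      hinj.ne hac, hinj.ne hbc⟩
  exact this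

theorem circles_image (P : Finset Plane) :
    trace P '' Circles P = ↑(blocks (P.image phi) \ lines (P.image phi)) := by
  ext B
  simp only [Set.mem_image]
  constructor
  · rintro ⟨C, hC, rfl⟩; exact trace_mem hC
  · intro hB; exact trace_surj hB

theorem circles_finite (P : Finset Plane) : (Circles (P : Set Plane)).Finite := by
  apply Set.Finite.of_finite_image _ trace_inj
  rw [circles_image]
  exact Finset.finite_toSet _

theorem ncard_circles (P : Finset Plane) : (Circles (P : Set Plane)).ncard =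
    (blocks (P.image phi) \ lines (P.image phi)).card := by
  rw [← Set.InjOn.ncard_image trace_inj, circles_image, Set.ncard_coe_finset]

/-- admissibility in terms of blocks -/
theorem admissible_iff (P : Finset Plane) (h3 : 3 ≤ P.card) : Admissible (P : Set Plane) ↔
    ∀ B ∈ blocks (P.image phi), ∃ x ∈ P.image phi, x ∉ B := by
  constructor
  · rintro ⟨h1, h2⟩ B hB
    by_contra hcon
    push Not at hcon
    obtain ⟨a, ha, b, hb, c, hc, hab, hac, hbc, rfl⟩ := mem_blocks.1 hB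
    by_cases hcr : cr a b c = 0
    · apply h1
      rw [collinear_iff_cr]
      intro x hx y hy z hz
      have hx' := (mem_blk.1 (hcon _ (mem_image_of_mem phi hx))).2
      have hy' := (mem_blk.1 (hcon _ (mem_image_of_mem phi hy))).2
      have hz' := (mem_blk.1 (hcon _ (mem_image_of_mem phi hz))).2
      rw [G_of_collinear hab hcr hac.symm hbc.symm] at hx' hy' hz'
      by_cases hxy : phi x = phi y
      · rw [hxy]; simp [cr]
      · have := lineOf_eq (S := P.image phi) hab hx' hy' hxy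
        have h4 : phi z ∈ lineOf (P.image phi) a b := mem_lineOf.2 ⟨mem_image_of_mem phi hz, hz'⟩
        rw [← this, mem_lineOf] at h4
        exact h4.2
    · obtain ⟨p, q, k, o1, o2, o3⟩ := exists_On hcr
      obtain ⟨c₀, r, hr, hx⟩ := exists_sphere o1 o2 hab
      apply h2
      refine ⟨c₀, r, hr, fun y hy => ?_⟩
      rw [hx]
      exact On_of_G hcr o1 o2 o3 (mem_blk.1 (hcon _ (mem_image_of_mem phi hy))).2
  · intro h
    obtain ⟨a, b, c, ha, hb, hc, hab, hac, hbc⟩ := two_lt_card_iff.1 (show 2 < P.card by omega)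
    have hab' : phi a ≠ phi b := fun e => hab (phi_inj e)
    have hac' : phi a ≠ phi c := fun e => hac (phi_inj e)
    have hbc' : phi b ≠ phi c := fun e => hbc (phi_inj e)
    obtain ⟨x, hx, hxB⟩ := h _ (blk_mem_blocks (mem_image_of_mem phi ha) (mem_image_of_mem phi hb)
      (mem_image_of_mem phi hc) hab' hac' hbc')
    obtain ⟨x, hxP, rfl⟩ := mem_image.1 hx
    constructor
    · intro hcol
      rw [collinear_iff_cr] at hcol
      apply hxB
      rw [mem_blk, G_of_collinear hab' (hcol a ha b hb c hc) hac'.symm hbc'.symm]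
      exact ⟨mem_image_of_mem phi hxP, hcol a ha b hb x hxP⟩
    · rintro ⟨c₀, r, hr, hsub⟩
      apply hxB
      rw [mem_blk]
      refine ⟨mem_image_of_mem phi hxP, ?_⟩
      exact G_of_On ((mem_sphere_iff c₀ hr a).1 (hsub ha)) ((mem_sphere_iff c₀ hr b).1 (hsub hb))
        ((mem_sphere_iff c₀ hr c).1 (hsub hc)) ((mem_sphere_iff c₀ hr x).1 (hsub hxP))

/-- the lower bound for at least fifteen points -/
theorem lower (P : Finset Plane) (hn : 15 ≤ P.card) (hP : Admissible (P : Set Plane)) :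
    (P.card - 2) ^ 2 / 2 + 1 ≤ (Circles (P : Set Plane)).ncard := by
  rw [ncard_circles]
  rw [admissible_iff P (by omega)] at hP
  have hcard : (P.image phi).card = P.card := card_image_of_injective _ phi_inj
  have h := lower15 (cfg (P.image phi) (by omega) hP) (by simpa [cfg, hcard] using hn)
    (by
      intro hmem
      obtain ⟨x, hx, hx'⟩ := hP _ hmem
      exact hx' hx)
  unfold T cc Cfg.circ at h
  simp only [cfg, hcard] at h
  have h2 : (P.card - 2) ^ 2 / 2 < (blocks (P.image phi) \ lines (P.image phi)).card := by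
    have h3 := h
    norm_cast at h3
  omega

end

end Pool.Agent.Helper543.PlaneC
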