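import Mathlib
import Pool.Agent.Helper543.PlaneC

/-! Generic projections to the plane give sets in general position. -/

namespace Pool.Agent.Helper543.GenProj

open Finset Pool.Agent.Helper543.Melchior
open Pool.Agent.Helper543.Blocks Pool.Agent.Helper543.PlaneC

noncomputable section

set_option linter.unusedSectionVars false

variable {ι : Type} [Fintype ι] [DecidableEq ι]

/-- the linear form with coefficient vector `f` -/
def lin (f x : ι → ℝ) : ℝ := ∑ i, f i * x i

lemma lin_add (f g x : ι → ℝ) : lin (fun i => f i + g i) x = lin f x + lin g x := by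
  simp only [lin, add_mul, sum_add_distrib]

lemma lin_smul (t : ℝ) (f x : ι → ℝ) : lin (fun i => t * f i) x = t * lin f x := by
  simp only [lin, mul_assoc, mul_sum]

lemma lin_sub (f x y : ι → ℝ) : lin f (fun i => x i - y i) = lin f x - lin f y := by
  simp only [lin, mul_sub, sum_sub_distrib]

lemma lin_single (i : ι) (x : ι → ℝ) : lin (Pi.single i 1) x = x i := by
  simp only [lin, Pi.single_apply, ite_mul, one_mul, zero_mul, sum_ite_eq', mem_univ, if_true]

/-- the projection with coefficient vectors `f`, `g` -/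
def proj (f g x : ι → ℝ) : Pt := (lin f x, lin g x)

/-- three points are not collinear -/
def NC (a b c : ι → ℝ) : Prop :=
  ∃ i j, (b i - a i) * (c j - a j) - (b j - a j) * (c i - a i) ≠ 0

/-- generic first coordinate -/
def PX (a : ι → ℝ) : MvPolynomial (ι ⊕ ι) ℝ :=
  ∑ i, MvPolynomial.X (Sum.inl i) * MvPolynomial.C (a i)

/-- generic second coordinate -/
def PY (a : ι → ℝ) : MvPolynomial (ι ⊕ ι) ℝ :=
  ∑ i, MvPolynomial.X (Sum.inr i) * MvPolynomial.C (a i)

lemma eval_PX (v : ι ⊕ ι → ℝ) (a : ι → ℝ) :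
    MvPolynomial.eval v (PX a) = lin (fun i => v (Sum.inl i)) a := by
  simp [PX, lin]

lemma eval_PY (v : ι ⊕ ι → ℝ) (a : ι → ℝ) :
    MvPolynomial.eval v (PY a) = lin (fun i => v (Sum.inr i)) a := by
  simp [PY, lin]

/-- generic orientation determinant -/
def PC (a b c : ι → ℝ) : MvPolynomial (ι ⊕ ι) ℝ :=
  (PX b - PX a) * (PY c - PY a) - (PY b - PY a) * (PX c - PX a)

/-- generic squared distance -/
def PN (p a : ι → ℝ) : MvPolynomial (ι ⊕ ι) ℝ := (PX a - PX p) ^ 2 + (PY a - PY p) ^ 2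

/-- generic concyclicity determinant -/
def PG (p a b c : ι → ℝ) : MvPolynomial (ι ⊕ ι) ℝ :=
  (PX a - PX p) * ((PY b - PY p) * PN p c - (PY c - PY p) * PN p b)
  - (PY a - PY p) * ((PX b - PX p) * PN p c - (PX c - PX p) * PN p b)
  + PN p a * ((PX b - PX p) * (PY c - PY p) - (PY b - PY p) * (PX c - PX p))

/-- the projection attached to an evaluation point -/
def pr (v : ι ⊕ ι → ℝ) (a : ι → ℝ) : Pt :=
  proj (fun i => v (Sum.inl i)) (fun i => v (Sum.inr i)) a

lemma eval_PC (v : ι ⊕ ι → ℝ) (a b c : ι → ℝ) :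
    MvPolynomial.eval v (PC a b c) = cr (pr v a) (pr v b) (pr v c) := by
  simp only [PC, cr, pr, proj, map_sub, map_mul, eval_PX, eval_PY]

lemma eval_PG (v : ι ⊕ ι → ℝ) (a b c d : ι → ℝ) :
    MvPolynomial.eval v (PG a b c d) = G (pr v a) (pr v b) (pr v c) (pr v d) := by
  simp only [PG, PN, G, nrm, pr, proj, map_sub, map_mul, map_add, map_pow, eval_PX, eval_PY]

/-- evaluation point attached to a pair of coefficient vectors -/
def pt (f g : ι → ℝ) : ι ⊕ ι → ℝ := Sum.elim f g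

lemma pr_pt (f g a : ι → ℝ) : pr (pt f g) a = (lin f a, lin g a) := rfl

lemma PC_ne_zero {a b c : ι → ℝ} (h : NC a b c) : PC a b c ≠ 0 := by
  obtain ⟨i, j, hij⟩ := h
  intro h0
  have h1 := eval_PC (pt (Pi.single i 1) (Pi.single j 1)) a b c
  rw [h0, map_zero] at h1
  simp only [pr_pt, cr, lin_single] at h1
  exact hij h1.symm

lemma PX_ne_zero {a b : ι → ℝ} (h : a ≠ b) : PX a - PX b ≠ 0 := by
  obtain ⟨i, hi⟩ := Function.ne_iff.1 h
  intro h0
  have h1 : MvPolynomial.eval (pt (Pi.single i 1) (Pi.single i 1)) (PX a - PX b) = 0 := by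
    rw [h0, map_zero]
  rw [map_sub, eval_PX, eval_PX] at h1
  have e : (fun k => pt (Pi.single i (1 : ℝ)) (Pi.single i 1) (Sum.inl k)) = Pi.single i 1 := rfl
  rw [e, lin_single, lin_single] at h1
  exact hi (by linarith)

lemma PG_ne_zero {a b c d : ι → ℝ} (h : NC a b c) (hda : d ≠ a) (hdb : d ≠ b) (hdc : d ≠ c) :
    PG a b c d ≠ 0 := by
  intro h0
  obtain ⟨i, j, hD⟩ := h
  set D : ℝ := (b i - a i) * (c j - a j) - (b j - a j) * (c i - a i) with hDdef
  -- dual functionals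
  obtain ⟨al, hal⟩ : ∃ al : ι → ℝ, ∀ x : ι → ℝ,
      lin al x = (c j - a j) / D * x i + (-(c i - a i) / D) * x j := by
    refine ⟨fun k => (c j - a j) / D * (Pi.single i 1 : ι → ℝ) k +
      (-(c i - a i) / D) * (Pi.single j 1 : ι → ℝ) k, fun x => ?_⟩
    rw [lin_add, lin_smul, lin_smul, lin_single, lin_single]
  obtain ⟨be, hbe⟩ : ∃ be : ι → ℝ, ∀ x : ι → ℝ,
      lin be x = (b i - a i) / D * x j + (-(b j - a j) / D) * x i := by
    refine ⟨fun k => (b i - a i) / D * (Pi.single j 1 : ι → ℝ) k +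
      (-(b j - a j) / D) * (Pi.single i 1 : ι → ℝ) k, fun x => ?_⟩
    rw [lin_add, lin_smul, lin_smul, lin_single, lin_single]
  have key : ∀ (f g : ι → ℝ) (P1 P2 Q1 Q2 R1 R2 : ℝ), lin f b - lin f a = P1 →
      lin g b - lin g a = P2 → lin f c - lin f a = Q1 → lin g c - lin g a = Q2 →
      lin f d - lin f a = R1 → lin g d - lin g a = R2 →
      P1 * (Q2 * (R1 ^ 2 + R2 ^ 2) - R2 * (Q1 ^ 2 + Q2 ^ 2))
      - P2 * (Q1 * (R1 ^ 2 + R2 ^ 2) - R1 * (Q1 ^ 2 + Q2 ^ 2))
      + (P1 ^ 2 + P2 ^ 2) * (Q1 * R2 - Q2 * R1) = 0 := by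
    intro f g P1 P2 Q1 Q2 R1 R2 h1 h2 h3 h4 h5 h6
    have h7 := eval_PG (pt f g) a b c d
    rw [h0, map_zero] at h7
    simp only [G, nrm, pr_pt, h1, h2, h3, h4, h5, h6] at h7
    exact h7.symm
  have a1 : lin al b - lin al a = 1 := by
    rw [hal, hal]; field_simp; rw [hDdef]; ring
  have a2 : lin al c - lin al a = 0 := by
    rw [hal, hal]; field_simp; ring
  have b1 : lin be b - lin be a = 0 := by
    rw [hbe, hbe]; field_simp; ring
  have b2 : lin be c - lin be a = 1 := by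
    rw [hbe, hbe]; field_simp; rw [hDdef]; ring
  set s : ℝ := lin al d - lin al a with hs
  set t : ℝ := lin be d - lin be a with ht
  have e1 := key al be 1 0 0 1 s t a1 b1 a2 b2 rfl rfl
  have e2 := key (fun k => 2 * al k) be 2 0 0 1 (2 * s) t
    (by rw [lin_smul, lin_smul]; linarith) b1
    (by rw [lin_smul, lin_smul]; linarith) b2 (by rw [lin_smul, lin_smul, hs]; ring) rfl
  have e3 := key (fun k => al k + be k) be 1 0 1 1 (s + t) t
    (by rw [lin_add, lin_add]; linarith) b1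
    (by rw [lin_add, lin_add]; linarith) b2 (by rw [lin_add, lin_add, hs, ht]; ring) rfl
  have f1 : s ^ 2 - s = 0 := by linear_combination (e2 - 2 * e1) / 6
  have f2 : t ^ 2 - t = 0 := by linear_combination e1 - f1
  have f3 : s * t = 0 := by linear_combination (e3 - f1 - 2 * f2) / 2
  -- a functional separating
  have hw : ∃ l, (d l - a l) - (b l - a l) * s - (c l - a l) * t ≠ 0 := by
    by_contra hcon
    push Not at hcon
    have hs01 : s = 0 ∨ s = 1 := by
      have : s * (s - 1) = 0 := by linarith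
      rcases mul_eq_zero.1 this with h | h
      · left; exact h
      · right; linarith
    have ht01 : t = 0 ∨ t = 1 := by
      have : t * (t - 1) = 0 := by linarith
      rcases mul_eq_zero.1 this with h | h
      · left; exact h
      · right; linarith
    rcases hs01 with h1 | h1 <;> rcases ht01 with h2 | h2
    · apply hda
      ext l
      have := hcon l
      rw [h1, h2] at this; linarith
    · apply hdc
      ext l
      have := hcon l
      rw [h1, h2] at this; linarith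
    · apply hdb
      ext l
      have := hcon l
      rw [h1, h2] at this; linarith
    · rw [h1, h2] at f3; norm_num at f3
  obtain ⟨l, hl⟩ := hw
  set w : ℝ := (d l - a l) - (b l - a l) * s - (c l - a l) * t with hwdef
  obtain ⟨ga, hga⟩ : ∃ ga : ι → ℝ, ∀ x : ι → ℝ, lin ga x = x l + (-(b l - a l)) * lin al x +
      (-(c l - a l)) * lin be x := by
    refine ⟨fun k => ((Pi.single l 1 : ι → ℝ) k + (-(b l - a l)) * al k) +
      (-(c l - a l)) * be k, fun x => ?_⟩
    rw [lin_add (fun k => (Pi.single l 1 : ι → ℝ) k + (-(b l - a l)) * al k)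
      (fun k => (-(c l - a l)) * be k), lin_add (Pi.single l 1) (fun k => (-(b l - a l)) * al k),
      lin_smul, lin_smul, lin_single]
  have g1 : lin ga b - lin ga a = 0 := by
    rw [hga, hga]; linear_combination (-(b l - a l)) * a1 + (-(c l - a l)) * b1
  have g2 : lin ga c - lin ga a = 0 := by
    rw [hga, hga]; linear_combination (-(b l - a l)) * a2 + (-(c l - a l)) * b2
  have g3 : lin ga d - lin ga a = w := by
    rw [hga, hga, hwdef, hs, ht]; ring
  have hl4 : ∀ x : ι → ℝ, lin (fun k => al k + (5 / w) * ga k) x = lin al x + 5 / w * lin ga x := by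
    intro x
    rw [lin_add al (fun k => (5 / w) * ga k), lin_smul]
  have e4 := key (fun k => al k + (5 / w) * ga k) be 1 0 0 1 (s + 5) t
    (by rw [hl4, hl4]; linear_combination a1 + 5 / w * g1) b1
    (by rw [hl4, hl4]; linear_combination a2 + 5 / w * g2) b2
    (by
      rw [hl4, hl4]
      have : 5 / w * w = 5 := by field_simp
      linear_combination (5 / w) * g3 + this) rfl
  have hs01 : s = 0 ∨ s = 1 := by
    have : s * (s - 1) = 0 := by linarith
    rcases mul_eq_zero.1 this with h | h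
    · left; exact h
    · right; linarith
  have e5 : (s + 5) * (s + 4) = 0 := by linear_combination e4 - f2
  rcases hs01 with h1 | h1
  · rw [h1] at e5; norm_num at e5
  · rw [h1] at e5; norm_num at e5

/-- generic projection -/
theorem exists_proj (S : Finset (ι → ℝ))
    (hS : ∀ a ∈ S, ∀ b ∈ S, ∀ c ∈ S, a ≠ b → a ≠ c → b ≠ c → NC a b c) :
    ∃ f g : ι → ℝ, Set.InjOn (proj f g) (S : Set (ι → ℝ)) ∧
      (∀ a ∈ S, ∀ b ∈ S, ∀ c ∈ S, a ≠ b → a ≠ c → b ≠ c →
        cr (proj f g a) (proj f g b) (proj f g c) ≠ 0) ∧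
      (∀ a ∈ S, ∀ b ∈ S, ∀ c ∈ S, ∀ d ∈ S, a ≠ b → a ≠ c → b ≠ c → d ≠ a → d ≠ b → d ≠ c →
        G (proj f g a) (proj f g b) (proj f g c) (proj f g d) ≠ 0) := by
  classical
  let P1 : MvPolynomial (ι ⊕ ι) ℝ := ∏ x ∈ (S ×ˢ S).filter (fun x => x.1 ≠ x.2),
    (PX x.1 - PX x.2)
  let P2 : MvPolynomial (ι ⊕ ι) ℝ := ∏ x ∈ (S ×ˢ S ×ˢ S).filter
    (fun x => x.1 ≠ x.2.1 ∧ x.1 ≠ x.2.2 ∧ x.2.1 ≠ x.2.2), PC x.1 x.2.1 x.2.2
  let P3 : MvPolynomial (ι ⊕ ι) ℝ := ∏ x ∈ (S ×ˢ S ×ˢ S ×ˢ S).filter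
    (fun x => x.1 ≠ x.2.1 ∧ x.1 ≠ x.2.2.1 ∧ x.2.1 ≠ x.2.2.1 ∧ x.2.2.2 ≠ x.1 ∧ x.2.2.2 ≠ x.2.1 ∧
      x.2.2.2 ≠ x.2.2.1), PG x.1 x.2.1 x.2.2.1 x.2.2.2
  have h1 : P1 ≠ 0 := by
    rw [prod_ne_zero_iff]
    rintro ⟨a, b⟩ hx
    simp only [mem_filter, mem_product] at hx
    exact PX_ne_zero hx.2
  have h2 : P2 ≠ 0 := by
    rw [prod_ne_zero_iff]
    rintro ⟨a, b, c⟩ hx
    simp only [mem_filter, mem_product] at hx
    obtain ⟨⟨ha, hb, hc⟩, hab, hac, hbc⟩ := hx
    exact PC_ne_zero (hS a ha b hb c hc hab hac hbc)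
  have h3 : P3 ≠ 0 := by
    rw [prod_ne_zero_iff]
    rintro ⟨a, b, c, d⟩ hx
    simp only [mem_filter, mem_product] at hx
    obtain ⟨⟨ha, hb, hc, hd⟩, hab, hac, hbc, hda, hdb, hdc⟩ := hx
    exact PG_ne_zero (hS a ha b hb c hc hab hac hbc) hda hdb hdc
  have hne : P1 * P2 * P3 ≠ 0 := mul_ne_zero (mul_ne_zero h1 h2) h3
  have hv : ∃ v, MvPolynomial.eval v (P1 * P2 * P3) ≠ 0 := by
    by_contra hcon
    push Not at hcon
    apply hne
    apply MvPolynomial.funext
    intro v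
    rw [hcon v, map_zero]
  obtain ⟨v, hv⟩ := hv
  rw [map_mul, map_mul] at hv
  have v1 := left_ne_zero_of_mul (left_ne_zero_of_mul hv)
  have v2 := right_ne_zero_of_mul (left_ne_zero_of_mul hv)
  have v3 := right_ne_zero_of_mul hv
  refine ⟨fun i => v (Sum.inl i), fun i => v (Sum.inr i), ?_, ?_, ?_⟩
  · intro a ha b hb hab
    by_contra hne'
    rw [map_prod, prod_ne_zero_iff] at v1
    have := v1 (a, b) (by simp only [mem_filter, mem_product]; exact ⟨⟨ha, hb⟩, hne'⟩)
    apply this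
    rw [map_sub, eval_PX, eval_PX]
    simp only [proj, Prod.mk.injEq] at hab
    rw [hab.1, sub_self]
  · intro a ha b hb c hc hab hac hbc
    rw [map_prod, prod_ne_zero_iff] at v2
    have := v2 (a, b, c) (by
      simp only [mem_filter, mem_product]; exact ⟨⟨ha, hb, hc⟩, hab, hac, hbc⟩)
    rw [eval_PC] at this
    exact this
  · intro a ha b hb c hc d hd hab hac hbc hda hdb hdc
    rw [map_prod, prod_ne_zero_iff] at v3
    have := v3 (a, b, c, d) (by
      simp only [mem_filter, mem_product]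
      exact ⟨⟨ha, hb, hc, hd⟩, hab, hac, hbc, hda, hdb, hdc⟩)
    rw [eval_PG] at this
    exact this

end

end Pool.Agent.Helper543.GenProj
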