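import Mathlib
import Pool.Agent.Helper543.GenProj

/-! Point sets in general position with few differences. -/

namespace Pool.Agent.Helper543.Constr

open Finset Pool.Agent.Helper543.Melchior
open Pool.Agent.Helper543.Blocks Pool.Agent.Helper543.PlaneC Pool.Agent.Helper543.GenProj

noncomputable section

/-- a vector with one more coordinate -/
def ext {d : ℕ} (z : Fin d → ℝ) (w : ℝ) : Option (Fin d) → ℝ
  | none => w
  | some i => z i

/-- the lift to the paraboloid -/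
def lift {d : ℕ} (u : Fin d → ℝ) : Option (Fin d) → ℝ := ext u (∑ i, u i ^ 2)

lemma lift_inj {d : ℕ} : Function.Injective (lift (d := d)) := by
  intro u v h
  funext i
  have := congrFun h (some i)
  simpa [lift, ext] using this

lemma NC_lift {d : ℕ} {u v w : Fin d → ℝ} (huv : u ≠ v) (huw : u ≠ w) (hvw : v ≠ w) :
    NC (lift u) (lift v) (lift w) := by
  by_contra hcon
  unfold NC at hcon
  push Not at hcon
  have h1 : ∀ i j : Fin d, (v i - u i) * (w j - u j) - (v j - u j) * (w i - u i) = 0 := by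
    intro i j; exact hcon (some i) (some j)
  have h2 : ∀ i : Fin d, (v i - u i) * (∑ k, w k ^ 2 - ∑ k, u k ^ 2) -
      (∑ k, v k ^ 2 - ∑ k, u k ^ 2) * (w i - u i) = 0 := by
    intro i; exact hcon (some i) none
  obtain ⟨i0, hi0⟩ := Function.ne_iff.1 huv
  have hp : v i0 - u i0 ≠ 0 := fun e => hi0 (by linarith)
  set l : ℝ := (w i0 - u i0) / (v i0 - u i0) with hl
  have hq : ∀ j, w j - u j = l * (v j - u j) := by
    intro j
    rw [hl]
    field_simp
    linear_combination h1 i0 j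
  have hw : ∀ j, w j = u j + l * (v j - u j) := fun j => by linarith [hq j]
  have hN : ∑ k, w k ^ 2 - ∑ k, u k ^ 2 = l * (∑ k, v k ^ 2 - ∑ k, u k ^ 2) := by
    rw [hl]
    field_simp
    linear_combination h2 i0
  have hA : ∑ k, w k ^ 2 - ∑ k, u k ^ 2 = 2 * l * ∑ k, u k * (v k - u k) +
      l ^ 2 * ∑ k, (v k - u k) ^ 2 := by
    rw [mul_sum, mul_sum, ← sum_sub_distrib, ← sum_add_distrib]
    refine sum_congr rfl fun k _ => ?_
    rw [hw k]; ring
  have hB : ∑ k, v k ^ 2 - ∑ k, u k ^ 2 = 2 * ∑ k, u k * (v k - u k) +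
      ∑ k, (v k - u k) ^ 2 := by
    rw [mul_sum, ← sum_sub_distrib, ← sum_add_distrib]
    refine sum_congr rfl fun k _ => ?_
    ring
  have hpos : 0 < ∑ k, (v k - u k) ^ 2 := by
    apply sum_pos' (fun k _ => sq_nonneg _) ⟨i0, mem_univ _, by positivity⟩
  have hkey : (l ^ 2 - l) * ∑ k, (v k - u k) ^ 2 = 0 := by
    rw [hA, hB] at hN
    linear_combination hN
  rcases mul_eq_zero.1 hkey with h | h
  · have : l * (l - 1) = 0 := by linarith
    rcases mul_eq_zero.1 this with h3 | h3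
    · apply huw
      funext j
      rw [hw j, h3]; ring
    · apply hvw
      funext j
      have : l = 1 := by linarith
      rw [hw j, this]; ring
  · exact hpos.ne' h

/-- points with integer coordinates in a box -/
def box (d N : ℕ) : Finset (Fin d → ℕ) := Fintype.piFinset (fun _ => range N)

/-- cast of an integer vector -/
def castv {d : ℕ} (x : Fin d → ℕ) : Fin d → ℝ := fun i => (x i : ℝ)

lemma castv_inj {d : ℕ} : Function.Injective (castv (d := d)) := by
  intro x y h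
  funext i
  have := congrFun h i
  simpa [castv] using this

/-- vectors of possible differences -/
def dif (d N : ℕ) : Finset ((Fin d → ℤ) × ℤ) :=
  (Fintype.piFinset (fun _ => Icc (-(N : ℤ)) N)) ×ˢ Icc (-((d * N ^ 2 : ℕ) : ℤ)) (d * N ^ 2 : ℕ)

lemma card_dif (d N : ℕ) : (dif d N).card = (2 * N + 1) ^ d * (2 * (d * N ^ 2) + 1) := by
  unfold dif
  rw [card_product, Fintype.card_piFinset]
  simp only [Int.card_Icc, prod_const, card_univ, Fintype.card_fin]
  congr 2
  · omega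
  · omega

lemma mem_dif {d N : ℕ} {x y : Fin d → ℕ} (hx : x ∈ box d N) (hy : y ∈ box d N) :
    ((fun i => (x i : ℤ) - y i), ∑ i, (x i : ℤ) ^ 2 - ∑ i, (y i : ℤ) ^ 2) ∈ dif d N := by
  simp only [box, Fintype.mem_piFinset, mem_range] at hx hy
  simp only [dif, mem_product, Fintype.mem_piFinset, mem_Icc]
  have hb : ∀ z : Fin d → ℕ, (∀ i, z i < N) → ∑ i, (z i : ℤ) ^ 2 ≤ ((d * N ^ 2 : ℕ) : ℤ) := by
    intro z hz
    calc ∑ i, (z i : ℤ) ^ 2 ≤ ∑ i : Fin d, (N : ℤ) ^ 2 := by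
          apply sum_le_sum
          intro i _
          have h1 : (z i : ℤ) ≤ N := by exact_mod_cast (hz i).le
          have h2 : (0 : ℤ) ≤ z i := by positivity
          exact pow_le_pow_left₀ h2 h1 2
      _ = _ := by simp
  have hp : ∀ z : Fin d → ℕ, 0 ≤ ∑ i, (z i : ℤ) ^ 2 := fun z => sum_nonneg fun i _ => sq_nonneg _
  refine ⟨fun i => ?_, ?_, ?_⟩
  · have h1 := hx i
    have h2 := hy i
    constructor <;> omega
  · linarith [hb y hy, hp x]
  · linarith [hb x hx, hp y]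

/-- general position for sets of pairs -/
def GP (X : Finset Pt) : Prop :=
  (∀ a ∈ X, ∀ b ∈ X, ∀ c ∈ X, a ≠ b → a ≠ c → b ≠ c → cr a b c ≠ 0) ∧
  (∀ a ∈ X, ∀ b ∈ X, ∀ c ∈ X, ∀ e ∈ X, a ≠ b → a ≠ c → b ≠ c → e ≠ a → e ≠ b → e ≠ c →
    G a b c e ≠ 0)

theorem exists_box (d N : ℕ) : ∃ X : Finset Pt, X.card = N ^ d ∧ GP X ∧
    ∃ D : Finset Pt, D.card ≤ (2 * N + 1) ^ d * (2 * (d * N ^ 2) + 1) ∧
      ∀ a ∈ X, ∀ b ∈ X, a - b ∈ D := by
  classical
  set S : Finset (Option (Fin d) → ℝ) := (box d N).image (fun x => lift (castv x)) with hS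
  obtain ⟨f, g, hinj, h3, h4⟩ := exists_proj S (by
    intro a ha b hb c hc hab hac hbc
    rw [hS, mem_image] at ha hb hc
    obtain ⟨x, -, rfl⟩ := ha
    obtain ⟨y, -, rfl⟩ := hb
    obtain ⟨z, -, rfl⟩ := hc
    exact NC_lift (fun e => hab (by rw [e])) (fun e => hac (by rw [e])) (fun e => hbc (by rw [e])))
  have hScard : S.card = N ^ d := by
    have hi : Function.Injective (fun x : Fin d → ℕ => lift (castv x)) := lift_inj.comp castv_inj
    rw [hS, card_image_of_injective _ hi, box, Fintype.card_piFinset]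
    simp
  refine ⟨S.image (proj f g), ?_, ⟨?_, ?_⟩, (dif d N).image (fun z =>
    proj f g (ext (fun i => (z.1 i : ℝ)) (z.2 : ℝ))), ?_, ?_⟩
  · rw [card_image_of_injOn hinj, hScard]
  · intro a ha b hb c hc hab hac hbc
    rw [mem_image] at ha hb hc
    obtain ⟨x, hx, rfl⟩ := ha
    obtain ⟨y, hy, rfl⟩ := hb
    obtain ⟨z, hz, rfl⟩ := hc
    exact h3 x hx y hy z hz (fun e => hab (by rw [e])) (fun e => hac (by rw [e]))
      (fun e => hbc (by rw [e]))
  · intro a ha b hb c hc e he hab hac hbc hea heb hec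
    rw [mem_image] at ha hb hc he
    obtain ⟨x, hx, rfl⟩ := ha
    obtain ⟨y, hy, rfl⟩ := hb
    obtain ⟨z, hz, rfl⟩ := hc
    obtain ⟨w, hw, rfl⟩ := he
    exact h4 x hx y hy z hz w hw (fun e => hab (by rw [e])) (fun e => hac (by rw [e]))
      (fun e => hbc (by rw [e])) (fun e => hea (by rw [e])) (fun e => heb (by rw [e]))
      (fun e => hec (by rw [e]))
  · exact card_image_le.trans (card_dif d N).le
  · intro a ha b hb
    rw [mem_image] at ha hb
    obtain ⟨x, hx, rfl⟩ := ha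
    obtain ⟨y, hy, rfl⟩ := hb
    rw [hS, mem_image] at hx hy
    obtain ⟨x, hx, rfl⟩ := hx
    obtain ⟨y, hy, rfl⟩ := hy
    rw [mem_image]
    refine ⟨_, mem_dif hx hy, ?_⟩
    have hv : (ext (fun i => ((((x i : ℤ) - y i : ℤ)) : ℝ))
        ((∑ i, (x i : ℤ) ^ 2 - ∑ i, (y i : ℤ) ^ 2 : ℤ) : ℝ) : Option (Fin d) → ℝ) =
        fun o => lift (castv x) o - lift (castv y) o := by
      funext o
      cases o with
      | none => simp [ext, lift, castv]
      | some i => simp [ext, lift, castv]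
    simp only [proj]
    rw [hv, lin_sub, lin_sub]
    rfl

/-- sets of every size -/
theorem exists_set (d : ℕ) (hd : 1 ≤ d) : ∃ K : ℝ, 0 < K ∧ ∀ m : ℕ, 1 ≤ m →
    ∃ X : Finset Pt, X.card = m ∧ GP X ∧ ∃ D : Finset Pt,
      (D.card : ℝ) ≤ K * (m : ℝ) ^ (1 + 2 / (d : ℝ)) ∧ ∀ a ∈ X, ∀ b ∈ X, a - b ∈ D := by
  refine ⟨6 ^ d * (12 * d), by positivity, fun m hm => ?_⟩
  -- the side of the box
  have hex : ∃ N : ℕ, m ≤ N ^ d := ⟨m, Nat.le_self_pow (by omega) m⟩
  classical
  set N := Nat.find hex with hN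
  have hN1 : m ≤ N ^ d := Nat.find_spec hex
  have hNpos : 1 ≤ N := by
    by_contra h0
    have : N = 0 := by omega
    rw [this, zero_pow (by omega)] at hN1
    omega
  have hN2 : (N - 1) ^ d < m := by
    by_contra hcon
    push Not at hcon
    have := Nat.find_min' hex hcon
    omega
  obtain ⟨X, hX, hgp, D, hD, hdif⟩ := exists_box d N
  obtain ⟨Y, hYX, hY⟩ := exists_subset_card_eq (hX ▸ hN1)
  refine ⟨Y, hY, ⟨fun a ha b hb c hc => hgp.1 a (hYX ha) b (hYX hb) c (hYX hc),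
    fun a ha b hb c hc e he => hgp.2 a (hYX ha) b (hYX hb) c (hYX hc) e (hYX he)⟩, D, ?_,
    fun a ha b hb => hdif a (hYX ha) b (hYX hb)⟩
  have hm0 : (1 : ℝ) ≤ m := by exact_mod_cast hm
  have hd0 : (0 : ℝ) < d := by exact_mod_cast hd
  set r : ℝ := (m : ℝ) ^ (1 / (d : ℝ)) with hr
  have hr1 : 1 ≤ r := Real.one_le_rpow hm0 (by positivity)
  have hrd : r ^ d = m := by
    rw [hr, ← Real.rpow_natCast, ← Real.rpow_mul (by positivity)]
    rw [one_div_mul_cancel hd0.ne', Real.rpow_one]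
  have hNr : (N : ℝ) ≤ 2 * r := by
    have h1 : ((N - 1 : ℕ) : ℝ) < r := by
      have h2 : ((N - 1 : ℕ) : ℝ) ^ d < r ^ d := by rw [hrd]; exact_mod_cast hN2
      exact lt_of_pow_lt_pow_left₀ d (by positivity) h2
    have h3 : ((N - 1 : ℕ) : ℝ) = N - 1 := by rw [Nat.cast_sub hNpos]; simp
    rw [h3] at h1
    linarith
  have hN1' : (1 : ℝ) ≤ N := by exact_mod_cast hNpos
  have hd1 : (1 : ℝ) ≤ d := by exact_mod_cast hd
  calc (D.card : ℝ) ≤ (((2 * N + 1) ^ d * (2 * (d * N ^ 2) + 1) : ℕ) : ℝ) := by exact_mod_cast hD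
    _ = (2 * (N : ℝ) + 1) ^ d * (2 * (d * (N : ℝ) ^ 2) + 1) := by push_cast; ring
    _ ≤ (3 * (N : ℝ)) ^ d * (3 * (d * (N : ℝ) ^ 2)) := by
        have h5 : (1 : ℝ) ≤ d * (N : ℝ) ^ 2 := by nlinarith [one_le_pow₀ hN1' (n := 2)]
        gcongr
        · linarith
        · linarith
    _ ≤ (3 * (2 * r)) ^ d * (3 * (d * (2 * r) ^ 2)) := by gcongr
    _ = 6 ^ d * (12 * d) * (r ^ d * r ^ 2) := by
        rw [show (3 * (2 * r)) = 6 * r by ring, mul_pow]; ring
    _ = 6 ^ d * (12 * d) * (m : ℝ) ^ (1 + 2 / (d : ℝ)) := by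
        rw [hrd]
        congr 1
        rw [Real.rpow_add (by positivity), Real.rpow_one, hr, ← Real.rpow_natCast,
          ← Real.rpow_mul (by positivity)]
        congr 2
        push_cast
        ring

end

end Pool.Agent.Helper543.Constr
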