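import Mathlib

/-! The deletion method for finite set systems. -/

namespace Pool.Agent.Helper543.Deletion

open Finset

variable {α β : Type} [DecidableEq α]

lemma card_super (X U : Finset α) (s : ℕ) :
    ((powersetCard s X).filter (fun Z => U ⊆ Z)).card ≤ (X.card - U.card).choose (s - U.card) := by
  by_cases hU : U ⊆ X
  · rw [← card_sdiff_of_subset hU, ← card_powersetCard]
    apply card_le_card_of_injOn (fun Z => Z \ U)
    · intro Z hZ
      rw [mem_coe, mem_filter, mem_powersetCard] at hZ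
      rw [mem_coe, mem_powersetCard]
      exact ⟨sdiff_subset_sdiff hZ.1.1 (Subset.refl _), by
        rw [card_sdiff_of_subset hZ.2, hZ.1.2]⟩
    · intro Z hZ Z' hZ' e
      rw [mem_coe, mem_filter] at hZ hZ'
      simp only at e
      rw [← sdiff_union_of_subset hZ.2, ← sdiff_union_of_subset hZ'.2, e]
  · rw [filter_false_of_mem, card_empty]
    · exact Nat.zero_le _
    · intro Z hZ hUZ
      exact hU (hUZ.trans (mem_powersetCard.1 hZ).1)

lemma choose_ratio (n s u : ℕ) (hs : s ≤ n) (hu : u ≤ s) :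
    (n - u).choose (s - u) * n ^ u ≤ n.choose s * s ^ u := by
  induction u with
  | zero => simp
  | succ u ih =>
    have ih := ih (by omega)
    have hus : u < s := by omega
    obtain ⟨a, ha⟩ : ∃ a, n - u = a + 1 := ⟨n - u - 1, by omega⟩
    obtain ⟨b, hb⟩ : ∃ b, s - u = b + 1 := ⟨s - u - 1, by omega⟩
    have ha' : n - (u + 1) = a := by omega
    have hb' : s - (u + 1) = b := by omega
    rw [ha, hb] at ih
    rw [ha', hb']
    have h1 : (a + 1) * a.choose b = (a + 1).choose (b + 1) * (b + 1) :=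
      Nat.add_one_mul_choose_eq a b
    have h2 : n * (b + 1) ≤ s * (a + 1) := by
      have e1 : n = a + 1 + u := by omega
      have e2 : s = b + 1 + u := by omega
      have e3 : b ≤ a := by omega
      rw [e1, e2]
      nlinarith
    have h3 : a.choose b * n * (b + 1) ≤ s * ((a + 1).choose (b + 1)) * (b + 1) := by
      calc a.choose b * n * (b + 1) = a.choose b * (n * (b + 1)) := by ring
        _ ≤ a.choose b * (s * (a + 1)) := Nat.mul_le_mul_left _ h2
        _ = s * ((a + 1) * a.choose b) := by ring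
        _ = s * ((a + 1).choose (b + 1)) * (b + 1) := by rw [h1]; ring
    have h4 : a.choose b * n ≤ s * ((a + 1).choose (b + 1)) :=
      Nat.le_of_mul_le_mul_right h3 (by omega)
    calc a.choose b * n ^ (u + 1) = (a.choose b * n) * n ^ u := by ring
      _ ≤ (s * ((a + 1).choose (b + 1))) * n ^ u := Nat.mul_le_mul_right _ h4
      _ = s * (((a + 1).choose (b + 1)) * n ^ u) := by ring
      _ ≤ s * (n.choose s * s ^ u) := Nat.mul_le_mul_left _ ih
      _ = n.choose s * s ^ (u + 1) := by ring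

/-- there is an `s`-subset with few bad configurations -/
theorem exists_few (X : Finset α) (I : Finset β) (U : β → Finset α) (s : ℕ) (hs : s ≤ X.card)
    (hs1 : 1 ≤ s) :
    ∃ Z ⊆ X, Z.card = s ∧ ((I.filter (fun i => U i ⊆ Z)).card : ℝ) ≤
      ∑ i ∈ I, ((s : ℝ) / X.card) ^ (U i).card := by
  by_contra hcon
  push Not at hcon
  set n := X.card with hn
  have hn0 : (0 : ℝ) < n := by exact_mod_cast (by omega : 0 < n)
  have h1 : ∑ Z ∈ powersetCard s X, ∑ i ∈ I, ((s : ℝ) / n) ^ (U i).card <
      ∑ Z ∈ powersetCard s X, ((I.filter (fun i => U i ⊆ Z)).card : ℝ) := by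
    apply sum_lt_sum_of_nonempty
    · rw [powersetCard_nonempty]; exact hs
    · intro Z hZ
      rw [mem_powersetCard] at hZ
      exact hcon Z hZ.1 hZ.2
  rw [sum_const, card_powersetCard, nsmul_eq_mul, mul_sum] at h1
  have h2 : ∑ Z ∈ powersetCard s X, ((I.filter (fun i => U i ⊆ Z)).card : ℝ) =
      ∑ i ∈ I, (((powersetCard s X).filter (fun Z => U i ⊆ Z)).card : ℝ) := by
    simp_rw [card_filter]
    push_cast
    rw [sum_comm]
  rw [h2] at h1
  apply absurd h1
  push Not
  apply sum_le_sum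
  intro i _
  have h3 := card_super X (U i) s
  by_cases hu : (U i).card ≤ s
  · have h4 := choose_ratio n s (U i).card hs hu
    have h5 : (((powersetCard s X).filter (fun Z => U i ⊆ Z)).card : ℝ) * (n : ℝ) ^ (U i).card ≤
        (n.choose s : ℝ) * (s : ℝ) ^ (U i).card := by
      calc _ ≤ (((n - (U i).card).choose (s - (U i).card) : ℕ) : ℝ) * (n : ℝ) ^ (U i).card := by
            gcongr
        _ ≤ _ := by exact_mod_cast h4
    rw [div_pow, mul_div_assoc', le_div_iff₀ (by positivity)]
    exact h5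
  · have h4 : (powersetCard s X).filter (fun Z => U i ⊆ Z) = ∅ := by
      apply filter_false_of_mem
      intro Z hZ hUZ
      have := card_le_card hUZ
      rw [(mem_powersetCard.1 hZ).2] at this
      omega
    rw [h4]
    simp only [card_empty, Nat.cast_zero]
    positivity

/-- the deletion method -/
theorem deletion (X : Finset α) (I : Finset β) (U : β → Finset α) (s k : ℕ) (hs : s ≤ X.card)
    (hs1 : 1 ≤ s) (hU : ∀ i ∈ I, (U i).Nonempty)
    (hk : (k : ℝ) ≤ s - ∑ i ∈ I, ((s : ℝ) / X.card) ^ (U i).card) :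
    ∃ Y ⊆ X, Y.card = k ∧ ∀ i ∈ I, ¬ U i ⊆ Y := by
  classical
  obtain ⟨Z, hZX, hZs, hZ⟩ := exists_few X I U s hs hs1
  -- delete a point of every bad set
  have hch : ∀ i : β, ∃ x : α, i ∈ I → x ∈ U i := by
    intro i
    by_cases hi : i ∈ I
    · obtain ⟨x, hx⟩ := hU i hi; exact ⟨x, fun _ => hx⟩
    · by_cases hI : I.Nonempty
      · obtain ⟨j, hj⟩ := hI
        obtain ⟨x, hx⟩ := hU j hj
        exact ⟨x, fun h => absurd h hi⟩
      · have hZne : Z.Nonempty := by rw [← card_pos]; omega
        obtain ⟨x, _⟩ := hZne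
        exact ⟨x, fun h => absurd h hi⟩
  choose x hx using hch
  obtain ⟨V, hV⟩ : ∃ V, V = (I.filter (fun i => U i ⊆ Z)).image x := ⟨_, rfl⟩
  obtain ⟨W, hW⟩ : ∃ W, W = Z \ V := ⟨_, rfl⟩
  have hWc : (k : ℝ) ≤ W.card := by
    have h1 : (Z.card : ℝ) - V.card ≤ W.card := by
      have := le_card_sdiff V Z
      rw [← hW] at this
      have h2 : Z.card ≤ W.card + V.card := by omega
      have h3 : (Z.card : ℝ) ≤ W.card + V.card := by exact_mod_cast h2
      linarith
    have h2 : (V.card : ℝ) ≤ (I.filter (fun i => U i ⊆ Z)).card := by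
      rw [hV]; exact_mod_cast card_image_le
    have h3 : (Z.card : ℝ) = s := by exact_mod_cast hZs
    linarith
  have hWc' : k ≤ W.card := by exact_mod_cast hWc
  obtain ⟨Y, hYW, hY⟩ := exists_subset_card_eq hWc'
  have hWZ : W ⊆ Z := by rw [hW]; exact sdiff_subset
  refine ⟨Y, (hYW.trans hWZ).trans hZX, hY, fun i hi hUY => ?_⟩
  have h1 : U i ⊆ Z := hUY.trans (hYW.trans hWZ)
  have h2 : x i ∈ W := hYW (hUY (hx i hi))
  rw [hW, hV, mem_sdiff] at h2
  exact h2.2 (mem_image_of_mem x (mem_filter.2 ⟨hi, h1⟩))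

end Pool.Agent.Helper543.Deletion
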