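import Mathlib

/-! Counting the solutions of the normal form of the critical equations (zero case). -/

namespace Pool.Agent.Helper543.ED

open Finset

/-- the normal form system -/
def Sol {m : ℕ} (σ p : Fin m → ℝ) : Set ((Fin m → ℂ) × (Fin m → ℂ)) :=
  {z | (∀ i, (p i : ℂ) + σ i * z.2 i = (1 + ∑ j, z.2 j ^ 2) * z.1 i) ∧
       (∀ i, (p i : ℂ) + σ i * z.1 i = (1 + ∑ j, z.1 j ^ 2) * z.2 i)}

/-- real points -/
def IsReal {m : ℕ} (z : (Fin m → ℂ) × (Fin m → ℂ)) : Prop :=
  (∀ i, (z.1 i).im = 0) ∧ (∀ i, (z.2 i).im = 0)

lemma im_of_sq {z : ℂ} {x : ℝ} (h : z ^ 2 = (x : ℂ)) (hx : x ≠ 0) : z.im = 0 ↔ 0 < x := by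
  have hre := congrArg Complex.re h
  have him := congrArg Complex.im h
  simp only [sq, Complex.mul_re, Complex.mul_im, Complex.ofReal_re, Complex.ofReal_im] at hre him
  constructor
  · intro h0
    rw [h0] at hre
    have : 0 ≤ x := by nlinarith [sq_nonneg z.re]
    exact lt_of_le_of_ne this (Ne.symm hx)
  · intro hpos
    by_contra h0
    have hr : z.re = 0 := by
      have : z.re * z.im = 0 := by linarith
      rcases mul_eq_zero.1 this with h | h
      · exact h
      · exact absurd h h0
    rw [hr] at hre
    nlinarith [sq_nonneg z.im]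

section zero

variable {m : ℕ}

/-- a sign -/
def sg (b : Bool) : ℂ := if b then 1 else -1

lemma sg_sq (b : Bool) : sg b ^ 2 = 1 := by cases b <;> simp [sg]
lemma sg_ne (b : Bool) : sg b ≠ 0 := by cases b <;> simp [sg]

/-- the solutions for `p = 0` -/
noncomputable def phi0 (ρ τ : Fin m → ℂ) : Option (Fin m × Bool × Bool) → (Fin m → ℂ) × (Fin m → ℂ)
  | none => (0, 0)
  | some (i, false, b) => (Pi.single i (sg b * ρ i), Pi.single i (sg b * ρ i))
  | some (i, true, b) => (Pi.single i (sg b * τ i), Pi.single i (-(sg b * τ i)))

lemma sum_single_sq (i : Fin m) (x : ℂ) : ∑ j, (Pi.single i x : Fin m → ℂ) j ^ 2 = x ^ 2 := by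
  rw [Finset.sum_eq_single i]
  · simp
  · intro b _ hb; simp [Pi.single_eq_of_ne hb]
  · intro h; exact absurd (Finset.mem_univ _) h

lemma phi0_inj (ρ τ : Fin m → ℂ) (hρ : ∀ i, ρ i ≠ 0) (hτ : ∀ i, τ i ≠ 0) :
    Function.Injective (phi0 ρ τ) := by
  have hval : ∀ i c b, ((phi0 ρ τ (some (i, c, b))).1 i) ≠ 0 := by
    intro i c b
    cases c
    · simp [phi0, hρ i, sg_ne]
    · simp [phi0, hτ i, sg_ne]
  have hoff : ∀ i c b j, j ≠ i → ((phi0 ρ τ (some (i, c, b))).1 j) = 0 := by
    intro i c b j hj
    cases c
    · simp [phi0, Pi.single_eq_of_ne hj]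
    · simp [phi0, Pi.single_eq_of_ne hj]
  intro x y h
  rcases x with _ | ⟨i, c, b⟩
  · rcases y with _ | ⟨j, c', b'⟩
    · rfl
    · exfalso
      apply hval j c' b'
      rw [← h]; simp [phi0]
  · rcases y with _ | ⟨j, c', b'⟩
    · exfalso
      apply hval i c b
      rw [h]; simp [phi0]
    · have hij : i = j := by
        by_contra hne
        apply hval i c b
        rw [h]
        exact hoff j c' b' i hne
      subst hij
      have h1 := congrArg (fun z => z.1 i) h
      have h2 := congrArg (fun z => z.2 i) h
      have e1 := hρ i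
      have e2 := hτ i
      cases c <;> cases c' <;> cases b <;> cases b' <;>
        simp [phi0, sg] at h1 h2 ⊢ <;>
        first
          | (apply e1; linear_combination (1/2 : ℂ) * h1)
          | (apply e1; linear_combination (-1/2 : ℂ) * h1)
          | (apply e2; linear_combination (1/2 : ℂ) * h1)
          | (apply e2; linear_combination (-1/2 : ℂ) * h1)
          | (apply e1; linear_combination (1/2 : ℂ) * h1 + (1/2 : ℂ) * h2)
          | (apply e1; linear_combination (-1/2 : ℂ) * h1 + (-1/2 : ℂ) * h2)
          | (apply e1; linear_combination (1/2 : ℂ) * h1 - (1/2 : ℂ) * h2)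
          | (apply e1; linear_combination (-1/2 : ℂ) * h1 - (-1/2 : ℂ) * h2)

lemma range_phi0 (σ : Fin m → ℝ) (hσ : Function.Injective σ) (hpos : ∀ i, 0 < σ i)
    (ρ τ : Fin m → ℂ) (hρ : ∀ i, ρ i ^ 2 = ((σ i - 1 : ℝ) : ℂ))
    (hτ : ∀ i, τ i ^ 2 = ((-(σ i + 1) : ℝ) : ℂ)) :
    Set.range (phi0 ρ τ) = Sol σ 0 := by
  apply Set.Subset.antisymm
  · rintro _ ⟨x, rfl⟩
    rcases x with _ | ⟨i, c, b⟩
    · simp [phi0, Sol]
    · cases c
      · have h2 : (sg b * ρ i) ^ 2 = (σ i : ℂ) - 1 := by
          rw [mul_pow, sg_sq, hρ]; push_cast; ring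
        constructor
        · intro j
          simp only [phi0, sum_single_sq, h2]
          by_cases hj : j = i
          · subst hj; simp
          · simp [Pi.single_eq_of_ne hj]
        · intro j
          simp only [phi0, sum_single_sq, h2]
          by_cases hj : j = i
          · subst hj; simp
          · simp [Pi.single_eq_of_ne hj]
      · have h2 : (sg b * τ i) ^ 2 = -(σ i : ℂ) - 1 := by
          rw [mul_pow, sg_sq, hτ]; push_cast; ring
        have h3 : (-(sg b * τ i)) ^ 2 = -(σ i : ℂ) - 1 := by
          rw [neg_sq, h2]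
        constructor
        · intro j
          simp only [phi0, sum_single_sq, h3]
          by_cases hj : j = i
          · subst hj; simp
          · simp [Pi.single_eq_of_ne hj]
        · intro j
          simp only [phi0, sum_single_sq, h2]
          by_cases hj : j = i
          · subst hj; simp
          · simp [Pi.single_eq_of_ne hj]
  · rintro ⟨U, V⟩ ⟨h1, h2⟩
    simp only [Pi.zero_apply, Complex.ofReal_zero, zero_add] at h1 h2
    set A : ℂ := 1 + ∑ j, V j ^ 2 with hA
    set B : ℂ := 1 + ∑ j, U j ^ 2 with hB
    have hσ0 : ∀ i, (σ i : ℂ) ≠ 0 := fun i => by exact_mod_cast (hpos i).ne'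
    have hU : ∀ i, (A * B - (σ i : ℂ) ^ 2) * U i = 0 := fun i => by
      linear_combination (-B) * h1 i + (-(σ i : ℂ)) * h2 i
    have hV : ∀ i, (A * B - (σ i : ℂ) ^ 2) * V i = 0 := fun i => by
      linear_combination (-(σ i : ℂ)) * h1 i + (-A) * h2 i
    by_cases hz : ∀ i, U i = 0
    · have hz2 : ∀ i, V i = 0 := by
        intro i
        have := h1 i
        rw [hz i, mul_zero] at this
        exact (mul_eq_zero.1 this).resolve_left (hσ0 i)
      refine ⟨none, ?_⟩
      simp only [phi0]
      ext i
      · simp [hz i]
      · simp [hz2 i]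
    · push Not at hz
      obtain ⟨i, hi⟩ := hz
      have hAB : A * B = (σ i : ℂ) ^ 2 := by
        have := (mul_eq_zero.1 (hU i)).resolve_right hi
        linear_combination this
      have hne : ∀ j, j ≠ i → A * B - (σ j : ℂ) ^ 2 ≠ 0 := by
        intro j hj h0
        rw [hAB] at h0
        have h3 : ((σ i : ℂ) - σ j) * (σ i + σ j) = 0 := by linear_combination h0
        rcases mul_eq_zero.1 h3 with h4 | h4
        · apply hj; apply hσ; 
          have : (σ i : ℂ) = σ j := by linear_combination h4
          exact_mod_cast this.symm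
        · have h5 : ((σ i + σ j : ℝ) : ℂ) = 0 := by push_cast; exact h4
          have h6 : σ i + σ j = 0 := by exact_mod_cast h5
          linarith [hpos i, hpos j]
      have hU0 : U = Pi.single i (U i) := by
        ext j
        by_cases hj : j = i
        · subst hj; simp
        · rw [Pi.single_eq_of_ne hj]
          exact (mul_eq_zero.1 (hU j)).resolve_left (hne j hj)
      have hV0 : V = Pi.single i (V i) := by
        ext j
        by_cases hj : j = i
        · subst hj; simp
        · rw [Pi.single_eq_of_ne hj]
          exact (mul_eq_zero.1 (hV j)).resolve_left (hne j hj)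
      have hA1 : A = 1 + V i ^ 2 := by
        rw [hA]; congr 1; conv_lhs => rw [hV0]
        exact sum_single_sq i (V i)
      have hB1 : B = 1 + U i ^ 2 := by
        rw [hB]; congr 1; conv_lhs => rw [hU0]
        exact sum_single_sq i (U i)
      have k1 := h1 i
      have k2 := h2 i
      rw [hA1] at k1
      rw [hB1] at k2
      have hVi : V i ≠ 0 := by
        intro h0
        rw [h0] at k2
        have : (σ i : ℂ) * U i = 0 := by linear_combination k2
        exact hi ((mul_eq_zero.1 this).resolve_left (hσ0 i))
      have k3 : (V i - U i) * ((σ i : ℂ) + 1 - U i * V i) = 0 := by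
        linear_combination k1 - k2
      rcases mul_eq_zero.1 k3 with k4 | k4
      · have hVU : V i = U i := by linear_combination k4
        have k5 : U i ^ 2 = (σ i : ℂ) - 1 := by
          rw [hVU] at k1
          have : U i * (U i ^ 2 - ((σ i : ℂ) - 1)) = 0 := by linear_combination -k1
          have := (mul_eq_zero.1 this).resolve_left hi
          linear_combination this
        have k6 : (U i - ρ i) * (U i + ρ i) = 0 := by
          have := hρ i
          push_cast at this
          linear_combination k5 - this
        rcases mul_eq_zero.1 k6 with k7 | k7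
        · refine ⟨some (i, false, true), ?_⟩
          have : U i = ρ i := by linear_combination k7
          rw [hU0, hV0, hVU, this]
          simp [phi0, sg]
        · refine ⟨some (i, false, false), ?_⟩
          have : U i = - ρ i := by linear_combination k7
          rw [hU0, hV0, hVU, this]
          simp [phi0, sg]
      · have k5 : U i + V i = 0 := by
          have : (σ i : ℂ) * V i = U i + V i * (U i * V i) := by linear_combination k1
          have h6 : U i * V i = (σ i : ℂ) + 1 := by linear_combination -k4
          rw [h6] at this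
          linear_combination -this
        have hVU : V i = - U i := by linear_combination k5
        have k8 : U i ^ 2 = -(σ i : ℂ) - 1 := by
          rw [hVU] at k4
          linear_combination k4
        have k6 : (U i - τ i) * (U i + τ i) = 0 := by
          have := hτ i
          push_cast at this
          linear_combination k8 - this
        rcases mul_eq_zero.1 k6 with k7 | k7
        · refine ⟨some (i, true, true), ?_⟩
          have : U i = τ i := by linear_combination k7
          rw [hU0, hV0, hVU, this]
          simp [phi0, sg]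
        · refine ⟨some (i, true, false), ?_⟩
          have : U i = - τ i := by linear_combination k7
          rw [hU0, hV0, hVU, this]
          simp [phi0, sg]

lemma exists_sqrt (z : ℂ) : ∃ w : ℂ, w ^ 2 = z := IsAlgClosed.exists_pow_nat_eq z (by norm_num)

theorem sol_zero (r : ℕ) (hr : r ≤ m) : ∃ σ : Fin m → ℝ, (∀ i, 0 < σ i) ∧
    (Sol σ 0).ncard = 4 * m + 1 ∧ {z ∈ Sol σ 0 | IsReal z}.ncard = 2 * r + 1 := by
  classical
  set σ : Fin m → ℝ := fun i => if i.val < r then (i.val : ℝ) + 2 else 1 / ((i.val : ℝ) + 2) with hσd
  have hpos : ∀ i, 0 < σ i := by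
    intro i
    simp only [hσd]
    split_ifs <;> positivity
  have hlow : ∀ i : Fin m, ¬ i.val < r → σ i < 1 := by
    intro i hi
    simp only [hσd, if_neg hi]
    rw [div_lt_one (by positivity)]
    have : (0 : ℝ) ≤ i.val := Nat.cast_nonneg _
    linarith
  have hhigh : ∀ i : Fin m, i.val < r → 1 < σ i := by
    intro i hi
    simp only [hσd, if_pos hi]
    have : (0 : ℝ) ≤ i.val := Nat.cast_nonneg _
    linarith
  have hinj : Function.Injective σ := by
    intro i j h
    by_cases hi : i.val < r <;> by_cases hj : j.val < r
    · simp only [hσd, if_pos hi, if_pos hj] at h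
      apply Fin.ext
      have : (i.val : ℝ) = j.val := by linarith
      exact_mod_cast this
    · have := hhigh i hi; have := hlow j hj; linarith
    · have := hlow i hi; have := hhigh j hj; linarith
    · simp only [hσd, if_neg hi, if_neg hj] at h
      apply Fin.ext
      have h2 : (i.val : ℝ) + 2 = j.val + 2 := by
        rw [one_div, one_div] at h
        exact inv_injective h
      have : (i.val : ℝ) = j.val := by linarith
      exact_mod_cast this
  have hne1 : ∀ i, σ i ≠ 1 := by
    intro i
    by_cases hi : i.val < r
    · exact (hhigh i hi).ne'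
    · exact (hlow i hi).ne
  choose ρ hρ using fun i => exists_sqrt ((σ i - 1 : ℝ) : ℂ)
  choose τ hτ using fun i => exists_sqrt ((-(σ i + 1) : ℝ) : ℂ)
  have hρ0 : ∀ i, ρ i ≠ 0 := by
    intro i h0
    have := hρ i
    rw [h0] at this
    have h1 : ((σ i - 1 : ℝ) : ℂ) = 0 := by rw [← this]; simp
    have h2 : σ i - 1 = 0 := by exact_mod_cast h1
    exact hne1 i (by linarith)
  have hτ0 : ∀ i, τ i ≠ 0 := by
    intro i h0
    have := hτ i
    rw [h0] at this
    have h1 : ((-(σ i + 1) : ℝ) : ℂ) = 0 := by rw [← this]; simp
    have h2 : -(σ i + 1) = 0 := by exact_mod_cast h1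
    have := hpos i
    linarith
  have hR := range_phi0 σ hinj hpos ρ τ hρ hτ
  have hI := phi0_inj ρ τ hρ0 hτ0
  refine ⟨σ, hpos, ?_, ?_⟩
  · rw [← hR, ← Set.image_univ, Set.ncard_image_of_injective _ hI, Set.ncard_univ]
    simp
    ring
  · have hset : {z ∈ Sol σ 0 | IsReal z} = phi0 ρ τ ''
        ((Finset.univ.filter fun x : Option (Fin m × Bool × Bool) =>
          ∀ y ∈ x, y.1.val < r ∧ y.2.1 = false : Finset _) : Set _) := by
      rw [← hR]
      ext z
      constructor
      · rintro ⟨⟨x, rfl⟩, hx⟩
        refine ⟨x, ?_, rfl⟩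
        simp only [Finset.coe_filter, Finset.mem_univ, true_and, Set.mem_ofPred_eq]
        intro y hy
        rw [Option.mem_def] at hy
        subst hy
        obtain ⟨i, c, b⟩ := y
        have hx1 := hx.1 i
        cases c
        · refine ⟨?_, rfl⟩
          by_contra hcon
          have h1 : (sg b * ρ i).im = 0 := by simpa [phi0] using hx1
          have h2 : (sg b * ρ i) ^ 2 = ((σ i - 1 : ℝ) : ℂ) := by
            rw [mul_pow, sg_sq, hρ, one_mul]
          have h3 := (im_of_sq h2 (by have := hne1 i; intro h; apply this; linarith)).1 h1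
          have := hlow i hcon
          linarith
        · exfalso
          have h1 : (sg b * τ i).im = 0 := by simpa [phi0] using hx1
          have h2 : (sg b * τ i) ^ 2 = ((-(σ i + 1) : ℝ) : ℂ) := by
            rw [mul_pow, sg_sq, hτ, one_mul]
          have h3 := (im_of_sq h2 (by have := hpos i; intro h; linarith)).1 h1
          have := hpos i
          linarith
      · rintro ⟨x, hx, rfl⟩
        refine ⟨⟨x, rfl⟩, ?_⟩
        simp only [Finset.coe_filter, Finset.mem_univ, true_and, Set.mem_ofPred_eq] at hx
        rcases x with _ | ⟨i, c, b⟩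
        · simp [phi0, IsReal]
        · obtain ⟨h1, h2⟩ := hx (i, c, b) rfl
          simp only at h1 h2
          subst h2
          have h2 : (sg b * ρ i) ^ 2 = ((σ i - 1 : ℝ) : ℂ) := by
            rw [mul_pow, sg_sq, hρ, one_mul]
          have h3 : (sg b * ρ i).im = 0 := (im_of_sq h2 (by have := hne1 i; intro h; apply this; linarith)).2
            (by have := hhigh i h1; linarith)
          constructor <;> intro j <;> by_cases hj : j = i
          · subst hj; simpa [phi0] using h3
          · simp [phi0, Pi.single_eq_of_ne hj]
          · subst hj; simpa [phi0] using h3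
          · simp [phi0, Pi.single_eq_of_ne hj]
    rw [hset, Set.ncard_image_of_injective _ hI, Set.ncard_coe_finset]
    have hfil : (Finset.univ.filter fun x : Option (Fin m × Bool × Bool) =>
          ∀ y ∈ x, y.1.val < r ∧ y.2.1 = false) =
        insert none (((Finset.univ : Finset (Fin r × Bool))).image
          (fun x => some (Fin.castLE hr x.1, false, x.2))) := by
      ext x
      simp only [Finset.mem_filter, Finset.mem_univ, true_and, Finset.mem_insert, Finset.mem_image]
      rcases x with _ | ⟨i, c, b⟩
      · simp
      · constructor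
        · intro h
          obtain ⟨h1, h2⟩ := h (i, c, b) rfl
          simp only at h1 h2
          subst h2
          right
          exact ⟨(⟨i.val, h1⟩, b), by simp⟩
        · rintro (h | ⟨⟨j, b'⟩, h⟩)
          · simp at h
          · intro y hy
            rw [← h, Option.mem_def, Option.some.injEq] at hy
            subst hy
            exact ⟨j.isLt, rfl⟩
    rw [hfil, Finset.card_insert_of_notMem (by simp), Finset.card_image_of_injective]
    · simp; ring
    · intro a b h
      simp only [Option.some.injEq, Prod.mk.injEq, true_and] at h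
      exact Prod.ext (Fin.castLE_injective hr h.1) h.2

end zero

end Pool.Agent.Helper543.ED
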