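import Mathlib
import Pool.Agent.Helper543.EDZero

/-! Counting the solutions of the normal form of the critical equations (symmetric case). -/

namespace Pool.Agent.Helper543.ED

open Finset Polynomial

/-- general root lemma -/
lemma root_mem {ι : Type*} [Fintype ι] (P : ℂ[X]) (hP : P ≠ 0) (hd : P.natDegree ≤ Fintype.card ι)
    (r : ι → ℂ) (hr : Function.Injective r) (h0 : ∀ i, P.eval (r i) = 0) (z : ℂ)
    (hz : P.eval z = 0) : ∃ i, z = r i := by
  classical
  by_contra hcon
  push Not at hcon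
  have h1 : (insert z (univ.image r)).card ≤ P.natDegree := by
    calc _ ≤ P.roots.toFinset.card := by
          apply Finset.card_le_card
          intro x hx
          rw [Multiset.mem_toFinset, mem_roots hP, IsRoot.def]
          rcases Finset.mem_insert.1 hx with h | h
          · rw [h]; exact hz
          · obtain ⟨i, _, rfl⟩ := Finset.mem_image.1 h; exact h0 i
      _ ≤ Multiset.card P.roots := Multiset.toFinset_card_le _
      _ ≤ _ := card_roots' P
  rw [Finset.card_insert_of_notMem, Finset.card_image_of_injective _ hr, Finset.card_univ] at h1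
  · omega
  · intro h
    obtain ⟨i, _, hi⟩ := Finset.mem_image.1 h
    exact hcon i hi.symm

/-- the polynomial -/
noncomputable def PP {m : ℕ} (f : ℂ[X]) (e : ℕ) (c q : Fin m → ℂ) : ℂ[X] :=
  f * ∏ i, (X - C (c i)) ^ e - ∑ i, C (q i) * ∏ j ∈ univ.erase i, (X - C (c j)) ^ e

lemma PP_eval {m : ℕ} (f : ℂ[X]) (e : ℕ) (c q : Fin m → ℂ) (z : ℂ) (hz : ∀ i, z ≠ c i) :
    (PP f e c q).eval z = (∏ i, (z - c i) ^ e) * (f.eval z - ∑ i, q i / (z - c i) ^ e) := by
  simp only [PP, eval_sub, eval_mul, eval_prod, eval_pow, eval_X, eval_C, eval_finsetSum]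
  rw [mul_sub, mul_comm, Finset.mul_sum]
  congr 1
  refine Finset.sum_congr rfl fun i _ => ?_
  rw [← Finset.mul_prod_erase univ (fun j => (z - c j) ^ e) (Finset.mem_univ i)]
  have : (z - c i) ^ e ≠ 0 := pow_ne_zero _ (sub_ne_zero.2 (hz i))
  field_simp

lemma PP_deg {m : ℕ} (f : ℂ[X]) (d e : ℕ) (hf : f.natDegree ≤ d) (c q : Fin m → ℂ) :
    (PP f e c q).natDegree ≤ d + e * m := by
  have hb : ∀ s : Finset (Fin m), (∏ j ∈ s, (X - C (c j)) ^ e).natDegree ≤ e * s.card := by
    intro s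
    calc _ ≤ ∑ j ∈ s, ((X - C (c j)) ^ e).natDegree := natDegree_prod_le _ _
      _ ≤ ∑ _j ∈ s, e := by
          refine Finset.sum_le_sum fun j _ => ?_
          calc _ ≤ e * (X - C (c j)).natDegree := natDegree_pow_le
            _ = e := by rw [natDegree_X_sub_C, mul_one]
      _ = e * s.card := by rw [Finset.sum_const, smul_eq_mul, mul_comm]
  refine (natDegree_sub_le _ _).trans (max_le ?_ ?_)
  · refine natDegree_mul_le.trans ?_
    have := hb univ
    rw [Finset.card_univ, Fintype.card_fin] at this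
    omega
  · refine natDegree_sum_le_of_forall_le _ _ fun i _ => ?_
    refine (natDegree_C_mul_le _ _).trans ((hb _).trans ?_)
    have : (univ.erase i).card ≤ m := by
      calc _ ≤ (univ : Finset (Fin m)).card := Finset.card_le_card (Finset.erase_subset _ _)
        _ = m := by simp
    have := Nat.mul_le_mul_left e this
    omega

lemma PP_root {m : ℕ} (i0 : Fin m) (f : ℂ[X]) (d e : ℕ) (he : e ≠ 0) (hf : f.natDegree ≤ d)
    (c q : Fin m → ℂ) (hc : Function.Injective c) (hq : ∀ i, q i ≠ 0)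
    {ι : Type*} [Fintype ι] (hcard : Fintype.card ι = d + e * m)
    (r : ι → ℂ) (hr : Function.Injective r)
    (h0 : ∀ k, (∀ i, r k ≠ c i) ∧ f.eval (r k) = ∑ i, q i / (r k - c i) ^ e)
    (z : ℂ) (hz : ∀ i, z ≠ c i) (hz2 : f.eval z = ∑ i, q i / (z - c i) ^ e) :
    ∃ k, z = r k := by
  classical
  apply root_mem (PP f e c q) ?_ ((PP_deg f d e hf c q).trans hcard.ge) r hr
  · intro k
    rw [PP_eval _ _ _ _ _ (h0 k).1, (h0 k).2, sub_self, mul_zero]
  · rw [PP_eval _ _ _ _ _ hz, hz2, sub_self, mul_zero]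
  · intro h
    have h1 : (PP f e c q).eval (c i0) = 0 := by rw [h]; simp
    simp only [PP, eval_sub, eval_mul, eval_prod, eval_pow, eval_X, eval_C, eval_finsetSum] at h1
    rw [Finset.prod_eq_zero (Finset.mem_univ i0) (by rw [sub_self, zero_pow he]), mul_zero,
      zero_sub, neg_eq_zero, Finset.sum_eq_single i0] at h1
    · rcases mul_eq_zero.1 h1 with h2 | h2
      · exact hq i0 h2
      · rw [Finset.prod_eq_zero_iff] at h2
        obtain ⟨j, hj, hj2⟩ := h2
        have h3 : c i0 = c j := by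
          have := pow_eq_zero_iff he |>.1 hj2
          linear_combination this
        exact (Finset.ne_of_mem_erase hj) (hc h3).symm
    · intro b _ hb
      rw [Finset.prod_eq_zero (i := i0) (Finset.mem_erase.2 ⟨hb.symm, Finset.mem_univ _⟩)
        (by rw [sub_self, zero_pow he]), mul_zero]
    · intro h; exact absurd (Finset.mem_univ _) h

variable {m : ℕ}

lemma sym_forward (σ p : Fin m → ℝ) (hσ : Function.Injective σ) (hp : ∀ i, p i ≠ 0)
    (z : (Fin m → ℂ) × (Fin m → ℂ)) (hz : z ∈ Sol σ p)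
    (hAB : (1 + ∑ j, z.2 j ^ 2) = (1 + ∑ j, z.1 j ^ 2)) :
    (∀ i, (1 + ∑ j, z.2 j ^ 2) ≠ (σ i : ℂ)) ∧
    z = (fun i => (p i : ℂ) / ((1 + ∑ j, z.2 j ^ 2) - σ i),
      fun i => (p i : ℂ) / ((1 + ∑ j, z.2 j ^ 2) - σ i)) := by
  obtain ⟨U, V⟩ := z
  obtain ⟨h1, h2⟩ := hz
  simp only at h1 h2 hAB ⊢
  rw [← hAB] at h2
  have hsq : ∑ j, V j ^ 2 = ∑ j, U j ^ 2 := by linear_combination hAB
  set A : ℂ := 1 + ∑ j, V j ^ 2 with hA
  have hprod : ∀ i, (A + σ i) * (U i - V i) = 0 := fun i => by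
    linear_combination (-1 : ℂ) * h1 i + h2 i
  have hUV : ∀ i, U i = V i := by
    by_contra hcon
    push Not at hcon
    obtain ⟨k, hk⟩ := hcon
    have hAk : A = -(σ k : ℂ) := by
      have := (mul_eq_zero.1 (hprod k)).resolve_right (sub_ne_zero.2 hk)
      linear_combination this
    have hoth : ∀ j, j ≠ k → U j = V j := by
      intro j hj
      rcases mul_eq_zero.1 (hprod j) with h | h
      · exfalso
        apply hj; apply hσ
        have : (σ j : ℂ) = σ k := by rw [hAk] at h; linear_combination h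
        exact_mod_cast this
      · linear_combination h
    have h3 : V k ^ 2 = U k ^ 2 := by
      rw [← Finset.add_sum_erase _ _ (Finset.mem_univ k),
        ← Finset.add_sum_erase _ (fun j => U j ^ 2) (Finset.mem_univ k)] at hsq
      have h4 : ∑ x ∈ univ.erase k, V x ^ 2 = ∑ x ∈ univ.erase k, U x ^ 2 :=
        Finset.sum_congr rfl fun j hj => by rw [hoth j (Finset.ne_of_mem_erase hj)]
      rw [h4] at hsq
      exact add_right_cancel hsq
    have h5 : (U k - V k) * (U k + V k) = 0 := by linear_combination -h3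
    have h6 := (mul_eq_zero.1 h5).resolve_left (sub_ne_zero.2 hk)
    have h7 := h1 k
    rw [hAk] at h7
    have h8 : (p k : ℂ) = 0 := by linear_combination h7 + (-(σ k : ℂ)) * h6
    exact hp k (by exact_mod_cast h8)
  have hne : ∀ i, A ≠ (σ i : ℂ) := by
    intro i h
    have h3 := h1 i
    rw [h, hUV i] at h3
    have h8 : (p i : ℂ) = 0 := by linear_combination h3
    exact hp i (by exact_mod_cast h8)
  refine ⟨hne, ?_⟩
  have hv : ∀ i, V i = (p i : ℂ) / (A - σ i) := by
    intro i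
    rw [eq_div_iff (sub_ne_zero.2 (hne i))]
    have h3 := h1 i
    rw [hUV i] at h3
    linear_combination -h3
  ext i
  · simp only; rw [hUV i, hv i]
  · simp only; rw [hv i]

lemma asym_forward (σ p : Fin m → ℝ) (hp : ∀ i, p i ≠ 0) (U V : Fin m → ℂ) (A B : ℂ)
    (hA : A = 1 + ∑ j, V j ^ 2) (hB : B = 1 + ∑ j, U j ^ 2)
    (h1 : ∀ i, (p i : ℂ) + σ i * V i = A * U i) (h2 : ∀ i, (p i : ℂ) + σ i * U i = B * V i)
    (hAB : A ≠ B) :
    (∀ i, A * B ≠ (σ i : ℂ) ^ 2) ∧
    (∀ i, U i = p i * (B + σ i) / (A * B - (σ i : ℂ) ^ 2)) ∧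
    (∀ i, V i = p i * (A + σ i) / (A * B - (σ i : ℂ) ^ 2)) ∧
    (1 = ∑ i, (p i : ℂ) ^ 2 / (A * B - (σ i : ℂ) ^ 2)) ∧
    ((A + B) * ∑ i, (p i : ℂ) ^ 2 / (A * B - (σ i : ℂ) ^ 2) ^ 2 +
      2 * ∑ i, (p i : ℂ) ^ 2 * σ i / (A * B - (σ i : ℂ) ^ 2) ^ 2 = 1) := by
  have hne : ∀ i, A * B ≠ (σ i : ℂ) ^ 2 := by
    intro i h
    have hpi : (p i : ℂ) ≠ 0 := by exact_mod_cast hp i
    have e1 : (p i : ℂ) * (B + σ i) = 0 := by
      linear_combination B * h1 i + (σ i : ℂ) * h2 i + U i * h
    have e2 : (p i : ℂ) * (A + σ i) = 0 := by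
      linear_combination A * h2 i + (σ i : ℂ) * h1 i + V i * h
    have e3 := (mul_eq_zero.1 e1).resolve_left hpi
    have e4 := (mul_eq_zero.1 e2).resolve_left hpi
    exact hAB (by linear_combination e4 - e3)
  have hU : ∀ i, U i = p i * (B + σ i) / (A * B - (σ i : ℂ) ^ 2) := by
    intro i
    rw [eq_div_iff (sub_ne_zero.2 (hne i))]
    linear_combination (-B) * h1 i + (-(σ i : ℂ)) * h2 i
  have hV : ∀ i, V i = p i * (A + σ i) / (A * B - (σ i : ℂ) ^ 2) := by
    intro i
    rw [eq_div_iff (sub_ne_zero.2 (hne i))]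
    linear_combination (-A) * h2 i + (-(σ i : ℂ)) * h1 i
  set W0 := ∑ i, (p i : ℂ) ^ 2 / (A * B - (σ i : ℂ) ^ 2) ^ 2 with hW0
  set W1 := ∑ i, (p i : ℂ) ^ 2 * σ i / (A * B - (σ i : ℂ) ^ 2) ^ 2 with hW1
  set W2 := ∑ i, (p i : ℂ) ^ 2 * (σ i : ℂ) ^ 2 / (A * B - (σ i : ℂ) ^ 2) ^ 2 with hW2
  have hA1 : A = 1 + (A ^ 2 * W0 + 2 * A * W1 + W2) := by
    nth_rewrite 1 [hA]
    congr 1
    rw [hW0, hW1, hW2, Finset.mul_sum, Finset.mul_sum, ← Finset.sum_add_distrib,
      ← Finset.sum_add_distrib]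
    refine Finset.sum_congr rfl fun i _ => ?_
    rw [hV i]
    have := sub_ne_zero.2 (hne i)
    field_simp
    ring
  have hB1 : B = 1 + (B ^ 2 * W0 + 2 * B * W1 + W2) := by
    nth_rewrite 1 [hB]
    congr 1
    rw [hW0, hW1, hW2, Finset.mul_sum, Finset.mul_sum, ← Finset.sum_add_distrib,
      ← Finset.sum_add_distrib]
    refine Finset.sum_congr rfl fun i _ => ?_
    rw [hU i]
    have := sub_ne_zero.2 (hne i)
    field_simp
    ring
  have key : (A + B) * W0 + 2 * W1 = 1 := by
    apply mul_left_cancel₀ (sub_ne_zero.2 hAB)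
    linear_combination -hA1 + hB1
  refine ⟨hne, hU, hV, ?_, key⟩
  have h3 : ∑ i, (p i : ℂ) ^ 2 / (A * B - (σ i : ℂ) ^ 2) = A * B * W0 - W2 := by
    rw [hW0, hW2, Finset.mul_sum, ← Finset.sum_sub_distrib]
    refine Finset.sum_congr rfl fun i _ => ?_
    have := sub_ne_zero.2 (hne i)
    field_simp
  rw [h3]
  linear_combination -hA1 - A * key

lemma asym_backward (σ p : Fin m → ℝ) (A B : ℂ) (hne : ∀ i, A * B ≠ (σ i : ℂ) ^ 2)
    (e1 : 1 = ∑ i, (p i : ℂ) ^ 2 / (A * B - (σ i : ℂ) ^ 2))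
    (e2 : (A + B) * ∑ i, (p i : ℂ) ^ 2 / (A * B - (σ i : ℂ) ^ 2) ^ 2 +
      2 * ∑ i, (p i : ℂ) ^ 2 * σ i / (A * B - (σ i : ℂ) ^ 2) ^ 2 = 1) :
    1 + ∑ i, (p i * (A + σ i) / (A * B - (σ i : ℂ) ^ 2)) ^ 2 = A := by
  set W0 := ∑ i, (p i : ℂ) ^ 2 / (A * B - (σ i : ℂ) ^ 2) ^ 2 with hW0
  set W1 := ∑ i, (p i : ℂ) ^ 2 * σ i / (A * B - (σ i : ℂ) ^ 2) ^ 2 with hW1
  set W2 := ∑ i, (p i : ℂ) ^ 2 * (σ i : ℂ) ^ 2 / (A * B - (σ i : ℂ) ^ 2) ^ 2 with hW2
  have hA1 : ∑ i, (p i * (A + σ i) / (A * B - (σ i : ℂ) ^ 2)) ^ 2 =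
      A ^ 2 * W0 + 2 * A * W1 + W2 := by
    rw [hW0, hW1, hW2, Finset.mul_sum, Finset.mul_sum, ← Finset.sum_add_distrib,
      ← Finset.sum_add_distrib]
    refine Finset.sum_congr rfl fun i _ => ?_
    have := sub_ne_zero.2 (hne i)
    field_simp
    ring
  have h3 : ∑ i, (p i : ℂ) ^ 2 / (A * B - (σ i : ℂ) ^ 2) = A * B * W0 - W2 := by
    rw [hW0, hW2, Finset.mul_sum, ← Finset.sum_sub_distrib]
    refine Finset.sum_congr rfl fun i _ => ?_
    have := sub_ne_zero.2 (hne i)
    field_simp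
  rw [hA1]
  rw [h3] at e1
  linear_combination A * e2 + e1

lemma sum_real (F : Fin m → ℝ) (G : Fin m → ℂ) (h : ∀ i, G i = (F i : ℂ)) :
    ∑ i, G i = ((∑ i, F i : ℝ) : ℂ) := by
  rw [Complex.ofReal_sum]; exact Finset.sum_congr rfl fun i _ => h i

lemma frac1 (p σ A B Y : ℂ) (hY : Y ≠ 0) (h : Y = A * B - σ ^ 2) :
    p + σ * (p * (A + σ) / Y) = A * (p * (B + σ) / Y) := by
  have h1 : p = p * Y / Y := by field_simp
  have h2 : p + σ * (p * (A + σ) / Y) = (p * Y + σ * (p * (A + σ))) / Y := by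
    rw [add_div, ← h1, mul_div_assoc σ]
  rw [h2, ← mul_div_assoc]
  congr 1
  rw [h]; ring

/-- the solutions in the symmetric case -/
noncomputable def phi1 (σ p : Fin m → ℝ) (a : Option (Fin m × Bool) → ℝ) (S : Fin m → ℝ)
    (ρ : Fin m → ℂ) : Option (Fin m × Bool) ⊕ (Fin m × Bool) → (Fin m → ℂ) × (Fin m → ℂ)
  | Sum.inl k => (fun j => (p j : ℂ) / ((a k : ℂ) - σ j), fun j => (p j : ℂ) / ((a k : ℂ) - σ j))
  | Sum.inr (i, b) =>
    (fun j => p j * ((S i - sg b * ρ i) / 2 + σ j) /
      ((S i + sg b * ρ i) / 2 * ((S i - sg b * ρ i) / 2) - (σ j : ℂ) ^ 2),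
     fun j => p j * ((S i + sg b * ρ i) / 2 + σ j) /
      ((S i + sg b * ρ i) / 2 * ((S i - sg b * ρ i) / 2) - (σ j : ℂ) ^ 2))

theorem count_sym (i0 : Fin m) (σ p : Fin m → ℝ) (hσ : Function.Injective σ) (hpos : ∀ i, 0 < σ i)
    (hp : ∀ i, p i ≠ 0)
    (a : Option (Fin m × Bool) → ℝ) (ha : Function.Injective a) (ha0 : ∀ k i, a k ≠ σ i)
    (ha1 : ∀ k, a k - 1 = ∑ i, p i ^ 2 / (a k - σ i) ^ 2)
    (D S : Fin m → ℝ) (hD : Function.Injective D) (hD0 : ∀ i j, D i ≠ σ j ^ 2)
    (hD1 : ∀ i, 1 = ∑ j, p j ^ 2 / (D i - σ j ^ 2))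
    (hS : ∀ i, S i * ∑ j, p j ^ 2 / (D i - σ j ^ 2) ^ 2 +
      2 * ∑ j, p j ^ 2 * σ j / (D i - σ j ^ 2) ^ 2 = 1)
    (hE : ∀ i, S i ^ 2 - 4 * D i ≠ 0) :
    (Sol σ p).ncard = 4 * m + 1 ∧ {z ∈ Sol σ p | IsReal z}.ncard =
      2 * m + 1 + 2 * (univ.filter fun i => 0 < S i ^ 2 - 4 * D i).card := by
  classical
  choose ρ hρ using fun i => exists_sqrt ((S i ^ 2 - 4 * D i : ℝ) : ℂ)
  have hρ0 : ∀ i, ρ i ≠ 0 := by
    intro i h0
    have := hρ i
    rw [h0] at this
    have h1 : ((S i ^ 2 - 4 * D i : ℝ) : ℂ) = 0 := by rw [← this]; simp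
    exact hE i (by exact_mod_cast h1)
  have hprod : ∀ i b, ((S i : ℂ) + sg b * ρ i) / 2 * ((S i - sg b * ρ i) / 2) = D i := by
    intro i b
    have h1 := hρ i
    have h2 := sg_sq b
    push_cast at h1
    linear_combination (-1/4 : ℂ) * sg b ^ 2 * h1 - (1/4 : ℂ) * (S i ^ 2 - 4 * D i) * h2
  set Φ := phi1 σ p a S ρ with hΦ
  -- invariants
  have hi1 : ∀ k, 1 + ∑ j, (Φ (Sum.inl k)).1 j ^ 2 = (a k : ℂ) := by
    intro k
    have : ∑ j, (Φ (Sum.inl k)).1 j ^ 2 = ((∑ i, p i ^ 2 / (a k - σ i) ^ 2 : ℝ) : ℂ) := by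
      apply sum_real
      intro j
      simp only [hΦ, phi1]
      push_cast
      rw [div_pow]
    rw [this, ← ha1]
    push_cast; ring
  have hi1' : ∀ k, 1 + ∑ j, (Φ (Sum.inl k)).2 j ^ 2 = (a k : ℂ) := hi1
  have hDne : ∀ i j, (D i : ℂ) ≠ (σ j : ℂ) ^ 2 := by
    intro i j h
    exact hD0 i j (by exact_mod_cast h)
  have hD1c : ∀ i, (1 : ℂ) = ∑ j, (p j : ℂ) ^ 2 / ((D i : ℂ) - (σ j : ℂ) ^ 2) := by
    intro i
    rw [sum_real (fun j => p j ^ 2 / (D i - σ j ^ 2)) _ (fun j => by push_cast; ring), ← hD1 i]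
    simp
  have hSc : ∀ i, (S i : ℂ) * ∑ j, (p j : ℂ) ^ 2 / ((D i : ℂ) - (σ j : ℂ) ^ 2) ^ 2 +
      2 * ∑ j, (p j : ℂ) ^ 2 * σ j / ((D i : ℂ) - (σ j : ℂ) ^ 2) ^ 2 = 1 := by
    intro i
    rw [sum_real (fun j => p j ^ 2 / (D i - σ j ^ 2) ^ 2) _ (fun j => by push_cast; ring),
      sum_real (fun j => p j ^ 2 * σ j / (D i - σ j ^ 2) ^ 2) _ (fun j => by push_cast; ring)]
    exact_mod_cast hS i
  have hi2 : ∀ i b, 1 + ∑ j, (Φ (Sum.inr (i, b))).2 j ^ 2 = ((S i : ℂ) + sg b * ρ i) / 2 := by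
    intro i b
    simp only [hΦ, phi1]
    apply asym_backward
    · intro j; rw [hprod]; exact hDne i j
    · rw [hprod]; exact hD1c i
    · rw [hprod, show ((S i : ℂ) + sg b * ρ i) / 2 + (S i - sg b * ρ i) / 2 = S i by ring]
      exact hSc i
  have hi3 : ∀ i b, 1 + ∑ j, (Φ (Sum.inr (i, b))).1 j ^ 2 = ((S i : ℂ) - sg b * ρ i) / 2 := by
    intro i b
    simp only [hΦ, phi1]
    rw [mul_comm (((S i : ℂ) + sg b * ρ i) / 2) ((S i - sg b * ρ i) / 2)]
    apply asym_backward
    · intro j; rw [mul_comm, hprod]; exact hDne i j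
    · rw [mul_comm, hprod]; exact hD1c i
    · rw [mul_comm (((S i : ℂ) - sg b * ρ i) / 2), hprod,
        show ((S i : ℂ) - sg b * ρ i) / 2 + (S i + sg b * ρ i) / 2 = S i by ring]
      exact hSc i
  have hmem : ∀ x, Φ x ∈ Sol σ p := by
    rintro (k | ⟨i, b⟩)
    · constructor
      · intro j
        rw [hi1' k]
        have : (a k : ℂ) - σ j ≠ 0 := sub_ne_zero.2 (by exact_mod_cast ha0 k j)
        simp only [hΦ, phi1]
        field_simp
        ring
      · intro j
        rw [hi1 k]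
        have : (a k : ℂ) - σ j ≠ 0 := sub_ne_zero.2 (by exact_mod_cast ha0 k j)
        simp only [hΦ, phi1]
        field_simp
        ring
    · have hh : ∀ j, ((S i : ℂ) + sg b * ρ i) / 2 * ((S i - sg b * ρ i) / 2) - (σ j : ℂ) ^ 2 ≠ 0 := by
        intro j; rw [hprod]; exact sub_ne_zero.2 (hDne i j)
      constructor
      · intro j
        rw [hi2 i b]
        simp only [hΦ, phi1]
        exact frac1 _ _ _ _ _ (hh j) rfl
      · intro j
        rw [hi3 i b]
        simp only [hΦ, phi1]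
        exact frac1 _ _ _ _ _ (hh j) (by ring)
  have hinj : Function.Injective Φ := by
    intro x y h
    have hA : 1 + ∑ j, (Φ x).2 j ^ 2 = 1 + ∑ j, (Φ y).2 j ^ 2 := by rw [h]
    have hB : 1 + ∑ j, (Φ x).1 j ^ 2 = 1 + ∑ j, (Φ y).1 j ^ 2 := by rw [h]
    rcases x with k | ⟨i, b⟩ <;> rcases y with l | ⟨j, c⟩
    · rw [hi1', hi1'] at hA
      have : a k = a l := by exact_mod_cast hA
      rw [ha this]
    · exfalso
      rw [hi1', hi2] at hA
      rw [hi1, hi3] at hB
      have : sg c * ρ j = 0 := by linear_combination hB - hA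
      exact mul_ne_zero (sg_ne c) (hρ0 j) this
    · exfalso
      rw [hi1', hi2] at hA
      rw [hi1, hi3] at hB
      have : sg b * ρ i = 0 := by linear_combination hA - hB
      exact mul_ne_zero (sg_ne b) (hρ0 i) this
    · rw [hi2, hi2] at hA
      rw [hi3, hi3] at hB
      have hDD : (D i : ℂ) = D j := by rw [← hprod i b, ← hprod j c, hA, hB]
      have hij : i = j := hD (by exact_mod_cast hDD)
      subst hij
      have h1 : (sg b - sg c) * ρ i = 0 := by linear_combination hA - hB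
      have h2 := (mul_eq_zero.1 h1).resolve_right (hρ0 i)
      have hbc : b = c := by
        cases b <;> cases c <;> simp [sg] at h2 ⊢ <;> norm_num at h2
      rw [hbc]
  have hrange : Set.range Φ = Sol σ p := by
    apply Set.Subset.antisymm
    · rintro _ ⟨x, rfl⟩; exact hmem x
    · intro z hz
      by_cases hAB : (1 + ∑ j, z.2 j ^ 2) = (1 + ∑ j, z.1 j ^ 2)
      · obtain ⟨h1, h2⟩ := sym_forward σ p hσ hp z hz hAB
        obtain ⟨k, hk⟩ := PP_root i0 (X - C 1) 1 2 (by norm_num) (natDegree_X_sub_C _).le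
          (fun i => (σ i : ℂ)) (fun i => (p i : ℂ) ^ 2)
          (fun i j h => hσ (Complex.ofReal_injective h))
          (fun i => pow_ne_zero _ (by exact_mod_cast hp i))
          (ι := Option (Fin m × Bool)) (by simp; ring)
          (fun k => (a k : ℂ)) (fun i j h => ha (Complex.ofReal_injective h))
          (fun k => ⟨fun i => by exact_mod_cast ha0 k i, by
            simp only [eval_sub, eval_X, eval_C]
            rw [sum_real (fun i => p i ^ 2 / (a k - σ i) ^ 2) _ (fun j => by push_cast; ring),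
              ← ha1 k]
            push_cast; ring⟩)
          (1 + ∑ j, z.2 j ^ 2) h1 (by
            simp only [eval_sub, eval_X, eval_C]
            have h3 : ∑ j, z.2 j ^ 2 = ∑ i, (p i : ℂ) ^ 2 / ((1 + ∑ j, z.2 j ^ 2) - σ i) ^ 2 := by
              refine Finset.sum_congr rfl fun i _ => ?_
              have h4 := congrArg (fun w => w.2 i) h2
              simp only at h4
              rw [← div_pow, ← h4]
            linear_combination h3)
        refine ⟨Sum.inl k, ?_⟩
        simp only [hΦ, phi1]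
        rw [h2, hk]
      · obtain ⟨h1, h2⟩ := hz
        obtain ⟨k1, k2, k3, k4, k5⟩ := asym_forward σ p hp z.1 z.2 _ _ rfl rfl h1 h2 hAB
        set A := 1 + ∑ j, z.2 j ^ 2 with hA
        set B := 1 + ∑ j, z.1 j ^ 2 with hB
        obtain ⟨i, hi⟩ := PP_root i0 1 0 1 one_ne_zero (by simp)
          (fun i => (σ i : ℂ) ^ 2) (fun i => (p i : ℂ) ^ 2)
          (fun i j h => by
            have h'' : (σ i : ℂ) ^ 2 = (σ j : ℂ) ^ 2 := h
            have h' : σ i ^ 2 = σ j ^ 2 := by exact_mod_cast h''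
            apply hσ
            have := hpos i
            have := hpos j
            nlinarith)
          (fun i => pow_ne_zero _ (by exact_mod_cast hp i))
          (ι := Fin m) (by simp)
          (fun k => (D k : ℂ)) (fun i j h => hD (Complex.ofReal_injective h))
          (fun k => ⟨fun j => hDne k j, by simp only [eval_one, pow_one]; exact hD1c k⟩)
          (A * B) k1 (by simp only [eval_one, pow_one]; exact k4)
        rw [hi] at k5
        have hW : ∑ j, (p j : ℂ) ^ 2 / ((D i : ℂ) - (σ j : ℂ) ^ 2) ^ 2 ≠ 0 := by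
          rw [sum_real (fun j => p j ^ 2 / (D i - σ j ^ 2) ^ 2) _ (fun j => by push_cast; ring)]
          have : 0 < ∑ j, p j ^ 2 / (D i - σ j ^ 2) ^ 2 := by
            apply Finset.sum_pos
            · intro j _
              have := hp j
              have := sub_ne_zero.2 (hD0 i j)
              positivity
            · exact ⟨i0, Finset.mem_univ _⟩
          exact_mod_cast this.ne'
        have hsum : A + B = S i := by
          apply mul_right_cancel₀ hW
          linear_combination k5 - hSc i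
        have hdiff : (A - B - ρ i) * (A - B + ρ i) = 0 := by
          have h3 := hρ i
          push_cast at h3
          linear_combination (A + B + S i) * hsum - 4 * hi - h3
        rcases mul_eq_zero.1 hdiff with h | h
        · refine ⟨Sum.inr (i, true), ?_⟩
          have hA' : A = ((S i : ℂ) + sg true * ρ i) / 2 := by
            simp only [sg, if_true]; linear_combination (1/2 : ℂ) * hsum + (1/2 : ℂ) * h
          have hB' : B = ((S i : ℂ) - sg true * ρ i) / 2 := by
            simp only [sg, if_true]; linear_combination (1/2 : ℂ) * hsum - (1/2 : ℂ) * h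
          simp only [hΦ, phi1]
          rw [← hA', ← hB']
          ext j
          · simp only; rw [k2 j]
          · simp only; rw [k3 j]
        · refine ⟨Sum.inr (i, false), ?_⟩
          have hA' : A = ((S i : ℂ) + sg false * ρ i) / 2 := by
            simp only [sg, Bool.false_eq_true, if_false]
            linear_combination (1/2 : ℂ) * hsum + (1/2 : ℂ) * h
          have hB' : B = ((S i : ℂ) - sg false * ρ i) / 2 := by
            simp only [sg, Bool.false_eq_true, if_false]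
            linear_combination (1/2 : ℂ) * hsum - (1/2 : ℂ) * h
          simp only [hΦ, phi1]
          rw [← hA', ← hB']
          ext j
          · simp only; rw [k2 j]
          · simp only; rw [k3 j]
  refine ⟨?_, ?_⟩
  · rw [← hrange, ← Set.image_univ, Set.ncard_image_of_injective _ hinj, Set.ncard_univ]
    simp
    ring
  · have him : ∀ i, (ρ i).im = 0 ↔ 0 < S i ^ 2 - 4 * D i := fun i => im_of_sq (hρ i) (hE i)
    have hset : {z ∈ Sol σ p | IsReal z} = Φ ''
        (((univ : Finset (Option (Fin m × Bool))).disjSum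
          ((univ.filter fun i => 0 < S i ^ 2 - 4 * D i) ×ˢ (univ : Finset Bool)) : Finset _) :
          Set (Option (Fin m × Bool) ⊕ (Fin m × Bool))) := by
      rw [← hrange]
      ext z
      constructor
      · rintro ⟨⟨x, rfl⟩, hx⟩
        refine ⟨x, ?_, rfl⟩
        rcases x with k | ⟨i, b⟩
        · simp
        · simp only [Finset.mem_coe, Finset.inr_mem_disjSum, Finset.mem_product,
            Finset.mem_filter, Finset.mem_univ, true_and, and_true]
          rw [← him]
          have h1 := hi2 i b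
          have h2 : ((S i : ℂ) + sg b * ρ i) / 2 = ((1 + ∑ j, ((Φ (Sum.inr (i, b))).2 j).re ^ 2 : ℝ) : ℂ) := by
            rw [← h1]
            push_cast
            congr 1
            refine Finset.sum_congr rfl fun j _ => ?_
            congr 1
            apply Complex.ext
            · simp
            · simp [hx.2 j]
          have h3 := congrArg Complex.im h2
          rw [Complex.ofReal_im] at h3
          cases b <;> simp [sg] at h3 <;> exact h3
      · rintro ⟨x, hx, rfl⟩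
        refine ⟨⟨x, rfl⟩, ?_⟩
        rcases x with k | ⟨i, b⟩
        · constructor <;> intro j
          · have : (Φ (Sum.inl k)).1 j = ((p j / (a k - σ j) : ℝ) : ℂ) := by
              simp only [hΦ, phi1]; push_cast; ring
            rw [this, Complex.ofReal_im]
          · have : (Φ (Sum.inl k)).2 j = ((p j / (a k - σ j) : ℝ) : ℂ) := by
              simp only [hΦ, phi1]; push_cast; ring
            rw [this, Complex.ofReal_im]
        · simp only [Finset.mem_coe, Finset.inr_mem_disjSum, Finset.mem_product,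
            Finset.mem_filter, Finset.mem_univ, true_and, and_true] at hx
          have h0 := (him i).2 hx
          obtain ⟨t, ht⟩ : ∃ t : ℝ, sg b * ρ i = (t : ℂ) := by
            cases b
            · exact ⟨-(ρ i).re, by
                apply Complex.ext
                · simp [sg]
                · simp [sg, h0]⟩
            · exact ⟨(ρ i).re, by
                apply Complex.ext
                · simp [sg]
                · simp [sg, h0]⟩
          constructor <;> intro j
          · have : (Φ (Sum.inr (i, b))).1 j = ((p j * ((S i - t) / 2 + σ j) /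
                ((S i + t) / 2 * ((S i - t) / 2) - σ j ^ 2) : ℝ) : ℂ) := by
              simp only [hΦ, phi1]; rw [ht]; push_cast; ring
            rw [this, Complex.ofReal_im]
          · have : (Φ (Sum.inr (i, b))).2 j = ((p j * ((S i + t) / 2 + σ j) /
                ((S i + t) / 2 * ((S i - t) / 2) - σ j ^ 2) : ℝ) : ℂ) := by
              simp only [hΦ, phi1]; rw [ht]; push_cast; ring
            rw [this, Complex.ofReal_im]
    rw [hset, Set.ncard_image_of_injective _ hinj, Set.ncard_coe_finset, Finset.card_disjSum,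
      Finset.card_product]
    simp
    ring

end Pool.Agent.Helper543.ED
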