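import Mathlib
import Pool.Agent.Helper543.EDSym

/-! The explicit parameters. -/

namespace Pool.Agent.Helper543.ED

open Finset

variable {m : ℕ}

/-- the scale -/
noncomputable def KK (m : ℕ) : ℝ := 1000 * ((m : ℝ) + 1) ^ 2
/-- the singular values -/
noncomputable def sg1 (m : ℕ) (i : Fin m) : ℝ := KK m * ((i.val : ℝ) + 1)
/-- the coefficients -/
noncomputable def cc (r : ℕ) (i : Fin m) : ℝ := if i.val < r then 8 else 1
/-- the vector -/
noncomputable def pp (r : ℕ) (i : Fin m) : ℝ := Real.sqrt (cc r i * sg1 m i)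

lemma KK_ge (m : ℕ) : 1000 ≤ KK m := by
  unfold KK
  have : (0 : ℝ) ≤ m := Nat.cast_nonneg m
  nlinarith

lemma mK (m : ℕ) : (m : ℝ) ≤ KK m / 1000 := by
  unfold KK
  have : (0 : ℝ) ≤ m := Nat.cast_nonneg m
  nlinarith

lemma m2K (m : ℕ) : (m : ℝ) * m ≤ KK m / 1000 := by
  unfold KK
  have : (0 : ℝ) ≤ m := Nat.cast_nonneg m
  nlinarith

lemma sg1_ge (i : Fin m) : KK m ≤ sg1 m i := by
  unfold sg1
  have := KK_ge m
  have : (0 : ℝ) ≤ i.val := Nat.cast_nonneg _
  nlinarith

lemma sg1_le (i : Fin m) : sg1 m i ≤ KK m * m := by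
  unfold sg1
  have := KK_ge m
  have h : (i.val : ℝ) + 1 ≤ m := by exact_mod_cast i.isLt
  nlinarith

lemma cc_ge (r : ℕ) (i : Fin m) : 1 ≤ cc r i := by unfold cc; split_ifs <;> norm_num
lemma cc_le (r : ℕ) (i : Fin m) : cc r i ≤ 8 := by unfold cc; split_ifs <;> norm_num

lemma pp_sq (r : ℕ) (i : Fin m) : pp r i ^ 2 = cc r i * sg1 m i := by
  unfold pp
  rw [Real.sq_sqrt]
  have := cc_ge r i
  have := sg1_ge i
  have := KK_ge m
  nlinarith

lemma pp_ne (r : ℕ) (i : Fin m) : pp r i ≠ 0 := by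
  intro h
  have := pp_sq r i
  rw [h] at this
  have := cc_ge r i
  have := sg1_ge i
  have := KK_ge m
  nlinarith

lemma sg1_sep (i j : Fin m) (h : j ≠ i) : KK m ≤ |sg1 m i - sg1 m j| := by
  unfold sg1
  have hK := KK_ge m
  have h1 : (1 : ℝ) ≤ |(i.val : ℝ) - j.val| := by
    have h2 : (i.val : ℤ) - j.val ≠ 0 := by
      intro h3
      apply h
      apply Fin.ext
      omega
    have h4 := Int.one_le_abs h2
    exact_mod_cast h4
  have h2 : KK m * ((i.val : ℝ) + 1) - KK m * ((j.val : ℝ) + 1) = KK m * ((i.val : ℝ) - j.val) := by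
    ring
  rw [h2, abs_mul, abs_of_pos (by linarith)]
  nlinarith

lemma sg1_inj : Function.Injective (sg1 m) := by
  intro i j h
  by_contra hne
  have := sg1_sep i j (Ne.symm hne)
  rw [h, sub_self, abs_zero] at this
  linarith [KK_ge m]

lemma far {i j : Fin m} (h : j ≠ i) {s : ℝ} (hs : |s - sg1 m i| ≤ KK m / 2) :
    KK m / 2 ≤ |s - sg1 m j| := by
  have h1 := sg1_sep i j h
  have h2 : |sg1 m i - sg1 m j| ≤ |s - sg1 m i| + |s - sg1 m j| := by
    have : sg1 m i - sg1 m j = -(s - sg1 m i) + (s - sg1 m j) := by ring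
    rw [this]
    calc _ ≤ |-(s - sg1 m i)| + |s - sg1 m j| := abs_add_le _ _
      _ = _ := by rw [abs_neg]
  linarith

/-- the function with the symmetric solutions as zeros -/
noncomputable def FF (r : ℕ) (x : ℝ) : ℝ := x - 1 - ∑ i : Fin m, pp r i ^ 2 / (x - sg1 m i) ^ 2

lemma FF_pos (r : ℕ) (x : ℝ) (hx1 : KK m / 2 ≤ x) (hx : ∀ i : Fin m, KK m / 2 ≤ |x - sg1 m i|) :
    0 < FF (m := m) r x := by
  have hK := KK_ge m
  have h1 : ∑ i : Fin m, pp r i ^ 2 / (x - sg1 m i) ^ 2 ≤ ∑ _i : Fin m, 32 * m / KK m := by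
    refine Finset.sum_le_sum fun i _ => ?_
    have h2 : KK m ^ 2 / 4 ≤ (x - sg1 m i) ^ 2 := by
      rw [← sq_abs (x - sg1 m i)]
      have := hx i
      nlinarith
    rw [div_le_div_iff₀ (by nlinarith) (by linarith), pp_sq]
    have h3 := sg1_le i
    have h4 := cc_le r i
    have h5 := cc_ge r i
    have h6 := sg1_ge i
    have hm : (0 : ℝ) ≤ m := Nat.cast_nonneg m
    calc cc r i * sg1 m i * KK m ≤ 8 * (KK m * m) * KK m := by
          apply mul_le_mul_of_nonneg_right _ (by linarith)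
          exact mul_le_mul h4 h3 (by linarith) (by norm_num)
      _ = 32 * m * (KK m ^ 2 / 4) := by ring
      _ ≤ _ := by apply mul_le_mul_of_nonneg_left h2; positivity
  rw [Finset.sum_const, Finset.card_univ, Fintype.card_fin, nsmul_eq_mul] at h1
  have h7 : (m : ℝ) * (32 * m / KK m) ≤ 1 := by
    rw [← mul_div_assoc, div_le_one (by linarith)]
    have := m2K m
    nlinarith
  unfold FF
  linarith

lemma FF_neg (r : ℕ) (i : Fin m) (x : ℝ) (h1 : x = sg1 m i - 1/2 ∨ x = sg1 m i + 1/2) :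
    FF (m := m) r x < 0 := by
  have hK := KK_ge m
  have h2 : pp r i ^ 2 / (x - sg1 m i) ^ 2 ≤ ∑ j : Fin m, pp r j ^ 2 / (x - sg1 m j) ^ 2 :=
    Finset.single_le_sum (f := fun j => pp r j ^ 2 / (x - sg1 m j) ^ 2)
      (fun j _ => by positivity) (Finset.mem_univ i)
  have h3 : (x - sg1 m i) ^ 2 = 1/4 := by
    rcases h1 with h | h <;> rw [h] <;> ring
  rw [h3, pp_sq] at h2
  have h5 := cc_ge r i
  have h6 := sg1_ge i
  have h7 : x ≤ sg1 m i + 1/2 := by rcases h1 with h | h <;> linarith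
  unfold FF
  nlinarith

lemma FF_zero_neg (r : ℕ) : FF (m := m) r 0 < 0 := by
  unfold FF
  have : 0 ≤ ∑ i : Fin m, pp r i ^ 2 / (0 - sg1 m i) ^ 2 :=
    Finset.sum_nonneg fun j _ => by positivity
  linarith

lemma FF_cont (r : ℕ) (s : Set ℝ) (hs : ∀ x ∈ s, ∀ i : Fin m, x ≠ sg1 m i) :
    ContinuousOn (FF (m := m) r) s := by
  unfold FF
  apply ContinuousOn.sub (by fun_prop)
  apply continuousOn_finsetSum
  intro i _
  apply ContinuousOn.div (by fun_prop) (by fun_prop)
  intro x hx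
  exact pow_ne_zero _ (sub_ne_zero.2 (hs x hx i))

/-- the code -/
def code : Option (Fin m × Bool) → ℕ
  | none => 0
  | some (i, false) => 2 * i.val + 1
  | some (i, true) => 2 * i.val + 2

lemma code_inj : Function.Injective (code (m := m)) := by
  intro x y h
  rcases x with _ | ⟨i, b⟩ <;> rcases y with _ | ⟨j, c⟩
  · rfl
  · cases c <;> simp [code] at h
  · cases b <;> simp [code] at h
  · cases b <;> cases c <;> simp only [code] at h
    · have : i = j := Fin.ext (by omega)
      rw [this]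
    · omega
    · omega
    · have : i = j := Fin.ext (by omega)
      rw [this]

lemma exists_a (r : ℕ) (k : Option (Fin m × Bool)) : ∃ a : ℝ,
    KK m * (code k : ℝ) / 2 < a ∧ a < KK m * ((code k : ℝ) + 1) / 2 ∧
    (∀ i : Fin m, a ≠ sg1 m i) ∧ FF (m := m) r a = 0 := by
  have hK := KK_ge m
  rcases k with _ | ⟨i, b⟩
  · have hne : ∀ x ∈ Set.Icc 0 (KK m / 2), ∀ i : Fin m, x ≠ sg1 m i := by
      intro x hx i h
      have := sg1_ge i
      have := hx.2
      linarith
    have hpos : 0 < FF (m := m) r (KK m / 2) := by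
      apply FF_pos r _ le_rfl
      intro i
      have := sg1_ge i
      rw [abs_sub_comm, abs_of_nonneg (by linarith)]
      linarith
    obtain ⟨a, ha, ha0⟩ := intermediate_value_Ioo (by linarith : (0 : ℝ) ≤ KK m / 2)
      (FF_cont r _ hne) ⟨FF_zero_neg r, hpos⟩
    refine ⟨a, ?_, ?_, fun i => hne a (Set.Ioo_subset_Icc_self ha) i, ha0⟩
    · simp only [code]; push_cast; have := ha.1; linarith
    · simp only [code]; push_cast; have := ha.2; linarith
  · have hs : sg1 m i = KK m * ((i.val : ℝ) + 1) := rfl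
    have hi0 : (0 : ℝ) ≤ i.val := Nat.cast_nonneg _
    cases b
    · have hne : ∀ x ∈ Set.Icc (sg1 m i - KK m / 2) (sg1 m i - 1/2), ∀ j : Fin m, x ≠ sg1 m j := by
        intro x hx j h
        by_cases hj : j = i
        · subst hj; have := hx.2; linarith
        · have h1 : |x - sg1 m i| ≤ KK m / 2 := by
            rw [abs_le]; have := hx.1; have := hx.2; constructor <;> linarith
          have h2 := far hj h1
          rw [h, sub_self, abs_zero] at h2
          linarith
      have hpos : 0 < FF (m := m) r (sg1 m i - KK m / 2) := by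
        apply FF_pos r
        · have := sg1_ge i; linarith
        intro j
        by_cases hj : j = i
        · subst hj; rw [sub_sub_cancel_left, abs_neg, abs_of_pos (by linarith)]
        · apply far hj
          rw [sub_sub_cancel_left, abs_neg, abs_of_pos (by linarith)]
      obtain ⟨a, ha, ha0⟩ := intermediate_value_Ioo' (by linarith : sg1 m i - KK m / 2 ≤ sg1 m i - 1/2)
        (FF_cont r _ hne) ⟨FF_neg r i _ (Or.inl rfl), hpos⟩
      refine ⟨a, ?_, ?_, fun i => hne a (Set.Ioo_subset_Icc_self ha) i, ha0⟩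
      · simp only [code]; push_cast; have := ha.1; rw [hs] at this; nlinarith
      · simp only [code]; push_cast; have := ha.2; rw [hs] at this; nlinarith
    · have hne : ∀ x ∈ Set.Icc (sg1 m i + 1/2) (sg1 m i + KK m / 2), ∀ j : Fin m, x ≠ sg1 m j := by
        intro x hx j h
        by_cases hj : j = i
        · subst hj; have := hx.1; linarith
        · have h1 : |x - sg1 m i| ≤ KK m / 2 := by
            rw [abs_le]; have := hx.1; have := hx.2; constructor <;> linarith
          have h2 := far hj h1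
          rw [h, sub_self, abs_zero] at h2
          linarith
      have hpos : 0 < FF (m := m) r (sg1 m i + KK m / 2) := by
        apply FF_pos r
        · have := sg1_ge i; linarith
        intro j
        by_cases hj : j = i
        · subst hj; rw [add_sub_cancel_left, abs_of_pos (by linarith)]
        · apply far hj
          rw [add_sub_cancel_left, abs_of_pos (by linarith)]
      obtain ⟨a, ha, ha0⟩ := intermediate_value_Ioo (by linarith : sg1 m i + 1/2 ≤ sg1 m i + KK m / 2)
        (FF_cont r _ hne) ⟨FF_neg r i _ (Or.inr rfl), hpos⟩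
      refine ⟨a, ?_, ?_, fun i => hne a (Set.Ioo_subset_Icc_self ha) i, ha0⟩
      · simp only [code]; push_cast; have := ha.1; rw [hs] at this; nlinarith
      · simp only [code]; push_cast; have := ha.2; rw [hs] at this; nlinarith

/-- the secular function in the variable `s`, `D = s ^ 2` -/
noncomputable def GG (r : ℕ) (s : ℝ) : ℝ := ∑ j : Fin m, pp r j ^ 2 / (s ^ 2 - sg1 m j ^ 2)

lemma sum_small (i : Fin m) (c : ℝ) (hc : 0 ≤ c) (f : Fin m → ℝ)
    (h : ∀ j, j ≠ i → |f j| ≤ c / KK m) : |∑ j ∈ univ.erase i, f j| ≤ c / 1000 := by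
  have hK := KK_ge m
  calc |∑ j ∈ univ.erase i, f j| ≤ ∑ j ∈ univ.erase i, |f j| := Finset.abs_sum_le_sum_abs _ _
    _ ≤ ∑ _j ∈ univ.erase i, c / KK m :=
        Finset.sum_le_sum fun j hj => h j (Finset.ne_of_mem_erase hj)
    _ ≤ ∑ _j : Fin m, c / KK m :=
        Finset.sum_le_sum_of_subset_of_nonneg (Finset.erase_subset _ _)
          (fun _ _ _ => by positivity)
    _ = m * (c / KK m) := by
        rw [Finset.sum_const, Finset.card_univ, Fintype.card_fin, nsmul_eq_mul]
    _ ≤ (KK m / 1000) * (c / KK m) := by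
        apply mul_le_mul_of_nonneg_right (mK m); positivity
    _ = c / 1000 := by field_simp

lemma est1 (r : ℕ) (i j : Fin m) (hj : j ≠ i) (s : ℝ) (h1 : sg1 m i ≤ s) (h2 : s ≤ sg1 m i + 5) :
    |pp r j ^ 2 / (s ^ 2 - sg1 m j ^ 2)| ≤ 16 / KK m ∧
    |pp r j ^ 2 / ((s - sg1 m j) ^ 2 * (s + sg1 m j))| ≤ 16 / KK m ∧
    |pp r j ^ 2 / ((s - sg1 m j) * (s + sg1 m j) ^ 2)| ≤ 16 / KK m := by
  have hK := KK_ge m
  have hi := sg1_ge i
  have hjg := sg1_ge j
  have hf := far hj (s := s) (by rw [abs_of_nonneg (by linarith)]; linarith)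
  have hc := cc_le r j
  have hc1 := cc_ge r j
  have hP : |pp r j ^ 2| ≤ 8 * sg1 m j := by
    rw [pp_sq, abs_of_nonneg (by nlinarith)]; nlinarith
  have hsum : 0 < s + sg1 m j := by linarith
  have hbase : 8 * sg1 m j * KK m ≤ 16 * ((KK m / 2) * (s + sg1 m j)) := by nlinarith
  have hK0 : (0 : ℝ) < KK m := by linarith
  have e1 : |s ^ 2 - sg1 m j ^ 2| = |s - sg1 m j| * (s + sg1 m j) := by
    rw [show s ^ 2 - sg1 m j ^ 2 = (s - sg1 m j) * (s + sg1 m j) by ring, abs_mul,
      abs_of_pos hsum]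
  have e2 : |(s - sg1 m j) ^ 2 * (s + sg1 m j)| = |s - sg1 m j| * (|s - sg1 m j| * (s + sg1 m j)) := by
    rw [abs_mul, abs_of_pos hsum, abs_pow]; ring
  have e3 : |(s - sg1 m j) * (s + sg1 m j) ^ 2| = (s + sg1 m j) * (|s - sg1 m j| * (s + sg1 m j)) := by
    rw [abs_mul, abs_pow, abs_of_pos hsum]; ring
  have hX : (KK m / 2) * (s + sg1 m j) ≤ |s - sg1 m j| * (s + sg1 m j) :=
    mul_le_mul_of_nonneg_right hf hsum.le
  have hXpos : 0 < |s - sg1 m j| * (s + sg1 m j) := by
    have : 0 < (KK m / 2) * (s + sg1 m j) := by positivity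
    linarith
  refine ⟨?_, ?_, ?_⟩
  · rw [abs_div, e1, div_le_div_iff₀ hXpos hK0]
    calc |pp r j ^ 2| * KK m ≤ 8 * sg1 m j * KK m := mul_le_mul_of_nonneg_right hP hK0.le
      _ ≤ 16 * ((KK m / 2) * (s + sg1 m j)) := hbase
      _ ≤ _ := by linarith
  · have hf1 : 1 ≤ |s - sg1 m j| := by linarith
    rw [abs_div, e2, div_le_div_iff₀ (by positivity) hK0]
    calc |pp r j ^ 2| * KK m ≤ 8 * sg1 m j * KK m := mul_le_mul_of_nonneg_right hP hK0.le
      _ ≤ 16 * ((KK m / 2) * (s + sg1 m j)) := hbase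
      _ ≤ 16 * (|s - sg1 m j| * (s + sg1 m j)) := by linarith
      _ ≤ 16 * (|s - sg1 m j| * (|s - sg1 m j| * (s + sg1 m j))) := by nlinarith
  · have hf1 : 1 ≤ s + sg1 m j := by linarith
    rw [abs_div, e3, div_le_div_iff₀ (by positivity) hK0]
    calc |pp r j ^ 2| * KK m ≤ 8 * sg1 m j * KK m := mul_le_mul_of_nonneg_right hP hK0.le
      _ ≤ 16 * ((KK m / 2) * (s + sg1 m j)) := hbase
      _ ≤ 16 * (|s - sg1 m j| * (s + sg1 m j)) := by linarith
      _ ≤ 16 * ((s + sg1 m j) * (|s - sg1 m j| * (s + sg1 m j))) := by nlinarith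

lemma GG_est (r : ℕ) (i : Fin m) (δ : ℝ) (h1 : 0 < δ) (h2 : δ ≤ 5) :
    |GG (m := m) r (sg1 m i + δ) - cc r i * sg1 m i / (δ * (2 * sg1 m i + δ))| ≤ 16 / 1000 := by
  have h := sum_small i 16 (by norm_num)
    (fun j => pp r j ^ 2 / ((sg1 m i + δ) ^ 2 - sg1 m j ^ 2))
    (fun j hj => (est1 r i j hj (sg1 m i + δ) (by linarith) (by linarith)).1)
  have h3 : GG (m := m) r (sg1 m i + δ) = pp r i ^ 2 / ((sg1 m i + δ) ^ 2 - sg1 m i ^ 2) +
      ∑ j ∈ univ.erase i, pp r j ^ 2 / ((sg1 m i + δ) ^ 2 - sg1 m j ^ 2) := by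
    rw [GG, Finset.add_sum_erase _ (fun j => pp r j ^ 2 / ((sg1 m i + δ) ^ 2 - sg1 m j ^ 2))
      (Finset.mem_univ i)]
  rw [h3, pp_sq, show (sg1 m i + δ) ^ 2 - sg1 m i ^ 2 = δ * (2 * sg1 m i + δ) by ring,
    add_sub_cancel_left]
  exact h

lemma exists_s (r : ℕ) (i : Fin m) (lo hi : ℝ) (h0 : 0 < lo) (h1 : lo < hi) (h2 : hi ≤ 5)
    (hlo : 1.1 ≤ cc r i * sg1 m i / (lo * (2 * sg1 m i + lo)))
    (hhi : cc r i * sg1 m i / (hi * (2 * sg1 m i + hi)) ≤ 0.9) :
    ∃ s : ℝ, sg1 m i + lo < s ∧ s < sg1 m i + hi ∧ GG (m := m) r s = 1 := by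
  have hK := KK_ge m
  have hi' := sg1_ge i
  have e1 := GG_est r i lo h0 (by linarith)
  have e2 := GG_est r i hi (by linarith) h2
  rw [abs_le] at e1 e2
  have hcont : ContinuousOn (GG (m := m) r) (Set.Icc (sg1 m i + lo) (sg1 m i + hi)) := by
    unfold GG
    apply continuousOn_finsetSum
    intro j _
    apply ContinuousOn.div (by fun_prop) (by fun_prop)
    intro x hx
    have hj := sg1_ge j
    have hne : x - sg1 m j ≠ 0 := by
      by_cases hji : j = i
      · subst hji; have := hx.1; intro h; linarith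
      · intro h
        have := far hji (s := x) (by
          rw [abs_of_nonneg (by linarith [hx.1])]; linarith [hx.2])
        rw [h, abs_zero] at this
        linarith
    have hne2 : x + sg1 m j ≠ 0 := by
      intro h; linarith [hx.1]
    have := mul_ne_zero hne hne2
    intro h
    apply this
    linear_combination h
  obtain ⟨s, hs, hs1⟩ := intermediate_value_Ioo' (by linarith : sg1 m i + lo ≤ sg1 m i + hi)
    hcont (show (1 : ℝ) ∈ Set.Ioo _ _ from ⟨by linarith [e2.2], by linarith [e1.1]⟩)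
  exact ⟨s, hs.1, hs.2, hs1⟩

lemma exists_s' (r : ℕ) (i : Fin m) : ∃ s : ℝ, sg1 m i < s ∧ s < sg1 m i + 5 ∧
    GG (m := m) r s = 1 ∧ (i.val < r → sg1 m i + 3 < s) ∧ (¬ i.val < r → s < sg1 m i + 3/4) := by
  have hK := KK_ge m
  have hi' := sg1_ge i
  by_cases h : i.val < r
  · have hc : cc r i = 8 := by unfold cc; rw [if_pos h]
    obtain ⟨s, h1, h2, h3⟩ := exists_s r i 3 5 (by norm_num) (by norm_num) le_rfl
      (by rw [hc, le_div_iff₀ (by linarith)]; linarith)
      (by rw [hc, div_le_iff₀ (by linarith)]; linarith)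
    exact ⟨s, by linarith, h2, h3, fun _ => h1, fun h' => absurd h h'⟩
  · have hc : cc r i = 1 := by unfold cc; rw [if_neg h]
    obtain ⟨s, h1, h2, h3⟩ := exists_s r i (1/4) (3/4) (by norm_num) (by norm_num) (by norm_num)
      (by rw [hc, le_div_iff₀ (by linarith)]; linarith)
      (by rw [hc, div_le_iff₀ (by linarith)]; linarith)
    exact ⟨s, by linarith, by linarith, h3, fun h' => absurd h' h, fun _ => h2⟩

theorem sol_sym (i0 : Fin m) (r : ℕ) (hr : r ≤ m) : ∃ σ p : Fin m → ℝ, (∀ i, 0 < σ i) ∧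
    (Sol σ p).ncard = 4 * m + 1 ∧ {z ∈ Sol σ p | IsReal z}.ncard = 2 * m + 1 + 2 * r := by
  classical
  have hK := KK_ge m
  have hposi : ∀ i : Fin m, 0 < sg1 m i := fun i => by have := sg1_ge i; linarith
  choose a ha1 ha2 ha3 ha4 using exists_a (m := m) r
  choose s hs1 hs2 hs3 hs4 hs5 using exists_s' (m := m) r
  have hainj : Function.Injective a := by
    intro x y h
    apply code_inj
    have h1 := ha1 x
    have h2 := ha2 x
    have h3 := ha1 y
    have h4 := ha2 y
    rw [h] at h1 h2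
    have e1 : (code x : ℝ) < code y + 1 := by
      have : KK m * (code x : ℝ) < KK m * (code y + 1) := by linarith
      exact lt_of_mul_lt_mul_left this (by linarith)
    have e2 : (code y : ℝ) < code x + 1 := by
      have : KK m * (code y : ℝ) < KK m * (code x + 1) := by linarith
      exact lt_of_mul_lt_mul_left this (by linarith)
    have e1' : code x < code y + 1 := by exact_mod_cast e1
    have e2' : code y < code x + 1 := by exact_mod_cast e2
    omega
  have hsn : ∀ i j, s i - sg1 m j ≠ 0 := by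
    intro i j
    by_cases hji : j = i
    · subst hji; have := hs1 j; intro h; linarith
    · intro h
      have := far hji (s := s i) (by
        rw [abs_of_nonneg (by linarith [hs1 i])]; linarith [hs2 i])
      rw [h, abs_zero] at this
      linarith
  have hsp : ∀ i j, s i + sg1 m j ≠ 0 := by
    intro i j h
    linarith [hs1 i, hposi i, hposi j]
  set W0 : Fin m → ℝ := fun i => ∑ j, pp r j ^ 2 / (s i ^ 2 - sg1 m j ^ 2) ^ 2 with hW0
  set W1 : Fin m → ℝ := fun i => ∑ j, pp r j ^ 2 * sg1 m j / (s i ^ 2 - sg1 m j ^ 2) ^ 2 with hW1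
  have hsq : ∀ i j, s i ^ 2 - sg1 m j ^ 2 ≠ 0 := by
    intro i j h
    have := mul_ne_zero (hsn i j) (hsp i j)
    apply this
    linear_combination h
  have hW0pos : ∀ i, 0 < W0 i := by
    intro i
    apply Finset.sum_pos
    · intro j _
      have := pp_ne r j
      have := hsq i j
      positivity
    · exact ⟨i0, Finset.mem_univ _⟩
  have hX1 : ∀ i, W1 i + s i * W0 i = ∑ j, pp r j ^ 2 / ((s i - sg1 m j) ^ 2 * (s i + sg1 m j)) := by
    intro i
    simp only [hW0, hW1]
    rw [Finset.mul_sum, ← Finset.sum_add_distrib]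
    refine Finset.sum_congr rfl fun j _ => ?_
    have h1 := hsn i j
    have h2 := hsp i j
    rw [show s i ^ 2 - sg1 m j ^ 2 = (s i - sg1 m j) * (s i + sg1 m j) by ring]
    field_simp
    ring
  have hX2 : ∀ i, s i * W0 i - W1 i = ∑ j, pp r j ^ 2 / ((s i - sg1 m j) * (s i + sg1 m j) ^ 2) := by
    intro i
    simp only [hW0, hW1]
    rw [Finset.mul_sum, ← Finset.sum_sub_distrib]
    refine Finset.sum_congr rfl fun j _ => ?_
    have h1 := hsn i j
    have h2 := hsp i j
    rw [show s i ^ 2 - sg1 m j ^ 2 = (s i - sg1 m j) * (s i + sg1 m j) by ring]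
    field_simp
  have hE : ∀ i, (((1 - 2 * W1 i) / W0 i) ^ 2 - 4 * s i ^ 2) * W0 i ^ 2 =
      (1 - 2 * (W1 i + s i * W0 i)) * (1 + 2 * (s i * W0 i - W1 i)) := by
    intro i
    have := (hW0pos i).ne'
    field_simp
    ring
  have hsm1 : ∀ i, |∑ j ∈ univ.erase i, pp r j ^ 2 / ((s i - sg1 m j) ^ 2 * (s i + sg1 m j))| ≤
      16 / 1000 := fun i => sum_small i 16 (by norm_num) _
        (fun j hj => (est1 r i j hj (s i) (hs1 i).le (hs2 i).le).2.1)
  have hsm2 : ∀ i, |∑ j ∈ univ.erase i, pp r j ^ 2 / ((s i - sg1 m j) * (s i + sg1 m j) ^ 2)| ≤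
      16 / 1000 := fun i => sum_small i 16 (by norm_num) _
        (fun j hj => (est1 r i j hj (s i) (hs1 i).le (hs2 i).le).2.2)
  have hB : ∀ i, 0 < 1 + 2 * (s i * W0 i - W1 i) := by
    intro i
    rw [hX2, ← Finset.add_sum_erase _ _ (Finset.mem_univ i)]
    have h1 := hsm2 i
    rw [abs_le] at h1
    have h2 : 0 ≤ pp r i ^ 2 / ((s i - sg1 m i) * (s i + sg1 m i) ^ 2) := by
      have := hs1 i
      have h3 : 0 < s i - sg1 m i := by linarith
      positivity
    linarith [h1.1]
  have hA1 : ∀ i : Fin m, i.val < r → 0 < 1 - 2 * (W1 i + s i * W0 i) := by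
    intro i hi
    rw [hX1, ← Finset.add_sum_erase _ _ (Finset.mem_univ i)]
    have h1 := hsm1 i
    rw [abs_le] at h1
    have hc : cc r i = 8 := by unfold cc; rw [if_pos hi]
    have h3 := hs4 i hi
    have h4 := sg1_ge i
    have h2 : pp r i ^ 2 / ((s i - sg1 m i) ^ 2 * (s i + sg1 m i)) ≤ 4/9 := by
      have h5 : 9 ≤ (s i - sg1 m i) ^ 2 := by nlinarith
      have h6 : 0 < s i + sg1 m i := by linarith
      rw [pp_sq, hc, div_le_div_iff₀ (by positivity) (by norm_num)]
      nlinarith [mul_le_mul_of_nonneg_right h5 h6.le]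
    linarith [h1.2]
  have hA2 : ∀ i : Fin m, ¬ i.val < r → 1 - 2 * (W1 i + s i * W0 i) < 0 := by
    intro i hi
    rw [hX1, ← Finset.add_sum_erase _ _ (Finset.mem_univ i)]
    have h1 := hsm1 i
    rw [abs_le] at h1
    have hc : cc r i = 1 := by unfold cc; rw [if_neg hi]
    have h3 := hs5 i hi
    have h3' := hs1 i
    have h4 := sg1_ge i
    have h2 : 0.6 ≤ pp r i ^ 2 / ((s i - sg1 m i) ^ 2 * (s i + sg1 m i)) := by
      have h5 : (s i - sg1 m i) ^ 2 ≤ 9/16 := by nlinarith
      have h5' : 0 < (s i - sg1 m i) ^ 2 := by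
        have : 0 < s i - sg1 m i := by linarith
        positivity
      have h6 : 0 < s i + sg1 m i := by linarith
      rw [pp_sq, hc, le_div_iff₀ (by positivity)]
      nlinarith [mul_le_mul_of_nonneg_right h5 h6.le]
    linarith [h1.1]
  have hEpos : ∀ i : Fin m, i.val < r → 0 < ((1 - 2 * W1 i) / W0 i) ^ 2 - 4 * s i ^ 2 := by
    intro i hi
    have h1 := mul_pos (hA1 i hi) (hB i)
    rw [← hE] at h1
    have h2 : 0 < W0 i ^ 2 := by have := hW0pos i; positivity
    exact (pos_iff_pos_of_mul_pos h1).2 h2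
  have hEneg : ∀ i : Fin m, ¬ i.val < r → ((1 - 2 * W1 i) / W0 i) ^ 2 - 4 * s i ^ 2 < 0 := by
    intro i hi
    have h1 := mul_neg_of_neg_of_pos (hA2 i hi) (hB i)
    rw [← hE] at h1
    have h2 : 0 < W0 i ^ 2 := by have := hW0pos i; positivity
    by_contra hcon
    push Not at hcon
    have := mul_nonneg hcon h2.le
    linarith
  have main := count_sym i0 (sg1 m) (pp r) sg1_inj hposi (pp_ne r) a hainj ha3
    (fun k => by have := ha4 k; unfold FF at this; linarith)
    (fun i => s i ^ 2) (fun i => (1 - 2 * W1 i) / W0 i)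
    (by
      intro i j h
      have h' : s i ^ 2 = s j ^ 2 := h
      have p1 := hs1 i
      have p2 := hs1 j
      have p3 := hposi i
      have p4 := hposi j
      have h1 : s i = s j := by nlinarith
      by_contra hne
      have := sg1_sep i j (Ne.symm hne)
      rcases abs_cases (sg1 m i - sg1 m j) with h2 | h2 <;> linarith [hs2 i, hs2 j, h2.1])
    (fun i j h => hsq i j (by linarith))
    (fun i => (hs3 i).symm)
    (fun i => by
      have := (hW0pos i).ne'
      show (1 - 2 * W1 i) / W0 i * W0 i + 2 * W1 i = 1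
      rw [div_mul_cancel₀ _ this]; ring)
    (fun i => by
      by_cases hi : i.val < r
      · exact (hEpos i hi).ne'
      · exact (hEneg i hi).ne)
  refine ⟨sg1 m, pp r, hposi, main.1, ?_⟩
  rw [main.2]
  have hfil : (univ.filter fun i : Fin m => 0 < ((1 - 2 * W1 i) / W0 i) ^ 2 - 4 * s i ^ 2) =
      univ.image (Fin.castLE hr) := by
    ext i
    simp only [Finset.mem_filter, Finset.mem_univ, true_and, Finset.mem_image]
    constructor
    · intro h
      by_cases hi : i.val < r
      · exact ⟨⟨i.val, hi⟩, rfl⟩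
      · have := hEneg i hi; linarith
    · rintro ⟨j, rfl⟩
      exact hEpos _ j.isLt
  rw [hfil, Finset.card_image_of_injective _ (Fin.castLE_injective hr), Finset.card_univ,
    Fintype.card_fin]

end Pool.Agent.Helper543.ED
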