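import Mathlib

/-! Frames orthogonal to the all-ones vector. -/

namespace Pool.Agent.Helper543.EDFrame

open Finset

/-- a frame -/
lemma exists_frame (n : ℕ) : ∃ e : Fin n → Fin (n + 1) → ℝ,
    (∀ i, ∑ t, e i t = 0) ∧
    (∀ i j, ∑ t, e i t * e j t = if i = j then 1 / ((n : ℝ) + 1) else 0) ∧
    (∀ s t, ∑ i, e i s * e i t = (if s = t then 1 / ((n : ℝ) + 1) else 0) - 1 / ((n : ℝ) + 1) ^ 2) := by
  classical
  have hn : (0 : ℝ) < (n : ℝ) + 1 := by positivity
  let E := EuclideanSpace ℝ (Fin (n + 1))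
  have : Fact (Module.finrank ℝ E = n + 1) := ⟨by simp [E]⟩
  let v : E := WithLp.toLp 2 (fun _ => (1 : ℝ))
  have hv : v ≠ 0 := by
    intro h
    have := congrArg (fun w : E => w 0) h
    simp [v] at this
  let B := OrthonormalBasis.fromOrthogonalSpanSingleton (𝕜 := ℝ) n hv
  let b : Fin n → Fin (n + 1) → ℝ := fun i t => (B i : E) t
  have hb0 : ∀ i, ∑ t, b i t = 0 := by
    intro i
    have h1 : inner ℝ v (B i : E) = 0 := by
      have := (B i).2
      rw [Submodule.mem_orthogonal_singleton_iff_inner_right] at this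
      exact this
    rw [PiLp.inner_apply] at h1
    simpa [v, b] using h1
  have hbb : ∀ i j, ∑ t, b i t * b j t = if i = j then 1 else 0 := by
    intro i j
    have h1 := B.orthonormal
    rw [orthonormal_iff_ite] at h1
    have h2 := h1 j i
    rw [Submodule.coe_inner, PiLp.inner_apply] at h2
    have h3 : ∑ t, b i t * b j t = if j = i then 1 else 0 := by
      rw [← h2]
      refine Finset.sum_congr rfl fun t _ => ?_
      simp [b]
    rw [h3]
    by_cases h : i = j
    · subst h; simp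
    · simp [h, Ne.symm h]
  have hsq : Real.sqrt ((n : ℝ) + 1) ^ 2 = (n : ℝ) + 1 := Real.sq_sqrt hn.le
  have hs0 : Real.sqrt ((n : ℝ) + 1) ≠ 0 := (Real.sqrt_pos.2 hn).ne'
  let O : Matrix (Fin (n + 1)) (Fin (n + 1)) ℝ :=
    fun i => Fin.cases (fun _ => 1 / Real.sqrt ((n : ℝ) + 1)) (fun j => b j) i
  have hO : O * O.transpose = 1 := by
    ext i j
    rw [Matrix.mul_apply]
    simp only [Matrix.transpose_apply]
    refine Fin.cases ?_ (fun i' => ?_) i <;> refine Fin.cases ?_ (fun j' => ?_) j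
    · simp only [O, Fin.cases_zero, Matrix.one_apply_eq, Finset.sum_const, Finset.card_univ,
        Fintype.card_fin, nsmul_eq_mul]
      push_cast
      field_simp
      exact hsq.symm
    · simp only [O, Fin.cases_zero, Fin.cases_succ]
      rw [← Finset.mul_sum, hb0, mul_zero, Matrix.one_apply_ne (Fin.succ_ne_zero _).symm]
    · simp only [O, Fin.cases_zero, Fin.cases_succ]
      rw [← Finset.sum_mul, hb0, zero_mul, Matrix.one_apply_ne (Fin.succ_ne_zero _)]
    · simp only [O, Fin.cases_succ]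
      rw [hbb, Matrix.one_apply]
      simp only [Fin.succ_inj]
  have hO' : O.transpose * O = 1 := mul_eq_one_comm.1 hO
  refine ⟨fun i t => b i t / Real.sqrt ((n : ℝ) + 1), ?_, ?_, ?_⟩
  · intro i
    rw [← Finset.sum_div, hb0, zero_div]
  · intro i j
    have : ∑ t, b i t / Real.sqrt ((n : ℝ) + 1) * (b j t / Real.sqrt ((n : ℝ) + 1)) =
        (∑ t, b i t * b j t) / ((n : ℝ) + 1) := by
      rw [Finset.sum_div]
      refine Finset.sum_congr rfl fun t _ => ?_
      rw [div_mul_div_comm, ← sq, hsq]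
    rw [this, hbb]
    split_ifs <;> simp
  · intro s t
    have h1 : (1 / Real.sqrt ((n : ℝ) + 1)) * (1 / Real.sqrt ((n : ℝ) + 1)) +
        ∑ i, b i s * b i t = (1 : Matrix (Fin (n + 1)) (Fin (n + 1)) ℝ) s t := by
      have h := congrFun (congrFun hO' s) t
      rw [Matrix.mul_apply, Fin.sum_univ_succ] at h
      exact h
    have : ∑ i, b i s / Real.sqrt ((n : ℝ) + 1) * (b i t / Real.sqrt ((n : ℝ) + 1)) =
        (∑ i, b i s * b i t) / ((n : ℝ) + 1) := by
      rw [Finset.sum_div]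
      refine Finset.sum_congr rfl fun t _ => ?_
      rw [div_mul_div_comm, ← sq, hsq]
    rw [this]
    have h2 : ∑ i, b i s * b i t = (if s = t then 1 else 0) - 1 / ((n : ℝ) + 1) := by
      rw [Matrix.one_apply] at h1
      rw [div_mul_div_comm, one_mul, ← sq, hsq] at h1
      linarith
    rw [h2]
    split_ifs
    · field_simp
    · field_simp; ring

section frame

variable {n : ℕ} (e : Fin n → Fin (n + 1) → ℝ)

/-- the vector with coordinates `U` -/
noncomputable def uu (U : Fin n → ℂ) (s : Fin (n + 1)) : ℂ := 1 / ((n : ℂ) + 1) + ∑ i, U i * e i s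

variable (he0 : ∀ i, ∑ t, e i t = 0)
  (hee : ∀ i j, ∑ t, e i t * e j t = if i = j then 1 / ((n : ℝ) + 1) else 0)
  (hcc : ∀ s t, ∑ i, e i s * e i t =
    (if s = t then 1 / ((n : ℝ) + 1) else 0) - 1 / ((n : ℝ) + 1) ^ 2)

include he0 in
lemma he0c (i : Fin n) : ∑ t, (e i t : ℂ) = 0 := by
  rw [← Complex.ofReal_sum, he0]; simp

include hee in
lemma heec (i j : Fin n) : ∑ t, (e i t : ℂ) * e j t = if i = j then 1 / ((n : ℂ) + 1) else 0 := by
  have h := hee i j
  have h2 : ∑ t, (e i t : ℂ) * e j t = ((∑ t, e i t * e j t : ℝ) : ℂ) := by push_cast; rfl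
  rw [h2, h]
  split_ifs <;> push_cast <;> rfl

include hcc in
lemma hccc (s t : Fin (n + 1)) : ∑ i, (e i s : ℂ) * e i t =
    (if s = t then 1 / ((n : ℂ) + 1) else 0) - 1 / ((n : ℂ) + 1) ^ 2 := by
  have h := hcc s t
  have h2 : ∑ i, (e i s : ℂ) * e i t = ((∑ i, e i s * e i t : ℝ) : ℂ) := by push_cast; rfl
  rw [h2, h]
  split_ifs <;> push_cast <;> rfl

include he0 in
lemma sum_uu (U : Fin n → ℂ) : ∑ s, uu e U s = 1 := by
  have hn : ((n : ℂ) + 1) ≠ 0 := Nat.cast_add_one_ne_zero n
  simp only [uu, Finset.sum_add_distrib, Finset.sum_const, Finset.card_univ, Fintype.card_fin,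
    nsmul_eq_mul]
  rw [Finset.sum_comm]
  simp only [← Finset.mul_sum, he0c e he0, mul_zero, Finset.sum_const_zero, add_zero]
  push_cast
  field_simp

include he0 hee in
lemma uu_dot (U : Fin n → ℂ) (i : Fin n) : ∑ s, uu e U s * e i s = U i / ((n : ℂ) + 1) := by
  simp only [uu, add_mul, Finset.sum_add_distrib, ← Finset.mul_sum, he0c e he0, mul_zero, zero_add]
  simp only [Finset.sum_mul]
  rw [Finset.sum_comm]
  simp only [mul_assoc, ← Finset.mul_sum, heec e hee]
  rw [Finset.sum_eq_single i]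
  · simp; ring
  · intro b _ hb; simp [hb]
  · intro h; exact absurd (Finset.mem_univ _) h

include he0 hee in
lemma uu_sq (U : Fin n → ℂ) : ∑ s, uu e U s * uu e U s = (1 + ∑ i, U i ^ 2) / ((n : ℂ) + 1) := by
  have h1 : ∀ s, uu e U s * uu e U s =
      uu e U s * (1 / ((n : ℂ) + 1)) + ∑ i, U i * (uu e U s * e i s) := by
    intro s
    nth_rewrite 2 [uu]
    rw [mul_add, Finset.mul_sum]
    congr 1
    refine Finset.sum_congr rfl fun i _ => ?_
    ring
  rw [Finset.sum_congr rfl fun s _ => h1 s, Finset.sum_add_distrib, ← Finset.sum_mul, sum_uu e he0,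
    Finset.sum_comm]
  simp only [← Finset.mul_sum, uu_dot e he0 hee]
  rw [add_div, Finset.sum_div]
  congr 1
  · ring
  · refine Finset.sum_congr rfl fun i _ => ?_
    ring

include hcc in
lemma span0 (u : Fin (n + 1) → ℂ) (s : Fin (n + 1)) :
    ∑ i, (((n : ℂ) + 1) * ∑ t, e i t * u t) * e i s = u s - (∑ t, u t) / ((n : ℂ) + 1) := by
  have hn : ((n : ℂ) + 1) ≠ 0 := Nat.cast_add_one_ne_zero n
  have h1 : ∑ i, (((n : ℂ) + 1) * ∑ t, (e i t : ℂ) * u t) * e i s =
      ((n : ℂ) + 1) * ∑ t, (∑ i, (e i t : ℂ) * e i s) * u t := by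
    simp only [Finset.mul_sum, Finset.sum_mul]
    rw [Finset.sum_comm]
    refine Finset.sum_congr rfl fun t _ => Finset.sum_congr rfl fun i _ => ?_
    ring
  rw [h1]
  simp only [hccc e hcc, sub_mul, Finset.sum_sub_distrib, ← Finset.mul_sum, ite_mul, zero_mul,
    Finset.sum_ite_eq', Finset.mem_univ, if_true]
  field_simp

include hcc in
lemma exists_uu (u : Fin (n + 1) → ℂ) (hu : ∑ t, u t = 1) : ∃ U, u = uu e U := by
  refine ⟨fun i => ((n : ℂ) + 1) * ∑ t, e i t * u t, ?_⟩
  ext s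
  rw [uu, span0 e hcc u s, hu]
  ring

include he0 hcc in
lemma test_iff (φ : (Fin (n + 1) → ℂ) → ℂ) (hadd : ∀ x y, φ (x + y) = φ x + φ y)
    (hsm : ∀ (c : ℂ) x, φ (c • x) = c * φ x) :
    (∀ u' : Fin (n + 1) → ℂ, (∑ t, u' t) = 0 → φ u' = 0) ↔ ∀ i, φ (fun s => (e i s : ℂ)) = 0 := by
  constructor
  · intro h i
    exact h _ (he0c e he0 i)
  · intro h u' hu'
    have h1 : u' = ∑ i, (((n : ℂ) + 1) * ∑ t, e i t * u' t) • (fun s => (e i s : ℂ)) := by
      ext s
      rw [Finset.sum_apply]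
      simp only [Pi.smul_apply, smul_eq_mul]
      rw [span0 e hcc u' s, hu', zero_div, sub_zero]
    have hsum : ∀ (S : Finset (Fin n)) (c : Fin n → ℂ),
        φ (∑ i ∈ S, c i • (fun s => (e i s : ℂ))) = ∑ i ∈ S, c i * φ (fun s => (e i s : ℂ)) := by
      classical
      intro S c
      induction S using Finset.induction_on with
      | empty =>
        have := hsm 0 0
        simpa using this
      | insert a S ha ih => rw [Finset.sum_insert ha, Finset.sum_insert ha, hadd, hsm, ih]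
    rw [h1, hsum]
    exact Finset.sum_eq_zero fun i _ => by rw [h i, mul_zero]

end frame

end Pool.Agent.Helper543.EDFrame
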