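import Pool.Agent.Helper543.NearDecLower

set_option autoImplicit false

namespace Pool.Agent.Helper543.NearDec

open Finset Filter

/-- lower bound with `h` hubs -/
theorem N_ge' {n h : ℕ} (h1 : 1 ≤ h) (h3 : 3 * h ≤ n) :
    (n - h).factorial * h ^ (2 * (n - 3 * h)) ≤ N n := by
  have : NeZero h := ⟨by omega⟩
  have := N_ge (h := h) (m' := n - 3 * h)
  have e1 : 2 * h + (n - 3 * h) = n - h := by omega
  have e2 : 3 * h + (n - 3 * h) = n := by omega
  rwa [e1, e2] at this

theorem log_factorial_ge (m : ℕ) (hm : 1 ≤ m) :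
    (m : ℝ) * (Real.log m - 1) ≤ Real.log (m.factorial : ℝ) := by
  have h1 := Real.pow_div_factorial_le_exp (m : ℝ) (Nat.cast_nonneg m) m
  have hm0 : (0 : ℝ) < m := by exact_mod_cast hm
  have hf : (0 : ℝ) < (m.factorial : ℝ) := by exact_mod_cast Nat.factorial_pos m
  have h2 := Real.log_le_log (by positivity) h1
  rw [Real.log_exp, Real.log_div (by positivity) hf.ne', Real.log_pow] at h2
  linarith

theorem lower_log {n K : ℕ} (hK : 8 ≤ K) (hn : 2 * K ≤ n)
    (hlog : Real.log (2 * K) ≤ Real.log n) (hlog2 : 2 ≤ Real.log n) :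
    (n : ℝ) * Real.log n * (3 - 7 / K) - n * (2 + 2 * Real.log (2 * K)) ≤ Real.log (N n) := by
  set h := n / K with hh
  have hK0 : 0 < K := by omega
  have hh1 : 1 ≤ h := by
    rw [hh]; exact (Nat.one_le_div_iff hK0).2 (by omega)
  have hhK : h * K ≤ n := Nat.div_mul_le_self n K
  have hh2 : n < (h + 1) * K := by
    rw [hh]
    have := Nat.lt_mul_div_succ n hK0
    linarith [Nat.mul_comm K (n / K + 1)]
  have h3 : 3 * h ≤ n := by nlinarith
  have hN := N_ge' hh1 h3
  have hKr : (8 : ℝ) ≤ K := by exact_mod_cast hK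
  have hn0 : (0 : ℝ) < n := by
    have : 0 < n := by omega
    exact_mod_cast this
  have hhr1 : (h : ℝ) * K ≤ n := by exact_mod_cast hhK
  have hhr2 : (n : ℝ) ≤ (h + 1) * K := by exact_mod_cast hh2.le
  have hh0 : (1 : ℝ) ≤ h := by exact_mod_cast hh1
  have hhlow : (n : ℝ) ≤ h * (2 * K) := by nlinarith
  have hhup : (h : ℝ) ≤ n / K := by rw [le_div_iff₀ (by linarith)]; exact hhr1
  have hm1 : 1 ≤ n - h := by omega
  have hmr : ((n - h : ℕ) : ℝ) = n - h := by rw [Nat.cast_sub (by omega)]
  have hmr3 : ((n - 3 * h : ℕ) : ℝ) = n - 3 * h := by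
    rw [Nat.cast_sub h3]; push_cast; ring
  have hlogm : Real.log n - 1 ≤ Real.log ((n - h : ℕ) : ℝ) := by
    rw [hmr]
    have e1 : (n : ℝ) / 2 ≤ n - h := by
      have : (h : ℝ) * 8 ≤ h * K := by gcongr
      linarith
    have e2 := Real.log_le_log (by positivity) e1
    rw [Real.log_div hn0.ne' (by norm_num)] at e2
    have e3 := Real.log_two_lt_d9
    linarith
  have hlogh : Real.log n - Real.log (2 * K) ≤ Real.log h := by
    have e1 := Real.log_le_log hn0 hhlow
    rw [Real.log_mul (by positivity) (by positivity)] at e1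
    linarith
  have hNr : (((n - h).factorial : ℕ) : ℝ) * (h : ℝ) ^ (2 * (n - 3 * h)) ≤ (N n : ℝ) := by
    exact_mod_cast hN
  have hpos : (0 : ℝ) < (((n - h).factorial : ℕ) : ℝ) * (h : ℝ) ^ (2 * (n - 3 * h)) := by
    have : (0 : ℝ) < (((n - h).factorial : ℕ) : ℝ) := by exact_mod_cast Nat.factorial_pos _
    positivity
  have hl := Real.log_le_log hpos hNr
  rw [Real.log_mul (by exact_mod_cast (Nat.factorial_pos _).ne') (by positivity),
    Real.log_pow] at hl
  have hf := log_factorial_ge (n - h) hm1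
  push_cast at hl
  rw [hmr3] at hl
  rw [hmr] at hf hlogm
  have hA : (n : ℝ) * (1 - 1 / K) * (Real.log n - 2) ≤ ((n : ℝ) - h) * (Real.log (n - h) - 1) := by
    apply mul_le_mul
    · have : (n : ℝ) * (1 - 1 / K) = n - n / K := by ring
      rw [this]; linarith
    · linarith
    · linarith
    · have : (h : ℝ) * 8 ≤ h * K := by gcongr
      linarith
  have hB : (n : ℝ) * (1 - 3 / K) * (Real.log n - Real.log (2 * K)) ≤
      ((n : ℝ) - 3 * h) * Real.log h := by
    apply mul_le_mul
    · have : (n : ℝ) * (1 - 3 / K) = n - 3 * (n / K) := by ring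
      rw [this]; linarith
    · exact hlogh
    · linarith
    · have : (h : ℝ) * 8 ≤ h * K := by gcongr
      linarith
  have hlogK : 0 ≤ Real.log (2 * K) := Real.log_nonneg (by linarith)
  have hC : (n : ℝ) * Real.log n * (3 - 7 / K) - n * (2 + 2 * Real.log (2 * K)) ≤
      (n : ℝ) * (1 - 1 / K) * (Real.log n - 2) +
        2 * ((n : ℝ) * (1 - 3 / K) * (Real.log n - Real.log (2 * K))) := by
    have e1 : (n : ℝ) * (1 - 1 / K) * (Real.log n - 2) +
        2 * ((n : ℝ) * (1 - 3 / K) * (Real.log n - Real.log (2 * K))) -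
        ((n : ℝ) * Real.log n * (3 - 7 / K) - n * (2 + 2 * Real.log (2 * K))) =
        n * (2 / K + 6 * Real.log (2 * K) / K) := by
      field_simp
      ring
    have e2 : 0 ≤ (n : ℝ) * (2 / K + 6 * Real.log (2 * K) / K) := by positivity
    linarith
  calc _ ≤ _ := hC
    _ ≤ ((n : ℝ) - h) * (Real.log (n - h) - 1) + 2 * (((n : ℝ) - 3 * h) * Real.log h) := by
        linarith
    _ ≤ Real.log (((n - h).factorial : ℕ) : ℝ) + 2 * (n - 3 * h) * Real.log h := by
        linarith
    _ ≤ _ := hl

theorem upper_log {n : ℕ} (hn : 2 ≤ n) : Real.log (N n) ≤ 3 * (n * Real.log n) := by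
  have h1 := N_le hn
  have hn0 : (0 : ℝ) < n := by
    have : 0 < n := by omega
    exact_mod_cast this
  have hl0 : 0 ≤ Real.log n := Real.log_natCast_nonneg n
  rcases Nat.eq_zero_or_pos (N n) with h0 | h0
  · rw [h0, Nat.cast_zero, Real.log_zero]; positivity
  have h2 : N n ≤ n ^ (3 * n) := by
    calc N n ≤ n.factorial * n ^ (2 * (n - 1)) := h1
      _ ≤ n ^ n * n ^ (2 * n) := by
          apply Nat.mul_le_mul (Nat.factorial_le_pow n)
          exact Nat.pow_le_pow_right (by omega) (by omega)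
      _ = n ^ (3 * n) := by rw [← pow_add]; congr 1; ring
  have h3 : (N n : ℝ) ≤ (n : ℝ) ^ (3 * n) := by exact_mod_cast h2
  have h4 := Real.log_le_log (by exact_mod_cast h0) h3
  rw [Real.log_pow] at h4
  push_cast at h4
  linarith

theorem tendsto_three :
    Tendsto (fun n : ℕ => Real.log (N n) / (n * Real.log n)) atTop (nhds 3) := by
  have hlog : Tendsto (fun n : ℕ => Real.log (n : ℝ)) atTop atTop :=
    Real.tendsto_log_atTop.comp tendsto_natCast_atTop_atTop
  rw [tendsto_order]
  constructor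
  · intro a' ha'
    obtain ⟨K, hK⟩ := exists_nat_gt (max 8 (14 / (3 - a')))
    have hK8 : (8 : ℝ) < K := lt_of_le_of_lt (le_max_left _ _) hK
    have hK14 : 14 / (3 - a') < K := lt_of_le_of_lt (le_max_right _ _) hK
    have hd : 0 < 3 - a' := by linarith
    have hK7 : 7 / (K : ℝ) < (3 - a') / 2 := by
      rw [div_lt_iff₀ hd] at hK14
      rw [div_lt_div_iff₀ (by linarith) (by norm_num)]
      linarith
    have hK8' : 8 ≤ K := by exact_mod_cast hK8.le
    filter_upwards [eventually_ge_atTop (2 * K),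
      hlog.eventually_ge_atTop (Real.log (2 * K)), hlog.eventually_ge_atTop 2,
      hlog.eventually_gt_atTop ((2 + 2 * Real.log (2 * K)) / ((3 - a') / 2))] with n h1 h2 h3 h4
    have hn0 : (0 : ℝ) < n := by
      have : 0 < n := by omega
      exact_mod_cast this
    have hl0 : 0 < Real.log n := by linarith
    rw [lt_div_iff₀ (by positivity)]
    refine lt_of_lt_of_le ?_ (lower_log hK8' h1 h2 h3)
    rw [div_lt_iff₀ (by linarith)] at h4
    have e1 : (n : ℝ) * (2 + 2 * Real.log (2 * K)) < n * (Real.log n * ((3 - a') / 2)) :=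
      mul_lt_mul_of_pos_left h4 hn0
    have e2 : (n : ℝ) * Real.log n * (7 / K) ≤ n * Real.log n * ((3 - a') / 2) := by
      gcongr
    nlinarith
  · intro a' ha'
    filter_upwards [eventually_ge_atTop 2, hlog.eventually_ge_atTop 1] with n h1 h2
    have hn0 : (0 : ℝ) < n := by
      have : 0 < n := by omega
      exact_mod_cast this
    have hl0 : 0 < Real.log n := by linarith
    rw [div_lt_iff₀ (by positivity)]
    have := upper_log h1
    have : 3 * (n * Real.log n) < a' * (n * Real.log n) := by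
      apply mul_lt_mul_of_pos_right ha'
      positivity
    linarith

end Pool.Agent.Helper543.NearDec
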