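import Pool.Agent.Helper543.NearDecUpper

set_option autoImplicit false

namespace Pool.Agent.Helper543.NearDec

open Finset

section Reindex

variable {I I' : Type} [Fintype I] [Fintype I'] [DecidableEq I] [DecidableEq I']

omit [DecidableEq I] [DecidableEq I'] in
theorem fi_reindex (e : I ≃ I') {A : I' → I' → Bool} (h : FullyIndec A) :
    FullyIndec (fun i j => A (e i) (e j)) := by
  classical
  refine ⟨fun h1 i j => h.1 (by rw [← h1]; exact (Fintype.card_congr e).symm) _ _, ?_⟩
  rintro ⟨S, T, hS, hT, hc, hz⟩
  refine h.2 ⟨S.map e.toEmbedding, T.map e.toEmbedding, hS.map, hT.map, ?_, ?_⟩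
  · rw [card_map, card_map, hc]; exact Fintype.card_congr e
  · intro i hi j hj
    obtain ⟨i', hi', rfl⟩ := mem_map.1 hi
    obtain ⟨j', hj', rfl⟩ := mem_map.1 hj
    exact hz i' hi' j' hj'

theorem near_reindex (e : I ≃ I') {A : I' → I' → Bool} (h : NearlyDec A) :
    NearlyDec (fun i j => A (e i) (e j)) := by
  classical
  refine ⟨fi_reindex e h.1, ?_⟩
  intro i j hij hF
  refine h.2 (e i) (e j) hij ?_
  have h1 := fi_reindex e.symm hF
  have h2 : setZero A (e i) (e j) = fun a b =>
      setZero (fun i j => A (e i) (e j)) i j (e.symm a) (e.symm b) := by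
    funext a b
    simp only [setZero, Equiv.apply_symm_apply]
    have e1 : (a = e i ∧ b = e j) ↔ (e.symm a = i ∧ e.symm b = j) := by
      rw [Equiv.symm_apply_eq, Equiv.symm_apply_eq]
    by_cases hc : a = e i ∧ b = e j
    · rw [if_pos hc, if_pos (e1.1 hc)]
    · rw [if_neg hc, if_neg (fun h => hc (e1.2 h))]
  rw [h2]
  exact h1

end Reindex

section Constr

variable {h m' : ℕ}

/-- index set of the paths -/
abbrev P (h m' : ℕ) : Type := Fin h ⊕ (Fin h ⊕ Fin m')

/-- row hub at the end of a path -/
def ra (a : Fin m' → Fin h) : P h m' → Fin h :=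
  Sum.elim id (Sum.elim id a)

/-- column hub at the end of a path -/
def cb [NeZero h] (b : Fin m' → Fin h) : P h m' → Fin h :=
  Sum.elim id (Sum.elim (fun x => x + 1) b)

/-- the matrix of a subdivided kernel -/
def mat [NeZero h] (σ : Equiv.Perm (P h m')) (a b : Fin m' → Fin h) :
    (Fin h ⊕ P h m') → (Fin h ⊕ P h m') → Bool
  | Sum.inl _, Sum.inl _ => false
  | Sum.inl x, Sum.inr j => decide (ra a (σ.symm j) = x)
  | Sum.inr i, Sum.inl y => decide (cb b i = y)
  | Sum.inr i, Sum.inr j => decide (σ i = j)

theorem mat_fi [NeZero h] (σ : Equiv.Perm (P h m')) (a b : Fin m' → Fin h) :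
    FullyIndec (mat σ a b) := by
  classical
  have hh : 0 < h := Nat.pos_of_ne_zero (NeZero.ne h)
  have hcardP : Fintype.card (P h m') = h + (h + m') := by simp
  have hcard : Fintype.card (Fin h ⊕ P h m') = h + (h + (h + m')) := by simp
  refine ⟨fun h1 => by rw [hcard] at h1; omega, ?_⟩
  rintro ⟨S, T, hS, hT, hc, hz⟩
  let S1 : Finset (Fin h) := univ.filter (fun x => Sum.inl x ∈ S)
  let S2 : Finset (P h m') := univ.filter (fun i => Sum.inr i ∈ S)
  let T1 : Finset (Fin h) := univ.filter (fun x => Sum.inl x ∈ T)
  let T2 : Finset (P h m') := univ.filter (fun i => Sum.inr (σ i) ∈ T)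
  let L : Finset (P h m') := univ.filter (fun i => ra a i ∈ S1 ∧ cb b i ∈ T1)
  have mS1 : ∀ x, x ∈ S1 ↔ Sum.inl x ∈ S := fun x => by simp [S1]
  have mS2 : ∀ x, x ∈ S2 ↔ Sum.inr x ∈ S := fun x => by simp [S2]
  have mT1 : ∀ x, x ∈ T1 ↔ Sum.inl x ∈ T := fun x => by simp [T1]
  have mT2 : ∀ x, x ∈ T2 ↔ Sum.inr (σ x) ∈ T := fun x => by simp [T2]
  have mL : ∀ x, x ∈ L ↔ ra a x ∈ S1 ∧ cb b x ∈ T1 := fun x => by simp [L]
  have hSc : S.card = S1.card + S2.card := by
    have : S = S1.disjSum S2 := by
      ext x
      rcases x with x | x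
      · rw [inl_mem_disjSum, mS1]
      · rw [inr_mem_disjSum, mS2]
    rw [this, card_disjSum]
  have hTc : T.card = T1.card + T2.card := by
    have : T = T1.disjSum (T2.map σ.toEmbedding) := by
      ext x
      rcases x with x | x
      · rw [inl_mem_disjSum, mT1]
      · rw [inr_mem_disjSum, mem_map]
        constructor
        · intro hx
          exact ⟨σ.symm x, (mT2 _).2 (by simpa using hx), by simp⟩
        · rintro ⟨y, hy, rfl⟩
          exact (mT2 y).1 hy
    rw [this, card_disjSum, card_map]
  have z1 : ∀ i ∈ T2, ra a i ∉ S1 := by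
    intro i hi hS1
    have := hz _ ((mS1 _).1 hS1) _ ((mT2 i).1 hi)
    simp [mat] at this
  have z2 : ∀ i ∈ S2, cb b i ∉ T1 := by
    intro i hi hT1
    have := hz _ ((mS2 _).1 hi) _ ((mT1 _).1 hT1)
    simp [mat] at this
  have z3 : ∀ i ∈ S2, i ∉ T2 := by
    intro i hi hT2
    have := hz _ ((mS2 _).1 hi) _ ((mT2 _).1 hT2)
    simp [mat] at this
  have hsum : S2.card + T2.card + L.card ≤ h + (h + m') := by
    rw [← hcardP, ← card_union_of_disjoint (disjoint_left.2 z3), ← card_union_of_disjoint]
    · exact card_le_univ _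
    · rw [disjoint_left]
      intro i hi hiL
      rw [mL] at hiL
      rcases mem_union.1 hi with h1 | h1
      · exact z2 i h1 hiL.2
      · exact z1 i h1 hiL.1
  have hL : (S1 ∩ T1).card + (S1 ∩ T1.image (fun y => y - 1)).card ≤ L.card := by
    have h1 : (S1 ∩ T1).disjSum ((S1 ∩ T1.image (fun y => y - 1)).disjSum (∅ : Finset (Fin m'))) ⊆
        L := by
      intro x hx
      rw [mL]
      rcases x with x | x | x
      · rw [inl_mem_disjSum, mem_inter] at hx
        exact hx
      · rw [inr_mem_disjSum, inl_mem_disjSum, mem_inter, mem_image] at hx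
        obtain ⟨hx1, y, hy, rfl⟩ := hx
        refine ⟨hx1, ?_⟩
        simpa [cb] using hy
      · rw [inr_mem_disjSum, inr_mem_disjSum] at hx
        exact absurd hx (notMem_empty _)
    have h2 := card_le_card h1
    rw [card_disjSum, card_disjSum, card_empty, add_zero] at h2
    exact h2
  have hT1img : (T1.image (fun y => y - 1)).card = T1.card :=
    card_image_of_injective _ (sub_left_injective)
  have hi1 : S1.card + T1.card ≤ h + (S1 ∩ T1).card := by
    have h1 := card_union_add_card_inter S1 T1
    have h2 : (S1 ∪ T1).card ≤ h := by simpa using card_le_univ (S1 ∪ T1)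
    omega
  have hi2 : S1.card + T1.card ≤ h + (S1 ∩ T1.image (fun y => y - 1)).card := by
    have h1 := card_union_add_card_inter S1 (T1.image (fun y => y - 1))
    have h2 : (S1 ∪ T1.image (fun y => y - 1)).card ≤ h := by
      simpa using card_le_univ (S1 ∪ T1.image (fun y => y - 1))
    omega
  rw [hcard, hSc, hTc] at hc
  have hST : S1.card + T1.card = h := by omega
  have hL0 : L.card = 0 := by omega
  have hI0 : (S1 ∩ T1).card = 0 := by omega
  have hI1 : (S1 ∩ T1.image (fun y => y - 1)).card = 0 := by omega
  have hcompl : T1 = S1ᶜ := by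
    apply eq_of_subset_of_card_le
    · intro x hx
      rw [mem_compl]
      intro hx'
      rw [card_eq_zero] at hI0
      have := mem_inter.2 ⟨hx', hx⟩
      rw [hI0] at this
      exact notMem_empty _ this
    · rw [card_compl, Fintype.card_fin]; omega
  have hstep : ∀ x, x ∈ S1 → x + 1 ∈ S1 := by
    intro x hx
    by_contra hx1
    have h1 : x + 1 ∈ T1 := by rw [hcompl, mem_compl]; exact hx1
    rw [card_eq_zero] at hI1
    have : x ∈ S1 ∩ T1.image (fun y => y - 1) :=
      mem_inter.2 ⟨hx, mem_image.2 ⟨x + 1, h1, by simp⟩⟩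
    rw [hI1] at this
    exact notMem_empty _ this
  have hall : ∀ x ∈ S1, ∀ y : Fin h, y ∈ S1 := by
    intro x hx y
    have h1 : ∀ k : ℕ, (⟨(x.val + k) % h, Nat.mod_lt _ hh⟩ : Fin h) ∈ S1 := by
      intro k
      induction k with
      | zero =>
        have e1 : (⟨(x.val + 0) % h, Nat.mod_lt _ hh⟩ : Fin h) = x :=
          Fin.ext (by simp [Nat.mod_eq_of_lt x.2])
        rw [e1]; exact hx
      | succ k ih =>
        have := hstep _ ih
        have e1 : (⟨(x.val + k) % h, Nat.mod_lt _ hh⟩ : Fin h) + 1 =
            ⟨(x.val + (k + 1)) % h, Nat.mod_lt _ hh⟩ := by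
          apply Fin.ext
          rw [Fin.val_add, Fin.val_one']
          simp only
          rw [← Nat.add_mod, add_assoc]
        rwa [e1] at this
    have h2 := h1 (y.val + (h - x.val))
    have e2 : (⟨(x.val + (y.val + (h - x.val))) % h, Nat.mod_lt _ hh⟩ : Fin h) = y := by
      apply Fin.ext
      simp only
      have e3 : x.val + (y.val + (h - x.val)) = y.val + h := by
        have := x.2
        omega
      rw [e3, Nat.add_mod_right, Nat.mod_eq_of_lt y.2]
    rwa [e2] at h2
  rcases S1.eq_empty_or_nonempty with h0 | ⟨x, hx⟩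
  · -- no hub row: then no path row
    have hT1 : T1 = univ := by rw [hcompl, h0, compl_empty]
    have hS2 : S2 = ∅ := by
      rw [eq_empty_iff_forall_notMem]
      intro i hi
      exact z2 i hi (by rw [hT1]; exact mem_univ _)
    obtain ⟨s, hs⟩ := hS
    rcases s with s | s
    · have := (mS1 s).2 hs
      rw [h0] at this
      exact notMem_empty _ this
    · have := (mS2 s).2 hs
      rw [hS2] at this
      exact notMem_empty _ this
  · have hS1 : S1 = univ := eq_univ_iff_forall.2 (hall x hx)
    have hT1 : T1 = ∅ := by rw [hcompl, hS1, compl_univ]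
    have hT2 : T2 = ∅ := by
      rw [eq_empty_iff_forall_notMem]
      intro i hi
      exact z1 i hi (by rw [hS1]; exact mem_univ _)
    obtain ⟨t, ht⟩ := hT
    rcases t with t | t
    · have := (mT1 t).2 ht
      rw [hT1] at this
      exact notMem_empty _ this
    · have := (mT2 (σ.symm t)).2 (by simpa using ht)
      rw [hT2] at this
      exact notMem_empty _ this

theorem mat_near [NeZero h] (σ : Equiv.Perm (P h m')) (a b : Fin m' → Fin h) :
    NearlyDec (mat σ a b) := by
  classical
  have hh : 0 < h := Nat.pos_of_ne_zero (NeZero.ne h)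
  have hcard : Fintype.card (Fin h ⊕ P h m') = h + (h + (h + m')) := by simp
  refine ⟨mat_fi σ a b, ?_⟩
  intro i j hij hF
  -- a row or column with one `1` left gives a zero block
  have hrow : ∀ (i0 j0 : Fin h ⊕ P h m'), (∀ j', j' ≠ j0 →
      setZero (mat σ a b) i j i0 j' = false) → False := by
    intro i0 j0 hz
    refine hF.2 ⟨{i0}, univ.erase j0, singleton_nonempty _, card_pos.1 ?_, ?_, ?_⟩
    · rw [card_erase_of_mem (mem_univ _), card_univ, hcard]; omega
    · rw [card_singleton, card_erase_of_mem (mem_univ _), card_univ, hcard]; omega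
    · intro i' hi' j' hj'
      rw [mem_singleton] at hi'
      subst hi'
      exact hz j' (ne_of_mem_erase hj')
  have hcol : ∀ (i0 j0 : Fin h ⊕ P h m'), (∀ i', i' ≠ i0 →
      setZero (mat σ a b) i j i' j0 = false) → False := by
    intro i0 j0 hz
    refine hF.2 ⟨univ.erase i0, {j0}, card_pos.1 ?_, singleton_nonempty _, ?_, ?_⟩
    · rw [card_erase_of_mem (mem_univ _), card_univ, hcard]; omega
    · rw [card_singleton, card_erase_of_mem (mem_univ _), card_univ, hcard]; omega
    · intro i' hi' j' hj'
      rw [mem_singleton] at hj'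
      subst hj'
      exact hz i' (ne_of_mem_erase hi')
  rcases i with x | i <;> rcases j with y | j
  · simp [mat] at hij
  · -- hub row, path column
    have hx : ra a (σ.symm j) = x := by simpa [mat] using hij
    apply hcol (Sum.inr (σ.symm j)) (Sum.inr j)
    intro i' hi'
    unfold setZero
    split_ifs with hc
    · rfl
    · rcases i' with x' | i'
      · have hxx : x' ≠ x := by
          rintro rfl
          exact hc ⟨rfl, rfl⟩
        simp only [mat, decide_eq_false_iff_not]
        rw [hx]
        exact fun h => hxx h.symm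
      · simp only [mat, decide_eq_false_iff_not]
        intro h
        apply hi'
        rw [← h]; simp
  · have hy : cb b i = y := by simpa [mat] using hij
    apply hrow (Sum.inr i) (Sum.inr (σ i))
    intro j' hj'
    unfold setZero
    split_ifs with hc
    · rfl
    · rcases j' with y' | j'
      · have hyy : y' ≠ y := by
          rintro rfl
          exact hc ⟨rfl, rfl⟩
        simp only [mat, decide_eq_false_iff_not]
        rw [hy]
        exact fun h => hyy h.symm
      · simp only [mat, decide_eq_false_iff_not]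
        intro h
        apply hj'
        rw [h]
  · have hj : σ i = j := by simpa [mat] using hij
    apply hrow (Sum.inr i) (Sum.inl (cb b i))
    intro j' hj'
    unfold setZero
    split_ifs with hc
    · rfl
    · rcases j' with y' | j'
      · simp only [mat, decide_eq_false_iff_not]
        intro h
        apply hj'
        rw [h]
      · have hjj : j' ≠ j := by
          rintro rfl
          exact hc ⟨rfl, rfl⟩
        simp only [mat, decide_eq_false_iff_not]
        rw [hj]
        exact fun h => hjj h.symm

theorem mat_inj [NeZero h] {σ σ' : Equiv.Perm (P h m')} {a b a' b' : Fin m' → Fin h}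
    (heq : mat σ a b = mat σ' a' b') : σ = σ' ∧ a = a' ∧ b = b' := by
  have h1 : σ = σ' := by
    ext1 i
    have := congrFun (congrFun heq (Sum.inr i)) (Sum.inr (σ i))
    simp only [mat, decide_true] at this
    exact (of_decide_eq_true this.symm).symm
  subst h1
  refine ⟨rfl, ?_, ?_⟩
  · funext k
    have := congrFun (congrFun heq (Sum.inl (a k))) (Sum.inr (σ (Sum.inr (Sum.inr k))))
    simp only [mat, Equiv.symm_apply_apply, ra, Sum.elim_inr, decide_true] at this
    exact (of_decide_eq_true this.symm).symm
  · funext k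
    have := congrFun (congrFun heq (Sum.inr (Sum.inr (Sum.inr k)))) (Sum.inl (b k))
    simp only [mat, cb, Sum.elim_inr, decide_true] at this
    exact (of_decide_eq_true this.symm).symm

theorem N_ge [NeZero h] :
    (2 * h + m').factorial * h ^ (2 * m') ≤ N (3 * h + m') := by
  classical
  let e : Fin (3 * h + m') ≃ (Fin h ⊕ P h m') := Fintype.equivOfCardEq (by simp; ring)
  let X := Equiv.Perm (P h m') × ((Fin m' → Fin h) × (Fin m' → Fin h))
  let F : X → (Fin (3 * h + m') → Fin (3 * h + m') → Bool) :=
    fun x i j => mat x.1 x.2.1 x.2.2 (e i) (e j)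
  have hinj : Function.Injective F := by
    rintro ⟨σ, a, b⟩ ⟨σ', a', b'⟩ hxy
    have h1 : mat σ a b = mat σ' a' b' := by
      funext i j
      have := congrFun (congrFun hxy (e.symm i)) (e.symm j)
      simpa [F] using this
    obtain ⟨rfl, rfl, rfl⟩ := mat_inj h1
    rfl
  have h1 : (univ.image F) ⊆ (univ : Finset (Fin (3 * h + m') → Fin (3 * h + m') → Bool)).filter
      (fun A => NearlyDec A) := by
    intro A hA
    obtain ⟨x, -, rfl⟩ := mem_image.1 hA
    exact mem_filter.2 ⟨mem_univ _, near_reindex e (mat_near _ _ _)⟩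
  have h2 := card_le_card h1
  rw [card_image_of_injective _ hinj, card_univ] at h2
  have h3 : Fintype.card X = (2 * h + m').factorial * h ^ (2 * m') := by
    simp only [X, Fintype.card_prod, Fintype.card_perm, Fintype.card_fun, Fintype.card_fin,
      Fintype.card_sum]
    rw [two_mul m', pow_add, show h + (h + m') = 2 * h + m' by ring]
  rw [h3] at h2
  refine h2.trans (le_of_eq ?_)
  unfold N; congr

end Constr

end Pool.Agent.Helper543.NearDec
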