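import Mathlib

set_option autoImplicit false

namespace Pool.Agent.Helper543.NearDec

open Finset

/-- A square 0-1 matrix (rows `I`, columns `J`, of the same size) is fully indecomposable: for
`n = 1` its entry is `1`, and it has no `s × t` zero submatrix with `s, t ≥ 1`, `s + t = n`. -/
def FullyIndec {I J : Type} [Fintype I] [Fintype J] (A : I → J → Bool) : Prop :=
  (Fintype.card I = 1 → ∀ i j, A i j = true) ∧
    ¬ ∃ (S : Finset I) (T : Finset J), S.Nonempty ∧ T.Nonempty ∧
      S.card + T.card = Fintype.card I ∧ ∀ i ∈ S, ∀ j ∈ T, A i j = false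

/-- The matrix `A` with the entry `(i, j)` changed to `0`. -/
def setZero {I J : Type} [DecidableEq I] [DecidableEq J] (A : I → J → Bool) (i : I) (j : J) :
    I → J → Bool :=
  fun i' j' => if i' = i ∧ j' = j then false else A i' j'

/-- `A` is nearly decomposable: fully indecomposable, but changing any `1` to `0` destroys this. -/
def NearlyDec {I J : Type} [Fintype I] [Fintype J] [DecidableEq I] [DecidableEq J]
    (A : I → J → Bool) : Prop :=
  FullyIndec A ∧ ∀ i j, A i j = true → ¬ FullyIndec (setZero A i j)

open Classical in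
/-- the number of nearly decomposable `n × n` matrices -/
noncomputable def N (n : ℕ) : ℕ :=
  ((univ : Finset (Fin n → Fin n → Bool)).filter (fun A => NearlyDec A)).card

theorem FullyIndec.mono {I J : Type} [Fintype I] [Fintype J] {A B : I → J → Bool}
    (h : FullyIndec A) (hAB : ∀ i j, A i j = true → B i j = true) : FullyIndec B := by
  refine ⟨fun h1 i j => hAB i j (h.1 h1 i j), ?_⟩
  rintro ⟨S, T, hS, hT, hc, hz⟩
  refine h.2 ⟨S, T, hS, hT, hc, fun i hi j hj => ?_⟩
  by_contra hne
  have h1 : A i j = true := by simpa using hne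
  have h2 := hAB i j h1
  rw [hz i hi j hj] at h2
  exact Bool.false_ne_true h2

section Upper

variable {n : ℕ}

theorem exists_perm (hn : 2 ≤ n) {A : Fin n → Fin n → Bool} (hA : FullyIndec A) :
    ∃ π : Equiv.Perm (Fin n), ∀ i, A i (π i) = true := by
  classical
  have hall : ∀ s : Finset (Fin n), s.card ≤
      (s.biUnion (fun i => univ.filter (fun j => A i j = true))).card := by
    intro s
    by_contra hcon
    push Not at hcon
    set Nb := s.biUnion (fun i => univ.filter (fun j => A i j = true)) with hNb
    have hzero : ∀ i ∈ s, ∀ j, j ∉ Nb → A i j = false := by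
      intro i hi j hj
      by_contra hne
      have h1 : A i j = true := by simpa using hne
      exact hj (mem_biUnion.2 ⟨i, hi, mem_filter.2 ⟨mem_univ _, h1⟩⟩)
    have hsn : s.card ≤ n := by simpa using card_le_univ s
    have hcompl : (Nbᶜ).card = n - Nb.card := by rw [card_compl, Fintype.card_fin]
    have hs0 : 0 < s.card := by omega
    rcases Nat.lt_or_ge s.card n with hlt | hge
    · obtain ⟨T, hT, hTc⟩ := exists_subset_card_eq (show n - s.card ≤ (Nbᶜ).card by omega)
      refine hA.2 ⟨s, T, card_pos.1 hs0, card_pos.1 (by omega), by rw [Fintype.card_fin]; omega,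
        fun i hi j hj => hzero i hi j (mem_compl.1 (hT hj))⟩
    · obtain ⟨s', hs', hs'c⟩ := exists_subset_card_eq (show n - 1 ≤ s.card by omega)
      obtain ⟨j, hj⟩ := card_pos.1 (show 0 < (Nbᶜ).card by omega)
      refine hA.2 ⟨s', {j}, card_pos.1 (by omega), singleton_nonempty _, by
        rw [Fintype.card_fin, card_singleton]; omega, fun i hi j' hj' => ?_⟩
      rw [mem_singleton] at hj'
      subst hj'
      exact hzero i (hs' hi) j' (mem_compl.1 hj)
  obtain ⟨f, hf, hfA⟩ := (all_card_le_biUnion_card_iff_exists_injective _).1 hall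
  have hfb : Function.Bijective f := (Finite.injective_iff_bijective).1 hf
  exact ⟨Equiv.ofBijective f hfb, fun i => (mem_filter.1 (hfA i)).2⟩

/-- strong connectivity of the associated digraph -/
theorem strong {A : Fin n → Fin n → Bool} (hA : FullyIndec A) (π : Equiv.Perm (Fin n))
    (i j : Fin n) : Relation.ReflTransGen (fun a b => A a (π b) = true) i j := by
  classical
  by_contra hcon
  set S : Finset (Fin n) := univ.filter (fun x => Relation.ReflTransGen
    (fun a b => A a (π b) = true) i x) with hS
  have hiS : i ∈ S := mem_filter.2 ⟨mem_univ _, Relation.ReflTransGen.refl⟩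
  have hjS : j ∉ S := fun h => hcon (mem_filter.1 h).2
  refine hA.2 ⟨S, (Sᶜ).map π.toEmbedding, ⟨i, hiS⟩, ?_, ?_, ?_⟩
  · exact ⟨π j, mem_map_of_mem _ (mem_compl.2 hjS)⟩
  · rw [card_map, card_add_card_compl]
  · intro a ha c hc
    obtain ⟨b, hb, rfl⟩ := mem_map.1 hc
    by_contra hne
    have h1 : A a (π b) = true := by simpa using hne
    exact (mem_compl.1 hb) (mem_filter.2 ⟨mem_univ _, (mem_filter.1 ha).2.tail h1⟩)

/-- a spanning out-branching -/
theorem branching (R : Fin n → Fin n → Prop) (r : Fin n)
    (h : ∀ v, Relation.ReflTransGen R r v) :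
    ∃ p : Fin n → Fin n, (∀ v, v ≠ r → R (p v) v) ∧
      ∀ v, Relation.ReflTransGen (fun a b => b ≠ r ∧ p b = a) r v := by
  classical
  let path : ℕ → Fin n → Prop := fun k => Nat.rec (motive := fun _ => Fin n → Prop)
    (fun v => v = r) (fun _ P v => ∃ u, P u ∧ R u v) k
  have hp0 : ∀ v, path 0 v ↔ v = r := fun v => Iff.rfl
  have hps : ∀ k v, path (k + 1) v ↔ ∃ u, path k u ∧ R u v := fun k v => Iff.rfl
  have hex : ∀ v, ∃ k, path k v := by
    intro v
    induction h v with
    | refl => exact ⟨0, rfl⟩
    | tail _ hbc ih =>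
      obtain ⟨k, hk⟩ := ih
      exact ⟨k + 1, (hps _ _).2 ⟨_, hk, hbc⟩⟩
  let d : Fin n → ℕ := fun v => Nat.find (hex v)
  have hd : ∀ v, path (d v) v := fun v => Nat.find_spec (hex v)
  have hmin : ∀ v k, path k v → d v ≤ k := fun v k hk => Nat.find_min' (hex v) hk
  have hstep : ∀ v, v ≠ r → ∃ u, R u v ∧ d u < d v := by
    intro v hv
    have h1 := hd v
    rcases hdv : d v with _ | k
    · rw [hdv] at h1
      exact absurd ((hp0 v).1 h1) hv
    · rw [hdv] at h1
      obtain ⟨u, hu, huv⟩ := (hps _ _).1 h1
      exact ⟨u, huv, Nat.lt_succ_of_le (hmin u k hu)⟩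
  choose! p hp using hstep
  refine ⟨p, fun v hv => (hp v hv).1, ?_⟩
  have : ∀ k v, d v = k → Relation.ReflTransGen (fun a b => b ≠ r ∧ p b = a) r v := by
    intro k
    induction k using Nat.strong_induction_on with
    | _ k ih =>
      intro v hv
      by_cases hvr : v = r
      · rw [hvr]
      · exact (ih (d (p v)) (by rw [← hv]; exact (hp v hvr).2) (p v) rfl).tail ⟨hvr, rfl⟩
  exact fun v => this (d v) v rfl

/-- the matrix built from a permutation and two branchings -/
def build (r : Fin n) (π : Equiv.Perm (Fin n)) (p q : {v : Fin n // v ≠ r} → Fin n) :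
    Fin n → Fin n → Bool :=
  open Classical in
  fun i j => decide (π i = j ∨ (∃ v : {v : Fin n // v ≠ r}, p v = i ∧ π v.1 = j) ∨
    (∃ v : {v : Fin n // v ≠ r}, v.1 = i ∧ π (q v) = j))

theorem nearly_eq_build (hn : 2 ≤ n) {A : Fin n → Fin n → Bool} (hA : NearlyDec A) (r : Fin n) :
    ∃ (π : Equiv.Perm (Fin n)) (p q : {v : Fin n // v ≠ r} → Fin n), build r π p q = A := by
  classical
  obtain ⟨π, hπ⟩ := exists_perm hn hA.1
  obtain ⟨p, hp1, hp2⟩ := branching (fun a b => A a (π b) = true) r (fun v => strong hA.1 π r v)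
  obtain ⟨q, hq1, hq2⟩ := branching (fun a b => A b (π a) = true) r (fun v => by
    have := strong hA.1 π v r
    have h2 := this.swap
    exact h2)
  refine ⟨π, fun v => p v.1, fun v => q v.1, ?_⟩
  set B := build r π (fun v => p v.1) (fun v => q v.1) with hB
  have hBiff : ∀ i j, B i j = true ↔ (π i = j ∨ (∃ v : {v : Fin n // v ≠ r}, p v.1 = i ∧ π v.1 = j) ∨
    (∃ v : {v : Fin n // v ≠ r}, v.1 = i ∧ π (q v.1) = j)) := by
    intro i j
    rw [hB]
    simp only [build, decide_eq_true_eq]
  have hBA : ∀ i j, B i j = true → A i j = true := by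
    intro i j hij
    rcases (hBiff i j).1 hij with h | ⟨v, h1, h2⟩ | ⟨v, h1, h2⟩
    · rw [← h]; exact hπ i
    · rw [← h1, ← h2]; exact hp1 v.1 v.2
    · rw [← h1, ← h2]; exact hq1 v.1 v.2
  have hBF : FullyIndec B := by
    refine ⟨fun h => by rw [Fintype.card_fin] at h; omega, ?_⟩
    rintro ⟨S, T, hS, hT, hc, hz⟩
    rw [Fintype.card_fin] at hc
    -- T = image of complement of S
    have hdisj : ∀ i ∈ S, π i ∉ T := by
      intro i hi hT'
      have h1 := hz i hi (π i) hT'
      rw [(hBiff i (π i)).2 (Or.inl rfl)] at h1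
      exact Bool.false_ne_true h1.symm
    have hTc : T = (Sᶜ).map π.toEmbedding := by
      apply eq_of_subset_of_card_le
      · intro j hj
        rw [mem_map]
        refine ⟨π.symm j, ?_, by simp⟩
        rw [mem_compl]
        intro h
        have := hdisj _ h
        simp at this
        exact this hj
      · rw [card_map, card_compl, Fintype.card_fin]; omega
    have hreach : ∀ v, Relation.ReflTransGen (fun a b => B a (π b) = true) r v := by
      intro v
      induction hp2 v with
      | refl => exact Relation.ReflTransGen.refl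
      | tail _ hbc ih =>
        exact ih.tail ((hBiff _ _).2 (Or.inr (Or.inl ⟨⟨_, hbc.1⟩, hbc.2, rfl⟩)))
    have hreach' : ∀ v, Relation.ReflTransGen (fun a b => B a (π b) = true) v r := by
      intro v
      have h1 : Relation.ReflTransGen (fun a b => B b (π a) = true) r v := by
        induction hq2 v with
        | refl => exact Relation.ReflTransGen.refl
        | tail _ hbc ih =>
          exact ih.tail ((hBiff _ _).2 (Or.inr (Or.inr ⟨⟨_, hbc.1⟩, rfl, congrArg π hbc.2⟩)))
      exact h1.swap
    obtain ⟨s, hs⟩ := hS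
    obtain ⟨t, ht⟩ := hT
    rw [hTc] at ht
    obtain ⟨t', ht', -⟩ := mem_map.1 ht
    have hst : Relation.ReflTransGen (fun a b => B a (π b) = true) s t' :=
      (hreach' s).trans (hreach t')
    have hclosed : ∀ x, Relation.ReflTransGen (fun a b => B a (π b) = true) s x → x ∈ S := by
      intro x hx
      induction hx with
      | refl => exact hs
      | tail _ hbc ih =>
        rename_i b c _
        by_contra hcS
        have h1 := hz b ih (π c) (by rw [hTc]; exact mem_map_of_mem _ (mem_compl.2 hcS))
        rw [hbc] at h1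
        exact Bool.false_ne_true h1.symm
    exact (mem_compl.1 ht') (hclosed t' hst)
  funext i j
  by_contra hne
  have hAij : A i j = true := by
    by_contra h1
    have h2 : A i j = false := by simpa using h1
    rcases hb : B i j with _ | _
    · rw [hb, h2] at hne; exact hne rfl
    · exact h1 (hBA i j hb)
  have hBij : B i j = false := by
    by_contra h1
    have h2 : B i j = true := by simpa using h1
    rw [h2, hAij] at hne
    exact hne rfl
  refine hA.2 i j hAij (hBF.mono ?_)
  intro i' j' h'
  unfold setZero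
  rw [if_neg]
  · exact hBA i' j' h'
  · rintro ⟨rfl, rfl⟩
    rw [hBij] at h'
    exact Bool.false_ne_true h'

theorem N_le (hn : 2 ≤ n) : N n ≤ n.factorial * n ^ (2 * (n - 1)) := by
  classical
  let r : Fin n := ⟨0, by omega⟩
  have h1 : (univ : Finset (Fin n → Fin n → Bool)).filter (fun A => NearlyDec A) ⊆
      (univ : Finset (Equiv.Perm (Fin n) × (({v : Fin n // v ≠ r} → Fin n) ×
        ({v : Fin n // v ≠ r} → Fin n)))).image (fun x => build r x.1 x.2.1 x.2.2) := by
    intro A hA
    obtain ⟨π, p, q, h⟩ := nearly_eq_build hn (mem_filter.1 hA).2 r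
    exact mem_image.2 ⟨(π, p, q), mem_univ _, h⟩
  have h2 := (card_le_card h1).trans card_image_le
  rw [card_univ, Fintype.card_prod, Fintype.card_prod, Fintype.card_perm, Fintype.card_fun,
    Fintype.card_fin] at h2
  have h3 : Fintype.card {v : Fin n // v ≠ r} = n - 1 := by
    rw [Fintype.card_subtype_compl, Fintype.card_fin, Fintype.card_subtype_eq]
  rw [h3] at h2
  refine (le_of_eq ?_).trans (h2.trans (le_of_eq ?_))
  · unfold N; congr
  · rw [two_mul, pow_add]

end Upper

end Pool.Agent.Helper543.NearDec
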