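import Mathlib
import Pool.Agent.Helper543.PlaneC
import Pool.Agent.Helper543.Deletion

/-! Circumradii of triples of planar points in general position. -/

namespace Pool.Agent.Helper543.Radii

open Finset Pool.Agent.Helper543.Melchior Pool.Agent.Helper543.PlaneC
open Pool.Agent.Helper543.Deletion

noncomputable section

open Classical in
/-- `T` lies on a circle of radius `r` -/
def HasRadius (T : Finset Plane) (r : ℝ) : Prop :=
  ∃ c : Plane, (T : Set Plane) ⊆ Metric.sphere c r

/-- no three points collinear, no four concyclic -/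
def GenPos (X : Finset Plane) : Prop :=
  (∀ T ⊆ X, T.card = 3 → ¬ Collinear ℝ (T : Set Plane)) ∧
  (∀ T ⊆ X, T.card = 4 → ¬ ∃ (c : Plane) (r : ℝ), (T : Set Plane) ⊆ Metric.sphere c r)

/-- pairwise distinct circumradii -/
def DistinctRadii (Y : Finset Plane) : Prop :=
  ∀ S ⊆ Y, ∀ T ⊆ Y, S.card = 3 → T.card = 3 → ∀ r, HasRadius S r → HasRadius T r → S = T

lemma pos_of_sphere {c a b : Plane} {r : ℝ} (ha : a ∈ Metric.sphere c r)
    (hb : b ∈ Metric.sphere c r) (hab : a ≠ b) : 0 < r := by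
  rw [Metric.mem_sphere] at ha hb
  have h0 : 0 ≤ r := ha ▸ dist_nonneg
  rcases h0.lt_or_eq with h | h
  · exact h
  · exfalso
    rw [← h, dist_eq_zero] at ha hb
    exact hab (ha.trans hb.symm)

lemma center_unique {S : Finset Plane} (hS : 3 ≤ S.card) {c c' : Plane} {r r' : ℝ}
    (h : (S : Set Plane) ⊆ Metric.sphere c r) (h' : (S : Set Plane) ⊆ Metric.sphere c' r') :
    c = c' ∧ r = r' := by
  obtain ⟨x, y, z, hx, hy, hz, hxy, hxz, hyz⟩ := two_lt_card_iff.1 (show 2 < S.card by omega)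
  have hr := pos_of_sphere (h hx) (h hy) hxy
  have hr' := pos_of_sphere (h' hx) (h' hy) hxy
  have x1 := (mem_sphere_iff c hr x).1 (h hx)
  have y1 := (mem_sphere_iff c hr y).1 (h hy)
  have z1 := (mem_sphere_iff c hr z).1 (h hz)
  have x2 := (mem_sphere_iff c' hr' x).1 (h' hx)
  have y2 := (mem_sphere_iff c' hr' y).1 (h' hy)
  have z2 := (mem_sphere_iff c' hr' z).1 (h' hz)
  have hcr := cr_ne_of_On x1 y1 z1 (phi_inj.ne hxy) (phi_inj.ne hxz) (phi_inj.ne hyz)
  obtain ⟨e1, e2, e3⟩ := On_unique hcr x1 y1 z1 x2 y2 z2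
  refine ⟨?_, ?_⟩
  · apply phi_inj
    simp only [phi, e1, e2]
  · rw [e1, e2] at e3
    have : r ^ 2 = r' ^ 2 := by linarith
    exact (pow_left_inj₀ hr.le hr'.le two_ne_zero).1 this

lemma radius_unique {S : Finset Plane} (hS : 3 ≤ S.card) {r r' : ℝ} (h : HasRadius S r)
    (h' : HasRadius S r') : r = r' := by
  obtain ⟨c, hc⟩ := h
  obtain ⟨c', hc'⟩ := h'
  exact (center_unique hS hc hc').2

lemma union_card {S T : Finset Plane} (hS : S.card = 3) (hT : T.card = 3) (hne : S ≠ T) :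
    4 ≤ (S ∪ T).card := by
  by_contra hcon
  push Not at hcon
  have h1 : S ⊆ S ∪ T := subset_union_left
  have h2 : T ⊆ S ∪ T := subset_union_right
  have h3 : S = S ∪ T := eq_of_subset_of_card_le h1 (by omega)
  have h4 : T = S ∪ T := eq_of_subset_of_card_le h2 (by omega)
  exact hne (h3.trans h4.symm)

lemma centers_ne {X S T : Finset Plane} (hX : GenPos X) (hSX : S ⊆ X) (hTX : T ⊆ X)
    (hS : S.card = 3) (hT : T.card = 3) (hne : S ≠ T) {c c' : Plane} {r : ℝ}
    (h : (S : Set Plane) ⊆ Metric.sphere c r) (h' : (T : Set Plane) ⊆ Metric.sphere c' r) :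
    c ≠ c' := by
  rintro rfl
  obtain ⟨V, hV, hVc⟩ := exists_subset_card_eq (union_card hS hT hne)
  refine hX.2 V (hV.trans (union_subset hSX hTX)) hVc ⟨c, r, ?_⟩
  intro x hx
  rcases mem_union.1 (hV hx) with h1 | h1
  · exact h h1
  · exact h' h1

open Classical in
lemma pair_le_two {X : Finset Plane} (hX : GenPos X) (r : ℝ) {x y : Plane} (hxy : x ≠ y) :
    ((powersetCard 3 X).filter (fun T => HasRadius T r ∧ x ∈ T ∧ y ∈ T)).card ≤ 2 := by
  by_contra hcon
  push Not at hcon
  obtain ⟨T1, T2, T3, h1, h2, h3, h12, h13, h23⟩ := two_lt_card_iff.1 hcon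
  simp only [mem_filter, mem_powersetCard] at h1 h2 h3
  obtain ⟨⟨s1, k1⟩, ⟨c1, q1⟩, x1, y1⟩ := h1
  obtain ⟨⟨s2, k2⟩, ⟨c2, q2⟩, x2, y2⟩ := h2
  obtain ⟨⟨s3, k3⟩, ⟨c3, q3⟩, x3, y3⟩ := h3
  have e12 := centers_ne hX s1 s2 k1 k2 h12 q1 q2
  have e13 := centers_ne hX s1 s3 k1 k3 h13 q1 q3
  have e23 := centers_ne hX s2 s3 k2 k3 h23 q2 q3
  have hcard : ({c1, c2, c3} : Finset Plane).card = 3 := card_eq_three.2 ⟨c1, c2, c3, e12, e13,
    e23, rfl⟩
  have key : ∀ z, z ∈ T1 → z ∈ T2 → z ∈ T3 →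
      (({c1, c2, c3} : Finset Plane) : Set Plane) ⊆ Metric.sphere z r := by
    intro z z1 z2 z3 w hw
    rw [mem_coe, mem_insert, mem_insert, mem_singleton] at hw
    rw [Metric.mem_sphere, dist_comm]
    rcases hw with rfl | rfl | rfl
    · exact Metric.mem_sphere.1 (q1 z1)
    · exact Metric.mem_sphere.1 (q2 z2)
    · exact Metric.mem_sphere.1 (q3 z3)
  exact hxy (center_unique hcard.ge (key x x1 x2 x3) (key y y1 y2 y3)).1

/-- triples of radius `r` -/
def Fam (X : Finset Plane) (r : ℝ) : Finset (Finset Plane) := by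
  classical exact (powersetCard 3 X).filter (fun T => HasRadius T r)

lemma mem_Fam {X T : Finset Plane} {r : ℝ} :
    T ∈ Fam X r ↔ T ⊆ X ∧ T.card = 3 ∧ HasRadius T r := by
  classical
  simp only [Fam, mem_filter, mem_powersetCard, and_assoc]

open Classical in
lemma Fam_pair {X : Finset Plane} (hX : GenPos X) (r : ℝ) {x y : Plane} (hxy : x ≠ y) :
    ((Fam X r).filter (fun T => x ∈ T ∧ y ∈ T)).card ≤ 2 := by
  have h := pair_le_two hX r hxy
  refine le_trans (card_le_card ?_) h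
  intro T hT
  rw [mem_filter, mem_Fam] at hT
  rw [mem_filter, mem_powersetCard]
  exact ⟨⟨hT.1.1, hT.1.2.1⟩, hT.1.2.2, hT.2⟩

open Classical in
lemma Fam_point {X : Finset Plane} (hX : GenPos X) (r : ℝ) {x : Plane} (hx : x ∈ X) :
    ((Fam X r).filter (fun T => x ∈ T)).card ≤ X.card - 1 := by
  have h1 : ∑ T ∈ (Fam X r).filter (fun T => x ∈ T), ((X.erase x).filter (fun y => y ∈ T)).card =
      ∑ y ∈ X.erase x, ((Fam X r).filter (fun T => x ∈ T ∧ y ∈ T)).card := by
    simp_rw [← filter_filter, card_filter _ (X.erase x),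
      card_filter _ ((Fam X r).filter (fun T => x ∈ T))]
    exact sum_comm
  have h2 : ∑ T ∈ (Fam X r).filter (fun T => x ∈ T), ((X.erase x).filter (fun y => y ∈ T)).card =
      ∑ T ∈ (Fam X r).filter (fun T => x ∈ T), 2 := by
    refine sum_congr rfl fun T hT => ?_
    rw [mem_filter, mem_Fam] at hT
    have : (X.erase x).filter (fun y => y ∈ T) = T.erase x := by
      ext y
      rw [mem_filter, mem_erase, mem_erase]
      constructor
      · rintro ⟨⟨a, _⟩, b⟩; exact ⟨a, b⟩
      · rintro ⟨a, b⟩; exact ⟨⟨a, hT.1.1 b⟩, b⟩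
    rw [this, card_erase_of_mem hT.2, hT.1.2.1]
  have h3 : ∑ y ∈ X.erase x, ((Fam X r).filter (fun T => x ∈ T ∧ y ∈ T)).card ≤
      ∑ y ∈ X.erase x, 2 := by
    refine sum_le_sum fun y hy => ?_
    exact Fam_pair hX r (ne_of_mem_erase hy).symm
  rw [← h1, h2, sum_const, sum_const, card_erase_of_mem hx, smul_eq_mul, smul_eq_mul] at h3
  omega

open Classical in
lemma Fam_card {X : Finset Plane} (hX : GenPos X) (r : ℝ) :
    3 * (Fam X r).card ≤ X.card * (X.card - 1) := by
  have h1 : ∑ T ∈ Fam X r, (X.filter (fun y => y ∈ T)).card =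
      ∑ y ∈ X, ((Fam X r).filter (fun T => y ∈ T)).card := by
    simp_rw [card_filter]
    exact sum_comm
  have h2 : ∑ T ∈ Fam X r, (X.filter (fun y => y ∈ T)).card = ∑ T ∈ Fam X r, 3 := by
    refine sum_congr rfl fun T hT => ?_
    rw [mem_Fam] at hT
    have : X.filter (fun y => y ∈ T) = T := by
      ext y
      rw [mem_filter]
      exact ⟨fun h => h.2, fun h => ⟨hT.1 h, h⟩⟩
    rw [this, hT.2.1]
  have h3 : ∑ y ∈ X, ((Fam X r).filter (fun T => y ∈ T)).card ≤ ∑ y ∈ X, (X.card - 1) :=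
    sum_le_sum fun y hy => Fam_point hX r hy
  rw [← h1, h2, sum_const, sum_const, smul_eq_mul, smul_eq_mul] at h3
  omega

open Classical in
/-- weight of the triples conflicting with `S` -/
lemma conflict_weight {X S : Finset Plane} (hX : GenPos X) (hSX : S ⊆ X) (hS : S.card = 3)
    (q : ℝ) (hq : 0 ≤ q) :
    ∑ T ∈ (powersetCard 3 X).filter (fun T => S ≠ T ∧ ∃ r, HasRadius S r ∧ HasRadius T r),
      q ^ (S ∪ T).card ≤ (X.card : ℝ) ^ 2 / 3 * q ^ 6 + 3 * X.card * q ^ 5 + 3 * q ^ 4 := by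
  by_cases hr : ∃ r, HasRadius S r
  · obtain ⟨r, hr⟩ := hr
    have hsub : (powersetCard 3 X).filter (fun T => S ≠ T ∧ ∃ r, HasRadius S r ∧ HasRadius T r) ⊆
        (Fam X r).erase S := by
      intro T hT
      rw [mem_filter, mem_powersetCard] at hT
      obtain ⟨⟨h1, h2⟩, h3, r', h4, h5⟩ := hT
      rw [mem_erase, mem_Fam]
      have : r' = r := radius_unique hS.ge h4 hr
      exact ⟨h3.symm, h1, h2, this ▸ h5⟩
    have hpt : ∀ T ∈ (Fam X r).erase S, q ^ (S ∪ T).card ≤ q ^ 6 +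
        (S.filter (fun x => x ∈ T)).card * q ^ 5 +
        ((powersetCard 2 S).filter (fun e => e ⊆ T)).card * q ^ 4 := by
      intro T hT
      rw [mem_erase, mem_Fam] at hT
      have hc := card_union_add_card_inter S T
      have hi : (S.filter (fun x => x ∈ T)).card = (S ∩ T).card := by
        rw [filter_mem_eq_inter]
      have h4 := union_card hS hT.2.2.1 (Ne.symm hT.1)
      rw [hS, hT.2.2.1] at hc
      have hcases : (S ∩ T).card = 0 ∨ (S ∩ T).card = 1 ∨ (S ∩ T).card = 2 := by omega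
      rcases hcases with h | h | h
      · have hu : (S ∪ T).card = 6 := by omega
        rw [hu]
        have : 0 ≤ ((S.filter (fun x => x ∈ T)).card : ℝ) * q ^ 5 := by positivity
        have : 0 ≤ (((powersetCard 2 S).filter (fun e => e ⊆ T)).card : ℝ) * q ^ 4 := by
          positivity
        linarith
      · have hu : (S ∪ T).card = 5 := by omega
        rw [hu, hi, h]
        have : 0 ≤ q ^ 6 := by positivity
        have : 0 ≤ (((powersetCard 2 S).filter (fun e => e ⊆ T)).card : ℝ) * q ^ 4 := by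
          positivity
        push_cast
        linarith
      · have hu : (S ∪ T).card = 4 := by omega
        rw [hu]
        have h1 : 0 ≤ q ^ 6 := by positivity
        have h2 : 0 ≤ ((S.filter (fun x => x ∈ T)).card : ℝ) * q ^ 5 := by positivity
        have h3 : 1 ≤ ((powersetCard 2 S).filter (fun e => e ⊆ T)).card := by
          apply card_pos.2
          refine ⟨S ∩ T, ?_⟩
          rw [mem_filter, mem_powersetCard]
          exact ⟨⟨inter_subset_left, h⟩, inter_subset_right⟩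
        have h3' : (1 : ℝ) ≤ ((powersetCard 2 S).filter (fun e => e ⊆ T)).card := by
          exact_mod_cast h3
        have h5 : q ^ 4 ≤ (((powersetCard 2 S).filter (fun e => e ⊆ T)).card : ℝ) * q ^ 4 :=
          le_mul_of_one_le_left (by positivity) h3'
        linarith
    have hF := Fam_card hX r
    have hFr : ((Fam X r).card : ℝ) ≤ (X.card : ℝ) ^ 2 / 3 := by
      have h1 : 3 * (Fam X r).card ≤ X.card ^ 2 := by
        refine hF.trans ?_
        rw [sq]
        exact Nat.mul_le_mul_left _ (Nat.sub_le _ _)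
      have h2 : (3 : ℝ) * (Fam X r).card ≤ (X.card : ℝ) ^ 2 := by exact_mod_cast h1
      linarith
    have hA : (∑ T ∈ (Fam X r).erase S, ((S.filter (fun x => x ∈ T)).card : ℝ)) ≤
        3 * X.card := by
      have h1 : ∑ T ∈ (Fam X r).erase S, (S.filter (fun x => x ∈ T)).card ≤
          ∑ T ∈ Fam X r, (S.filter (fun x => x ∈ T)).card :=
        sum_le_sum_of_subset (erase_subset _ _)
      have h2 : ∑ T ∈ Fam X r, (S.filter (fun x => x ∈ T)).card =
          ∑ x ∈ S, ((Fam X r).filter (fun T => x ∈ T)).card := by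
        simp_rw [card_filter]
        exact sum_comm
      have h3 : ∑ x ∈ S, ((Fam X r).filter (fun T => x ∈ T)).card ≤ ∑ x ∈ S, X.card :=
        sum_le_sum fun x hx => (Fam_point hX r (hSX hx)).trans (Nat.sub_le _ _)
      rw [sum_const, hS, smul_eq_mul] at h3
      exact_mod_cast (h1.trans (h2.le.trans h3))
    have hB : (∑ T ∈ (Fam X r).erase S,
        (((powersetCard 2 S).filter (fun e => e ⊆ T)).card : ℝ)) ≤ 3 := by
      have h2 : ∑ T ∈ (Fam X r).erase S, ((powersetCard 2 S).filter (fun e => e ⊆ T)).card =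
          ∑ e ∈ powersetCard 2 S, (((Fam X r).erase S).filter (fun T => e ⊆ T)).card := by
        simp_rw [card_filter]
        exact sum_comm
      have h3 : ∑ e ∈ powersetCard 2 S, (((Fam X r).erase S).filter (fun T => e ⊆ T)).card ≤
          ∑ e ∈ powersetCard 2 S, 1 := by
        refine sum_le_sum fun e he => ?_
        rw [mem_powersetCard] at he
        obtain ⟨x, y, hxy, rfl⟩ := card_eq_two.1 he.2
        have h4 := Fam_pair hX r hxy
        have hSF : S ∈ (Fam X r).filter (fun T => x ∈ T ∧ y ∈ T) := by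
          rw [mem_filter, mem_Fam]
          exact ⟨⟨hSX, hS, hr⟩, he.1 (by simp), he.1 (by simp)⟩
        have h5 : ((Fam X r).erase S).filter (fun T => ({x, y} : Finset Plane) ⊆ T) ⊆
            ((Fam X r).filter (fun T => x ∈ T ∧ y ∈ T)).erase S := by
          intro T hT
          rw [mem_filter, mem_erase] at hT
          rw [mem_erase, mem_filter]
          exact ⟨hT.1.1, hT.1.2, hT.2 (by simp), hT.2 (by simp)⟩
        have h6 := card_le_card h5
        rw [card_erase_of_mem hSF] at h6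
        omega
      rw [sum_const, card_powersetCard, hS, smul_eq_mul] at h3
      have h7 : (3 : ℕ).choose 2 = 3 := by decide
      rw [h7] at h3
      exact_mod_cast (h2.le.trans h3)
    calc _ ≤ ∑ T ∈ (Fam X r).erase S, q ^ (S ∪ T).card :=
          sum_le_sum_of_subset_of_nonneg hsub (fun _ _ _ => by positivity)
      _ ≤ ∑ T ∈ (Fam X r).erase S, (q ^ 6 + (S.filter (fun x => x ∈ T)).card * q ^ 5 +
        ((powersetCard 2 S).filter (fun e => e ⊆ T)).card * q ^ 4) := sum_le_sum hpt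
      _ = ((Fam X r).erase S).card * q ^ 6 +
          (∑ T ∈ (Fam X r).erase S, ((S.filter (fun x => x ∈ T)).card : ℝ)) * q ^ 5 +
          (∑ T ∈ (Fam X r).erase S,
            (((powersetCard 2 S).filter (fun e => e ⊆ T)).card : ℝ)) * q ^ 4 := by
          rw [sum_add_distrib, sum_add_distrib, sum_const, nsmul_eq_mul, ← sum_mul, ← sum_mul]
      _ ≤ _ := by
          have h8 : (((Fam X r).erase S).card : ℝ) ≤ (X.card : ℝ) ^ 2 / 3 := by
            refine le_trans ?_ hFr
            exact_mod_cast card_le_card (erase_subset S (Fam X r))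
          gcongr
  · have : (powersetCard 3 X).filter (fun T => S ≠ T ∧ ∃ r, HasRadius S r ∧ HasRadius T r) = ∅ := by
      apply filter_false_of_mem
      rintro T _ ⟨_, r, h, _⟩
      exact hr ⟨r, h⟩
    rw [this, sum_empty]
    positivity

/-- a large set in general position contains a large subset with distinct radii -/
theorem exists_distinct {X : Finset Plane} (hX : GenPos X) {k : ℕ} (hk : 3 ≤ k)
    (hn : 10 * k ^ 5 ≤ X.card) : ∃ Y ⊆ X, Y.card = k ∧ DistinctRadii Y := by
  classical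
  set n := X.card with hndef
  set I : Finset (Finset Plane × Finset Plane) := (powersetCard 3 X ×ˢ powersetCard 3 X).filter
    (fun p => p.1 ≠ p.2 ∧ ∃ r, HasRadius p.1 r ∧ HasRadius p.2 r) with hI
  have hk5 : 2 * k ≤ 10 * k ^ 5 := by
    have : k ≤ k ^ 5 := Nat.le_self_pow (by norm_num) k
    omega
  have hn0 : (0 : ℝ) < n := by
    have : 0 < n := by omega
    exact_mod_cast this
  have hk0 : (3 : ℝ) ≤ k := by exact_mod_cast hk
  have hnr : 10 * (k : ℝ) ^ 5 ≤ n := by exact_mod_cast hn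
  have hsum : ∑ p ∈ I, (((2 * k : ℕ) : ℝ) / n) ^ (p.1 ∪ p.2).card ≤ k := by
    set q : ℝ := ((2 * k : ℕ) : ℝ) / n with hq
    have hq0 : 0 ≤ q := by positivity
    have h1 : ∑ p ∈ I, q ^ (p.1 ∪ p.2).card = ∑ S ∈ powersetCard 3 X,
        ∑ T ∈ (powersetCard 3 X).filter (fun T => S ≠ T ∧ ∃ r, HasRadius S r ∧ HasRadius T r),
          q ^ (S ∪ T).card := by
      rw [hI, sum_filter, sum_product]
      refine sum_congr rfl fun S _ => ?_
      rw [sum_filter]
    rw [h1]
    have h2 : ∑ S ∈ powersetCard 3 X,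
        ∑ T ∈ (powersetCard 3 X).filter (fun T => S ≠ T ∧ ∃ r, HasRadius S r ∧ HasRadius T r),
          q ^ (S ∪ T).card ≤ ∑ S ∈ powersetCard 3 X,
            ((n : ℝ) ^ 2 / 3 * q ^ 6 + 3 * n * q ^ 5 + 3 * q ^ 4) := by
      refine sum_le_sum fun S hS => ?_
      rw [mem_powersetCard] at hS
      exact conflict_weight hX hS.1 hS.2 q hq0
    refine h2.trans ?_
    rw [sum_const, card_powersetCard, nsmul_eq_mul, ← hndef]
    have h3 : ((n.choose 3 : ℕ) : ℝ) ≤ (n : ℝ) ^ 3 / 6 := by
      have := Nat.choose_le_pow_div (α := ℝ) 3 n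
      simpa [Nat.factorial] using this
    have h4 : 0 ≤ ((n : ℝ) ^ 2 / 3 * q ^ 6 + 3 * n * q ^ 5 + 3 * q ^ 4) := by positivity
    have h5 : ((n.choose 3 : ℕ) : ℝ) * ((n : ℝ) ^ 2 / 3 * q ^ 6 + 3 * n * q ^ 5 + 3 * q ^ 4) ≤
        (n : ℝ) ^ 3 / 6 * ((n : ℝ) ^ 2 / 3 * q ^ 6 + 3 * n * q ^ 5 + 3 * q ^ 4) :=
      mul_le_mul_of_nonneg_right h3 h4
    refine h5.trans ?_
    have h6 : (n : ℝ) ^ 3 / 6 * ((n : ℝ) ^ 2 / 3 * q ^ 6 + 3 * n * q ^ 5 + 3 * q ^ 4) =
        (32 / 9 * (k : ℝ) ^ 6 + 16 * k ^ 5 + 8 * k ^ 4) / n := by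
      rw [hq]
      push_cast
      field_simp
      ring
    rw [h6, div_le_iff₀ hn0]
    have h7 : 32 / 9 * (k : ℝ) ^ 6 + 16 * k ^ 5 + 8 * k ^ 4 ≤ k * (10 * (k : ℝ) ^ 5) := by
      have h8 : 0 ≤ (k : ℝ) ^ 4 * (58 / 9 * (k : ℝ) ^ 2 - 16 * k - 8) := by
        apply mul_nonneg (by positivity)
        nlinarith
      nlinarith
    refine h7.trans ?_
    gcongr
  obtain ⟨Y, hYX, hY, hI'⟩ := deletion X I (fun p => p.1 ∪ p.2) (2 * k) k (by omega) (by omega)
    (by
      rintro ⟨S, T⟩ hp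
      rw [hI, mem_filter, mem_product, mem_powersetCard, mem_powersetCard] at hp
      have : 0 < S.card := by rw [hp.1.1.2]; norm_num
      exact (card_pos.1 this).mono subset_union_left)
    (by
      push_cast at hsum ⊢
      linarith)
  refine ⟨Y, hYX, hY, ?_⟩
  intro S hS T hT hSc hTc r hSr hTr
  by_contra hne
  apply hI' (S, T)
  · rw [hI, mem_filter, mem_product, mem_powersetCard, mem_powersetCard]
    exact ⟨⟨⟨hS.trans hYX, hSc⟩, hT.trans hYX, hTc⟩, hne, r, hSr, hTr⟩
  · exact union_subset hS hT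

end

end Pool.Agent.Helper543.Radii
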