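import Mathlib
import Pool.Agent.Helper543.Radii
import Pool.Agent.Helper543.Constr

/-! Constructions with few circumradii. -/

namespace Pool.Agent.Helper543.RadiiLow

open Finset Pool.Agent.Helper543.Melchior Pool.Agent.Helper543.PlaneC
open Pool.Agent.Helper543.Blocks Pool.Agent.Helper543.Radii Pool.Agent.Helper543.Constr

noncomputable section

lemma psi_sub (a b : Pt) : psi (a - b) = psi a - psi b := by
  ext i
  fin_cases i <;> simp [psi]

lemma psi_inj : Function.Injective psi := fun u v e => by rw [← phi_psi u, e, phi_psi]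

lemma genPos_of_GP {X : Finset Pt} (h : GP X) : GenPos (X.image psi) := by
  constructor
  · intro T hT hTc hcol
    obtain ⟨a, b, c, hab, hac, hbc, rfl⟩ := card_eq_three.1 hTc
    rw [collinear_iff_cr] at hcol
    have ha := hT (show a ∈ ({a, b, c} : Finset Plane) by simp)
    have hb := hT (show b ∈ ({a, b, c} : Finset Plane) by simp)
    have hc := hT (show c ∈ ({a, b, c} : Finset Plane) by simp)
    have h0 := hcol a (by simp) b (by simp) c (by simp)
    rw [mem_image] at ha hb hc
    obtain ⟨x, hx, rfl⟩ := ha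
    obtain ⟨y, hy, rfl⟩ := hb
    obtain ⟨z, hz, rfl⟩ := hc
    rw [phi_psi, phi_psi, phi_psi] at h0
    exact h.1 x hx y hy z hz (fun e => hab (by rw [e])) (fun e => hac (by rw [e]))
      (fun e => hbc (by rw [e])) h0
  · rintro T hT hTc ⟨c₀, r, hsub⟩
    obtain ⟨a, b, c, e, hab, hac, hae, hbc, hbe, hce, rfl⟩ := card_eq_four.1 hTc
    have ha := hT (show a ∈ ({a, b, c, e} : Finset Plane) by simp)
    have hb := hT (show b ∈ ({a, b, c, e} : Finset Plane) by simp)
    have hc := hT (show c ∈ ({a, b, c, e} : Finset Plane) by simp)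
    have he := hT (show e ∈ ({a, b, c, e} : Finset Plane) by simp)
    have sa := hsub (show a ∈ (({a, b, c, e} : Finset Plane) : Set Plane) by simp)
    have sb := hsub (show b ∈ (({a, b, c, e} : Finset Plane) : Set Plane) by simp)
    have sc := hsub (show c ∈ (({a, b, c, e} : Finset Plane) : Set Plane) by simp)
    have se := hsub (show e ∈ (({a, b, c, e} : Finset Plane) : Set Plane) by simp)
    have hr := pos_of_sphere sa sb hab
    rw [mem_sphere_iff c₀ hr] at sa sb sc se
    have h0 := G_of_On sa sb sc se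
    rw [mem_image] at ha hb hc he
    obtain ⟨x, hx, rfl⟩ := ha
    obtain ⟨y, hy, rfl⟩ := hb
    obtain ⟨z, hz, rfl⟩ := hc
    obtain ⟨w, hw, rfl⟩ := he
    rw [phi_psi, phi_psi, phi_psi, phi_psi] at h0
    exact h.2 x hx y hy z hz w hw (fun e => hab (by rw [e])) (fun e => hac (by rw [e]))
      (fun e => hbc (by rw [e])) (fun e => hae (by rw [e])) (fun e => hbe (by rw [e]))
      (fun e => hce (by rw [e])) h0

/-- sets in general position with few differences -/
theorem exists_plane (d : ℕ) (hd : 1 ≤ d) : ∃ K : ℝ, 0 < K ∧ ∀ m : ℕ, 1 ≤ m →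
    ∃ X : Finset Plane, X.card = m ∧ GenPos X ∧ ∃ D : Finset Plane,
      (D.card : ℝ) ≤ K * (m : ℝ) ^ (1 + 2 / (d : ℝ)) ∧ ∀ a ∈ X, ∀ b ∈ X, a - b ∈ D := by
  classical
  obtain ⟨K, hK, h⟩ := exists_set d hd
  refine ⟨K, hK, fun m hm => ?_⟩
  obtain ⟨X, hX, hgp, D, hD, hdif⟩ := h m hm
  refine ⟨X.image psi, ?_, genPos_of_GP hgp, D.image psi, ?_, ?_⟩
  · rw [card_image_of_injective _ psi_inj, hX]
  · rw [card_image_of_injective _ psi_inj]; exact hD
  · intro a ha b hb
    rw [mem_image] at ha hb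
    obtain ⟨x, hx, rfl⟩ := ha
    obtain ⟨y, hy, rfl⟩ := hb
    rw [← psi_sub]
    exact mem_image_of_mem _ (hdif x hx y hy)

lemma dist_reflect (s x c : Plane) : dist (s - x) (s - c) = dist x c := by
  rw [dist_eq_norm, dist_eq_norm]
  have : s - x - (s - c) = -(x - c) := by abel
  rw [this, norm_neg]

lemma dist_shift (s x c : Plane) : dist (x - s) (c - s) = dist x c := by
  rw [dist_eq_norm, dist_eq_norm]
  congr 1
  abel

/-- no three distinct collinear points -/
lemma not_mid {X : Finset Plane} (hX : GenPos X) {a b c : Plane} (ha : a ∈ X) (hb : b ∈ X)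
    (hc : c ∈ X) (hab : a ≠ b) (hac : a ≠ c) (hbc : b ≠ c) (h : a - b = c - a) : False := by
  classical
  have hcard : ({a, b, c} : Finset Plane).card = 3 :=
    card_eq_three.2 ⟨a, b, c, hab, hac, hbc, rfl⟩
  apply hX.1 {a, b, c} _ hcard
  · rw [collinear_iff_exists_forall_eq_smul_vadd]
    refine ⟨a, a - b, ?_⟩
    intro p hp
    simp only [coe_insert, coe_singleton, Set.mem_insert_iff, Set.mem_singleton_iff] at hp
    rcases hp with rfl | rfl | rfl
    · exact ⟨0, by simp⟩
    · exact ⟨-1, by simp⟩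
    · refine ⟨1, ?_⟩
      rw [one_smul, h, vadd_eq_add]; abel
  · intro x hx
    simp only [mem_insert, mem_singleton] at hx
    rcases hx with rfl | rfl | rfl
    · exact ha
    · exact hb
    · exact hc

/-- a set with distinct radii is a Sidon set -/
theorem sidon {X Y : Finset Plane} (hX : GenPos X) (hYX : Y ⊆ X) (hY : DistinctRadii Y)
    {a b c e : Plane} (ha : a ∈ Y) (hb : b ∈ Y) (hc : c ∈ Y) (he : e ∈ Y) (hab : a ≠ b)
    (h : a - b = c - e) : a = c := by
  classical
  by_contra hac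
  have hbe : b ≠ e := by
    rintro rfl
    apply hac
    exact sub_left_injective h
  have hce : c ≠ e := by
    rintro rfl
    rw [sub_self, sub_eq_zero] at h
    exact hab h
  have hae : a ≠ e := by
    rintro rfl
    exact not_mid hX (hYX ha) (hYX hb) (hYX hc) hab hac
      (by rintro rfl
          have h2 : a - b = b - a := h
          apply not_lt_of_ge le_rfl (show (0 : ℝ) < 0 from ?_)
          exfalso
          apply hab
          have h3 : (2 : ℝ) • (a - b) = 0 := by
            rw [two_smul]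
            nth_rewrite 2 [h2]
            abel
          rw [smul_eq_zero] at h3
          rcases h3 with h3 | h3
          · norm_num at h3
          · exact sub_eq_zero.1 h3) h
  have hbc : b ≠ c := by
    rintro rfl
    exact not_mid hX (hYX hb) (hYX he) (hYX ha) hce hab.symm hae.symm (by rw [← h])
  -- a + e = b + c
  have hsum : a = b + c - e := by
    have : a = (a - b) + b := by abel
    rw [this, h]; abel
  have hS : ({a, b, c} : Finset Plane).card = 3 :=
    card_eq_three.2 ⟨a, b, c, hab, hac, hbc, rfl⟩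
  have hT : ({e, c, b} : Finset Plane).card = 3 :=
    card_eq_three.2 ⟨e, c, b, hce.symm, hbe.symm, hbc.symm, rfl⟩
  have hSY : ({a, b, c} : Finset Plane) ⊆ Y := by
    intro x hx
    simp only [mem_insert, mem_singleton] at hx
    rcases hx with rfl | rfl | rfl <;> assumption
  have hTY : ({e, c, b} : Finset Plane) ⊆ Y := by
    intro x hx
    simp only [mem_insert, mem_singleton] at hx
    rcases hx with rfl | rfl | rfl <;> assumption
  -- the circumscribed circle
  have hcol := hX.1 _ (hSY.trans hYX) hS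
  have hcr : cr (phi a) (phi b) (phi c) ≠ 0 := by
    intro h0
    apply hcol
    rw [collinear_iff_cr]
    have hall : ∀ z ∈ (({a, b, c} : Finset Plane) : Set Plane), z = a ∨ z = b ∨ z = c := by
      intro z hz; simpa using hz
    have hcr0 : (( phi b).1 - (phi a).1) * ((phi c).2 - (phi a).2) -
      ((phi b).2 - (phi a).2) * ((phi c).1 - (phi a).1) = 0 := h0
    intro x hx y hy z hz
    rcases hall x hx with rfl | rfl | rfl <;> rcases hall y hy with rfl | rfl | rfl <;>
      rcases hall z hz with rfl | rfl | rfl <;> simp only [cr] <;> linarith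
  obtain ⟨p, q, k, o1, o2, o3⟩ := exists_On hcr
  obtain ⟨c₀, r, hr, hx⟩ := exists_sphere o1 o2 (phi_inj.ne hab)
  have hSr : HasRadius {a, b, c} r := by
    refine ⟨c₀, ?_⟩
    intro x hxS
    simp only [coe_insert, coe_singleton, Set.mem_insert_iff, Set.mem_singleton_iff] at hxS
    rcases hxS with rfl | rfl | rfl
    · exact (hx _).2 o1
    · exact (hx _).2 o2
    · exact (hx _).2 o3
  have hTr : HasRadius {e, c, b} r := by
    refine ⟨b + c - c₀, ?_⟩
    have key : ∀ z, z ∈ Metric.sphere c₀ r → b + c - z ∈ Metric.sphere (b + c - c₀) r := by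
      intro z hz
      rw [Metric.mem_sphere] at hz ⊢
      rw [dist_reflect, hz]
    intro x hxT
    simp only [coe_insert, coe_singleton, Set.mem_insert_iff, Set.mem_singleton_iff] at hxT
    rcases hxT with rfl | rfl | rfl
    · have := key a ((hx _).2 o1)
      have h2 : b + c - a = x := by rw [hsum]; abel
      rwa [h2] at this
    · have := key b ((hx _).2 o2)
      have h2 : b + x - b = x := by abel
      rwa [h2] at this
    · have := key c ((hx _).2 o3)
      have h2 : x + c - c = x := by abel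
      rwa [h2] at this
  have hEq := hY _ hSY _ hTY hS hT r hSr hTr
  have : a ∈ ({e, c, b} : Finset Plane) := by rw [← hEq]; simp
  simp only [mem_insert, mem_singleton] at this
  rcases this with h1 | h1 | h1
  · exact hae h1
  · exact hac h1
  · exact hab h1

theorem offDiag_le {X Y D : Finset Plane} (hX : GenPos X) (hYX : Y ⊆ X) (hY : DistinctRadii Y)
    (hD : ∀ a ∈ X, ∀ b ∈ X, a - b ∈ D) : Y.offDiag.card ≤ D.card := by
  apply card_le_card_of_injOn (fun p => p.1 - p.2)
  · intro p hp
    rw [mem_coe, mem_offDiag] at hp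
    exact hD _ (hYX hp.1) _ (hYX hp.2.1)
  · rintro ⟨a, b⟩ hp ⟨c, e⟩ hp' h
    rw [mem_coe, mem_offDiag] at hp hp'
    simp only at h hp hp'
    have h1 := sidon hX hYX hY hp.1 hp.2.1 hp'.1 hp'.2.1 hp.2.2 h
    subst h1
    have h2 : b = e := sub_right_injective h
    rw [h2]

/-- the least size forcing a `k`-subset with distinct radii -/
def nk (k : ℕ) : ℕ :=
  sInf {m | ∀ X : Finset Plane, X.card = m → GenPos X → ∃ Y ⊆ X, Y.card = k ∧ DistinctRadii Y}

lemma small_distinct {Y : Finset Plane} (hY : Y.card ≤ 2) : DistinctRadii Y := by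
  intro S hS T hT hSc
  have := card_le_card hS
  omega

lemma mem_nk (k m : ℕ) (hk : 1 ≤ k) (hm : 10 * k ^ 5 ≤ m) : ∀ X : Finset Plane, X.card = m →
    GenPos X → ∃ Y ⊆ X, Y.card = k ∧ DistinctRadii Y := by
  intro X hX hgp
  by_cases hk3 : 3 ≤ k
  · exact exists_distinct hgp hk3 (hX ▸ hm)
  · have h1 : k ≤ X.card := by
      have : k ≤ k ^ 5 := Nat.le_self_pow (by norm_num) k
      omega
    obtain ⟨Y, hY, hYc⟩ := exists_subset_card_eq h1
    exact ⟨Y, hY, hYc, small_distinct (by omega)⟩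

theorem nk_le (k : ℕ) (hk : 1 ≤ k) : nk k ≤ 10 * k ^ 5 :=
  Nat.sInf_le (mem_nk k _ hk le_rfl)

lemma nk_spec (k : ℕ) (hk : 1 ≤ k) : ∀ X : Finset Plane, X.card = nk k → GenPos X →
    ∃ Y ⊆ X, Y.card = k ∧ DistinctRadii Y := by
  have hne : {m | ∀ X : Finset Plane, X.card = m → GenPos X → ∃ Y ⊆ X, Y.card = k ∧
    DistinctRadii Y}.Nonempty := ⟨10 * k ^ 5, mem_nk k _ hk le_rfl⟩
  exact Nat.sInf_mem hne

theorem nk_ge (ε : ℝ) (hε : 0 < ε) : ∃ c : ℝ, 0 < c ∧ ∀ k : ℕ, 1 ≤ k →
    c * (k : ℝ) ^ (2 - ε) ≤ nk k := by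
  obtain ⟨d, hd⟩ := exists_nat_gt (4 / ε)
  have hd0 : (0 : ℝ) < d := lt_trans (by positivity) hd
  have hd1 : 1 ≤ d := by
    have : 0 < d := by exact_mod_cast hd0
    omega
  obtain ⟨K, hK, hcon⟩ := exists_plane d hd1
  -- exponent
  set t : ℝ := 1 + 2 / (d : ℝ) with ht
  have ht1 : 1 ≤ t := by rw [ht]; have : 0 < 2 / (d : ℝ) := by positivity
                         linarith
  have ht0 : 0 < t := by linarith
  set K' : ℝ := max (2 * K) 1 with hK'
  have hK'1 : 1 ≤ K' := le_max_right _ _
  refine ⟨(1 / K') ^ (1 / t), by positivity, fun k hk => ?_⟩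
  have hk0 : (1 : ℝ) ≤ k := by exact_mod_cast hk
  have hnk1 : 1 ≤ nk k := by
    by_contra h0
    have h0' : nk k = 0 := by omega
    obtain ⟨Y, hY, hYc, -⟩ := nk_spec k hk ∅ (by rw [h0']; rfl)
      ⟨fun T hT hTc => by
          have := card_le_card hT
          rw [card_empty] at this; omega,
        fun T hT hTc => by
          have := card_le_card hT
          rw [card_empty] at this; omega⟩
    have := card_le_card hY
    rw [card_empty] at this
    omega
  have hN : (1 : ℝ) ≤ nk k := by exact_mod_cast hnk1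
  -- main inequality
  have hmain : (k : ℝ) ^ (2 : ℕ) ≤ K' * (nk k : ℝ) ^ t := by
    by_cases hk2 : k = 1
    · rw [hk2]
      have h1 : (1 : ℝ) ≤ (nk 1 : ℝ) ^ t := Real.one_le_rpow (by rw [← hk2]; exact hN) ht0.le
      push_cast
      nlinarith
    · obtain ⟨X, hXc, hgp, D, hD, hdif⟩ := hcon (nk k) hnk1
      obtain ⟨Y, hYX, hYc, hY⟩ := nk_spec k hk X hXc hgp
      have h1 := offDiag_le hgp hYX hY hdif
      rw [offDiag_card, hYc] at h1
      have h2 : k * k ≤ 2 * (k * k - k) := by
        have : 2 ≤ k := by omega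
        have h3 : 2 * k ≤ k * k := Nat.mul_le_mul_right k this
        omega
      have h3 : k ^ 2 ≤ 2 * D.card := by rw [sq]; omega
      have h4 : (k : ℝ) ^ 2 ≤ 2 * (D.card : ℝ) := by exact_mod_cast h3
      calc (k : ℝ) ^ 2 ≤ 2 * (D.card : ℝ) := h4
        _ ≤ 2 * (K * (nk k : ℝ) ^ t) := by gcongr
        _ = (2 * K) * (nk k : ℝ) ^ t := by ring
        _ ≤ K' * (nk k : ℝ) ^ t := by
            gcongr
            exact le_max_left _ _
  have h1 : (1 / K') * (k : ℝ) ^ (2 : ℕ) ≤ (nk k : ℝ) ^ t := by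
    rw [one_div, inv_mul_le_iff₀ (by positivity)]
    exact hmain
  have h2 : ((1 / K') * (k : ℝ) ^ (2 : ℕ)) ^ (1 / t) ≤ ((nk k : ℝ) ^ t) ^ (1 / t) :=
    Real.rpow_le_rpow (by positivity) h1 (by positivity)
  rw [← Real.rpow_mul (by positivity), mul_one_div_cancel ht0.ne', Real.rpow_one,
    Real.mul_rpow (by positivity) (by positivity), ← Real.rpow_natCast,
    ← Real.rpow_mul (by positivity)] at h2
  refine le_trans ?_ h2
  gcongr
  · -- 2 - ε ≤ 2 / t
    push_cast
    rw [mul_one_div, le_div_iff₀ ht0, ht]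
    have h3 : 4 < ε * d := by
      rw [div_lt_iff₀ hε] at hd; linarith
    have h4 : (2 - ε) * (1 + 2 / (d : ℝ)) * d ≤ 2 * d := by
      have : (2 - ε) * (1 + 2 / (d : ℝ)) * d = (2 - ε) * (d + 2) := by field_simp
      rw [this]
      nlinarith
    exact le_of_mul_le_mul_right h4 hd0

/-- the set of circumradii -/
def radii (P : Finset Plane) : Set ℝ := {r | ∃ T ⊆ P, T.card = 3 ∧ HasRadius T r}

lemma hasRadius_shift {T : Finset Plane} {r : ℝ} (s : Plane) (h : HasRadius T r) :
    HasRadius (T.image (fun x => x - s)) r := by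
  classical
  obtain ⟨c, hc⟩ := h
  refine ⟨c - s, ?_⟩
  intro x hx
  rw [mem_coe, mem_image] at hx
  obtain ⟨y, hy, rfl⟩ := hx
  rw [Metric.mem_sphere, dist_shift]
  exact Metric.mem_sphere.1 (hc hy)

open Classical in
/-- the radius attached to a pair of differences -/
def rad (p : Plane × Plane) : ℝ :=
  if h : ∃ r, HasRadius {0, p.1, p.2} r then h.choose else 0

theorem radii_subset {P D : Finset Plane} (hD : ∀ a ∈ P, ∀ b ∈ P, a - b ∈ D) :
    radii P ⊆ (((D ×ˢ D).image rad : Finset ℝ) : Set ℝ) := by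
  classical
  rintro r ⟨T, hT, hTc, hTr⟩
  obtain ⟨a, b, c, hab, hac, hbc, rfl⟩ := card_eq_three.1 hTc
  have ha := hT (show a ∈ ({a, b, c} : Finset Plane) by simp)
  have hb := hT (show b ∈ ({a, b, c} : Finset Plane) by simp)
  have hc := hT (show c ∈ ({a, b, c} : Finset Plane) by simp)
  rw [mem_coe, mem_image]
  refine ⟨(b - a, c - a), mem_product.2 ⟨hD b hb a ha, hD c hc a ha⟩, ?_⟩
  have h1 := hasRadius_shift a hTr
  have h2 : ({a, b, c} : Finset Plane).image (fun x => x - a) = {0, b - a, c - a} := by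
    simp [image_insert, image_singleton]
  rw [h2] at h1
  have hex : ∃ r, HasRadius {0, b - a, c - a} r := ⟨r, h1⟩
  unfold rad
  simp only
  rw [dif_pos hex]
  have hcard : ({0, b - a, c - a} : Finset Plane).card = 3 := by
    rw [card_eq_three]
    refine ⟨0, b - a, c - a, ?_, ?_, ?_, rfl⟩
    · intro e; exact hab (sub_eq_zero.1 e.symm).symm
    · intro e; exact hac (sub_eq_zero.1 e.symm).symm
    · intro e; exact hbc (sub_left_injective e)
  exact radius_unique hcard.ge hex.choose_spec h1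

theorem radii_finite (P : Finset Plane) : (radii P).Finite := by
  classical
  exact (Finset.finite_toSet _).subset (radii_subset (P := P)
    (D := (P ×ˢ P).image (fun p => p.1 - p.2))
    (fun a ha b hb => mem_image.2 ⟨(a, b), mem_product.2 ⟨ha, hb⟩, rfl⟩))

theorem few_radii (ε : ℝ) (hε : 0 < ε) : ∃ K : ℝ, 0 < K ∧ ∀ n : ℕ, 1 ≤ n →
    ∃ P : Finset Plane, P.card = n ∧ GenPos P ∧ (radii P).Finite ∧
      ((radii P).ncard : ℝ) ≤ K * (n : ℝ) ^ (2 + ε) := by
  classical
  obtain ⟨d, hd⟩ := exists_nat_gt (4 / ε)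
  have hd0 : (0 : ℝ) < d := lt_trans (by positivity) hd
  have hd1 : 1 ≤ d := by
    have : 0 < d := by exact_mod_cast hd0
    omega
  obtain ⟨K, hK, hcon⟩ := exists_plane d hd1
  refine ⟨K ^ 2, by positivity, fun n hn => ?_⟩
  obtain ⟨P, hPc, hgp, D, hD, hdif⟩ := hcon n hn
  have hsub := radii_subset hdif
  have hn1 : (1 : ℝ) ≤ n := by exact_mod_cast hn
  refine ⟨P, hPc, hgp, (Finset.finite_toSet _).subset hsub, ?_⟩
  have h1 : (radii P).ncard ≤ D.card * D.card := by
    calc (radii P).ncard ≤ (((D ×ˢ D).image rad : Finset ℝ) : Set ℝ).ncard :=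
          Set.ncard_le_ncard hsub (Finset.finite_toSet _)
      _ = ((D ×ˢ D).image rad).card := Set.ncard_coe_finset _
      _ ≤ (D ×ˢ D).card := card_image_le
      _ = _ := card_product _ _
  calc ((radii P).ncard : ℝ) ≤ (D.card : ℝ) * D.card := by exact_mod_cast h1
    _ ≤ (K * (n : ℝ) ^ (1 + 2 / (d : ℝ))) * (K * (n : ℝ) ^ (1 + 2 / (d : ℝ))) := by gcongr
    _ = K ^ 2 * (n : ℝ) ^ (2 + 4 / (d : ℝ)) := by
        have : (n : ℝ) ^ (2 + 4 / (d : ℝ)) =
            (n : ℝ) ^ (1 + 2 / (d : ℝ)) * (n : ℝ) ^ (1 + 2 / (d : ℝ)) := by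
          rw [← Real.rpow_add (by positivity)]
          congr 1
          ring
        rw [this]; ring
    _ ≤ K ^ 2 * (n : ℝ) ^ (2 + ε) := by
        gcongr
        rw [div_le_iff₀ hd0]
        rw [div_lt_iff₀ hε] at hd
        linarith

end

end Pool.Agent.Helper543.RadiiLow
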