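import Mathlib

set_option autoImplicit false

namespace Pool.Agent.Helper543.Steiner

open Finset

/-- `B` is the block set of a Steiner system `S(t,k,·)` on the finite point set `X`. -/
def IsSteiner {X : Type} [Fintype X] [DecidableEq X] (t k : ℕ) (B : Finset (Finset X)) : Prop :=
  (∀ b ∈ B, b.card = k) ∧ ∀ T : Finset X, T.card = t → ∃! b, b ∈ B ∧ T ⊆ b

/-- A colouring is proper if no block is rainbow: every block contains two distinct points of the
same colour. -/
def Proper {X : Type} (B : Finset (Finset X)) (φ : X → ℕ) : Prop :=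
  ∀ b ∈ B, ∃ x ∈ b, ∃ y ∈ b, x ≠ y ∧ φ x = φ y

/-- The upper chromatic number: the largest number of colours used by a proper colouring. -/
noncomputable def upperChromatic {X : Type} [Fintype X] (B : Finset (Finset X)) : ℕ :=
  sSup {m | ∃ φ : X → ℕ, Proper B φ ∧ (univ.image φ).card = m}

theorem bdd {X : Type} [Fintype X] (B : Finset (Finset X)) :
    BddAbove {m | ∃ φ : X → ℕ, Proper B φ ∧ (univ.image φ).card = m} := by
  refine ⟨Fintype.card X, ?_⟩
  rintro m ⟨φ, -, rfl⟩
  calc (univ.image φ).card ≤ (univ : Finset X).card := card_image_le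
    _ = Fintype.card X := card_univ

theorem le_upper {X : Type} [Fintype X] {B : Finset (Finset X)} {φ : X → ℕ} (h : Proper B φ) :
    (univ.image φ).card ≤ upperChromatic B := le_csSup (bdd B) ⟨φ, h, rfl⟩

theorem upper_attained {X : Type} [Fintype X] {B : Finset (Finset X)}
    (h : ∀ b ∈ B, 2 ≤ b.card) :
    ∃ φ : X → ℕ, Proper B φ ∧ (univ.image φ).card = upperChromatic B := by
  have hne : {m | ∃ φ : X → ℕ, Proper B φ ∧ (univ.image φ).card = m}.Nonempty := by
    refine ⟨_, fun _ => 0, ?_, rfl⟩
    intro b hb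
    obtain ⟨x, hx, y, hy, hxy⟩ := one_lt_card.1 (h b hb)
    exact ⟨x, hx, y, hy, hxy, rfl⟩
  exact Nat.sSup_mem hne (bdd B)

/-- functions that are constant on a nonempty set -/
theorem card_const_le (v q : ℕ) (S : Finset (Fin v)) (hS : S.Nonempty) :
    ((univ : Finset (Fin v → Fin q)).filter (fun f => ∀ x ∈ S, ∀ y ∈ S, f x = f y)).card *
      q ^ (S.card - 1) ≤ q ^ v := by
  classical
  obtain ⟨x0, hx0⟩ := hS
  have h1 : ((univ : Finset (Fin v → Fin q)).filter
      (fun f => ∀ x ∈ S, ∀ y ∈ S, f x = f y)).card ≤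
      (univ : Finset ({x // x ∉ S.erase x0} → Fin q)).card := by
    apply card_le_card_of_injOn (fun f x => f x.1)
    · intro f _; exact mem_univ _
    · intro f hf g hg hfg
      simp only [coe_filter, Set.mem_ofPred_eq, mem_univ, true_and] at hf hg
      funext x
      by_cases hx : x ∈ S.erase x0
      · have hxS := mem_of_mem_erase hx
        have e0 : x0 ∉ S.erase x0 := notMem_erase x0 S
        have := congrFun hfg ⟨x0, e0⟩
        rw [hf x hxS x0 hx0, hg x hxS x0 hx0]
        exact this
      · exact congrFun hfg ⟨x, hx⟩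
  have h2 : (univ : Finset ({x // x ∉ S.erase x0} → Fin q)).card = q ^ (v - (S.card - 1)) := by
    rw [card_univ, Fintype.card_fun, Fintype.card_fin]
    congr 1
    rw [Fintype.card_subtype_compl, Fintype.card_fin, Fintype.card_coe, card_erase_of_mem hx0]
  have hSv : S.card ≤ v := by
    have := card_le_univ S
    simpa using this
  calc _ ≤ q ^ (v - (S.card - 1)) * q ^ (S.card - 1) := by
        rw [← h2]; exact Nat.mul_le_mul_right _ h1
    _ = q ^ v := by rw [← pow_add]; congr 1; omega

/-- Deletion: a set `U` contains a large subset `Y` without members of `F`. -/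
theorem exists_indep (v q : ℕ) (hq : 1 ≤ q) (U : Finset (Fin v)) (F : Finset (Finset (Fin v)))
    (hF : ∀ S ∈ F, S.Nonempty)
    (h : 2 * ∑ S ∈ F, ((q : ℝ) ^ (S.card - 1))⁻¹ ≤ U.card) :
    ∃ Y : Finset (Fin v), Y ⊆ U ∧ (∀ S ∈ F, ¬ S ⊆ Y) ∧ U.card ≤ 2 * q * Y.card := by
  classical
  have hq0 : (0 : ℝ) < q := by exact_mod_cast hq
  let part : (Fin v → Fin q) → Fin q → Finset (Fin v) := fun f j => U.filter (fun x => f x = j)
  let bad : (Fin v → Fin q) → Fin q → Finset (Finset (Fin v)) :=
    fun f j => F.filter (fun S => S ⊆ part f j)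
  have hsum1 : ∀ f, ∑ j, (part f j).card = U.card := by
    intro f
    have := card_eq_sum_card_fiberwise (f := f) (s := U) (t := univ)
      (fun x _ => mem_univ (f x))
    exact this.symm
  have hsum2 : ((∑ f, ∑ j, (bad f j).card : ℕ) : ℝ) ≤
      (q : ℝ) ^ v * ∑ S ∈ F, ((q : ℝ) ^ (S.card - 1))⁻¹ := by
    have e1 : ∑ f, ∑ j, (bad f j).card ≤ ∑ S ∈ F, ((univ : Finset (Fin v → Fin q)).filter
        (fun f => ∀ x ∈ S, ∀ y ∈ S, f x = f y)).card := by
      have e2 : ∀ f, ∑ j, (bad f j).card ≤
          (F.filter (fun S => ∀ x ∈ S, ∀ y ∈ S, f x = f y)).card := by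
        intro f
        rw [← card_biUnion]
        · apply card_le_card
          intro S hS
          rw [mem_biUnion] at hS
          obtain ⟨j, -, hj⟩ := hS
          rw [mem_filter] at hj
          rw [mem_filter]
          refine ⟨hj.1, fun x hx y hy => ?_⟩
          have h1 := hj.2 hx
          have h2 := hj.2 hy
          simp only [part, mem_filter] at h1 h2
          rw [h1.2, h2.2]
        · intro j _ j' _ hjj'
          rw [Function.onFun, disjoint_left]
          intro S hS hS'
          rw [mem_filter] at hS hS'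
          obtain ⟨x, hx⟩ := hF S hS.1
          have h1 := hS.2 hx
          have h2 := hS'.2 hx
          simp only [part, mem_filter] at h1 h2
          exact hjj' (h1.2.symm.trans h2.2)
      calc ∑ f, ∑ j, (bad f j).card
          ≤ ∑ f : Fin v → Fin q, (F.filter (fun S => ∀ x ∈ S, ∀ y ∈ S, f x = f y)).card :=
            sum_le_sum fun f _ => e2 f
        _ = ∑ f : Fin v → Fin q, ∑ S ∈ F, if (∀ x ∈ S, ∀ y ∈ S, f x = f y) then 1 else 0 := by
            refine sum_congr rfl fun f _ => ?_
            rw [card_filter]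
        _ = ∑ S ∈ F, ∑ f : Fin v → Fin q, if (∀ x ∈ S, ∀ y ∈ S, f x = f y) then 1 else 0 :=
            sum_comm
        _ = _ := by
            refine sum_congr rfl fun S _ => ?_
            rw [card_filter]
    have e3 : ((∑ f, ∑ j, (bad f j).card : ℕ) : ℝ) ≤ ((∑ S ∈ F,
        ((univ : Finset (Fin v → Fin q)).filter
        (fun f => ∀ x ∈ S, ∀ y ∈ S, f x = f y)).card : ℕ) : ℝ) := by exact_mod_cast e1
    refine e3.trans ?_
    rw [mul_sum]
    push_cast
    refine sum_le_sum fun S hS => ?_
    have h5 := card_const_le v q S (hF S hS)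
    have h6 : ((((univ : Finset (Fin v → Fin q)).filter
        (fun f => ∀ x ∈ S, ∀ y ∈ S, f x = f y)).card : ℕ) : ℝ) * (q : ℝ) ^ (S.card - 1) ≤
        (q : ℝ) ^ v := by exact_mod_cast h5
    rw [← div_eq_mul_inv, le_div_iff₀ (by positivity)]
    exact h6
  -- a good pair
  have hgood : ∃ f : Fin v → Fin q, ∃ j : Fin q,
      U.card + 2 * q * (bad f j).card ≤ 2 * q * (part f j).card := by
    by_contra hcon
    push Not at hcon
    have h1 : ∑ f : Fin v → Fin q, ∑ j : Fin q, (2 * q * (part f j).card) <
        ∑ f : Fin v → Fin q, ∑ j : Fin q, (U.card + 2 * q * (bad f j).card) := by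
      have hne : (univ : Finset (Fin q)).Nonempty := ⟨⟨0, hq⟩, mem_univ _⟩
      have hne2 : (univ : Finset (Fin v → Fin q)).Nonempty := ⟨fun _ => ⟨0, hq⟩, mem_univ _⟩
      exact sum_lt_sum_of_nonempty hne2 fun f _ => sum_lt_sum_of_nonempty hne fun j _ => hcon f j
    have e1 : ∑ f : Fin v → Fin q, ∑ j : Fin q, (2 * q * (part f j).card) =
        2 * q * (q ^ v * U.card) := by
      simp only [← mul_sum, hsum1, sum_const, card_univ, Fintype.card_fun, Fintype.card_fin,
        smul_eq_mul]
    have e2 : ∑ f : Fin v → Fin q, ∑ j : Fin q, (U.card + 2 * q * (bad f j).card) =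
        q ^ v * (q * U.card) + 2 * q * ∑ f, ∑ j, (bad f j).card := by
      simp only [sum_add_distrib, ← mul_sum, sum_const, card_univ, Fintype.card_fun,
        Fintype.card_fin, smul_eq_mul]
      ring
    rw [e1, e2] at h1
    set sb := ∑ f, ∑ j, (bad f j).card with hsb
    have h2 : q ^ v * U.card < 2 * sb := by
      have h3 : q * (q ^ v * U.card) < q * (2 * sb) := by nlinarith
      exact lt_of_mul_lt_mul_left h3 (Nat.zero_le _)
    have h3 : (q : ℝ) ^ v * U.card < 2 * sb := by exact_mod_cast h2
    have h4 : (q : ℝ) ^ v * (2 * ∑ S ∈ F, ((q : ℝ) ^ (S.card - 1))⁻¹) ≤ (q : ℝ) ^ v * U.card :=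
      mul_le_mul_of_nonneg_left h (by positivity)
    linarith
  obtain ⟨f, j, hfj⟩ := hgood
  -- delete a point of every bad set
  let pt : {S // S ∈ bad f j} → Fin v := fun S => (hF S.1 (mem_filter.1 S.2).1).choose
  have hpt : ∀ S, pt S ∈ S.1 := fun S => (hF S.1 (mem_filter.1 S.2).1).choose_spec
  let D : Finset (Fin v) := (univ : Finset {S // S ∈ bad f j}).image pt
  have hD : D.card ≤ (bad f j).card := by
    calc D.card ≤ (univ : Finset {S // S ∈ bad f j}).card := card_image_le
      _ = (bad f j).card := by rw [card_univ, Fintype.card_coe]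
  refine ⟨part f j \ D, ?_, ?_, ?_⟩
  · intro x hx
    exact (mem_filter.1 (mem_sdiff.1 hx).1).1
  · intro S hS hsub
    have h1 : S ∈ bad f j := mem_filter.2 ⟨hS, fun x hx => (mem_sdiff.1 (hsub hx)).1⟩
    have h2 := hsub (hpt ⟨S, h1⟩)
    exact (mem_sdiff.1 h2).2 (mem_image_of_mem _ (mem_univ _))
  · have h3 : (part f j).card ≤ (part f j \ D).card + D.card := by
      have := card_sdiff_add_card (part f j) D
      have h4 : (part f j).card ≤ (part f j ∪ D).card := card_le_card subset_union_left
      omega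
    nlinarith

/-- number of blocks -/
theorem card_blocks {X : Type} [Fintype X] [DecidableEq X] {t k : ℕ} {B : Finset (Finset X)}
    (h : IsSteiner t k B) : B.card * k.choose t = (Fintype.card X).choose t := by
  have h1 : (powersetCard t (univ : Finset X)).card = ∑ b ∈ B, (powersetCard t b).card := by
    rw [← card_biUnion]
    · congr 1
      ext T
      simp only [mem_powersetCard, mem_biUnion, subset_univ, true_and]
      constructor
      · intro hT
        obtain ⟨b, ⟨hb, hTb⟩, -⟩ := h.2 T hT
        exact ⟨b, hb, hTb, hT⟩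
      · rintro ⟨b, -, -, hT⟩
        exact hT
    · intro b hb b' hb' hne
      rw [Function.onFun, disjoint_left]
      intro T hT hT'
      rw [mem_powersetCard] at hT hT'
      exact hne ((h.2 T hT.2).unique ⟨hb, hT.1⟩ ⟨hb', hT'.1⟩)
  rw [card_powersetCard, card_univ] at h1
  rw [h1, sum_congr rfl (fun b hb => by rw [card_powersetCard, h.1 b hb]), sum_const, smul_eq_mul]

end Pool.Agent.Helper543.Steiner
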