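import Pool.Agent.Helper543.SteinerPlace

set_option autoImplicit false

namespace Pool.Agent.Helper543.Steiner

open Finset Filter

theorem upper_half {k : ℕ} (hk : 4 ≤ k)
    (hfam : ∀ N : ℕ, ∃ w, N ≤ w ∧ (∃ Ls : Finset (Finset (Fin (w ^ 2))), IsSteiner 2 w Ls) ∧
      (∃ D : Finset (Finset (Fin w)), IsSteiner 2 k D))
    (c : ℝ) (hc : ((k : ℝ) - 3) / ((k : ℝ) - 2) < c) (C : ℝ) (hC : 0 < C) :
    ∃ v, k ≤ v ∧ ∃ B : Finset (Finset (Fin v)), IsSteiner 2 k B ∧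
      (upperChromatic B : ℝ) < C * (v : ℝ) ^ c := by
  classical
  have hkr : (4 : ℝ) ≤ k := by exact_mod_cast hk
  set K : ℝ := (k : ℝ) - 2 with hK
  have hK2 : 2 ≤ K := by rw [hK]; linarith
  have hK0 : 0 < K := by linarith
  have hcast2 : ((k - 2 : ℕ) : ℝ) = K := by
    rw [Nat.cast_sub (by omega : 2 ≤ k)]; push_cast; rfl
  have hcast1 : ((k - 1 : ℕ) : ℝ) = K + 1 := by
    rw [Nat.cast_sub (by omega : 1 ≤ k)]; push_cast; rw [hK]; ring
  have hθ : ((k : ℝ) - 3) / K = (K - 1) / K := by rw [hK]; congr 1; ring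
  rw [hθ] at hc
  set d : ℝ := c - (K - 1) / K with hd
  have hd0 : 0 < d := by rw [hd]; linarith
  obtain ⟨ε, hε0, hεK, hεd⟩ : ∃ ε : ℝ, 0 < ε ∧ ε ≤ 1 / (K + 1) ^ 2 ∧ ε ≤ d :=
    ⟨min (1 / (K + 1) ^ 2) d, lt_min (by positivity) hd0, min_le_left _ _, min_le_right _ _⟩
  set α : ℝ := (K - 2) / K + ε with hα
  set β : ℝ := -(2 / K) + ε with hβ
  have hαβ : β = α - 1 := by rw [hα, hβ]; field_simp; ring
  have hα0 : 0 < α := by
    rw [hα]
    have : 0 ≤ (K - 2) / K := div_nonneg (by linarith) hK0.le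
    linarith
  have hKe : (K + 1) * ε ≤ 1 / (K + 1) := by
    calc (K + 1) * ε ≤ (K + 1) * (1 / (K + 1) ^ 2) := by
          apply mul_le_mul_of_nonneg_left hεK (by linarith)
      _ = 1 / (K + 1) := by field_simp
  have h1K : 1 / (K + 1) < 1 / K := by
    apply one_div_lt_one_div_of_lt hK0; linarith
  have h1K2 : 1 / K ≤ 1 / 2 := one_div_le_one_div_of_le (by norm_num) hK2
  have hβ0 : β < 0 := by
    rw [hβ]
    have : ε ≤ (K + 1) * ε := by nlinarith
    have h2 : 2 / K = 2 * (1 / K) := by ring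
    have h3 : 0 < 1 / K := by positivity
    rw [h2]
    linarith
  -- exponents
  have he1 : 1 + β * K < 0 := by
    have : β * K = -2 + K * ε := by rw [hβ]; field_simp
    rw [this]
    nlinarith
  have he2 : 2 + β * (K + 1) < 0 := by
    have : β * (K + 1) = -2 - 2 / K + (K + 1) * ε := by rw [hβ]; field_simp; ring
    rw [this]
    have h2 : 2 / K = 2 * (1 / K) := by ring
    have h3 : 0 < 1 / K := by positivity
    rw [h2]
    linarith
  have he4 : 2 + β * K = K * ε := by rw [hβ]; field_simp; ring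
  have hnat : Tendsto (fun w : ℕ => (w : ℝ)) atTop atTop := tendsto_natCast_atTop_atTop
  -- eventually statements
  have E1 : ∀ᶠ w : ℕ in atTop, (2 * (k : ℝ)) ≤ (w : ℝ) ^ α :=
    ((tendsto_rpow_atTop hα0).comp hnat).eventually_ge_atTop _
  have E2 : ∀ᶠ w : ℕ in atTop, 2 * (w : ℝ) ^ β ≤ 1 := by
    have h1 : Tendsto (fun w : ℕ => (w : ℝ) ^ β) atTop (nhds 0) := by
      have h := tendsto_rpow_neg_atTop (show 0 < -β by linarith)
      rw [neg_neg] at h
      exact h.comp hnat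
    have h2 := h1.eventually (gt_mem_nhds (show (0 : ℝ) < 1 / 2 by norm_num))
    filter_upwards [h2] with w hw
    linarith
  have E3 : ∀ᶠ w : ℕ in atTop, (k : ℝ) * 2 ^ (k - 2) * (w : ℝ) ^ (1 + β * K) +
      2 ^ (k - 1) * (w : ℝ) ^ (2 + β * (K + 1)) ≤ (1 / 2) ^ (k - 1) := by
    have h1 : Tendsto (fun w : ℕ => (w : ℝ) ^ (1 + β * K)) atTop (nhds 0) := by
      have h := tendsto_rpow_neg_atTop (show 0 < -(1 + β * K) by linarith)
      rw [neg_neg] at h
      exact h.comp hnat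
    have h2 : Tendsto (fun w : ℕ => (w : ℝ) ^ (2 + β * (K + 1))) atTop (nhds 0) := by
      have h := tendsto_rpow_neg_atTop (show 0 < -(2 + β * (K + 1)) by linarith)
      rw [neg_neg] at h
      exact h.comp hnat
    have h3 := (h1.const_mul ((k : ℝ) * 2 ^ (k - 2))).add (h2.const_mul ((2 : ℝ) ^ (k - 1)))
    rw [mul_zero, mul_zero, add_zero] at h3
    have h4 := h3.eventually (gt_mem_nhds (show (0 : ℝ) < (1 / 2) ^ (k - 1) by positivity))
    filter_upwards [h4] with w hw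
    exact hw.le
  have hlog : ∀ A η : ℝ, 0 < η → ∀ᶠ w : ℕ in atTop, A * Real.log w < (w : ℝ) ^ η := by
    intro A η hη
    have h1 := (isLittleO_log_rpow_atTop hη).bound (show (0 : ℝ) < 1 / (2 * (|A| + 1)) by positivity)
    have h2 := hnat.eventually h1
    have h3 := hnat.eventually_ge_atTop 1
    filter_upwards [h2, h3] with w hw hw1
    have hp : (0 : ℝ) < (w : ℝ) ^ η := by positivity
    have hl : 0 ≤ Real.log w := Real.log_nonneg hw1
    rw [Real.norm_of_nonneg hl, Real.norm_of_nonneg hp.le, one_div_mul_eq_div,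
      le_div_iff₀ (by positivity)] at hw
    have hA : A * Real.log w ≤ |A| * Real.log w := mul_le_mul_of_nonneg_right (le_abs_self A) hl
    nlinarith [abs_nonneg A]
  have E4 := hlog ((k : ℝ) ^ 2 * 2 ^ (k + 5)) (K * ε) (by positivity)
  have E5 := hlog (64 * k / C) (2 * d - ε) (by linarith)
  obtain ⟨N, hN⟩ := eventually_atTop.1 (E1.and (E2.and (E3.and (E4.and E5))))
  obtain ⟨w, hwN, ⟨Ls, hL⟩, ⟨D, hD⟩⟩ := hfam (max N (k + 8))
  obtain ⟨H1, H2, H3, H4, H5⟩ := hN w (le_trans (le_max_left _ _) hwN)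
  have hwk : k + 8 ≤ w := le_trans (le_max_right _ _) hwN
  have hw0 : (0 : ℝ) < w := by
    have : 0 < w := by omega
    exact_mod_cast this
  have hw8 : (8 : ℝ) ≤ w := by
    have : 8 ≤ w := by omega
    exact_mod_cast this
  set a : ℝ := (w : ℝ) ^ α with ha
  have ha0 : 0 < a := by rw [ha]; positivity
  have ha1 : 1 ≤ a := by linarith
  have haw : (w : ℝ) ^ β = a / w := by
    rw [hαβ, Real.rpow_sub_one hw0.ne']
  set i0 : ℕ := ⌈a⌉₊ with hi0
  have hi_ge : a ≤ i0 := Nat.le_ceil a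
  have hi_le : (i0 : ℝ) ≤ 2 * a := by
    have := Nat.ceil_lt_add_one ha0.le
    linarith
  have hi : 2 * k ≤ i0 := by
    have : (2 * (k : ℝ)) ≤ i0 := H1.trans hi_ge
    exact_mod_cast this
  have hiw : i0 ≤ w := by
    have h1 : (i0 : ℝ) ≤ w := by
      rw [haw] at H2
      have h2 : 2 * a ≤ w := by
        rw [← mul_div_assoc, div_le_one hw0] at H2
        exact H2
      linarith
    exact_mod_cast h1
  set p : ℝ := (i0 : ℝ) / w with hp
  have hwβ : (0 : ℝ) < (w : ℝ) ^ β := by positivity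
  have hp_ge : (w : ℝ) ^ β ≤ p := by
    rw [haw, hp]; gcongr
  have hp_le : p ≤ 2 * (w : ℝ) ^ β := by
    rw [haw, hp, ← mul_div_assoc]; gcongr
  have hp0 : 0 < p := lt_of_lt_of_le hwβ hp_ge
  have hpow2 : ((w : ℝ) ^ β) ^ (k - 2) = (w : ℝ) ^ (β * K) := by
    rw [← Real.rpow_natCast, ← Real.rpow_mul hw0.le, hcast2]
  have hpow1 : ((w : ℝ) ^ β) ^ (k - 1) = (w : ℝ) ^ (β * (K + 1)) := by
    rw [← Real.rpow_natCast, ← Real.rpow_mul hw0.le, hcast1]
  have hc3 : (k : ℝ) * w * p ^ (k - 2) + (w : ℝ) ^ 2 * p ^ (k - 1) ≤ (1 / 2) ^ (k - 1) := by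
    refine le_trans ?_ H3
    have e1 : p ^ (k - 2) ≤ 2 ^ (k - 2) * (w : ℝ) ^ (β * K) := by
      rw [← hpow2, ← mul_pow]
      exact pow_le_pow_left₀ hp0.le hp_le _
    have e2 : p ^ (k - 1) ≤ 2 ^ (k - 1) * (w : ℝ) ^ (β * (K + 1)) := by
      rw [← hpow1, ← mul_pow]
      exact pow_le_pow_left₀ hp0.le hp_le _
    have e3 : (w : ℝ) ^ (1 + β * K) = w * (w : ℝ) ^ (β * K) := by
      rw [Real.rpow_add hw0, Real.rpow_one]
    have e4 : (w : ℝ) ^ (2 + β * (K + 1)) = (w : ℝ) ^ 2 * (w : ℝ) ^ (β * (K + 1)) := by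
      rw [Real.rpow_add hw0]; congr 1; exact_mod_cast Real.rpow_natCast (w : ℝ) 2
    rw [e3, e4]
    calc (k : ℝ) * w * p ^ (k - 2) + (w : ℝ) ^ 2 * p ^ (k - 1)
        ≤ (k : ℝ) * w * (2 ^ (k - 2) * (w : ℝ) ^ (β * K)) +
          (w : ℝ) ^ 2 * (2 ^ (k - 1) * (w : ℝ) ^ (β * (K + 1))) := by gcongr
      _ = _ := by ring
  -- number of blocks
  have hDc : (w : ℝ) ^ 2 / (2 * (k : ℝ) ^ 2) ≤ D.card := by
    have h1 := card_blocks hD
    rw [Fintype.card_fin] at h1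
    have h1r : (D.card : ℝ) * (k.choose 2 : ℕ) = (w.choose 2 : ℕ) := by exact_mod_cast h1
    rw [Nat.cast_choose_two, Nat.cast_choose_two] at h1r
    rw [div_le_iff₀ (by positivity)]
    have h2 : (D.card : ℝ) * (k * (k - 1)) = w * (w - 1) := by linarith
    have h3 : (0 : ℝ) ≤ D.card := Nat.cast_nonneg _
    have h4 : (D.card : ℝ) * (k * (k - 1)) ≤ D.card * (k : ℝ) ^ 2 := by
      apply mul_le_mul_of_nonneg_left _ h3
      nlinarith
    nlinarith
  set δ : ℝ := D.card * (p / 2) ^ (k - 1) / 2 with hδ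
  set R : ℕ := w ^ 2 / 2 with hR
  have hR2 : 2 * R ≤ w ^ 2 := by omega
  have hR4 : (w : ℝ) ^ 2 / 4 ≤ R := by
    have h1 : w ^ 2 ≤ 4 * R := by
      have : 2 ≤ w ^ 2 := by nlinarith
      omega
    have : (w : ℝ) ^ 2 ≤ 4 * R := by exact_mod_cast h1
    linarith
  have hlogw : 0 < Real.log w := Real.log_pos (by linarith)
  have hmain : ((2 * w * i0 : ℕ) : ℝ) * (2 * Real.log w) < δ * R := by
    push_cast
    have e0 : (w : ℝ) * p = i0 := by rw [hp]; field_simp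
    have e1 : (w : ℝ) ^ (K * ε) ≤ (w : ℝ) ^ 2 * p ^ (k - 2) := by
      have e4 : (w : ℝ) ^ (K * ε) = (w : ℝ) ^ 2 * (w : ℝ) ^ (β * K) := by
        rw [← he4, Real.rpow_add hw0]; congr 1; exact_mod_cast Real.rpow_natCast (w : ℝ) 2
      rw [e4, ← hpow2]
      gcongr
    have e2 : (k : ℝ) ^ 2 * 2 ^ (k + 5) * Real.log w < (w : ℝ) ^ 2 * p ^ (k - 2) :=
      lt_of_lt_of_le H4 e1
    have e3 : p ^ (k - 1) = p ^ (k - 2) * p := by
      rw [← pow_succ]; congr 1; omega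
    have e5 : (2 : ℝ) ^ (k + 5) = 2 ^ (k - 1) * 64 := by
      have : k + 5 = (k - 1) + 6 := by omega
      rw [this, pow_add]; norm_num
    have e6 : δ * R ≥ ((w : ℝ) ^ 2 / (2 * (k : ℝ) ^ 2) * (p / 2) ^ (k - 1) / 2) *
        ((w : ℝ) ^ 2 / 4) := by
      rw [hδ]; gcongr
    refine lt_of_lt_of_le ?_ e6
    rw [div_pow, e3]
    have hk0 : (0 : ℝ) < k := by linarith
    have h2p : (0 : ℝ) < 2 ^ (k - 1) := by positivity
    have e7 : (w : ℝ) ^ 2 / (2 * (k : ℝ) ^ 2) * (p ^ (k - 2) * p / 2 ^ (k - 1)) / 2 *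
        ((w : ℝ) ^ 2 / 4) = ((w : ℝ) ^ 2 * p ^ (k - 2)) * ((w : ℝ) ^ 2 * p) /
          (16 * (k : ℝ) ^ 2 * 2 ^ (k - 1)) := by
      field_simp
      ring
    rw [e7, lt_div_iff₀ (by positivity), ← e0]
    calc 2 * (w : ℝ) * (w * p) * (2 * Real.log w) * (16 * (k : ℝ) ^ 2 * 2 ^ (k - 1))
        = ((k : ℝ) ^ 2 * 2 ^ (k + 5) * Real.log w) * ((w : ℝ) ^ 2 * p) := by
          rw [e5]; ring
      _ < ((w : ℝ) ^ 2 * p ^ (k - 2)) * ((w : ℝ) ^ 2 * p) := by
          apply mul_lt_mul_of_pos_right e2 (by positivity)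
  have hδ0 : 0 ≤ δ := by rw [hδ]; positivity
  have hδ1 : 0 ≤ 1 - δ := by
    have h1 := perm_main hD hk hi hiw hc3 univ (by simpa using hiw)
    have h2 : (0 : ℝ) ≤ w.factorial * (1 - δ) := le_trans (Nat.cast_nonneg _) h1
    exact nonneg_of_mul_nonneg_right h2 (by exact_mod_cast Nat.factorial_pos w)
  have hnum : ((w ^ 2).choose (2 * w * i0) : ℝ) * (1 - δ) ^ R < 1 := by
    have h1 : ((w ^ 2).choose (2 * w * i0) : ℝ) ≤
        Real.exp (((2 * w * i0 : ℕ) : ℝ) * (2 * Real.log w)) := by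
      have e1 : (w ^ 2).choose (2 * w * i0) ≤ (w ^ 2) ^ (2 * w * i0) := Nat.choose_le_pow _ _
      have e2 : ((w ^ 2).choose (2 * w * i0) : ℝ) ≤ (((w : ℝ) ^ 2)) ^ (2 * w * i0) := by
        exact_mod_cast e1
      refine e2.trans (le_of_eq ?_)
      rw [Real.exp_nat_mul]
      congr 1
      rw [two_mul, Real.exp_add, Real.exp_log hw0, sq]
    have h2 : (1 - δ) ^ R ≤ Real.exp (-(δ * R)) := by
      have e1 : 1 - δ ≤ Real.exp (-δ) := by
        have := Real.add_one_le_exp (-δ)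
        linarith
      calc (1 - δ) ^ R ≤ (Real.exp (-δ)) ^ R := pow_le_pow_left₀ hδ1 e1 _
        _ = Real.exp (-(δ * R)) := by
            rw [← Real.exp_nat_mul]; congr 1; ring
    calc ((w ^ 2).choose (2 * w * i0) : ℝ) * (1 - δ) ^ R
        ≤ Real.exp (((2 * w * i0 : ℕ) : ℝ) * (2 * Real.log w)) * Real.exp (-(δ * R)) := by
          gcongr
      _ = Real.exp (((2 * w * i0 : ℕ) : ℝ) * (2 * Real.log w) - δ * R) := by
          rw [← Real.exp_add]; congr 1
      _ < 1 := by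
          rw [Real.exp_lt_one_iff]
          linarith
  obtain ⟨B, hB, hBI⟩ := exists_place hL hD hk hi hiw hc3 hR2 hnum
  refine ⟨w ^ 2, by nlinarith, B, hB, ?_⟩
  have hup := upper_le hB hk hBI
  have hupr : (upperChromatic B : ℝ) ≤ 4 * k * ((Nat.log 2 (w ^ 2) : ℕ) + 1) * (2 * w * i0) := by
    exact_mod_cast hup
  have hlog2 : ((Nat.log 2 (w ^ 2) : ℕ) : ℝ) + 1 ≤ 4 * Real.log w := by
    have h1 : ((Nat.log 2 (w ^ 2) : ℕ) : ℝ) ≤ Real.logb 2 ((w ^ 2 : ℕ) : ℝ) :=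
      Real.natLog_le_logb _ _
    have h2 : Real.logb 2 ((w ^ 2 : ℕ) : ℝ) = 2 * Real.log w / Real.log 2 := by
      rw [Real.logb]
      push_cast
      rw [Real.log_pow]
      push_cast
      ring
    have h3 : 2 * Real.log w / Real.log 2 ≤ 3 * Real.log w := by
      have hl2 : (0.6931471803 : ℝ) < Real.log 2 := Real.log_two_gt_d9
      rw [div_le_iff₀ (by linarith)]
      nlinarith
    have h4 : 1 ≤ Real.log w := by
      rw [Real.le_log_iff_exp_le hw0]
      have := Real.exp_one_lt_d9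
      linarith
    linarith
  have hchain : (upperChromatic B : ℝ) ≤ 64 * k * Real.log w * (w * a) := by
    calc (upperChromatic B : ℝ) ≤ 4 * k * ((Nat.log 2 (w ^ 2) : ℕ) + 1) * (2 * w * i0) := hupr
      _ ≤ 4 * k * (4 * Real.log w) * (2 * w * (2 * a)) := by gcongr
      _ = _ := by ring
  have hfin : 64 * k * Real.log w * (w * a) < C * (((w ^ 2 : ℕ) : ℝ)) ^ c := by
    have e1 : (((w ^ 2 : ℕ) : ℝ)) ^ c = (w : ℝ) ^ (2 * d - ε) * (w * a) := by
      rw [ha]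
      have e2 : (w : ℝ) * (w : ℝ) ^ α = (w : ℝ) ^ (1 + α) := by
        rw [Real.rpow_add hw0 1 α, Real.rpow_one]
      rw [e2, ← Real.rpow_add hw0]
      push_cast
      rw [← Real.rpow_natCast, ← Real.rpow_mul hw0.le]
      congr 1
      push_cast
      rw [hd, hα]
      field_simp
      ring
    rw [e1]
    have e3 : 64 * k * Real.log w < C * (w : ℝ) ^ (2 * d - ε) := by
      rw [div_mul_eq_mul_div, div_lt_iff₀ hC] at H5
      linarith
    have e4 : 0 < (w : ℝ) * a := by positivity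
    calc 64 * k * Real.log w * (w * a) < (C * (w : ℝ) ^ (2 * d - ε)) * (w * a) :=
          mul_lt_mul_of_pos_right e3 e4
      _ = _ := by ring
  exact lt_of_le_of_lt hchain hfin

end Pool.Agent.Helper543.Steiner
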