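import Pool.Agent.Helper543.SteinerReduce

set_option autoImplicit false

namespace Pool.Agent.Helper543.Steiner

open Finset

/-- mean square bound for sums of a mean-zero function over a set `C` invariant under many
dilations -/
theorem mixing {p : ℕ} [Fact p.Prime] (C H : Finset (ZMod p)) (hH : ∀ h ∈ H, C.image (fun c => h * c) = C)
    (hH0 : ∀ h ∈ H, h ≠ 0) (hCH : C.card ≤ H.card) (hHp : 0 < H.card) (f : ZMod p → ℝ)
    (hf : ∑ x, f x = 0) :
    ∑ x, (∑ c ∈ C, f (x + c)) ^ 2 ≤ p * ∑ x, f x ^ 2 := by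
  classical
  let S : ZMod p → ℝ := fun a => ∑ x, (∑ c ∈ C, f (x + a * c)) ^ 2
  have hS0 : ∀ a, 0 ≤ S a := fun a => sum_nonneg fun x _ => sq_nonneg _
  have hSH : ∀ a ∈ H, S a = ∑ x, (∑ c ∈ C, f (x + c)) ^ 2 := by
    intro a ha
    refine sum_congr rfl fun x _ => ?_
    congr 1
    have hinj : Set.InjOn (fun c => a * c) (C : Set (ZMod p)) := fun c _ c' _ h =>
      mul_left_cancel₀ (hH0 a ha) h
    conv_rhs => rw [← hH a ha, sum_image hinj]
  have htot : ∑ a, S a = C.card * (p * ∑ x, f x ^ 2) := by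
    have e1 : ∑ a, S a = ∑ c ∈ C, ∑ c' ∈ C, ∑ a : ZMod p, ∑ x, f (x + a * c) * f (x + a * c') := by
      have : ∀ a x, (∑ c ∈ C, f (x + a * c)) ^ 2 =
          ∑ c ∈ C, ∑ c' ∈ C, f (x + a * c) * f (x + a * c') := by
        intro a x
        rw [sq, sum_mul_sum]
      simp only [S, this]
      calc ∑ a : ZMod p, ∑ x, ∑ c ∈ C, ∑ c' ∈ C, f (x + a * c) * f (x + a * c')
          = ∑ a : ZMod p, ∑ c ∈ C, ∑ x, ∑ c' ∈ C, f (x + a * c) * f (x + a * c') :=
            sum_congr rfl fun a _ => sum_comm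
        _ = ∑ c ∈ C, ∑ a : ZMod p, ∑ x, ∑ c' ∈ C, f (x + a * c) * f (x + a * c') := sum_comm
        _ = ∑ c ∈ C, ∑ a : ZMod p, ∑ c' ∈ C, ∑ x, f (x + a * c) * f (x + a * c') :=
            sum_congr rfl fun c _ => sum_congr rfl fun a _ => sum_comm
        _ = ∑ c ∈ C, ∑ c' ∈ C, ∑ a : ZMod p, ∑ x, f (x + a * c) * f (x + a * c') :=
            sum_congr rfl fun c _ => sum_comm
    have e2 : ∀ c ∈ C, ∑ c' ∈ C, ∑ a : ZMod p, ∑ x, f (x + a * c) * f (x + a * c') =
        p * ∑ x, f x ^ 2 := by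
      intro c hc
      rw [← add_sum_erase C _ hc]
      have e3 : ∑ a : ZMod p, ∑ x, f (x + a * c) * f (x + a * c) = p * ∑ x, f x ^ 2 := by
        have : ∀ a : ZMod p, ∑ x, f (x + a * c) * f (x + a * c) = ∑ x, f x ^ 2 := by
          intro a
          rw [← Equiv.sum_comp (Equiv.addRight (a * c)) (fun x => f x ^ 2)]
          refine sum_congr rfl fun x _ => ?_
          simp [sq]
        simp only [this, sum_const, card_univ, ZMod.card, nsmul_eq_mul]
      have e4 : ∀ c' ∈ C.erase c, ∑ a : ZMod p, ∑ x, f (x + a * c) * f (x + a * c') = 0 := by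
        intro c' hc'
        have hne : c' - c ≠ 0 := sub_ne_zero.2 (ne_of_mem_erase hc')
        have e5 : ∀ a : ZMod p, ∑ x, f (x + a * c) * f (x + a * c') =
            ∑ x, f x * f (x + a * (c' - c)) := by
          intro a
          rw [← Equiv.sum_comp (Equiv.addRight (a * c)) (fun x => f x * f (x + a * (c' - c)))]
          refine sum_congr rfl fun x _ => ?_
          simp only [Equiv.coe_addRight]
          congr 2
          ring
        simp only [e5]
        rw [sum_comm]
        have e6 : ∀ x : ZMod p, ∑ a : ZMod p, f x * f (x + a * (c' - c)) = 0 := by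
          intro x
          rw [← mul_sum]
          have : ∑ a : ZMod p, f (x + a * (c' - c)) = ∑ y, f y := by
            rw [← Equiv.sum_comp ((Equiv.mulRight₀ (c' - c) hne).trans (Equiv.addLeft x)) f]
            refine sum_congr rfl fun a _ => ?_
            simp
          rw [this, hf, mul_zero]
        simp only [e6, sum_const_zero]
      rw [e3, sum_congr rfl e4, sum_const_zero, add_zero]
    rw [e1, sum_congr rfl e2, sum_const, nsmul_eq_mul]
  have hle : (H.card : ℝ) * ∑ x, (∑ c ∈ C, f (x + c)) ^ 2 ≤ ∑ a, S a := by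
    calc (H.card : ℝ) * ∑ x, (∑ c ∈ C, f (x + c)) ^ 2 = ∑ a ∈ H, S a := by
          rw [sum_congr rfl hSH, sum_const, nsmul_eq_mul]
      _ ≤ ∑ a, S a := sum_le_sum_of_subset_of_nonneg (subset_univ _) (fun a _ _ => hS0 a)
  rw [htot] at hle
  have hHr : (0 : ℝ) < H.card := by exact_mod_cast hHp
  have hq : 0 ≤ (p : ℝ) * ∑ x, f x ^ 2 := by positivity
  have hCr : (C.card : ℝ) ≤ H.card := by exact_mod_cast hCH
  apply le_of_mul_le_mul_left _ hHr
  refine hle.trans ?_
  exact mul_le_mul_of_nonneg_right hCr hq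

section Cyc

variable {p : ℕ} [Fact p.Prime] {e N : ℕ}

/-- the fibre of `x ↦ x ^ N` over `z` -/
def cyc (p N : ℕ) [NeZero p] (z : ZMod p) : Finset (ZMod p) := univ.filter (fun x => x ^ N = z)

theorem card_cyc_le (hN : 0 < N) (z : ZMod p) : (cyc p N z).card ≤ N := by
  classical
  have h1 : cyc p N z ⊆ (Polynomial.nthRoots N z).toFinset := by
    intro x hx
    rw [cyc, mem_filter] at hx
    rw [Multiset.mem_toFinset, Polynomial.mem_nthRoots hN]
    exact hx.2
  calc (cyc p N z).card ≤ _ := card_le_card h1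
    _ ≤ Multiset.card (Polynomial.nthRoots N z) := Multiset.toFinset_card_le _
    _ ≤ N := Polynomial.card_nthRoots N z

theorem card_cyc (he : 0 < e) (hN : 0 < N) (hp : p - 1 = e * N) :
    (cyc p e 1).card = e ∧ ∀ z ∈ cyc p e 1, (cyc p N z).card = N := by
  classical
  have h1 : ((univ : Finset (ZMod p)).erase 0).card =
      ∑ z ∈ cyc p e 1, (((univ : Finset (ZMod p)).erase 0).filter (fun x => x ^ N = z)).card := by
    apply card_eq_sum_card_fiberwise
    intro x hx
    rw [mem_coe, mem_erase] at hx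
    rw [mem_coe, cyc, mem_filter]
    refine ⟨mem_univ _, ?_⟩
    rw [← pow_mul, mul_comm, ← hp]
    exact ZMod.pow_card_sub_one_eq_one hx.1
  have h2 : ∀ z ∈ cyc p e 1, ((univ : Finset (ZMod p)).erase 0).filter (fun x => x ^ N = z) =
      cyc p N z := by
    intro z hz
    ext x
    rw [cyc, mem_filter] at hz
    simp only [cyc, mem_filter, mem_erase, mem_univ, and_true, true_and]
    constructor
    · exact fun h => h.2
    · intro h
      refine ⟨?_, h⟩
      rintro rfl
      rw [zero_pow hN.ne'] at h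
      rw [← h, zero_pow he.ne'] at hz
      exact zero_ne_one hz.2
  rw [sum_congr rfl (fun z hz => by rw [h2 z hz]), card_erase_of_mem (mem_univ _), card_univ,
    ZMod.card, hp] at h1
  have h3 : (cyc p e 1).card ≤ e := card_cyc_le he 1
  have h4 : ∑ z ∈ cyc p e 1, (cyc p N z).card ≤ (cyc p e 1).card * N := by
    calc _ ≤ ∑ z ∈ cyc p e 1, N := sum_le_sum fun z _ => card_cyc_le hN z
      _ = _ := by rw [sum_const, smul_eq_mul]
  have h5 : (cyc p e 1).card = e := by
    have : e * N ≤ (cyc p e 1).card * N := by omega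
    have := Nat.le_of_mul_le_mul_right this hN
    omega
  refine ⟨h5, ?_⟩
  intro z hz
  by_contra hne
  have hlt : (cyc p N z).card < N := lt_of_le_of_ne (card_cyc_le hN z) hne
  have : ∑ z ∈ cyc p e 1, (cyc p N z).card < ∑ z ∈ cyc p e 1, N :=
    sum_lt_sum (fun z _ => card_cyc_le hN z) ⟨z, hz, hlt⟩
  rw [sum_const, smul_eq_mul, h5] at this
  omega

/-- few points have few neighbours of colour `z` in a set `Y` -/
theorem bad_count (he : 0 < e) (hN : 0 < N) (hp : p - 1 = e * N) (z : ZMod p)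
    (hz : z ∈ cyc p e 1) (Y : Finset (ZMod p)) :
    (univ.filter (fun x : ZMod p =>
      (Y.filter (fun y => (y - x) ^ N = z)).card * (4 * e) < Y.card)).card * Y.card ≤
      16 * e ^ 2 * p := by
  classical
  rcases Nat.eq_zero_or_pos Y.card with hY | hY
  · rw [hY, mul_zero]; exact Nat.zero_le _
  have hp2 : 2 ≤ p := (Fact.out : p.Prime).two_le
  have hz1 : z ^ e = 1 := (mem_filter.1 hz).2
  have hC := (card_cyc he hN hp).2 z hz
  have h1mem : (1 : ZMod p) ∈ cyc p e 1 := by
    rw [cyc, mem_filter]; exact ⟨mem_univ _, one_pow _⟩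
  have hHc := (card_cyc he hN hp).2 1 h1mem
  have hp0 : (0 : ℝ) < p := by
    have : 0 < p := by omega
    exact_mod_cast this
  let f : ZMod p → ℝ := fun x => (if x ∈ Y then 1 else 0) - (Y.card : ℝ) / p
  have hf : ∑ x, f x = 0 := by
    simp only [f, sum_sub_distrib, sum_const, card_univ, ZMod.card, nsmul_eq_mul]
    rw [← sum_filter, sum_const, filter_univ_mem, nsmul_eq_mul, mul_one]
    field_simp
    ring
  have hf2 : ∑ x, f x ^ 2 ≤ Y.card := by
    have e1 : ∀ x, f x ^ 2 = (if x ∈ Y then 1 else 0) - 2 * ((Y.card : ℝ) / p) *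
        (if x ∈ Y then 1 else 0) + ((Y.card : ℝ) / p) ^ 2 := by
      intro x
      simp only [f]
      split_ifs <;> ring
    simp only [e1, sum_sub_distrib, sum_add_distrib, ← mul_sum]
    rw [← sum_filter, sum_const, filter_univ_mem, nsmul_eq_mul, mul_one, sum_const, card_univ,
      ZMod.card, nsmul_eq_mul]
    have e2 : (p : ℝ) * ((Y.card : ℝ) / p) ^ 2 = (Y.card : ℝ) / p * Y.card := by
      field_simp
    rw [e2]
    have : 0 ≤ (Y.card : ℝ) / p * Y.card := by positivity
    linarith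
  have hmix := mixing (cyc p N z) (cyc p N 1) (by
    intro h hh
    rw [cyc, mem_filter] at hh
    have hh0 : h ≠ 0 := by
      rintro rfl
      rw [zero_pow hN.ne'] at hh
      exact zero_ne_one hh.2
    ext x
    simp only [cyc, mem_image, mem_filter, mem_univ, true_and]
    constructor
    · rintro ⟨c, hc, rfl⟩
      rw [mul_pow, hh.2, one_mul, hc]
    · intro hx
      refine ⟨h⁻¹ * x, ?_, by field_simp⟩
      rw [mul_pow, inv_pow, hh.2, inv_one, one_mul, hx]) (by
    rintro h hh rfl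
    rw [cyc, mem_filter, zero_pow hN.ne'] at hh
    exact zero_ne_one hh.2) (by rw [hC, hHc]) (by rw [hHc]; exact hN) f hf
  have hT : ∀ x, ∑ c ∈ cyc p N z, f (x + c) =
      ((Y.filter (fun y => (y - x) ^ N = z)).card : ℝ) - N * ((Y.card : ℝ) / p) := by
    intro x
    simp only [f, sum_sub_distrib, sum_const, nsmul_eq_mul, hC]
    congr 1
    rw [← sum_filter, sum_const, nsmul_eq_mul, mul_one]
    congr 1
    apply card_bij (fun c _ => x + c)
    · intro c hc
      rw [mem_filter, cyc, mem_filter] at hc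
      rw [mem_filter]
      refine ⟨hc.2, ?_⟩
      rw [add_sub_cancel_left]; exact hc.1.2
    · intro c _ c' _ h
      exact add_left_cancel h
    · intro y hy
      rw [mem_filter] at hy
      refine ⟨y - x, ?_, by ring⟩
      rw [mem_filter, cyc, mem_filter]
      refine ⟨⟨mem_univ _, hy.2⟩, ?_⟩
      rw [add_sub_cancel]; exact hy.1
  have hNp : (p : ℝ) ≤ 2 * e * N := by
    have : p ≤ 2 * e * N := by
      have h1 : 1 ≤ e * N := Nat.mul_pos he hN
      calc p = (p - 1) + 1 := by omega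
        _ = e * N + 1 := by rw [hp]
        _ ≤ e * N + e * N := by omega
        _ = _ := by ring
    exact_mod_cast this
  have her : (0 : ℝ) < e := by exact_mod_cast he
  have hYr : (0 : ℝ) < Y.card := by exact_mod_cast hY
  set Bd := univ.filter (fun x : ZMod p =>
      (Y.filter (fun y => (y - x) ^ N = z)).card * (4 * e) < Y.card) with hBd
  have hlow : ∀ x ∈ Bd, ((Y.card : ℝ) / (4 * e)) ^ 2 ≤ (∑ c ∈ cyc p N z, f (x + c)) ^ 2 := by
    intro x hx
    rw [hBd, mem_filter] at hx
    rw [hT x]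
    have h1 : ((Y.filter (fun y => (y - x) ^ N = z)).card : ℝ) ≤ (Y.card : ℝ) / (4 * e) := by
      rw [le_div_iff₀ (by positivity)]
      exact_mod_cast hx.2.le
    have h2 : (Y.card : ℝ) / (2 * e) ≤ N * ((Y.card : ℝ) / p) := by
      rw [div_le_iff₀ (by positivity)]
      have : (N : ℝ) * ((Y.card : ℝ) / p) * (2 * e) = Y.card * ((2 * e * N) / p) := by ring
      rw [this]
      have h3 : 1 ≤ (2 * e * N) / (p : ℝ) := by rw [one_le_div hp0]; exact hNp
      nlinarith
    have h3 : (Y.card : ℝ) / (2 * e) = 2 * ((Y.card : ℝ) / (4 * e)) := by field_simp; ring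
    have h4 : 0 ≤ (Y.card : ℝ) / (4 * e) := by positivity
    have h5 : (Y.card : ℝ) / (4 * e) ≤
        N * ((Y.card : ℝ) / p) - ((Y.filter (fun y => (y - x) ^ N = z)).card : ℝ) := by
      linarith
    have h6 := pow_le_pow_left₀ h4 h5 2
    nlinarith
  have hfin : (Bd.card : ℝ) * ((Y.card : ℝ) / (4 * e)) ^ 2 ≤ p * Y.card := by
    calc (Bd.card : ℝ) * ((Y.card : ℝ) / (4 * e)) ^ 2
        = ∑ x ∈ Bd, ((Y.card : ℝ) / (4 * e)) ^ 2 := by rw [sum_const, nsmul_eq_mul]
      _ ≤ ∑ x ∈ Bd, (∑ c ∈ cyc p N z, f (x + c)) ^ 2 := sum_le_sum hlow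
      _ ≤ ∑ x, (∑ c ∈ cyc p N z, f (x + c)) ^ 2 :=
          sum_le_sum_of_subset_of_nonneg (subset_univ _) (fun x _ _ => sq_nonneg _)
      _ ≤ p * ∑ x, f x ^ 2 := hmix
      _ ≤ p * Y.card := by gcongr
  have hfin2 : (Bd.card : ℝ) * Y.card ≤ 16 * (e : ℝ) ^ 2 * p := by
    have e1 : (Bd.card : ℝ) * ((Y.card : ℝ) / (4 * e)) ^ 2 =
        (Bd.card * Y.card) * Y.card / (16 * (e : ℝ) ^ 2) := by
      rw [div_pow]; ring
    rw [e1, div_le_iff₀ (by positivity)] at hfin
    apply le_of_mul_le_mul_right _ hYr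
    calc (Bd.card : ℝ) * Y.card * Y.card ≤ p * Y.card * (16 * (e : ℝ) ^ 2) := hfin
      _ = _ := by ring
  exact_mod_cast hfin2

end Cyc

end Pool.Agent.Helper543.Steiner
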