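import Pool.Agent.Helper543.Steiner

set_option autoImplicit false

namespace Pool.Agent.Helper543.Steiner

open Finset

/-- a set meeting no block in `k-1` points gives colours -/
theorem upper_ge_of_indep {v k : ℕ} {B : Finset (Finset (Fin v))}
    (hB : ∀ b ∈ B, b.card = k) (hk : 2 ≤ k) (Y : Finset (Fin v))
    (hY : ∀ S ∈ B.biUnion (fun b => powersetCard (k - 1) b), ¬ S ⊆ Y) :
    Y.card ≤ upperChromatic B := by
  classical
  let φ : Fin v → ℕ := fun x => if x ∈ Y then x.val + 1 else 0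
  have hprop : Proper B φ := by
    intro b hb
    have h1 : 1 < (b \ Y).card := by
      by_contra hcon
      push Not at hcon
      have h2 : k - 1 ≤ (b ∩ Y).card := by
        have := card_sdiff_add_card_inter b Y
        rw [hB b hb] at this
        omega
      obtain ⟨S, hS, hSc⟩ := exists_subset_card_eq h2
      refine hY S ?_ (hS.trans inter_subset_right)
      rw [mem_biUnion]
      exact ⟨b, hb, mem_powersetCard.2 ⟨hS.trans inter_subset_left, hSc⟩⟩
    obtain ⟨x, hx, y, hy, hxy⟩ := one_lt_card.1 h1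
    rw [mem_sdiff] at hx hy
    refine ⟨x, hx.1, y, hy.1, hxy, ?_⟩
    simp only [φ, if_neg hx.2, if_neg hy.2]
  refine le_trans ?_ (le_upper hprop)
  calc Y.card = (Y.image φ).card := by
        rw [card_image_of_injOn]
        intro x hx y hy hxy
        simp only [φ, if_pos (mem_coe.1 hx), if_pos (mem_coe.1 hy)] at hxy
        exact Fin.ext (by omega)
    _ ≤ _ := card_le_card (image_subset_image (subset_univ _))

theorem lower_bound {t k : ℕ} (ht : 2 ≤ t) (hk : t + 2 ≤ k) :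
    ∃ C : ℝ, 0 < C ∧ ∀ (v : ℕ) (B : Finset (Finset (Fin v))), IsSteiner t k B →
      C * (v : ℝ) ^ (((k : ℝ) - t - 1) / ((k : ℝ) - 2)) ≤ upperChromatic B := by
  have hkr : (0 : ℝ) < (k : ℝ) - 2 := by
    have : ((t + 2 : ℕ) : ℝ) ≤ k := by exact_mod_cast hk
    have h2 : (2 : ℝ) ≤ t := by exact_mod_cast ht
    push_cast at this
    linarith
  have hexp : 0 < ((k : ℝ) - t - 1) / ((k : ℝ) - 2) := by
    apply div_pos _ hkr
    have : ((t + 2 : ℕ) : ℝ) ≤ k := by exact_mod_cast hk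
    push_cast at this
    linarith
  have hk0 : (0 : ℝ) < 2 * k := by
    have : (0 : ℝ) < k := by linarith
    linarith
  refine ⟨1 / (4 * (2 * (k : ℝ)) ^ (1 / ((k : ℝ) - 2))), by positivity, ?_⟩
  intro v B hB
  rcases Nat.eq_zero_or_pos v with hv | hv
  · subst hv
    rw [Nat.cast_zero, Real.zero_rpow hexp.ne', mul_zero]
    exact Nat.cast_nonneg _
  have hvr : (1 : ℝ) ≤ v := by exact_mod_cast hv
  have hv0 : (0 : ℝ) < v := by linarith
  set x : ℝ := (2 * (k : ℝ) * (v : ℝ) ^ ((t : ℝ) - 1)) ^ (1 / ((k : ℝ) - 2)) with hx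
  have hbase : (1 : ℝ) ≤ 2 * (k : ℝ) * (v : ℝ) ^ ((t : ℝ) - 1) := by
    have h1 : (1 : ℝ) ≤ (v : ℝ) ^ ((t : ℝ) - 1) := by
      apply Real.one_le_rpow hvr
      have : (2 : ℝ) ≤ t := by exact_mod_cast ht
      linarith
    have h2 : (1 : ℝ) ≤ 2 * k := by
      have : (1 : ℝ) ≤ k := by exact_mod_cast (by omega : 1 ≤ k)
      linarith
    nlinarith
  have hx1 : 1 ≤ x := Real.one_le_rpow hbase (by positivity)
  set q : ℕ := ⌈x⌉₊ with hq
  have hq1 : 1 ≤ q := by
    have : (0 : ℝ) < x := by linarith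
    exact Nat.ceil_pos.2 this
  have hqx : x ≤ q := Nat.le_ceil x
  have hq2 : (q : ℝ) ≤ 2 * x := by
    have := Nat.ceil_lt_add_one (show 0 ≤ x by linarith)
    linarith
  have hpow : 2 * (k : ℝ) * (v : ℝ) ^ t ≤ v * (q : ℝ) ^ (k - 2) := by
    have h1 : x ^ (k - 2) = 2 * (k : ℝ) * (v : ℝ) ^ ((t : ℝ) - 1) := by
      rw [hx, ← Real.rpow_natCast, ← Real.rpow_mul (by linarith)]
      have : 1 / ((k : ℝ) - 2) * ((k - 2 : ℕ) : ℝ) = 1 := by
        rw [Nat.cast_sub (by omega : 2 ≤ k)]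
        push_cast
        field_simp
      rw [this, Real.rpow_one]
    have h2 : x ^ (k - 2) ≤ (q : ℝ) ^ (k - 2) := pow_le_pow_left₀ (by linarith) hqx _
    rw [h1] at h2
    have h3 : (v : ℝ) ^ t = v * (v : ℝ) ^ ((t : ℝ) - 1) := by
      rw [← Real.rpow_natCast]
      conv_rhs => rw [← Real.rpow_one_add' hv0.le (by
        have : (2 : ℝ) ≤ t := by exact_mod_cast ht
        linarith)]
      congr 1
      ring
    rw [h3]
    nlinarith
  set F : Finset (Finset (Fin v)) := B.biUnion (fun b => powersetCard (k - 1) b) with hF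
  have hFs : ∀ S ∈ F, S.card = k - 1 := by
    intro S hS
    rw [hF, mem_biUnion] at hS
    obtain ⟨b, -, h⟩ := hS
    exact (mem_powersetCard.1 h).2
  have hBc : B.card ≤ v ^ t := by
    have h1 := card_blocks hB
    rw [Fintype.card_fin] at h1
    have h2 : 1 ≤ k.choose t := Nat.choose_pos (by omega)
    calc B.card ≤ B.card * k.choose t := Nat.le_mul_of_pos_right _ h2
      _ = v.choose t := h1
      _ ≤ v ^ t := Nat.choose_le_pow v t
  have hFc : F.card ≤ k * v ^ t := by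
    calc F.card ≤ ∑ b ∈ B, (powersetCard (k - 1) b).card := card_biUnion_le
      _ = ∑ b ∈ B, k := by
          refine sum_congr rfl fun b hb => ?_
          rw [card_powersetCard, hB.1 b hb]
          obtain ⟨m, rfl⟩ : ∃ m, k = m + 1 := ⟨k - 1, by omega⟩
          simp
      _ = k * B.card := by rw [sum_const, smul_eq_mul, mul_comm]
      _ ≤ k * v ^ t := Nat.mul_le_mul_left _ hBc
  obtain ⟨Y, -, hY, hYc⟩ := exists_indep v q hq1 univ F
    (fun S hS => by rw [← card_pos, hFs S hS]; omega) (by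
      rw [sum_congr rfl (fun S hS => by rw [hFs S hS]), sum_const, nsmul_eq_mul, card_univ,
        Fintype.card_fin]
      have e : k - 1 - 1 = k - 2 := by omega
      rw [e]
      have hqp : (0 : ℝ) < (q : ℝ) ^ (k - 2) := by positivity
      rw [← mul_assoc, ← div_eq_mul_inv, div_le_iff₀ hqp]
      have : (F.card : ℝ) ≤ k * (v : ℝ) ^ t := by exact_mod_cast hFc
      nlinarith)
  rw [card_univ, Fintype.card_fin] at hYc
  have h1 := upper_ge_of_indep hB.1 (by omega) Y hY
  have h2 : (v : ℝ) ≤ 2 * q * Y.card := by exact_mod_cast hYc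
  have h3 : (v : ℝ) ≤ 4 * x * upperChromatic B := by
    have : (Y.card : ℝ) ≤ upperChromatic B := by exact_mod_cast h1
    calc (v : ℝ) ≤ 2 * q * Y.card := h2
      _ ≤ 2 * (2 * x) * upperChromatic B := by gcongr
      _ = _ := by ring
  have hx2 : x = (2 * (k : ℝ)) ^ (1 / ((k : ℝ) - 2)) *
      (v : ℝ) ^ (((t : ℝ) - 1) / ((k : ℝ) - 2)) := by
    rw [hx, Real.mul_rpow hk0.le (by positivity), ← Real.rpow_mul hv0.le]
    congr 2
    ring
  have hvsplit : (v : ℝ) = (v : ℝ) ^ (((k : ℝ) - t - 1) / ((k : ℝ) - 2)) *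
      (v : ℝ) ^ (((t : ℝ) - 1) / ((k : ℝ) - 2)) := by
    rw [← Real.rpow_add hv0]
    have : ((k : ℝ) - t - 1) / ((k : ℝ) - 2) + ((t : ℝ) - 1) / ((k : ℝ) - 2) = 1 := by
      field_simp
      ring
    rw [this, Real.rpow_one]
  have hA : (0 : ℝ) < (2 * (k : ℝ)) ^ (1 / ((k : ℝ) - 2)) := by positivity
  have hW : (0 : ℝ) < (v : ℝ) ^ (((t : ℝ) - 1) / ((k : ℝ) - 2)) := by positivity
  rw [hx2] at h3
  have h4 : (v : ℝ) ^ (((k : ℝ) - t - 1) / ((k : ℝ) - 2)) ≤
      4 * (2 * (k : ℝ)) ^ (1 / ((k : ℝ) - 2)) * upperChromatic B := by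
    apply le_of_mul_le_mul_right _ hW
    rw [← hvsplit]
    calc (v : ℝ) ≤ _ := h3
      _ = _ := by ring
  rw [one_div_mul_eq_div, div_le_iff₀ (by positivity)]
  linarith

end Pool.Agent.Helper543.Steiner
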