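import Pool.Agent.Helper543.SteinerPermMain

set_option autoImplicit false

namespace Pool.Agent.Helper543.Steiner

open Finset

section Outer

variable {w : ℕ} {Ls : Finset (Finset (Fin (w ^ 2)))}

theorem deg_plane (hL : IsSteiner 2 w Ls) (hw : 2 ≤ w) (x : Fin (w ^ 2)) :
    (Ls.filter (fun b => x ∈ b)).card = w + 1 := by
  have h1 := degree hL x
  rw [Fintype.card_fin] at h1
  obtain ⟨m, rfl⟩ : ∃ m, w = m + 1 := ⟨w - 1, by omega⟩
  have h2 : (m + 1) ^ 2 - 1 = (m + 1 + 1) * (m + 1 - 1) := by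
    have : (m + 1) ^ 2 = (m + 1 + 1) * m + 1 := by ring
    rw [this]; simp
  rw [h2] at h1
  exact Nat.eq_of_mul_eq_mul_right (by omega) h1

theorem card_plane (hL : IsSteiner 2 w Ls) (hw : 2 ≤ w) : Ls.card = w ^ 2 + w := by
  have h1 : ∑ x : Fin (w ^ 2), (Ls.filter (fun b => x ∈ b)).card = ∑ b ∈ Ls, b.card := by
    simp only [card_filter]
    rw [sum_comm]
    refine sum_congr rfl fun b _ => ?_
    rw [← card_filter, filter_univ_mem]
  rw [sum_congr rfl (fun x _ => deg_plane hL hw x), sum_const, card_univ, Fintype.card_fin,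
    sum_congr rfl (fun b hb => hL.1 b hb), sum_const, smul_eq_mul, smul_eq_mul] at h1
  have h2 : w * Ls.card = w * (w ^ 2 + w) := by
    calc w * Ls.card = Ls.card * w := by ring
      _ = w ^ 2 * (w + 1) := h1.symm
      _ = _ := by ring
  exact Nat.eq_of_mul_eq_mul_left (by omega) h2

theorem sum_inter (hL : IsSteiner 2 w Ls) (hw : 2 ≤ w) (I : Finset (Fin (w ^ 2))) :
    ∑ L ∈ Ls, (L ∩ I).card = I.card * (w + 1) := by
  have h1 : ∀ L ∈ Ls, (L ∩ I).card = ∑ x ∈ I, if x ∈ L then 1 else 0 := by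
    intro L _
    rw [← card_filter, inter_comm, filter_mem_eq_inter]
  rw [sum_congr rfl h1, sum_comm]
  have h2 : ∀ x ∈ I, ∑ L ∈ Ls, (if x ∈ L then 1 else 0) = w + 1 := by
    intro x _
    rw [← card_filter, deg_plane hL hw x]
  rw [sum_congr rfl h2, sum_const, smul_eq_mul]

theorem sum_inter_sq (hL : IsSteiner 2 w Ls) (hw : 2 ≤ w) (I : Finset (Fin (w ^ 2))) :
    ∑ L ∈ Ls, (L ∩ I).card * (L ∩ I).card = I.card * I.card + I.card * w := by
  have h1 : ∀ L ∈ Ls, (L ∩ I).card * (L ∩ I).card =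
      ∑ x ∈ I, ∑ y ∈ I, if x ∈ L ∧ y ∈ L then 1 else 0 := by
    intro L _
    have e : (L ∩ I).card = ∑ x ∈ I, if x ∈ L then 1 else 0 := by
      rw [← card_filter, inter_comm, filter_mem_eq_inter]
    rw [e, sum_mul_sum]
    refine sum_congr rfl fun x _ => sum_congr rfl fun y _ => ?_
    by_cases hx : x ∈ L <;> by_cases hy : y ∈ L <;> simp [hx, hy]
  rw [sum_congr rfl h1, sum_comm]
  have h2 : ∀ x ∈ I, ∑ L ∈ Ls, ∑ y ∈ I, (if x ∈ L ∧ y ∈ L then 1 else 0) = I.card + w := by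
    intro x hx
    rw [sum_comm, ← add_sum_erase I _ hx]
    have e1 : ∑ L ∈ Ls, (if x ∈ L ∧ x ∈ L then 1 else 0) = w + 1 := by
      simp only [and_self]
      rw [← card_filter, deg_plane hL hw x]
    have e2 : ∀ y ∈ I.erase x, ∑ L ∈ Ls, (if x ∈ L ∧ y ∈ L then 1 else 0) = 1 := by
      intro y hy
      rw [mem_erase] at hy
      rw [← card_filter, card_eq_one]
      obtain ⟨b, ⟨hb, hTb⟩, -⟩ := hL.2 {x, y} (card_pair (Ne.symm hy.1))
      refine ⟨b, ?_⟩
      ext L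
      rw [mem_filter, mem_singleton]
      constructor
      · rintro ⟨hL1, hx1, hy1⟩
        exact pair_unique hL hL1 hb (Ne.symm hy.1) hx1 hy1 (hTb (by simp)) (hTb (by simp))
      · rintro rfl
        exact ⟨hb, hTb (by simp), hTb (by simp)⟩
    rw [e1, sum_congr rfl e2, sum_const, card_erase_of_mem hx, smul_eq_mul]
    have : 1 ≤ I.card := card_pos.2 ⟨x, hx⟩
    omega
  rw [sum_congr rfl h2, sum_const, smul_eq_mul]
  ring

/-- most lines meet a large set in at least half the average -/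
theorem rich_lines (hL : IsSteiner 2 w Ls) (hw : 2 ≤ w) (i0 : ℕ) (hi : 4 ≤ i0)
    (I : Finset (Fin (w ^ 2))) (hI : I.card = 2 * w * i0) :
    w ^ 2 ≤ 2 * (Ls.filter (fun L => i0 ≤ (L ∩ I).card)).card := by
  have hM : (0 : ℤ) < I.card := by
    rw [hI]; positivity
  have h1 : ∑ L ∈ Ls, ((w : ℤ) * (L ∩ I).card - I.card) ^ 2 ≤ (w : ℤ) ^ 3 * I.card := by
    have e : ∑ L ∈ Ls, ((w : ℤ) * (L ∩ I).card - I.card) ^ 2 =
        (w : ℤ) ^ 2 * ∑ L ∈ Ls, (((L ∩ I).card : ℤ) * (L ∩ I).card) -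
          2 * w * I.card * ∑ L ∈ Ls, ((L ∩ I).card : ℤ) + Ls.card * (I.card : ℤ) ^ 2 := by
      rw [mul_sum, mul_sum, ← sum_sub_distrib]
      have : (Ls.card : ℤ) * (I.card : ℤ) ^ 2 = ∑ L ∈ Ls, (I.card : ℤ) ^ 2 := by
        rw [sum_const, nsmul_eq_mul]
      rw [this, ← sum_add_distrib]
      refine sum_congr rfl fun L _ => ?_
      ring
    have s1 : ∑ L ∈ Ls, ((L ∩ I).card : ℤ) = I.card * (w + 1) := by
      exact_mod_cast sum_inter hL hw I
    have s2 : ∑ L ∈ Ls, (((L ∩ I).card : ℤ) * (L ∩ I).card) = I.card * I.card + I.card * w := by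
      exact_mod_cast sum_inter_sq hL hw I
    have s3 : (Ls.card : ℤ) = (w : ℤ) ^ 2 + w := by exact_mod_cast card_plane hL hw
    rw [e, s1, s2, s3]
    have hw0 : (0 : ℤ) ≤ w := by positivity
    nlinarith [mul_nonneg hw0 (sq_nonneg (I.card : ℤ))]
  have h2 : ((Ls.filter (fun L => ¬ i0 ≤ (L ∩ I).card)).card : ℤ) * (I.card : ℤ) ^ 2 ≤
      4 * ((w : ℤ) ^ 3 * I.card) := by
    have h3 : ∀ L ∈ Ls.filter (fun L => ¬ i0 ≤ (L ∩ I).card),
        (I.card : ℤ) ^ 2 ≤ 4 * ((w : ℤ) * (L ∩ I).card - I.card) ^ 2 := by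
      intro L hL'
      rw [mem_filter] at hL'
      have h4 : ((L ∩ I).card : ℤ) ≤ i0 := by
        have := hL'.2
        push Not at this
        exact_mod_cast this.le
      have h5 : (I.card : ℤ) = 2 * w * i0 := by exact_mod_cast hI
      have h6 : 2 * ((w : ℤ) * (L ∩ I).card) ≤ I.card := by
        rw [h5]
        have hw0 : (0 : ℤ) ≤ w := by positivity
        nlinarith
      have h7 : (0 : ℤ) ≤ (w : ℤ) * (L ∩ I).card := by positivity
      nlinarith
    calc ((Ls.filter (fun L => ¬ i0 ≤ (L ∩ I).card)).card : ℤ) * (I.card : ℤ) ^ 2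
        = ∑ L ∈ Ls.filter (fun L => ¬ i0 ≤ (L ∩ I).card), (I.card : ℤ) ^ 2 := by
          rw [sum_const, nsmul_eq_mul]
      _ ≤ ∑ L ∈ Ls.filter (fun L => ¬ i0 ≤ (L ∩ I).card),
            4 * ((w : ℤ) * (L ∩ I).card - I.card) ^ 2 := sum_le_sum h3
      _ ≤ ∑ L ∈ Ls, 4 * ((w : ℤ) * (L ∩ I).card - I.card) ^ 2 := by
          apply sum_le_sum_of_subset_of_nonneg (filter_subset _ _)
          intro L _ _
          positivity
      _ = 4 * ∑ L ∈ Ls, ((w : ℤ) * (L ∩ I).card - I.card) ^ 2 := by rw [mul_sum]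
      _ ≤ _ := by linarith
  have h3 : ((Ls.filter (fun L => ¬ i0 ≤ (L ∩ I).card)).card : ℤ) * I.card ≤
      4 * (w : ℤ) ^ 3 := by
    have : (((Ls.filter (fun L => ¬ i0 ≤ (L ∩ I).card)).card : ℤ) * I.card) * I.card ≤
      (4 * (w : ℤ) ^ 3) * I.card := by nlinarith
    exact le_of_mul_le_mul_right this hM
  have h4 : (Ls.filter (fun L => ¬ i0 ≤ (L ∩ I).card)).card * (2 * w * i0) ≤ 4 * w ^ 3 := by
    rw [← hI]; exact_mod_cast h3
  have h5 : 2 * (Ls.filter (fun L => ¬ i0 ≤ (L ∩ I).card)).card ≤ w ^ 2 := by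
    set n := (Ls.filter (fun L => ¬ i0 ≤ (L ∩ I).card)).card
    have h6 : (2 * n) * (4 * w) ≤ w ^ 2 * (4 * w) := by
      calc (2 * n) * (4 * w) = n * (2 * w * 4) := by ring
        _ ≤ n * (2 * w * i0) := by gcongr
        _ ≤ 4 * w ^ 3 := h4
        _ = _ := by ring
    exact Nat.le_of_mul_le_mul_right h6 (by omega)
  have h7 := card_filter_add_card_filter_not (s := Ls) (fun L => i0 ≤ (L ∩ I).card)
  rw [card_plane hL hw] at h7
  omega

end Outer

end Pool.Agent.Helper543.Steiner
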