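import Pool.Agent.Helper543.SteinerReduce

set_option autoImplicit false

namespace Pool.Agent.Helper543.Steiner

open Finset

/-- replication number -/
theorem degree {X : Type} [Fintype X] [DecidableEq X] {k : ℕ} {B : Finset (Finset X)}
    (h : IsSteiner 2 k B) (x : X) :
    (B.filter (fun b => x ∈ b)).card * (k - 1) = Fintype.card X - 1 := by
  have h1 : (univ.erase x : Finset X).card =
      ∑ b ∈ B.filter (fun b => x ∈ b), (b.erase x).card := by
    rw [← card_biUnion]
    · congr 1
      ext y
      simp only [mem_erase, mem_univ, and_true, mem_biUnion, mem_filter]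
      constructor
      · intro hy
        obtain ⟨b, ⟨hb, hTb⟩, -⟩ := h.2 {x, y} (card_pair (Ne.symm hy))
        exact ⟨b, ⟨hb, hTb (by simp)⟩, hy, hTb (by simp)⟩
      · rintro ⟨b, -, hy, -⟩
        exact hy
    · intro b hb b' hb' hne
      rw [Function.onFun, disjoint_left]
      intro y hy hy'
      rw [mem_coe, mem_filter] at hb hb'
      rw [mem_erase] at hy hy'
      exact hne (pair_unique h hb.1 hb'.1 hy.1 hy.2 hb.2 hy'.2 hb'.2)
  rw [card_erase_of_mem (mem_univ x), card_univ] at h1
  have h2 : ∀ b ∈ B.filter (fun b => x ∈ b), (b.erase x).card = k - 1 := by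
    intro b hb
    rw [mem_filter] at hb
    rw [card_erase_of_mem hb.2, h.1 b hb.1]
  rw [h1, sum_congr rfl h2, sum_const, smul_eq_mul]

/-- Second Bonferroni inequality. -/
theorem bonferroni {Ω ι : Type} [Fintype Ω] [DecidableEq Ω] [DecidableEq ι] (D : Finset ι)
    (A : ι → Finset Ω) :
    2 * ∑ b ∈ D, (A b).card ≤
      ∑ b ∈ D, ∑ b' ∈ D.erase b, (A b ∩ A b').card + 2 * (D.biUnion A).card := by
  classical
  let Z : Ω → ℕ := fun σ => (D.filter (fun b => σ ∈ A b)).card
  have h1 : ∑ σ, Z σ = ∑ b ∈ D, (A b).card := by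
    simp only [Z, card_filter]
    rw [sum_comm]
    refine sum_congr rfl fun b _ => ?_
    rw [← card_filter, filter_univ_mem]
  have h2 : ∑ σ, Z σ * Z σ = ∑ b ∈ D, ∑ b' ∈ D, (A b ∩ A b').card := by
    have e1 : ∀ σ, Z σ * Z σ = ∑ b ∈ D, ∑ b' ∈ D, if σ ∈ A b ∩ A b' then 1 else 0 := by
      intro σ
      simp only [Z, card_filter]
      rw [sum_mul_sum]
      refine sum_congr rfl fun b _ => sum_congr rfl fun b' _ => ?_
      by_cases hb : σ ∈ A b <;> by_cases hb' : σ ∈ A b' <;> simp [hb, hb']
    simp only [e1]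
    rw [sum_comm]
    refine sum_congr rfl fun b _ => ?_
    rw [sum_comm]
    refine sum_congr rfl fun b' _ => ?_
    rw [← card_filter, filter_univ_mem]
  have h3 : ∀ σ, 3 * Z σ ≤ Z σ * Z σ + 2 * (if σ ∈ D.biUnion A then 1 else 0) := by
    intro σ
    by_cases hσ : σ ∈ D.biUnion A
    · rw [if_pos hσ]
      rcases Nat.lt_or_ge (Z σ) 3 with h | h
      · interval_cases Z σ <;> omega
      · nlinarith
    · rw [if_neg hσ]
      have : Z σ = 0 := by
        rw [card_eq_zero, filter_eq_empty_iff]
        intro b hb hσb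
        exact hσ (mem_biUnion.2 ⟨b, hb, hσb⟩)
      rw [this]
  have h4 : 3 * ∑ σ, Z σ ≤ ∑ σ, Z σ * Z σ + 2 * (D.biUnion A).card := by
    have := sum_le_sum (fun σ (_ : σ ∈ (univ : Finset Ω)) => h3 σ)
    rw [sum_add_distrib, ← mul_sum, ← mul_sum, ← card_filter, filter_univ_mem] at this
    exact this
  have h5 : ∑ b ∈ D, ∑ b' ∈ D, (A b ∩ A b').card =
      ∑ b ∈ D, (A b).card + ∑ b ∈ D, ∑ b' ∈ D.erase b, (A b ∩ A b').card := by
    rw [← sum_add_distrib]
    refine sum_congr rfl fun b hb => ?_
    rw [← add_sum_erase D _ hb, inter_self]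
  rw [h1, h2, h5] at h4
  omega

/-- number of permutations of `Fin w` mapping `S` into `J` -/
def cnt {w : ℕ} (S J : Finset (Fin w)) : ℕ :=
  ((univ : Finset (Equiv.Perm (Fin w))).filter (fun σ => ∀ x ∈ S, σ x ∈ J)).card

theorem cnt_le {w : ℕ} {S S' J : Finset (Fin w)} (h : S.card = S'.card) :
    cnt S' J ≤ cnt S J := by
  classical
  let e : {x // x ∈ S} ≃ {x // x ∈ S'} := Finset.equivOfCardEq h
  let τ : Equiv.Perm (Fin w) := e.extendSubtype
  have hτ : ∀ x ∈ S, τ x ∈ S' := fun x hx => e.extendSubtype_mem x hx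
  apply card_le_card_of_injOn (fun σ => σ * τ)
  · intro σ hσ
    simp only [coe_filter, mem_univ, true_and, Set.mem_ofPred_eq] at hσ ⊢
    intro x hx
    exact hσ _ (hτ x hx)
  · intro σ _ σ' _ hh
    exact mul_right_cancel hh

theorem cnt_eq {w : ℕ} {S S' J : Finset (Fin w)} (h : S.card = S'.card) :
    cnt S J = cnt S' J := le_antisymm (cnt_le h.symm) (cnt_le h)

theorem cnt_mul {w : ℕ} (S J : Finset (Fin w)) :
    cnt S J * w.choose S.card = w.factorial * J.card.choose S.card := by
  classical
  have h1 : ∑ S' ∈ powersetCard S.card (univ : Finset (Fin w)), cnt S' J =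
      w.choose S.card * cnt S J := by
    rw [sum_congr rfl (fun S' hS' => cnt_eq (mem_powersetCard.1 hS').2), sum_const, smul_eq_mul,
      card_powersetCard, card_univ, Fintype.card_fin]
  have h2 : ∑ S' ∈ powersetCard S.card (univ : Finset (Fin w)), cnt S' J =
      w.factorial * J.card.choose S.card := by
    simp only [cnt, card_filter]
    rw [sum_comm]
    have : ∀ σ : Equiv.Perm (Fin w), ∑ S' ∈ powersetCard S.card (univ : Finset (Fin w)),
        (if ∀ x ∈ S', σ x ∈ J then 1 else 0) = J.card.choose S.card := by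
      intro σ
      rw [← card_filter]
      have e : (powersetCard S.card (univ : Finset (Fin w))).filter (fun S' => ∀ x ∈ S', σ x ∈ J) =
          powersetCard S.card (J.map σ.symm.toEmbedding) := by
        ext S'
        simp only [mem_filter, mem_powersetCard, subset_univ, true_and]
        constructor
        · rintro ⟨h, h'⟩
          refine ⟨fun x hx => ?_, h⟩
          rw [mem_map]
          exact ⟨σ x, h' x hx, by simp⟩
        · rintro ⟨h, h'⟩
          refine ⟨h', fun x hx => ?_⟩
          obtain ⟨y, hy, hyx⟩ := mem_map.1 (h hx)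
          rw [← hyx]
          simpa using hy
      rw [e, card_powersetCard, card_map]
    simp only [this, sum_const, card_univ, Fintype.card_perm, Fintype.card_fin, smul_eq_mul]
  rw [← h2, h1, mul_comm]

end Pool.Agent.Helper543.Steiner
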