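import Pool.Agent.Helper543.SteinerPerm

set_option autoImplicit false

namespace Pool.Agent.Helper543.Steiner

open Finset

theorem desc_ratio {a w : ℕ} (h : a ≤ w) (u : ℕ) :
    a.descFactorial u * w ^ u ≤ w.descFactorial u * a ^ u := by
  induction u with
  | zero => simp
  | succ u ih =>
    rw [Nat.descFactorial_succ, Nat.descFactorial_succ, pow_succ, pow_succ]
    have h1 : (a - u) * w ≤ (w - u) * a := by
      rcases Nat.lt_or_ge a u with h2 | h2
      · rw [Nat.sub_eq_zero_of_le h2.le]; simp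
      · obtain ⟨c, rfl⟩ := Nat.exists_eq_add_of_le h2
        obtain ⟨d, rfl⟩ := Nat.exists_eq_add_of_le h
        have e1 : u + c - u = c := by omega
        have e2 : u + c + d - u = c + d := by omega
        rw [e1, e2]
        nlinarith
    calc (a - u) * a.descFactorial u * (w ^ u * w) = (a.descFactorial u * w ^ u) * ((a - u) * w) := by
          ring
      _ ≤ (w.descFactorial u * a ^ u) * ((w - u) * a) := Nat.mul_le_mul ih h1
      _ = _ := by ring

theorem cnt_upper {w i0 : ℕ} (hi : i0 ≤ w) (hw : 1 ≤ w) (S J : Finset (Fin w))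
    (hJ : J.card = i0) :
    (cnt S J : ℝ) ≤ w.factorial * ((i0 : ℝ) / w) ^ S.card := by
  have hSw : S.card ≤ w := by simpa using card_le_univ S
  have h1 := cnt_mul S J
  rw [hJ] at h1
  have h2 := desc_ratio hi S.card
  have hd1 := Nat.descFactorial_eq_factorial_mul_choose i0 S.card
  have hd2 := Nat.descFactorial_eq_factorial_mul_choose w S.card
  rw [hd1, hd2] at h2
  have hpos : 0 < S.card.factorial := Nat.factorial_pos _
  have h3 : i0.choose S.card * w ^ S.card ≤ w.choose S.card * i0 ^ S.card := by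
    have : S.card.factorial * (i0.choose S.card * w ^ S.card) ≤
        S.card.factorial * (w.choose S.card * i0 ^ S.card) := by
      calc _ = S.card.factorial * i0.choose S.card * w ^ S.card := by ring
        _ ≤ _ := h2
        _ = _ := by ring
    exact le_of_mul_le_mul_left this hpos
  have hcp : 0 < w.choose S.card := Nat.choose_pos hSw
  have h1r : (cnt S J : ℝ) * w.choose S.card = w.factorial * i0.choose S.card := by
    exact_mod_cast h1
  have h3r : (i0.choose S.card : ℝ) * (w : ℝ) ^ S.card ≤ w.choose S.card * (i0 : ℝ) ^ S.card := by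
    exact_mod_cast h3
  have hwp : (0 : ℝ) < (w : ℝ) ^ S.card := by positivity
  have hcr : (0 : ℝ) < w.choose S.card := by exact_mod_cast hcp
  rw [div_pow]
  have h4 : (i0.choose S.card : ℝ) ≤ w.choose S.card * ((i0 : ℝ) ^ S.card / (w : ℝ) ^ S.card) := by
    rw [mul_div_assoc', le_div_iff₀ hwp]
    exact h3r
  apply le_of_mul_le_mul_right _ hcr
  rw [h1r]
  calc (w.factorial : ℝ) * i0.choose S.card
      ≤ w.factorial * (w.choose S.card * ((i0 : ℝ) ^ S.card / (w : ℝ) ^ S.card)) := by gcongr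
    _ = _ := by ring

theorem cnt_lower {w i0 u : ℕ} (hi : i0 ≤ w) (hw : 1 ≤ w) (S J : Finset (Fin w))
    (hJ : J.card = i0) (hS : S.card = u) (hu : 2 * u ≤ i0) :
    w.factorial * ((i0 : ℝ) / w / 2) ^ u ≤ (cnt S J : ℝ) := by
  have hSw : u ≤ w := by omega
  have h1 := cnt_mul S J
  rw [hJ, hS] at h1
  have h2 : (i0 + 1 - u) ^ u ≤ i0.descFactorial u := Nat.pow_sub_le_descFactorial i0 u
  have h3 : w.descFactorial u ≤ w ^ u := Nat.descFactorial_le_pow w u
  rw [Nat.descFactorial_eq_factorial_mul_choose] at h2 h3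
  have hcp : 0 < w.choose u := Nat.choose_pos hSw
  have h1r : (cnt S J : ℝ) * w.choose u = w.factorial * i0.choose u := by
    exact_mod_cast h1
  have h2r : ((i0 : ℝ) / 2) ^ u ≤ u.factorial * i0.choose u := by
    have e : ((i0 : ℝ) / 2) ^ u ≤ ((i0 + 1 - u : ℕ) : ℝ) ^ u := by
      apply pow_le_pow_left₀ (by positivity)
      rw [Nat.cast_sub (by omega)]
      have : (2 : ℝ) * u ≤ i0 := by exact_mod_cast hu
      push_cast
      linarith
    exact e.trans (by exact_mod_cast h2)
  have h3r : (u.factorial : ℝ) * w.choose u ≤ (w : ℝ) ^ u := by exact_mod_cast h3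
  have hcr : (0 : ℝ) < w.choose u := by exact_mod_cast hcp
  have hfr : (0 : ℝ) < u.factorial := by exact_mod_cast Nat.factorial_pos u
  have hwp : (0 : ℝ) < (w : ℝ) ^ u := by positivity
  apply le_of_mul_le_mul_right _ hcr
  rw [h1r]
  have h4 : ((i0 : ℝ) / w / 2) ^ u * w.choose u ≤ i0.choose u := by
    have e1 : ((i0 : ℝ) / w / 2) ^ u = ((i0 : ℝ) / 2) ^ u / (w : ℝ) ^ u := by
      rw [← div_pow]; congr 1; ring
    rw [e1, div_mul_eq_mul_div, div_le_iff₀ hwp]
    apply le_of_mul_le_mul_left _ hfr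
    calc (u.factorial : ℝ) * (((i0 : ℝ) / 2) ^ u * w.choose u)
        = ((i0 : ℝ) / 2) ^ u * (u.factorial * w.choose u) := by ring
      _ ≤ (u.factorial * i0.choose u) * (w : ℝ) ^ u := by
          apply mul_le_mul h2r h3r (by positivity) (by positivity)
      _ = _ := by ring
  calc (w.factorial : ℝ) * ((i0 : ℝ) / w / 2) ^ u * w.choose u
      = w.factorial * (((i0 : ℝ) / w / 2) ^ u * w.choose u) := by ring
    _ ≤ w.factorial * i0.choose u := by gcongr

theorem perm_main {w k i0 : ℕ} {D : Finset (Finset (Fin w))} (hD : IsSteiner 2 k D) (hk : 4 ≤ k)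
    (hi : 2 * k ≤ i0) (hiw : i0 ≤ w)
    (hc : (k : ℝ) * w * ((i0 : ℝ) / w) ^ (k - 2) + (w : ℝ) ^ 2 * ((i0 : ℝ) / w) ^ (k - 1) ≤
      (1 / 2) ^ (k - 1))
    (J : Finset (Fin w)) (hJ : i0 ≤ J.card) :
    (((univ : Finset (Equiv.Perm (Fin w))).filter
      (fun σ => ∀ b ∈ D, (b.filter (fun x => σ x ∈ J)).card ≤ k - 2)).card : ℝ) ≤
      w.factorial * (1 - D.card * ((i0 : ℝ) / w / 2) ^ (k - 1) / 2) := by
  classical
  have hw : 1 ≤ w := by omega
  obtain ⟨J0, hJ0, hJ0c⟩ := exists_subset_card_eq hJ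
  have hS : ∀ b : Finset (Fin w), ∃ S : Finset (Fin w), b ∈ D → S ⊆ b ∧ S.card = k - 1 := by
    intro b
    by_cases hb : b ∈ D
    · obtain ⟨S, h1, h2⟩ := exists_subset_card_eq (show k - 1 ≤ b.card by rw [hD.1 b hb]; omega)
      exact ⟨S, fun _ => ⟨h1, h2⟩⟩
    · exact ⟨∅, fun h => absurd h hb⟩
  choose S hS using hS
  let A : Finset (Fin w) → Finset (Equiv.Perm (Fin w)) := fun b =>
    univ.filter (fun σ => ∀ x ∈ S b, σ x ∈ J0)
  set p : ℝ := (i0 : ℝ) / w with hp
  have hw0 : (0 : ℝ) < w := by exact_mod_cast hw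
  have hp0 : 0 ≤ p := by positivity
  have hp1 : p ≤ 1 := by
    rw [hp, div_le_one hw0]
    exact_mod_cast hiw
  have hbon := bonferroni D A
  have hA : ∀ b ∈ D, (w.factorial : ℝ) * (p / 2) ^ (k - 1) ≤ ((A b).card : ℝ) := by
    intro b hb
    exact cnt_lower hiw hw (S b) J0 hJ0c (hS b hb).2 (by omega)
  have hAA : ∀ b b', (((A b) ∩ (A b')).card : ℝ) ≤ w.factorial * p ^ (S b ∪ S b').card := by
    intro b b'
    have e : A b ∩ A b' = univ.filter (fun σ => ∀ x ∈ S b ∪ S b', σ x ∈ J0) := by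
      ext σ
      simp only [A, mem_inter, mem_filter, mem_univ, true_and, mem_union]
      constructor
      · rintro ⟨h1, h2⟩ x (hx | hx)
        · exact h1 x hx
        · exact h2 x hx
      · intro h
        exact ⟨fun x hx => h x (Or.inl hx), fun x hx => h x (Or.inr hx)⟩
    rw [e]
    exact cnt_upper hiw hw (S b ∪ S b') J0 hJ0c
  have hDc : (D.card : ℝ) ≤ (w : ℝ) ^ 2 := by
    have h1 := card_blocks hD
    rw [Fintype.card_fin] at h1
    have h2 : 1 ≤ k.choose 2 := Nat.choose_pos (by omega)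
    have : D.card ≤ w ^ 2 := by
      calc D.card ≤ D.card * k.choose 2 := Nat.le_mul_of_pos_right _ h2
        _ = w.choose 2 := h1
        _ ≤ w ^ 2 := Nat.choose_le_pow w 2
    exact_mod_cast this
  have hdeg : ∀ x : Fin w, (D.filter (fun b => x ∈ b)).card ≤ w := by
    intro x
    have h1 := degree hD x
    rw [Fintype.card_fin] at h1
    calc (D.filter (fun b => x ∈ b)).card ≤ (D.filter (fun b => x ∈ b)).card * (k - 1) :=
          Nat.le_mul_of_pos_right _ (by omega)
      _ = w - 1 := h1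
      _ ≤ w := by omega
  have hT : ∀ b ∈ D, ∑ b' ∈ D.erase b, p ^ (S b ∪ S b').card ≤ (p / 2) ^ (k - 1) := by
    intro b hb
    have h1 : ∀ b' ∈ D.erase b, p ^ (S b ∪ S b').card ≤
        (if (S b ∩ S b').Nonempty then p ^ (2 * k - 3) else 0) + p ^ (2 * k - 2) := by
      intro b' hb'
      rw [mem_erase] at hb'
      have hcard := card_union_add_card_inter (S b) (S b')
      rw [(hS b hb).2, (hS b' hb'.2).2] at hcard
      have hint : (S b ∩ S b').card ≤ 1 := by
        by_contra hcon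
        push Not at hcon
        obtain ⟨x, hx, y, hy, hxy⟩ := one_lt_card.1 hcon
        rw [mem_inter] at hx hy
        exact hb'.1 (pair_unique hD hb'.2 hb hxy ((hS b' hb'.2).1 hx.2) ((hS b' hb'.2).1 hy.2)
          ((hS b hb).1 hx.1) ((hS b hb).1 hy.1))
      by_cases hne : (S b ∩ S b').Nonempty
      · rw [if_pos hne]
        have : p ^ (S b ∪ S b').card ≤ p ^ (2 * k - 3) :=
          pow_le_pow_of_le_one hp0 hp1 (by omega)
        have h0 : 0 ≤ p ^ (2 * k - 2) := by positivity
        linarith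
      · rw [if_neg hne, zero_add]
        rw [not_nonempty_iff_eq_empty] at hne
        rw [hne, card_empty] at hcard
        exact pow_le_pow_of_le_one hp0 hp1 (by omega)
    have h2 : ((D.erase b).filter (fun b' => (S b ∩ S b').Nonempty)).card ≤ k * w := by
      have hsub : (D.erase b).filter (fun b' => (S b ∩ S b').Nonempty) ⊆
          (S b).biUnion (fun x => D.filter (fun b' => x ∈ b')) := by
        intro b' hb'
        rw [mem_filter, mem_erase] at hb'
        obtain ⟨⟨-, hb'D⟩, x, hx⟩ := hb'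
        rw [mem_inter] at hx
        rw [mem_biUnion]
        exact ⟨x, hx.1, mem_filter.2 ⟨hb'D, (hS b' hb'D).1 hx.2⟩⟩
      calc _ ≤ ((S b).biUnion (fun x => D.filter (fun b' => x ∈ b'))).card := card_le_card hsub
        _ ≤ ∑ x ∈ S b, (D.filter (fun b' => x ∈ b')).card := card_biUnion_le
        _ ≤ ∑ x ∈ S b, w := sum_le_sum fun x _ => hdeg x
        _ = (k - 1) * w := by rw [sum_const, smul_eq_mul, (hS b hb).2]
        _ ≤ k * w := Nat.mul_le_mul_right _ (by omega)
    have h2r : (((D.erase b).filter (fun b' => (S b ∩ S b').Nonempty)).card : ℝ) ≤ k * w := by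
      exact_mod_cast h2
    have h3 : ((D.erase b).card : ℝ) ≤ (w : ℝ) ^ 2 := by
      refine le_trans ?_ hDc
      exact_mod_cast card_le_card (erase_subset _ _)
    calc ∑ b' ∈ D.erase b, p ^ (S b ∪ S b').card
        ≤ ∑ b' ∈ D.erase b, ((if (S b ∩ S b').Nonempty then p ^ (2 * k - 3) else 0) +
            p ^ (2 * k - 2)) := sum_le_sum h1
      _ = ((D.erase b).filter (fun b' => (S b ∩ S b').Nonempty)).card * p ^ (2 * k - 3) +
            (D.erase b).card * p ^ (2 * k - 2) := by
          rw [sum_add_distrib, ← sum_filter, sum_const, sum_const, nsmul_eq_mul, nsmul_eq_mul]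
      _ ≤ (k * w) * p ^ (2 * k - 3) + (w : ℝ) ^ 2 * p ^ (2 * k - 2) := by gcongr
      _ = p ^ (k - 1) * ((k : ℝ) * w * p ^ (k - 2) + (w : ℝ) ^ 2 * p ^ (k - 1)) := by
          have e1 : 2 * k - 3 = (k - 1) + (k - 2) := by omega
          have e2 : 2 * k - 2 = (k - 1) + (k - 1) := by omega
          rw [e1, e2, pow_add, pow_add]
          ring
      _ ≤ p ^ (k - 1) * (1 / 2) ^ (k - 1) := by gcongr
      _ = (p / 2) ^ (k - 1) := by rw [← mul_pow]; congr 1; ring
  have hfac : (0 : ℝ) < w.factorial := by exact_mod_cast Nat.factorial_pos w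
  have hU : (w.factorial : ℝ) * (D.card * (p / 2) ^ (k - 1) / 2) ≤ ((D.biUnion A).card : ℝ) := by
    have h1 : (2 : ℝ) * ∑ b ∈ D, ((A b).card : ℝ) ≤
        ∑ b ∈ D, ∑ b' ∈ D.erase b, ((A b ∩ A b').card : ℝ) + 2 * ((D.biUnion A).card : ℝ) := by
      exact_mod_cast hbon
    have h2 : (D.card : ℝ) * (w.factorial * (p / 2) ^ (k - 1)) ≤ ∑ b ∈ D, ((A b).card : ℝ) := by
      calc (D.card : ℝ) * (w.factorial * (p / 2) ^ (k - 1))
          = ∑ b ∈ D, ((w.factorial : ℝ) * (p / 2) ^ (k - 1)) := by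
            rw [sum_const, nsmul_eq_mul]
        _ ≤ _ := sum_le_sum hA
    have h3 : ∑ b ∈ D, ∑ b' ∈ D.erase b, ((A b ∩ A b').card : ℝ) ≤
        (D.card : ℝ) * (w.factorial * (p / 2) ^ (k - 1)) := by
      calc ∑ b ∈ D, ∑ b' ∈ D.erase b, ((A b ∩ A b').card : ℝ)
          ≤ ∑ b ∈ D, ∑ b' ∈ D.erase b, (w.factorial * p ^ (S b ∪ S b').card) :=
            sum_le_sum fun b _ => sum_le_sum fun b' _ => hAA b b'
        _ ≤ ∑ b ∈ D, (w.factorial * (p / 2) ^ (k - 1)) := by
            refine sum_le_sum fun b hb => ?_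
            rw [← mul_sum]
            exact mul_le_mul_of_nonneg_left (hT b hb) hfac.le
        _ = _ := by rw [sum_const, nsmul_eq_mul]
    nlinarith
  have hdisj : ((univ : Finset (Equiv.Perm (Fin w))).filter
      (fun σ => ∀ b ∈ D, (b.filter (fun x => σ x ∈ J)).card ≤ k - 2)).card +
      (D.biUnion A).card ≤ w.factorial := by
    rw [← card_union_of_disjoint]
    · calc _ ≤ (univ : Finset (Equiv.Perm (Fin w))).card := card_le_card (subset_univ _)
        _ = w.factorial := by rw [card_univ, Fintype.card_perm, Fintype.card_fin]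
    · rw [disjoint_left]
      intro σ hσ hσ'
      rw [mem_filter] at hσ
      obtain ⟨b, hb, hσb⟩ := mem_biUnion.1 hσ'
      simp only [A, mem_filter, mem_univ, true_and] at hσb
      have h1 := hσ.2 b hb
      have h2 : S b ⊆ b.filter (fun x => σ x ∈ J) := by
        intro x hx
        exact mem_filter.2 ⟨(hS b hb).1 hx, hJ0 (hσb x hx)⟩
      have h3 := card_le_card h2
      rw [(hS b hb).2] at h3
      omega
  have hdr : ((((univ : Finset (Equiv.Perm (Fin w))).filter
      (fun σ => ∀ b ∈ D, (b.filter (fun x => σ x ∈ J)).card ≤ k - 2)).card : ℕ) : ℝ) +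
      ((D.biUnion A).card : ℝ) ≤ w.factorial := by exact_mod_cast hdisj
  linarith

end Pool.Agent.Helper543.Steiner
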