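import Pool.Agent.Helper543.SteinerOuter

set_option autoImplicit false

namespace Pool.Agent.Helper543.Steiner

open Finset

/-- copies of the blocks of `D` on the lines `L ∈ Ls`, placed by the maps `g L` -/
def place {v w : ℕ} (Ls : Finset (Finset (Fin v))) (D : Finset (Finset (Fin w)))
    (g : {L // L ∈ Ls} → Fin w → Fin v) : Finset (Finset (Fin v)) :=
  univ.biUnion (fun L : {L // L ∈ Ls} => D.image (fun b => b.image (g L)))

theorem place_steiner {v w k : ℕ} {Ls : Finset (Finset (Fin v))} {D : Finset (Finset (Fin w))}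
    (hL : IsSteiner 2 w Ls) (hD : IsSteiner 2 k D)
    (g : {L // L ∈ Ls} → Fin w → Fin v) (hg : ∀ L, Function.Injective (g L))
    (hr : ∀ L : {L // L ∈ Ls}, ∀ x, x ∈ L.1 ↔ ∃ i, g L i = x) :
    IsSteiner 2 k (place Ls D g) := by
  classical
  constructor
  · intro b hb
    rw [place, mem_biUnion] at hb
    obtain ⟨L, -, hb⟩ := hb
    obtain ⟨c, hc, rfl⟩ := mem_image.1 hb
    rw [card_image_of_injective _ (hg L), hD.1 c hc]
  · intro T hT
    obtain ⟨x, y, hxy, rfl⟩ := card_eq_two.1 hT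
    obtain ⟨L, ⟨hLL, hTL⟩, -⟩ := hL.2 {x, y} hT
    obtain ⟨i, hi⟩ := (hr ⟨L, hLL⟩ x).1 (hTL (by simp))
    obtain ⟨j, hj⟩ := (hr ⟨L, hLL⟩ y).1 (hTL (by simp))
    have hij : i ≠ j := by
      rintro rfl
      exact hxy (hi.symm.trans hj)
    obtain ⟨c, ⟨hc, hTc⟩, -⟩ := hD.2 {i, j} (card_pair hij)
    refine ⟨c.image (g ⟨L, hLL⟩), ⟨?_, ?_⟩, ?_⟩
    · rw [place, mem_biUnion]
      exact ⟨⟨L, hLL⟩, mem_univ _, mem_image_of_mem _ hc⟩
    · intro z hz
      rw [mem_insert, mem_singleton] at hz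
      rcases hz with rfl | rfl
      · exact mem_image.2 ⟨i, hTc (by simp), hi⟩
      · exact mem_image.2 ⟨j, hTc (by simp), hj⟩
    · rintro b' ⟨hb', hTb'⟩
      rw [place, mem_biUnion] at hb'
      obtain ⟨L', -, hb'⟩ := hb'
      obtain ⟨c', hc', rfl⟩ := mem_image.1 hb'
      obtain ⟨i', hi', hxi'⟩ := mem_image.1 (hTb' (show x ∈ ({x, y} : Finset (Fin v)) by simp))
      obtain ⟨j', hj', hyj'⟩ := mem_image.1 (hTb' (show y ∈ ({x, y} : Finset (Fin v)) by simp))
      have hLe : L' = ⟨L, hLL⟩ := by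
        apply Subtype.ext
        exact pair_unique hL L'.2 hLL hxy ((hr L' x).2 ⟨i', hxi'⟩) ((hr L' y).2 ⟨j', hyj'⟩)
          (hTL (by simp)) (hTL (by simp))
      subst hLe
      have e1 : i' = i := hg _ (hxi'.trans hi.symm)
      have e2 : j' = j := hg _ (hyj'.trans hj.symm)
      subst e1
      subst e2
      rw [pair_unique hD hc' hc hij hi' hj' (hTc (by simp)) (hTc (by simp))]

theorem exists_place {w k i0 R : ℕ} {Ls : Finset (Finset (Fin (w ^ 2)))}
    {D : Finset (Finset (Fin w))} (hL : IsSteiner 2 w Ls) (hD : IsSteiner 2 k D) (hk : 4 ≤ k)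
    (hi : 2 * k ≤ i0) (hiw : i0 ≤ w)
    (hc : (k : ℝ) * w * ((i0 : ℝ) / w) ^ (k - 2) + (w : ℝ) ^ 2 * ((i0 : ℝ) / w) ^ (k - 1) ≤
      (1 / 2) ^ (k - 1))
    (hR : 2 * R ≤ w ^ 2)
    (hnum : ((w ^ 2).choose (2 * w * i0) : ℝ) *
      (1 - D.card * ((i0 : ℝ) / w / 2) ^ (k - 1) / 2) ^ R < 1) :
    ∃ B : Finset (Finset (Fin (w ^ 2))), IsSteiner 2 k B ∧
      ∀ I : Finset (Fin (w ^ 2)), I.card = 2 * w * i0 → ∃ b ∈ B, k - 2 < (b ∩ I).card := by
  classical
  by_contra hcon
  push Not at hcon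
  set δ : ℝ := D.card * ((i0 : ℝ) / w / 2) ^ (k - 1) / 2 with hδ
  set M := 2 * w * i0 with hM
  let f : {L // L ∈ Ls} → Fin w → Fin (w ^ 2) := fun L i =>
    ((Finset.equivFinOfCardEq (hL.1 L.1 L.2)).symm i).1
  have hf : ∀ L, Function.Injective (f L) := by
    intro L i j hij
    exact (Finset.equivFinOfCardEq (hL.1 L.1 L.2)).symm.injective (Subtype.ext hij)
  have hfr : ∀ L : {L // L ∈ Ls}, ∀ x, x ∈ L.1 ↔ ∃ i, f L i = x := by
    intro L x
    constructor
    · intro hx
      exact ⟨Finset.equivFinOfCardEq (hL.1 L.1 L.2) ⟨x, hx⟩, by simp [f]⟩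
    · rintro ⟨i, rfl⟩
      exact ((Finset.equivFinOfCardEq (hL.1 L.1 L.2)).symm i).2
  let J : {L // L ∈ Ls} → Finset (Fin (w ^ 2)) → Finset (Fin w) := fun L I =>
    univ.filter (fun i => f L i ∈ I)
  have hJc : ∀ L I, (J L I).card = (L.1 ∩ I).card := by
    intro L I
    rw [← card_image_of_injective (J L I) (hf L)]
    congr 1
    ext x
    simp only [J, mem_image, mem_filter, mem_univ, true_and, mem_inter]
    constructor
    · rintro ⟨i, hi, rfl⟩
      exact ⟨(hfr L _).2 ⟨i, rfl⟩, hi⟩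
    · rintro ⟨hx, hxI⟩
      obtain ⟨i, rfl⟩ := (hfr L x).1 hx
      exact ⟨i, hxI, rfl⟩
  let G : {L // L ∈ Ls} → Finset (Fin (w ^ 2)) → Finset (Equiv.Perm (Fin w)) := fun L I =>
    univ.filter (fun σ => ∀ b ∈ D, (b.filter (fun x => σ x ∈ J L I)).card ≤ k - 2)
  have hcover : (univ : Finset ({L // L ∈ Ls} → Equiv.Perm (Fin w))) ⊆
      (powersetCard M univ).biUnion (fun I => Fintype.piFinset (fun L => G L I)) := by
    intro π _
    obtain ⟨I, hI, hbad⟩ := hcon (place Ls D (fun L i => f L (π L i)))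
      (place_steiner hL hD _ (fun L => (hf L).comp (π L).injective) (by
        intro L x
        rw [hfr L x]
        constructor
        · rintro ⟨i, hi⟩
          exact ⟨(π L).symm i, by simpa using hi⟩
        · rintro ⟨i, hi⟩
          exact ⟨π L i, hi⟩))
    rw [mem_biUnion]
    refine ⟨I, mem_powersetCard.2 ⟨subset_univ _, hI⟩, ?_⟩
    rw [Fintype.mem_piFinset]
    intro L
    simp only [G, mem_filter, mem_univ, true_and]
    intro b hb
    have h1 := hbad (b.image (fun i => f L (π L i))) (by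
      rw [place, mem_biUnion]
      exact ⟨L, mem_univ _, mem_image_of_mem _ hb⟩)
    refine le_trans (le_of_eq ?_) h1
    rw [← card_image_of_injective (b.filter (fun x => π L x ∈ J L I))
      ((hf L).comp (π L).injective)]
    congr 1
    ext x
    simp only [J, mem_image, mem_filter, mem_univ, true_and, mem_inter, Function.comp]
    constructor
    · rintro ⟨i, ⟨hi, hi'⟩, rfl⟩
      exact ⟨⟨i, hi, rfl⟩, hi'⟩
    · rintro ⟨⟨i, hi, rfl⟩, hi'⟩
      exact ⟨i, ⟨hi, hi'⟩, rfl⟩
  have hfac : (0 : ℝ) < w.factorial := by exact_mod_cast Nat.factorial_pos w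
  have hδ0 : 0 ≤ δ := by rw [hδ]; positivity
  have hδ1 : 0 ≤ 1 - δ := by
    have h1 := perm_main hD hk hi hiw hc univ (by simpa using hiw)
    have h2 : (0 : ℝ) ≤ w.factorial * (1 - δ) := le_trans (Nat.cast_nonneg _) h1
    exact nonneg_of_mul_nonneg_right h2 hfac
  have hprod : ∀ I ∈ powersetCard M (univ : Finset (Fin (w ^ 2))),
      ((Fintype.piFinset (fun L => G L I)).card : ℝ) ≤
        (w.factorial : ℝ) ^ Ls.card * (1 - δ) ^ R := by
    intro I hI
    rw [mem_powersetCard] at hI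
    rw [Fintype.card_piFinset]
    push_cast
    have h1 : ∀ L : {L // L ∈ Ls}, ((G L I).card : ℝ) ≤
        (w.factorial : ℝ) * (if i0 ≤ (L.1 ∩ I).card then (1 - δ) else 1) := by
      intro L
      by_cases h : i0 ≤ (L.1 ∩ I).card
      · rw [if_pos h]
        exact perm_main hD hk hi hiw hc (J L I) (by rw [hJc]; exact h)
      · rw [if_neg h, mul_one]
        have : (G L I).card ≤ w.factorial := by
          calc (G L I).card ≤ (univ : Finset (Equiv.Perm (Fin w))).card :=
                card_le_card (subset_univ _)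
            _ = w.factorial := by rw [card_univ, Fintype.card_perm, Fintype.card_fin]
        exact_mod_cast this
    have h2 : ∏ L : {L // L ∈ Ls}, ((w.factorial : ℝ) *
        (if i0 ≤ (L.1 ∩ I).card then (1 - δ) else 1)) =
        (w.factorial : ℝ) ^ Ls.card *
          (1 - δ) ^ (Ls.filter (fun L => i0 ≤ (L ∩ I).card)).card := by
      rw [Finset.prod_coe_sort Ls (fun L => (w.factorial : ℝ) *
        (if i0 ≤ (L ∩ I).card then (1 - δ) else 1)), prod_mul_distrib, prod_const,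
        ← prod_filter, prod_const]
    calc ∏ L : {L // L ∈ Ls}, ((G L I).card : ℝ)
        ≤ ∏ L : {L // L ∈ Ls}, ((w.factorial : ℝ) *
            (if i0 ≤ (L.1 ∩ I).card then (1 - δ) else 1)) :=
          prod_le_prod (fun L _ => Nat.cast_nonneg _) (fun L _ => h1 L)
      _ = _ := h2
      _ ≤ (w.factorial : ℝ) ^ Ls.card * (1 - δ) ^ R := by
          apply mul_le_mul_of_nonneg_left _ (by positivity)
          apply pow_le_pow_of_le_one hδ1 (by linarith)
          have := rich_lines hL (by omega) i0 (by omega) I hI.2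
          omega
  have hcard : (w.factorial : ℝ) ^ Ls.card ≤
      ((w ^ 2).choose M : ℝ) * ((w.factorial : ℝ) ^ Ls.card * (1 - δ) ^ R) := by
    have h1 := card_le_card hcover
    rw [card_univ, Fintype.card_fun, Fintype.card_perm, Fintype.card_fin, Fintype.card_coe] at h1
    have h2 : (w.factorial : ℝ) ^ Ls.card ≤
        ∑ I ∈ powersetCard M (univ : Finset (Fin (w ^ 2))),
          ((Fintype.piFinset (fun L => G L I)).card : ℝ) := by
      have := h1.trans card_biUnion_le
      exact_mod_cast this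
    refine h2.trans ?_
    calc _ ≤ ∑ I ∈ powersetCard M (univ : Finset (Fin (w ^ 2))),
          ((w.factorial : ℝ) ^ Ls.card * (1 - δ) ^ R) := sum_le_sum hprod
      _ = _ := by
          rw [sum_const, card_powersetCard, card_univ, Fintype.card_fin, nsmul_eq_mul]
  have hpos : (0 : ℝ) < (w.factorial : ℝ) ^ Ls.card := by positivity
  have : (w.factorial : ℝ) ^ Ls.card < (w.factorial : ℝ) ^ Ls.card := by
    calc (w.factorial : ℝ) ^ Ls.card
        ≤ ((w ^ 2).choose M : ℝ) * ((w.factorial : ℝ) ^ Ls.card * (1 - δ) ^ R) := hcard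
      _ = (w.factorial : ℝ) ^ Ls.card * (((w ^ 2).choose M : ℝ) * (1 - δ) ^ R) := by ring
      _ < (w.factorial : ℝ) ^ Ls.card * 1 := by
          apply mul_lt_mul_of_pos_left hnum hpos
      _ = _ := mul_one _
  exact lt_irrefl _ this

/-- upper bound for the upper chromatic number -/
theorem upper_le {v k M : ℕ} {B : Finset (Finset (Fin v))} (hB : IsSteiner 2 k B) (hk : 4 ≤ k)
    (hM : ∀ I : Finset (Fin v), I.card = M → ∃ b ∈ B, k - 2 < (b ∩ I).card) :
    upperChromatic B ≤ 4 * k * (Nat.log 2 v + 1) * M := by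
  classical
  obtain ⟨φ, hφ, hφc⟩ := upper_attained (fun b hb => by rw [hB.1 b hb]; omega : ∀ b ∈ B, 2 ≤ b.card)
  obtain ⟨Y, hY, hYc⟩ := reduce hB hk φ hφ
  rw [← hφc]
  refine hYc.trans (Nat.mul_le_mul_left _ ?_)
  by_contra hcon
  push Not at hcon
  obtain ⟨I, hI, hIc⟩ := exists_subset_card_eq hcon.le
  obtain ⟨b, hb, hbI⟩ := hM I hIc
  have h1 : (b ∩ I).card ≤ (b ∩ Y).card := card_le_card (inter_subset_inter_left hI)
  have := hY b hb
  omega

end Pool.Agent.Helper543.Steiner
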