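import Pool.Agent.Helper543.Steiner

set_option autoImplicit false

namespace Pool.Agent.Helper543.Steiner

open Finset

theorem pair_unique {X : Type} [Fintype X] [DecidableEq X] {k : ℕ} {B : Finset (Finset X)}
    (h : IsSteiner 2 k B) {b b' : Finset X} (hb : b ∈ B) (hb' : b' ∈ B) {x y : X} (hxy : x ≠ y)
    (hx : x ∈ b) (hy : y ∈ b) (hx' : x ∈ b') (hy' : y ∈ b') : b = b' := by
  refine (h.2 {x, y} (card_pair hxy)).unique ⟨hb, ?_⟩ ⟨hb', ?_⟩
  · intro z hz
    rw [mem_insert, mem_singleton] at hz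
    rcases hz with rfl | rfl <;> assumption
  · intro z hz
    rw [mem_insert, mem_singleton] at hz
    rcases hz with rfl | rfl <;> assumption

/-- From a proper colouring with `m` colours, a set of about `m / log v` points meeting every block
in at most `k - 2` points. -/
theorem reduce {v k : ℕ} {B : Finset (Finset (Fin v))} (hB : IsSteiner 2 k B) (hk : 4 ≤ k)
    (φ : Fin v → ℕ) (hφ : Proper B φ) :
    ∃ Y : Finset (Fin v), (∀ b ∈ B, (b ∩ Y).card ≤ k - 2) ∧
      (univ.image φ).card ≤ 4 * k * (Nat.log 2 v + 1) * Y.card := by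
  classical
  set I := univ.image φ with hI
  set L := Nat.log 2 v with hL
  let s : ℕ → ℕ := fun c => (univ.filter (fun x => φ x = c)).card
  have hs1 : ∀ c ∈ I, 1 ≤ s c := by
    intro c hc
    rw [hI, mem_image] at hc
    obtain ⟨x, -, hx⟩ := hc
    exact card_pos.2 ⟨x, mem_filter.2 ⟨mem_univ _, hx⟩⟩
  have hs2 : ∀ c, s c ≤ v := by
    intro c
    calc s c ≤ (univ : Finset (Fin v)).card := card_le_card (filter_subset _ _)
      _ = v := by simp
  let N : ℕ → ℕ := fun i => (I.filter (fun c => Nat.log 2 (s c) = i)).card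
  have hsum : I.card = ∑ i ∈ range (L + 1), N i := by
    apply card_eq_sum_card_fiberwise
    intro c _
    rw [mem_coe, mem_range]
    exact Nat.lt_succ_of_le (Nat.log_mono_right (hs2 c))
  obtain ⟨i, hi, hmax⟩ := exists_max_image (range (L + 1)) N ⟨0, by simp⟩
  have hpig : I.card ≤ (L + 1) * N i := by
    rw [hsum]
    calc ∑ j ∈ range (L + 1), N j ≤ (range (L + 1)).card • N i :=
          sum_le_card_nsmul _ _ _ hmax
      _ = (L + 1) * N i := by rw [card_range, smul_eq_mul]
  set U : Finset (Fin v) := univ.filter (fun x => Nat.log 2 (s (φ x)) = i) with hU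
  have hsz : ∀ x, x ∈ U → s (φ x) < 2 ^ (i + 1) := by
    intro x hx
    rw [hU, mem_filter] at hx
    have := Nat.lt_pow_succ_log_self (b := 2) (by norm_num) (s (φ x))
    rw [hx.2] at this
    exact this
  have hUcl : ∀ x y, φ x = φ y → x ∈ U → y ∈ U := by
    intro x y hxy hx
    rw [hU, mem_filter] at hx ⊢
    refine ⟨mem_univ _, ?_⟩
    rw [← hxy]; exact hx.2
  have hNU : N i * 2 ^ i ≤ U.card := by
    have h1 : U.card = ∑ c ∈ I.filter (fun c => Nat.log 2 (s c) = i),
        (U.filter (fun x => φ x = c)).card := by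
      apply card_eq_sum_card_fiberwise
      intro x hx
      rw [mem_coe, hU, mem_filter] at hx
      rw [mem_coe, mem_filter]
      exact ⟨mem_image_of_mem _ (mem_univ _), hx.2⟩
    rw [h1]
    have : ∀ c ∈ I.filter (fun c => Nat.log 2 (s c) = i), 2 ^ i ≤
        (U.filter (fun x => φ x = c)).card := by
      intro c hc
      rw [mem_filter] at hc
      have h2 : U.filter (fun x => φ x = c) = univ.filter (fun x => φ x = c) := by
        ext x
        simp only [hU, mem_filter, mem_univ, true_and]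
        constructor
        · exact fun h => h.2
        · intro h
          exact ⟨by rw [h]; exact hc.2, h⟩
      rw [h2]
      have h3 := Nat.pow_log_le_self 2 (x := s c) (by have := hs1 c hc.1; omega)
      rw [hc.2] at h3
      exact h3
    calc N i * 2 ^ i = ∑ c ∈ I.filter (fun c => Nat.log 2 (s c) = i), 2 ^ i := by
          rw [sum_const, smul_eq_mul]
      _ ≤ _ := sum_le_sum this
  set P := (U ×ˢ U).filter (fun p => φ p.1 = φ p.2) with hP
  have hPc : P.card ≤ U.card * 2 ^ (i + 1) := by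
    rw [hP, card_filter, sum_product]
    calc ∑ x ∈ U, ∑ y ∈ U, (if φ x = φ y then 1 else 0)
        ≤ ∑ x ∈ U, 2 ^ (i + 1) := by
          refine sum_le_sum fun x hx => ?_
          rw [← card_filter]
          refine le_trans (card_le_card ?_) (hsz x hx).le
          intro y hy
          rw [mem_filter] at hy ⊢
          exact ⟨mem_univ _, hy.2.symm⟩
      _ = _ := by rw [sum_const, smul_eq_mul]
  set B' := B.filter (fun b => ∃ c ∈ b, ∃ d ∈ b, c ≠ d ∧ φ c = φ d ∧ c ∈ U ∧ d ∈ U) with hB'
  have hB'c : B'.card ≤ P.card := by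
    have hch : ∀ b ∈ B', ∃ p : Fin v × Fin v, p.1 ∈ b ∧ p.2 ∈ b ∧ p.1 ≠ p.2 ∧ p ∈ P := by
      intro b hb
      rw [hB', mem_filter] at hb
      obtain ⟨-, c, hc, d, hd, hcd, hφcd, hcU, hdU⟩ := hb
      exact ⟨(c, d), hc, hd, hcd, mem_filter.2 ⟨mem_product.2 ⟨hcU, hdU⟩, hφcd⟩⟩
    rcases Nat.eq_zero_or_pos B'.card with h0 | h0
    · omega
    obtain ⟨b0, hb0⟩ := card_pos.1 h0
    obtain ⟨p0, -⟩ := hch b0 hb0
    let g : Finset (Fin v) → Fin v × Fin v := fun b => if h : b ∈ B' then (hch b h).choose else p0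
    have hg : ∀ b (h : b ∈ B'), (g b).1 ∈ b ∧ (g b).2 ∈ b ∧ (g b).1 ≠ (g b).2 ∧ g b ∈ P := by
      intro b h
      have e : g b = (hch b h).choose := by simp only [g, dif_pos h]
      rw [e]
      exact (hch b h).choose_spec
    apply card_le_card_of_injOn g
    · intro b hb
      exact (hg b hb).2.2.2
    · intro b hb b' hb' hbb'
      have h1 := hg b hb
      have h2 := hg b' hb'
      rw [← hbb'] at h2
      exact pair_unique hB (mem_filter.1 hb).1 (mem_filter.1 hb').1 h1.2.2.1 h1.1 h1.2.1 h2.1 h2.2.1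
  set F : Finset (Finset (Fin v)) := B'.biUnion (fun b => powersetCard (k - 1) b) with hF
  have hFs : ∀ S ∈ F, S.card = k - 1 := by
    intro S hS
    rw [hF, mem_biUnion] at hS
    obtain ⟨b, -, h⟩ := hS
    exact (mem_powersetCard.1 h).2
  have hFc : F.card ≤ k * (U.card * 2 ^ (i + 1)) := by
    calc F.card ≤ ∑ b ∈ B', (powersetCard (k - 1) b).card := card_biUnion_le
      _ = ∑ b ∈ B', k := by
          refine sum_congr rfl fun b hb => ?_
          rw [card_powersetCard, hB.1 b (mem_filter.1 hb).1]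
          obtain ⟨m, rfl⟩ : ∃ m, k = m + 1 := ⟨k - 1, by omega⟩
          simp
      _ = k * B'.card := by rw [sum_const, smul_eq_mul, mul_comm]
      _ ≤ _ := Nat.mul_le_mul_left _ (hB'c.trans hPc)
  have h2i : 1 ≤ 2 ^ i := Nat.one_le_two_pow
  obtain ⟨Y, hYU, hY, hYc⟩ := exists_indep v (2 * k * 2 ^ i) (by nlinarith) U F
    (fun S hS => by rw [← card_pos, hFs S hS]; omega) (by
      rw [sum_congr rfl (fun S hS => by rw [hFs S hS]), sum_const, nsmul_eq_mul]
      have e : k - 1 - 1 = k - 2 := by omega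
      rw [e]
      have hqp : (0 : ℝ) < ((2 * k * 2 ^ i : ℕ) : ℝ) ^ (k - 2) := by positivity
      rw [← mul_assoc, ← div_eq_mul_inv, div_le_iff₀ hqp]
      have h3 : 2 * F.card ≤ U.card * (2 * k * 2 ^ i) ^ (k - 2) := by
        calc 2 * F.card ≤ 2 * (k * (U.card * 2 ^ (i + 1))) := Nat.mul_le_mul_left _ hFc
          _ = U.card * (4 * k * 2 ^ i) := by ring
          _ ≤ U.card * (2 * k * 2 ^ i) ^ (k - 2) := by
              apply Nat.mul_le_mul_left
              calc 4 * k * 2 ^ i ≤ (2 * k * 2 ^ i) ^ 2 := by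
                    have e1 : 1 ≤ k * 2 ^ i := by nlinarith
                    nlinarith
                _ ≤ (2 * k * 2 ^ i) ^ (k - 2) := Nat.pow_le_pow_right (by nlinarith) (by omega)
      exact_mod_cast h3)
  refine ⟨Y, ?_, ?_⟩
  · intro b hb
    by_contra hcon
    push Not at hcon
    obtain ⟨S, hS, hSc⟩ := exists_subset_card_eq (show k - 1 ≤ (b ∩ Y).card by omega)
    obtain ⟨x, hx, y, hy, hxy, hφxy⟩ := hφ b hb
    have hSb : S ⊆ b := hS.trans inter_subset_left
    have hSY : S ⊆ Y := hS.trans inter_subset_right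
    have hor : x ∈ S ∨ y ∈ S := by
      by_contra hno
      push Not at hno
      have h1 : insert x (insert y S) ⊆ b := by
        intro z hz
        rw [mem_insert, mem_insert] at hz
        rcases hz with rfl | rfl | h
        · exact hx
        · exact hy
        · exact hSb h
      have h2 := card_le_card h1
      rw [card_insert_of_notMem, card_insert_of_notMem hno.2, hSc, hB.1 b hb] at h2
      · omega
      · rw [mem_insert]
        push Not
        exact ⟨hxy, hno.1⟩
    have hxyU : x ∈ U ∧ y ∈ U := by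
      rcases hor with h | h
      · have := hYU (hSY h)
        exact ⟨this, hUcl x y hφxy this⟩
      · have := hYU (hSY h)
        exact ⟨hUcl y x hφxy.symm this, this⟩
    refine hY S ?_ hSY
    rw [hF, mem_biUnion]
    refine ⟨b, ?_, mem_powersetCard.2 ⟨hSb, hSc⟩⟩
    rw [hB', mem_filter]
    exact ⟨hb, x, hx, y, hy, hxy, hφxy, hxyU.1, hxyU.2⟩
  · have h1 : N i * 2 ^ i ≤ (4 * k * Y.card) * 2 ^ i := by
      calc N i * 2 ^ i ≤ U.card := hNU
        _ ≤ 2 * (2 * k * 2 ^ i) * Y.card := hYc
        _ = _ := by ring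
    have h2 : N i ≤ 4 * k * Y.card := Nat.le_of_mul_le_mul_right h1 (by positivity)
    calc I.card ≤ (L + 1) * N i := hpig
      _ ≤ (L + 1) * (4 * k * Y.card) := Nat.mul_le_mul_left _ h2
      _ = _ := by ring

end Pool.Agent.Helper543.Steiner
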