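import Pool.Agent.Helper543.SteinerWilson
import Pool.Agent.Helper543.SteinerAsymp
import Pool.Agent.Helper543.SteinerLower

set_option autoImplicit false

namespace Pool.Agent.Helper543.Steiner

open Finset

/-- transport of a Steiner system to `Fin n` -/
theorem transport {X : Type} [Fintype X] [DecidableEq X] {t k n : ℕ} {B : Finset (Finset X)}
    (hB : IsSteiner t k B) (hn : Fintype.card X = n) :
    ∃ B' : Finset (Finset (Fin n)), IsSteiner t k B' := by
  classical
  let e : X ≃ Fin n := Fintype.equivFinOfCardEq hn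
  refine ⟨B.image (fun b => b.map e.toEmbedding), ?_, ?_⟩
  · intro c hc
    obtain ⟨b, hb, rfl⟩ := mem_image.1 hc
    rw [card_map, hB.1 b hb]
  · intro T hT
    obtain ⟨b, ⟨hb, hTb⟩, huniq⟩ := hB.2 (T.map e.symm.toEmbedding) (by rw [card_map, hT])
    refine ⟨b.map e.toEmbedding, ⟨mem_image_of_mem _ hb, ?_⟩, ?_⟩
    · intro x hx
      rw [mem_map]
      exact ⟨e.symm x, hTb (mem_map.2 ⟨x, hx, rfl⟩), by simp⟩
    · rintro c ⟨hc, hTc⟩
      obtain ⟨b', hb', rfl⟩ := mem_image.1 hc
      have : b' = b := by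
        apply huniq
        refine ⟨hb', ?_⟩
        intro x hx
        obtain ⟨y, hy, rfl⟩ := mem_map.1 hx
        obtain ⟨x', hx', hxy⟩ := mem_map.1 (hTc hy)
        have : e.symm y = x' := by rw [← hxy]; simp
        simpa [this] using hx'
      rw [this]

/-- the lines of a finite vector space -/
theorem lines_steiner {F V : Type} [Field F] [Fintype F] [DecidableEq F] [AddCommGroup V]
    [Module F V] [Fintype V] [DecidableEq V] :
    ∃ B : Finset (Finset V), IsSteiner 2 (Fintype.card F) B := by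
  classical
  refine ⟨((univ : Finset (V × V)).filter (fun q => q.2 ≠ 0)).image
    (fun q => univ.image (fun t : F => q.1 + t • q.2)), ?_, ?_⟩
  · intro c hc
    obtain ⟨⟨a, d⟩, had, rfl⟩ := mem_image.1 hc
    rw [mem_filter] at had
    rw [card_image_of_injective, card_univ]
    intro s t hst
    have h1 : s • d = t • d := add_left_cancel hst
    exact smul_left_injective F had.2 h1
  · intro T hT
    obtain ⟨x, y, hxy, rfl⟩ := card_eq_two.1 hT
    have hd : y - x ≠ 0 := sub_ne_zero.2 hxy.symm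
    refine ⟨univ.image (fun t : F => x + t • (y - x)), ⟨?_, ?_⟩, ?_⟩
    · exact mem_image.2 ⟨(x, y - x), mem_filter.2 ⟨mem_univ _, hd⟩, rfl⟩
    · intro z hz
      rw [mem_insert, mem_singleton] at hz
      rcases hz with rfl | rfl
      · exact mem_image.2 ⟨0, mem_univ _, by simp⟩
      · exact mem_image.2 ⟨1, mem_univ _, by simp⟩
    · rintro c ⟨hc, hTc⟩
      obtain ⟨⟨a, d⟩, had, rfl⟩ := mem_image.1 hc
      rw [mem_filter] at had
      obtain ⟨s, -, hs⟩ := mem_image.1 (hTc (show x ∈ ({x, y} : Finset V) by simp))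
      obtain ⟨t, -, ht⟩ := mem_image.1 (hTc (show y ∈ ({x, y} : Finset V) by simp))
      simp only at hs ht had ⊢
      have hst : t - s ≠ 0 := by
        intro h
        have : t = s := sub_eq_zero.1 h
        subst this
        exact hxy (hs.symm.trans ht)
      have hyx : y - x = (t - s) • d := by
        rw [← hs, ← ht, sub_smul]; abel
      ext z
      simp only [mem_image, mem_univ, true_and]
      constructor
      · rintro ⟨r, rfl⟩
        refine ⟨(r - s) / (t - s), ?_⟩
        rw [hyx, smul_smul, div_mul_cancel₀ _ hst, ← hs, sub_smul]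
        abel
      · rintro ⟨r, rfl⟩
        refine ⟨s + r * (t - s), ?_⟩
        rw [hyx, smul_smul, ← hs, add_smul]
        abel

theorem plane (p : ℕ) [Fact p.Prime] : ∃ Ls : Finset (Finset (Fin (p ^ 2))), IsSteiner 2 p Ls := by
  classical
  obtain ⟨B, hB⟩ := lines_steiner (F := ZMod p) (V := ZMod p × ZMod p)
  rw [ZMod.card] at hB
  exact transport hB (by rw [Fintype.card_prod, ZMod.card, sq])

theorem family {k : ℕ} (hk : 2 ≤ k) (N : ℕ) :
    ∃ w, N ≤ w ∧ (∃ Ls : Finset (Finset (Fin (w ^ 2))), IsSteiner 2 w Ls) ∧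
      (∃ D : Finset (Finset (Fin w)), IsSteiner 2 k D) := by
  classical
  set e := k.choose 2 with he
  have he0 : 0 < e := Nat.choose_pos hk
  obtain ⟨p, hp, hpN, hmod⟩ := Nat.exists_prime_gt_modEq_one (k := 2 * e)
    (max N (16 * k * e ^ 2 * (1 * (4 * e) ^ k) ^ 2)) (by omega)
  have : Fact p.Prime := ⟨hp⟩
  refine ⟨p, le_trans (le_max_left _ _) hpN.le, plane p, ?_⟩
  have hdvd : 2 * e ∣ p - 1 := (Nat.modEq_iff_dvd' hp.one_le).1 hmod.symm
  obtain ⟨m, hm⟩ := hdvd
  have hm0 : 0 < m := by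
    rcases Nat.eq_zero_or_pos m with h | h
    · subst h
      have := hp.two_le
      omega
    · exact h
  obtain ⟨B, hB⟩ := wilson (p := p) hk (N := 2 * m) (by omega) (even_two_mul m)
    (by rw [hm]; ring) (lt_of_le_of_lt (le_max_right _ _) hpN)
  exact transport hB (ZMod.card p)

/-- the exponents `c ≥ 0` that are admissible for `S(t,k,v)` -/
def Admissible (k t : ℕ) : Set ℝ :=
  {c | 0 ≤ c ∧ ∃ C : ℝ, 0 < C ∧ ∀ v : ℕ, k ≤ v → ∀ B : Finset (Finset (Fin v)), IsSteiner t k B →
    C * (v : ℝ) ^ c ≤ upperChromatic B}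

theorem greatest_two {k : ℕ} (hk : 4 ≤ k) :
    IsGreatest (Admissible k 2) (((k : ℝ) - 3) / ((k : ℝ) - 2)) := by
  have hkr : (4 : ℝ) ≤ k := by exact_mod_cast hk
  constructor
  · refine ⟨div_nonneg (by linarith) (by linarith), ?_⟩
    obtain ⟨C, hC, h⟩ := lower_bound (t := 2) le_rfl hk
    refine ⟨C, hC, fun v _ B hB => ?_⟩
    have := h v B hB
    have e : ((k : ℝ) - (2 : ℕ) - 1) = (k : ℝ) - 3 := by push_cast; ring
    rw [e] at this
    exact this
  · rintro c ⟨-, C, hC, h⟩
    by_contra hcon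
    push Not at hcon
    obtain ⟨v, hv, B, hB, hlt⟩ := upper_half hk (family (by omega)) c hcon C hC
    exact absurd (h v hv B hB) (not_le.2 hlt)

end Pool.Agent.Helper543.Steiner
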