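import Pool.Agent.Helper543.SteinerCyc

set_option autoImplicit false

namespace Pool.Agent.Helper543.Steiner

open Finset

section Embed

variable {p : ℕ} [Fact p.Prime] {e N : ℕ}

/-- greedy embedding of a coloured clique -/
theorem embed (he : 0 < e) (hN : 0 < N) (hp : p - 1 = e * N) (n : ℕ) :
    ∀ (A : ℕ), 16 * n * e ^ 2 * (A * (4 * e) ^ n) ^ 2 < p → 0 < A →
    ∀ (V : Fin n → Finset (ZMod p)) (z : Fin n → Fin n → ZMod p),
      (∀ i, p ≤ A * (V i).card) → (∀ i j, z i j ∈ cyc p e 1) →
      ∃ b : Fin n → ZMod p, (∀ i, b i ∈ V i) ∧ ∀ i j, i < j → (b j - b i) ^ N = z i j := by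
  classical
  induction n with
  | zero =>
    intro A _ _ V z _ _
    exact ⟨fun i => i.elim0, fun i => i.elim0, fun i => i.elim0⟩
  | succ n ih =>
    intro A hA hA0 V z hV hz
    have hp0 : 0 < p := (Fact.out : p.Prime).pos
    have he4 : 1 ≤ (4 * e) ^ (n + 1) := Nat.one_le_pow _ _ (by omega)
    let Bd : Fin n → Finset (ZMod p) := fun j => univ.filter (fun x : ZMod p =>
      ((V j.succ).filter (fun y => (y - x) ^ N = z 0 j.succ)).card * (4 * e) < (V j.succ).card)
    have hBd : ∀ j, (Bd j).card ≤ 16 * e ^ 2 * A := by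
      intro j
      have h1 : (Bd j).card * (V j.succ).card ≤ 16 * e ^ 2 * p :=
        bad_count he hN hp (z 0 j.succ) (hz _ _) (V j.succ)
      have h2 := hV j.succ
      have h3 : (Bd j).card * p ≤ (16 * e ^ 2 * A) * p := by
        calc (Bd j).card * p ≤ (Bd j).card * (A * (V j.succ).card) := Nat.mul_le_mul_left _ h2
          _ = A * ((Bd j).card * (V j.succ).card) := by ring
          _ ≤ A * (16 * e ^ 2 * p) := Nat.mul_le_mul_left _ h1
          _ = _ := by ring
      exact Nat.le_of_mul_le_mul_right h3 hp0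
    have hU : ((univ : Finset (Fin n)).biUnion Bd).card < (V 0).card := by
      have h1 : ((univ : Finset (Fin n)).biUnion Bd).card ≤ n * (16 * e ^ 2 * A) := by
        calc _ ≤ ∑ j : Fin n, (Bd j).card := card_biUnion_le
          _ ≤ ∑ j : Fin n, 16 * e ^ 2 * A := sum_le_sum fun j _ => hBd j
          _ = _ := by rw [sum_const, card_univ, Fintype.card_fin, smul_eq_mul]
      have h2 := hV 0
      have h3 : A * ((univ : Finset (Fin n)).biUnion Bd).card < A * (V 0).card := by
        calc A * ((univ : Finset (Fin n)).biUnion Bd).card ≤ A * (n * (16 * e ^ 2 * A)) :=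
              Nat.mul_le_mul_left _ h1
          _ = 16 * n * e ^ 2 * A ^ 2 := by ring
          _ ≤ 16 * (n + 1) * e ^ 2 * (A * (4 * e) ^ (n + 1)) ^ 2 := by
              have h5 : A ^ 2 ≤ (A * (4 * e) ^ (n + 1)) ^ 2 :=
                Nat.pow_le_pow_left (Nat.le_mul_of_pos_right _ (by omega)) 2
              have h6 : 16 * n * e ^ 2 ≤ 16 * (n + 1) * e ^ 2 := by
                apply Nat.mul_le_mul_right; omega
              exact Nat.mul_le_mul h6 h5
          _ < p := hA
          _ ≤ _ := h2
      exact lt_of_mul_lt_mul_left h3 (Nat.zero_le _)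
    obtain ⟨b0, hb0, hb0n⟩ := exists_mem_notMem_of_card_lt_card hU
    have hgood : ∀ j : Fin n, (V j.succ).card ≤
        (4 * e) * ((V j.succ).filter (fun y => (y - b0) ^ N = z 0 j.succ)).card := by
      intro j
      by_contra hcon
      push Not at hcon
      apply hb0n
      rw [mem_biUnion]
      refine ⟨j, mem_univ _, ?_⟩
      simp only [Bd, mem_filter, mem_univ, true_and]
      rw [mul_comm]
      exact hcon
    obtain ⟨b, hb1, hb2⟩ := ih (A * (4 * e)) (by
        calc 16 * n * e ^ 2 * (A * (4 * e) * (4 * e) ^ n) ^ 2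
            ≤ 16 * (n + 1) * e ^ 2 * (A * (4 * e) ^ (n + 1)) ^ 2 := by
              have h5 : A * (4 * e) * (4 * e) ^ n = A * (4 * e) ^ (n + 1) := by ring
              rw [h5]
              apply Nat.mul_le_mul_right
              apply Nat.mul_le_mul_right
              omega
          _ < p := hA) (by positivity)
      (fun j => (V j.succ).filter (fun y => (y - b0) ^ N = z 0 j.succ))
      (fun i j => z i.succ j.succ)
      (by
        intro j
        calc p ≤ A * (V j.succ).card := hV j.succ
          _ ≤ A * ((4 * e) * ((V j.succ).filter (fun y => (y - b0) ^ N = z 0 j.succ)).card) :=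
              Nat.mul_le_mul_left _ (hgood j)
          _ = _ := by ring)
      (fun i j => hz _ _)
    refine ⟨Fin.cons b0 b, ?_, ?_⟩
    · intro i
      refine Fin.cases ?_ (fun j => ?_) i
      · exact hb0
      · rw [Fin.cons_succ]
        exact (mem_filter.1 (hb1 j)).1
    · intro i j
      refine Fin.cases ?_ (fun i' => ?_) i
      · refine Fin.cases ?_ (fun j' => ?_) j
        · intro h; exact absurd h (lt_irrefl _)
        · intro _
          rw [Fin.cons_succ, Fin.cons_zero]
          exact (mem_filter.1 (hb1 j')).2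
      · refine Fin.cases ?_ (fun j' => ?_) j
        · intro h; exact absurd h (by simp)
        · intro h
          rw [Fin.cons_succ, Fin.cons_succ]
          exact hb2 i' j' (Fin.succ_lt_succ_iff.1 h)

end Embed

section Family

variable {p : ℕ} [Fact p.Prime]

/-- Wilson: difference family, hence a Steiner system, on `ZMod p` for large primes
`p ≡ 1 (mod k(k-1))`. -/
theorem wilson {k N : ℕ} (hk : 2 ≤ k) (hN : 0 < N) (hNe : Even N)
    (hp : p - 1 = k.choose 2 * N)
    (hbig : 16 * k * (k.choose 2) ^ 2 * (1 * (4 * k.choose 2) ^ k) ^ 2 < p) :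
    ∃ B : Finset (Finset (ZMod p)), IsSteiner 2 k B := by
  classical
  set e := k.choose 2 with he_def
  have he : 0 < e := Nat.choose_pos hk
  have hpp : p.Prime := Fact.out
  have hp2 : 2 < p := by
    obtain ⟨m, hm⟩ := hNe
    have : 2 ≤ e * N := le_trans (by omega : 2 ≤ N) (Nat.le_mul_of_pos_left _ he)
    omega
  have hR := (card_cyc he hN hp).1
  -- an injection of pairs into the roots
  let Pr : Finset (Fin k × Fin k) := univ.filter (fun q => q.1 < q.2)
  have hPr : Pr.card = e := by
    have h1 : Pr.card = (powersetCard 2 (univ : Finset (Fin k))).card := by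
      apply card_bij (fun q _ => {q.1, q.2})
      · intro q hq
        rw [mem_filter] at hq
        exact mem_powersetCard.2 ⟨subset_univ _, card_pair hq.2.ne⟩
      · rintro ⟨a, b⟩ hab ⟨c, d⟩ hcd h
        rw [mem_filter] at hab hcd
        simp only at hab hcd h
        have ha : a ∈ ({c, d} : Finset (Fin k)) := by rw [← h]; simp
        have hb : b ∈ ({c, d} : Finset (Fin k)) := by rw [← h]; simp
        rw [mem_insert, mem_singleton] at ha hb
        rcases ha with rfl | rfl <;> rcases hb with rfl | rfl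
        · exact absurd hab.2 (lt_irrefl _)
        · rfl
        · exact absurd (hab.2.trans hcd.2) (lt_irrefl _)
        · exact absurd hab.2 (lt_irrefl _)
      · intro T hT
        obtain ⟨a, b, hab, rfl⟩ := card_eq_two.1 (mem_powersetCard.1 hT).2
        rcases lt_or_gt_of_ne hab with h | h
        · exact ⟨(a, b), mem_filter.2 ⟨mem_univ _, h⟩, rfl⟩
        · exact ⟨(b, a), mem_filter.2 ⟨mem_univ _, h⟩, pair_comm _ _⟩
    rw [h1, card_powersetCard, card_univ, Fintype.card_fin]
  let E : {q // q ∈ Pr} ≃ {z // z ∈ cyc p e 1} := Finset.equivOfCardEq (by rw [hPr, hR])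
  have h1mem : (1 : ZMod p) ∈ cyc p e 1 := by
    rw [cyc, mem_filter]; exact ⟨mem_univ _, one_pow _⟩
  let z : Fin k → Fin k → ZMod p := fun i j => if h : (i, j) ∈ Pr then (E ⟨(i, j), h⟩).1 else 1
  have hz : ∀ i j, z i j ∈ cyc p e 1 := by
    intro i j
    simp only [z]
    split_ifs with h
    · exact (E ⟨(i, j), h⟩).2
    · exact h1mem
  have hzinj : ∀ i j i' j', i < j → i' < j' → z i j = z i' j' → i = i' ∧ j = j' := by
    intro i j i' j' h h' heq
    have m1 : (i, j) ∈ Pr := mem_filter.2 ⟨mem_univ _, h⟩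
    have m2 : (i', j') ∈ Pr := mem_filter.2 ⟨mem_univ _, h'⟩
    simp only [z, dif_pos m1, dif_pos m2] at heq
    have := E.injective (Subtype.ext heq)
    have := congrArg Subtype.val this
    exact ⟨congrArg Prod.fst this, congrArg Prod.snd this⟩
  have hzsurj : ∀ c ∈ cyc p e 1, ∃ i j, i < j ∧ z i j = c := by
    intro c hc
    obtain ⟨⟨⟨i, j⟩, hq⟩, hE⟩ := E.surjective ⟨c, hc⟩
    refine ⟨i, j, (mem_filter.1 hq).2, ?_⟩
    simp only [z, dif_pos hq, hE]
  obtain ⟨b, -, hb⟩ := embed he hN hp k 1 hbig one_pos (fun _ => univ) z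
    (by intro i; rw [card_univ, ZMod.card, one_mul]) hz
  -- `x ↦ x ^ N`
  have hneg : ∀ x : ZMod p, (-x) ^ N = x ^ N := fun x => hNe.neg_pow x
  have hroot : ∀ x : ZMod p, x ≠ 0 → x ^ N ∈ cyc p e 1 := by
    intro x hx
    rw [cyc, mem_filter]
    refine ⟨mem_univ _, ?_⟩
    rw [← pow_mul, mul_comm, ← hp]
    exact ZMod.pow_card_sub_one_eq_one hx
  have hroot0 : ∀ c ∈ cyc p e 1, c ≠ 0 := by
    rintro c hc rfl
    rw [cyc, mem_filter, zero_pow he.ne'] at hc
    exact zero_ne_one hc.2
  have hbinj : Function.Injective b := by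
    intro i j hij
    by_contra hne
    rcases lt_or_gt_of_ne hne with h | h
    · have h1 := hb i j h
      rw [hij, sub_self, zero_pow hN.ne'] at h1
      exact hroot0 _ (hz i j) h1.symm
    · have h1 := hb j i h
      rw [hij, sub_self, zero_pow hN.ne'] at h1
      exact hroot0 _ (hz j i) h1.symm
  -- unordered version: colour of a difference
  have hdiff : ∀ i j i' j', i ≠ j → i' ≠ j' → (b j - b i) ^ N = (b j' - b i') ^ N →
      (i = i' ∧ j = j') ∨ (i = j' ∧ j = i') := by
    intro i j i' j' h h' heq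
    rcases lt_or_gt_of_ne h with h1 | h1 <;> rcases lt_or_gt_of_ne h' with h2 | h2
    · rw [hb i j h1, hb i' j' h2] at heq
      exact Or.inl (hzinj _ _ _ _ h1 h2 heq)
    · rw [hb i j h1, ← neg_sub (b i') (b j'), hneg, hb j' i' h2] at heq
      exact Or.inr (hzinj _ _ _ _ h1 h2 heq)
    · rw [← neg_sub (b i) (b j), hneg, hb j i h1, hb i' j' h2] at heq
      have := hzinj _ _ _ _ h1 h2 heq
      exact Or.inr ⟨this.2, this.1⟩
    · rw [← neg_sub (b i) (b j), hneg, hb j i h1, ← neg_sub (b i') (b j'), hneg, hb j' i' h2] at heq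
      have := hzinj _ _ _ _ h1 h2 heq
      exact Or.inl ⟨this.2, this.1⟩
  -- half of the group of `e`-th powers
  let T : Finset (ZMod p) := univ.filter (fun h => h ^ N = 1 ∧ h.val < (-h).val)
  have hT0 : ∀ x ∈ T, x ≠ 0 := by
    rintro x hx rfl
    simp only [T, mem_filter, neg_zero, lt_irrefl, and_false] at hx
  have hTT : ∀ x ∈ T, -x ∉ T := by
    intro x hx hx'
    simp only [T, mem_filter, mem_univ, true_and, neg_neg] at hx hx'
    omega
  have hTor : ∀ h : ZMod p, h ≠ 0 → h ^ N = 1 → h ∈ T ∨ -h ∈ T := by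
    intro h hh hhN
    have hne : h.val ≠ (-h).val := by
      intro heq
      have h1 : h = -h := ZMod.val_injective p heq
      have h2 : (2 : ZMod p) * h = 0 := by
        rw [two_mul]; nth_rewrite 2 [h1]; ring
      rcases mul_eq_zero.1 h2 with h3 | h3
      · have h4 : ((2 : ℕ) : ZMod p) = 0 := by exact_mod_cast h3
        rw [ZMod.natCast_eq_zero_iff] at h4
        have := Nat.le_of_dvd (by norm_num) h4
        omega
      · exact hh h3
    rcases lt_or_gt_of_ne hne with h1 | h1
    · left
      exact mem_filter.2 ⟨mem_univ _, hhN, h1⟩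
    · right
      refine mem_filter.2 ⟨mem_univ _, ?_, ?_⟩
      · rw [hneg]; exact hhN
      · rw [neg_neg]; exact h1
  let blk : ZMod p → ZMod p → Finset (ZMod p) := fun x a => univ.image (fun i => x * b i + a)
  refine ⟨(T ×ˢ (univ : Finset (ZMod p))).image (fun q => blk q.1 q.2), ?_, ?_⟩
  · intro c hc
    obtain ⟨⟨x, a⟩, hxa, rfl⟩ := mem_image.1 hc
    rw [mem_product] at hxa
    simp only [blk]
    rw [card_image_of_injective, card_univ, Fintype.card_fin]
    intro i j hij
    have h1 : x * b i = x * b j := add_right_cancel hij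
    exact hbinj (mul_left_cancel₀ (hT0 x hxa.1) h1)
  · intro S hS
    obtain ⟨u, v, huv, rfl⟩ := card_eq_two.1 hS
    have hd : v - u ≠ 0 := sub_ne_zero.2 huv.symm
    -- the key uniqueness: `v - u = x (b j - b i)` for exactly one `(x, i, j)`
    have hex : ∃ x ∈ T, ∃ i j, i ≠ j ∧ v - u = x * (b j - b i) := by
      obtain ⟨i, j, hij, hzc⟩ := hzsurj ((v - u) ^ N) (hroot _ hd)
      have hbd : b j - b i ≠ 0 := sub_ne_zero.2 (fun h => hij.ne' (hbinj h))
      have h1 : ((v - u) / (b j - b i)) ^ N = 1 := by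
        rw [div_pow, hb i j hij, hzc]
        exact div_self (hroot0 _ (hroot _ hd))
      rcases hTor _ (div_ne_zero hd hbd) h1 with h2 | h2
      · exact ⟨_, h2, i, j, hij.ne, by field_simp⟩
      · exact ⟨_, h2, j, i, hij.ne', by field_simp; ring⟩
    obtain ⟨x, hx, i, j, hij, hvu⟩ := hex
    refine ⟨blk x (u - x * b i), ⟨?_, ?_⟩, ?_⟩
    · exact mem_image.2 ⟨(x, u - x * b i), mem_product.2 ⟨hx, mem_univ _⟩, rfl⟩
    · intro y hy
      rw [mem_insert, mem_singleton] at hy
      rcases hy with rfl | rfl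
      · exact mem_image.2 ⟨i, mem_univ _, by ring⟩
      · refine mem_image.2 ⟨j, mem_univ _, ?_⟩
        linear_combination -hvu
    · rintro c ⟨hc, hSc⟩
      obtain ⟨⟨x', a'⟩, hxa', rfl⟩ := mem_image.1 hc
      rw [mem_product] at hxa'
      obtain ⟨i', -, hi'⟩ := mem_image.1 (hSc (show u ∈ ({u, v} : Finset (ZMod p)) by simp))
      obtain ⟨j', -, hj'⟩ := mem_image.1 (hSc (show v ∈ ({u, v} : Finset (ZMod p)) by simp))
      simp only at hi' hj' hxa'
      have hij' : i' ≠ j' := by
        rintro rfl
        exact huv (hi'.symm.trans hj')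
      have hvu' : v - u = x' * (b j' - b i') := by
        rw [← hi', ← hj']; ring
      have hxN : x ^ N = 1 := (mem_filter.1 hx).2.1
      have hxN' : x' ^ N = 1 := (mem_filter.1 hxa'.1).2.1
      have hcol : (b j - b i) ^ N = (b j' - b i') ^ N := by
        have h1 : (x * (b j - b i)) ^ N = (x' * (b j' - b i')) ^ N := by rw [← hvu, ← hvu']
        rw [mul_pow, mul_pow, hxN, hxN', one_mul, one_mul] at h1
        exact h1
      rcases hdiff i j i' j' hij hij' hcol with ⟨h1, h2⟩ | ⟨h1, h2⟩
      · subst h1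
        subst h2
        have hbd : b j - b i ≠ 0 := sub_ne_zero.2 (fun h => hij.symm (hbinj h))
        have hxx : x' = x := mul_right_cancel₀ hbd (by rw [← hvu', hvu])
        subst hxx
        simp only [blk]
        congr 1
        funext i''
        rw [← hi']; ring
      · subst h1
        subst h2
        exfalso
        have hbd : b j - b i ≠ 0 := sub_ne_zero.2 (fun h => hij.symm (hbinj h))
        have hxx : x' = -x := by
          apply mul_right_cancel₀ hbd
          have : x' * (b i - b j) = x * (b j - b i) := by rw [← hvu', hvu]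
          linear_combination -this
        rw [hxx] at hxa'
        exact hTT x hx hxa'.1

end Family

end Pool.Agent.Helper543.Steiner
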