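import Mathlib
import Pool.Agent.Helper543.PlaneC

/-! The construction with a centre and antipodal pairs on a circle. -/

namespace Pool.Agent.Helper543.Upper

open Finset Pool.Agent.Helper543.Melchior
open Pool.Agent.Helper543.Blocks Pool.Agent.Helper543.Count
open Pool.Agent.Helper543.Bounds Pool.Agent.Helper543.Small Pool.Agent.Helper543.PlaneC

noncomputable section

/-- a point on the unit circle -/
def U (j : ℕ) : Pt := ((1 - ((j : ℝ) + 1) ^ 2) / (1 + ((j : ℝ) + 1) ^ 2),
  2 * ((j : ℝ) + 1) / (1 + ((j : ℝ) + 1) ^ 2))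

lemma U_on (j : ℕ) : (U j).1 ^ 2 + (U j).2 ^ 2 = 1 := by
  simp only [U]
  have h : 1 + ((j : ℝ) + 1) ^ 2 ≠ 0 := by positivity
  field_simp
  ring

lemma U_pos (j : ℕ) : 0 < (U j).2 := by
  simp only [U]
  positivity

lemma U_inj : Function.Injective U := by
  intro i j h
  simp only [U, Prod.mk.injEq] at h
  obtain ⟨h1, -⟩ := h
  have hi : (1 + ((i : ℝ) + 1) ^ 2) ≠ 0 := by positivity
  have hj : (1 + ((j : ℝ) + 1) ^ 2) ≠ 0 := by positivity
  rw [div_eq_div_iff hi hj] at h1
  have h2 : ((i : ℝ) + 1) ^ 2 = ((j : ℝ) + 1) ^ 2 := by linarith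
  have h3 : (i : ℝ) + 1 = (j : ℝ) + 1 := by
    rwa [sq_eq_sq₀ (by positivity) (by positivity)] at h2
  have h4 : (i : ℝ) = j := by linarith
  exact_mod_cast h4

/-- `m` points on the unit circle, with as many antipodal pairs as possible -/
def Q (m : ℕ) : Finset Pt :=
  (range (m / 2)).image U ∪ ((range (m / 2)).image (fun j => -U j) ∪
    (if m % 2 = 1 then {((1 : ℝ), (0 : ℝ))} else ∅))

lemma Q_on {m : ℕ} {x : Pt} (hx : x ∈ Q m) : x.1 ^ 2 + x.2 ^ 2 = 1 := by
  simp only [Q, mem_union, mem_image] at hx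
  rcases hx with ⟨j, -, rfl⟩ | ⟨j, -, rfl⟩ | hx
  · exact U_on j
  · have := U_on j
    simp only [Prod.fst_neg, Prod.snd_neg]
    nlinarith
  · split_ifs at hx with h
    · rw [mem_singleton] at hx
      rw [hx]; norm_num
    · simp at hx

lemma Q_card (m : ℕ) : (Q m).card = m := by
  unfold Q
  rw [card_union_of_disjoint, card_union_of_disjoint, card_image_of_injective _ U_inj,
    card_image_of_injective, card_range]
  · split_ifs with h
    · simp; omega
    · simp; omega
  · intro i j h
    exact U_inj (neg_injective h)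
  · rw [disjoint_left]
    intro x hx hx'
    simp only [mem_image] at hx
    obtain ⟨j, -, rfl⟩ := hx
    split_ifs at hx' with h
    · rw [mem_singleton] at hx'
      have h1 := U_pos j
      have h2 : (-U j).2 = 0 := by rw [hx']
      simp only [Prod.snd_neg] at h2
      linarith
    · simp at hx'
  · rw [disjoint_left]
    intro x hx hx'
    simp only [mem_image] at hx
    obtain ⟨j, -, rfl⟩ := hx
    have h1 := U_pos j
    simp only [mem_union, mem_image] at hx'
    rcases hx' with ⟨i, -, hi⟩ | hx'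
    · have h2 := U_pos i
      have h3 : (-U i).2 = (U j).2 := by rw [hi]
      simp only [Prod.snd_neg] at h3
      linarith
    · split_ifs at hx' with h
      · rw [mem_singleton] at hx'
        have h2 : (U j).2 = 0 := by rw [hx']
        linarith
      · simp at hx'

lemma zero_notMem_Q (m : ℕ) : (0 : Pt) ∉ Q m := by
  intro h
  have := Q_on h
  simp at this

/-- the configuration -/
def K (m : ℕ) : Finset Pt := insert 0 (Q m)

lemma K_card (m : ℕ) : (K m).card = m + 1 := by
  rw [K, card_insert_of_notMem (zero_notMem_Q m), Q_card]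

lemma unit_On {x : Pt} (h : x.1 ^ 2 + x.2 ^ 2 = 1) : On 0 0 1 x := by
  simp only [On]; linarith

lemma On_unit {x : Pt} (h : On 0 0 1 x) : x.1 ^ 2 + x.2 ^ 2 = 1 := by
  simp only [On] at h; linarith

lemma mem_K_unit {m : ℕ} {x : Pt} (hx : x ∈ K m) (h : x.1 ^ 2 + x.2 ^ 2 = 1) : x ∈ Q m := by
  rcases mem_insert.1 hx with rfl | h'
  · simp at h
  · exact h'

lemma blk_Q {m : ℕ} {a b c : Pt} (ha : a ∈ Q m) (hb : b ∈ Q m) (hc : c ∈ Q m) (hab : a ≠ b)
    (hac : a ≠ c) (hbc : b ≠ c) : blk (K m) a b c = Q m := by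
  have hcr := cr_ne_of_On (unit_On (Q_on ha)) (unit_On (Q_on hb)) (unit_On (Q_on hc)) hab hac hbc
  ext x
  rw [mem_blk]
  constructor
  · rintro ⟨h1, h2⟩
    exact mem_K_unit h1 (On_unit (On_of_G hcr (unit_On (Q_on ha)) (unit_On (Q_on hb))
      (unit_On (Q_on hc)) h2))
  · intro h
    exact ⟨mem_insert_of_mem h, G_of_On (unit_On (Q_on ha)) (unit_On (Q_on hb))
      (unit_On (Q_on hc)) (unit_On (Q_on h))⟩

lemma block_structure {m : ℕ} {B : Finset Pt} (hB : B ∈ blocks (K m)) (hne : B ≠ Q m) :
    0 ∈ B ∧ B.erase 0 ⊆ Q m ∧ (B.erase 0).card = 2 := by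
  have hsub : B.erase 0 ⊆ Q m := by
    intro x hx
    rw [mem_erase] at hx
    rcases mem_insert.1 (block_subset hB hx.2) with h | h
    · exact absurd h hx.1
    · exact h
  have hle : (B.erase 0).card ≤ 2 := by
    by_contra hcon
    push Not at hcon
    obtain ⟨a, b, c, ha, hb, hc, hab, hac, hbc⟩ := two_lt_card_iff.1 hcon
    apply hne
    rw [block_third hB (mem_of_mem_erase ha) (mem_of_mem_erase hb) (mem_of_mem_erase hc)
      hab.symm hac.symm hbc.symm]
    exact blk_Q (hsub ha) (hsub hb) (hsub hc) hab hac hbc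
  have h3 := block_card hB
  have h0 : 0 ∈ B := by
    by_contra h0
    rw [erase_eq_of_notMem h0] at hle
    omega
  refine ⟨h0, hsub, ?_⟩
  rw [card_erase_of_mem h0] at hle ⊢
  omega

lemma block_not_antipodal {m : ℕ} {B : Finset Pt} (hB : B ∈ blocks (K m) \ lines (K m))
    (h0 : 0 ∈ B) (j : ℕ) : B.erase 0 ≠ {U j, -U j} := by
  intro h
  rw [mem_sdiff] at hB
  have h1 : U j ∈ B := mem_of_mem_erase (a := 0) (by rw [h]; simp)
  have h2 : -U j ∈ B := mem_of_mem_erase (a := 0) (by rw [h]; simp)
  have hp := U_pos j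
  have e1 : (0 : Pt) ≠ U j := by
    intro e; rw [← e] at hp; simp at hp
  have e2 : -U j ≠ (0 : Pt) := by
    intro e; apply e1; rw [neg_eq_zero] at e; exact e.symm
  have e3 : -U j ≠ U j := by
    intro e
    have : (-U j).2 = (U j).2 := by rw [e]
    simp only [Prod.snd_neg] at this
    linarith
  apply hB.2
  apply block_mem_lines hB.1 h0 h1 h2 e1 e2 e3
  simp only [cr, Prod.fst_neg, Prod.snd_neg, Prod.fst_zero, Prod.snd_zero]
  ring

theorem upper_card (m : ℕ) : (blocks (K m) \ lines (K m)).card ≤ 1 + (m.choose 2 - m / 2) := by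
  classical
  set A : Finset (Finset Pt) := (range (m / 2)).image (fun j => {U j, -U j}) with hA
  have hAcard : A.card = m / 2 := by
    rw [hA, card_image_of_injective, card_range]
    intro i j h
    simp only at h
    have : U i ∈ ({U j, -U j} : Finset Pt) := by rw [← h]; simp
    rw [mem_insert, mem_singleton] at this
    rcases this with e | e
    · exact U_inj e
    · exfalso
      have h1 := U_pos i
      have h2 := U_pos j
      have : (U i).2 = (-U j).2 := by rw [e]
      simp only [Prod.snd_neg] at this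
      linarith
  have hAsub : A ⊆ powersetCard 2 (Q m) := by
    intro s hs
    rw [hA, mem_image] at hs
    obtain ⟨j, hj, rfl⟩ := hs
    rw [mem_powersetCard]
    constructor
    · intro x hx
      rw [mem_insert, mem_singleton] at hx
      rcases hx with rfl | rfl
      · exact mem_union_left _ (mem_image_of_mem _ hj)
      · exact mem_union_right _ (mem_union_left _ (mem_image_of_mem (fun j => -U j) hj))
    · rw [card_pair]
      intro e
      have h1 := U_pos j
      have : (U j).2 = (-U j).2 := by rw [← e]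
      simp only [Prod.snd_neg] at this
      linarith
  have hcount : ((blocks (K m) \ lines (K m)).erase (Q m)).card ≤
      (powersetCard 2 (Q m) \ A).card := by
    apply card_le_card_of_injOn (fun B => B.erase 0)
    · intro B hB
      rw [mem_coe, mem_erase] at hB
      have hBb := (mem_sdiff.1 hB.2).1
      obtain ⟨h0, h1, h2⟩ := block_structure hBb hB.1
      rw [mem_coe, mem_sdiff, mem_powersetCard]
      refine ⟨⟨h1, h2⟩, ?_⟩
      rw [hA, mem_image]
      rintro ⟨j, -, hj⟩
      exact block_not_antipodal hB.2 h0 j hj.symm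
    · intro B hB B' hB' e
      rw [mem_coe, mem_erase] at hB hB'
      have h0 := (block_structure (mem_sdiff.1 hB.2).1 hB.1).1
      have h0' := (block_structure (mem_sdiff.1 hB'.2).1 hB'.1).1
      simp only at e
      rw [← insert_erase h0, ← insert_erase h0', e]
  have h2 : (powersetCard 2 (Q m) \ A).card = m.choose 2 - m / 2 := by
    rw [card_sdiff_of_subset hAsub, card_powersetCard, Q_card, hAcard]
  have h3 := pred_card_le_card_erase (s := blocks (K m) \ lines (K m)) (a := Q m)
  omega

lemma K_adm {m : ℕ} (hm : 3 ≤ m) : ∀ B ∈ blocks (K m), ∃ x ∈ K m, x ∉ B := by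
  intro B hB
  by_cases hBQ : B = Q m
  · exact ⟨0, mem_insert_self _ _, hBQ ▸ zero_notMem_Q m⟩
  · obtain ⟨h0, h1, h2⟩ := block_structure hB hBQ
    by_contra hcon
    push Not at hcon
    have : (K m).card ≤ B.card := card_le_card hcon
    rw [K_card] at this
    rw [card_erase_of_mem h0] at h2
    omega

lemma formula (n : ℕ) (hn : 2 ≤ n) :
    (n - 1).choose 2 + 1 - (n - 1) / 2 = (n - 2) ^ 2 / 2 + 1 := by
  rw [Nat.choose_two_right]
  obtain ⟨a, ha | ha⟩ : ∃ a, n = 2 * a + 2 ∨ n = 2 * a + 3 := ⟨(n - 2) / 2, by omega⟩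
  · subst ha
    have e1 : 2 * a + 2 - 1 = 2 * a + 1 := by omega
    have e2 : 2 * a + 1 - 1 = 2 * a := by omega
    have e3 : 2 * a + 2 - 2 = 2 * a := by omega
    rw [e1, e2, e3]
    have e4 : (2 * a + 1) * (2 * a) / 2 = 2 * (a * a) + a := by
      rw [show (2 * a + 1) * (2 * a) = 2 * (2 * (a * a) + a) by ring]; simp
    have e5 : (2 * a) ^ 2 / 2 = 2 * (a * a) := by
      rw [show (2 * a) ^ 2 = 2 * (2 * (a * a)) by ring]; simp
    rw [e4, e5]
    omega
  · subst ha
    have e1 : 2 * a + 3 - 1 = 2 * a + 2 := by omega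
    have e2 : 2 * a + 2 - 1 = 2 * a + 1 := by omega
    have e3 : 2 * a + 3 - 2 = 2 * a + 1 := by omega
    rw [e1, e2, e3]
    have e4 : (2 * a + 2) * (2 * a + 1) / 2 = 2 * (a * a) + 3 * a + 1 := by
      rw [show (2 * a + 2) * (2 * a + 1) = 2 * (2 * (a * a) + 3 * a + 1) by ring]; simp
    have e5 : (2 * a + 1) ^ 2 / 2 = 2 * (a * a) + 2 * a := by
      have : (2 * a + 1) ^ 2 = 2 * (2 * (a * a) + 2 * a) + 1 := by ring
      omega
    rw [e4, e5]
    omega

/-- transfer of a configuration to the Euclidean plane -/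
lemma image_phi_psi (S : Finset Pt) : (S.image psi).image phi = S := by
  rw [image_image]
  have : phi ∘ psi = id := by ext x <;> simp [phi_psi]
  rw [this, image_id]

lemma psi_inj : Function.Injective psi := fun u v e => by rw [← phi_psi u, e, phi_psi]

/-- the upper bound -/
theorem upper (n : ℕ) (hn : 4 ≤ n) : ∃ P : Finset Plane, P.card = n ∧
    Admissible (P : Set Plane) ∧ (Circles (P : Set Plane)).ncard ≤ (n - 2) ^ 2 / 2 + 1 := by
  classical
  refine ⟨(K (n - 1)).image psi, ?_, ?_, ?_⟩
  · rw [card_image_of_injective _ psi_inj, K_card]; omega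
  · rw [admissible_iff _ (by rw [card_image_of_injective _ psi_inj, K_card]; omega),
      image_phi_psi]
    exact K_adm (by omega)
  · rw [ncard_circles, image_phi_psi, ← formula n (by omega)]
    have h := upper_card (n - 1)
    have h2 : (n - 1) / 2 ≤ (n - 1).choose 2 := by
      rw [Nat.choose_two_right]
      apply Nat.div_le_div_right
      exact Nat.le_mul_of_pos_right _ (by omega)
    omega

end

end Pool.Agent.Helper543.Upper
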